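import Pool.Agent.Ind3.Targets

set_option autoImplicit false

open MeasureTheory Filter Topology Finset

namespace Pool.Agent.Ind3

open Pool.Agent.FSP

namespace PWC

theorem mean_const (N s : ℕ) (hN : N ≠ 0) (c : ℝ) : mean N s (fun _ => c) = c := by
  unfold mean
  rw [Finset.sum_const, Finset.card_range, nsmul_eq_mul]
  have : (N : ℝ) ≠ 0 := by exact_mod_cast hN
  field_simp

theorem mean_zero (s : ℕ) (f : ℕ → ℝ) : mean 0 s f = 0 := by simp [mean]

/-- The other two variables and the step of the time in the second one. -/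
theorem vars (l : Fin 3) : ∃ i j : Fin 3, i ≠ j ∧ i ≠ l ∧ j ≠ l ∧
    (∀ a b c : ℕ, tm l (fun r => if r = i then a else if r = j then b else c) =
      tm l (fun r => if r = i then a else if r = j then b else 0)) ∧
    ∀ N a : ℕ, off i * N ≤ a → a < off i * N + N → ∀ b k : ℕ, off j * N ≤ b →
      ∃ c, (c = 1 ∨ c = 2) ∧
        tm l (fun r => if r = i then a else if r = j then b + k else 0) =
          tm l (fun r => if r = i then a else if r = j then b else 0) + c * k := by
  fin_cases l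
  · refine ⟨1, 2, by decide, by decide, by decide, ?_, ?_⟩
    · intro a b c
      simp [tm]
    · intro N a h1 h2 b k h3
      refine ⟨2, Or.inr rfl, ?_⟩
      simp [tm, off] at h1 h2 h3 ⊢
      omega
  · refine ⟨0, 2, by decide, by decide, by decide, ?_, ?_⟩
    · intro a b c
      simp [tm]
    · intro N a h1 h2 b k h3
      refine ⟨1, Or.inl rfl, ?_⟩
      simp [tm, off] at h1 h2 h3 ⊢
      omega
  · refine ⟨0, 1, by decide, by decide, by decide, ?_, ?_⟩
    · intro a b c
      simp [tm]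
    · intro N a h1 h2 b k h3
      refine ⟨1, Or.inl rfl, ?_⟩
      simp [tm, off] at h1 h2 h3 ⊢
      omega

theorem upd_l {α : Type} (i j l : Fin 3) (hij : i ≠ j) (hil : i ≠ l) (hjl : j ≠ l) (a b c d : α) :
    Function.update (fun r : Fin 3 => if r = i then a else if r = j then b else d) l c =
      fun r => if r = i then a else if r = j then b else c := by
  funext r
  by_cases hr : r = l
  · subst hr
    simp [hil.symm, hjl.symm]
  · rw [Function.update_of_ne hr]
    by_cases h1 : r = i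
    · simp [h1]
    · by_cases h2 : r = j
      · simp [h2]
      · exfalso
        revert hij hil hjl hr h1 h2
        revert i j l r
        decide

theorem upd_j {α : Type} (i j : Fin 3) (hij : i ≠ j) (a b c d : α) :
    Function.update (fun r : Fin 3 => if r = i then a else if r = j then b else d) j c =
      fun r => if r = i then a else if r = j then c else d := by
  funext r
  by_cases hr : r = j
  · subst hr
    simp [hij.symm]
  · rw [Function.update_of_ne hr]
    simp [hr]

theorem pow_norm (z : Circle) (h c : ℕ) (hc : c = 1 ∨ c = 2) (ρ : ℝ) (hρ : 0 < ρ)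
    (hz : ‖(z : ℂ) ^ h - 1‖ ≤ ρ / 2) : ‖(z : ℂ) ^ (c * h) - 1‖ ≤ ρ := by
  rcases hc with rfl | rfl
  · rw [one_mul]; linarith
  · have h1 : (z : ℂ) ^ (2 * h) - 1 = ((z : ℂ) ^ h - 1) * ((z : ℂ) ^ h) + ((z : ℂ) ^ h - 1) := by
      rw [two_mul, pow_add]; ring
    rw [h1]
    have h2 : ‖((z : ℂ) ^ h - 1) * ((z : ℂ) ^ h) + ((z : ℂ) ^ h - 1)‖ ≤
        ‖((z : ℂ) ^ h - 1) * ((z : ℂ) ^ h)‖ + ‖(z : ℂ) ^ h - 1‖ := norm_add_le _ _
    rw [norm_mul, norm_pow, Circle.norm_coe, one_pow, mul_one] at h2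
    linarith

theorem card_Zs (K : ℕ) (s : Fin 3 → ℕ → Circle) : (Zs K s).card ≤ 3 * K := by
  classical
  unfold Zs
  refine (Finset.card_erase_le).trans ((Finset.card_image_le).trans ?_)
  rw [Finset.card_product, Finset.card_range]
  simp

end PWC

open Classical in
theorem p_PWC : T_PTA → T_LAU → T_LEV → T_ORD → T_PWC := by
  intro hPTA hLAU hLEV hORD m n κ Pi s hm hn hκ hSp hGo hI l q ρ τ hq hρ hτ ε hε
  obtain ⟨i, j, hij, hil, hjl, htm0, htm⟩ := PWC.vars l
  obtain ⟨hL1, hL2, -, hL4⟩ := hLEV κ n s hκ hn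
  obtain ⟨hA1, hA2⟩ := hLAU m hm
  obtain ⟨hP0, hP1, hP2⟩ := hSp
  set S : Set Circle := {z | z ≠ 1 ∧ ∃ l j, s l j = z} with hSdef
  have hm1 : (1 : ℝ) ≤ m := by exact_mod_cast hm
  have hC : (1 : ℝ) ≤ (m : ℝ) ^ 2 := one_le_pow₀ hm1
  set Z : Finset Circle := Zs (κ (n - 1)) s with hZ
  set Z0 : Finset Circle := Zl (κ (n - 1)) (s l) with hZ0
  let P : Circle → Fin 5 → ℝ := fun z => Pi fun l' => lev κ n (s l') z
  set E : Finset Circle := Z.filter fun z => z ∉ Z0 ∧ nu (P z) l ≠ 0 with hE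
  have memZ : ∀ z, z ∈ Z ↔ z ≠ 1 ∧ ∃ l', ∃ t < κ (n - 1), s l' t = z := by
    intro z
    simp only [hZ, Zs, Finset.mem_erase, Finset.mem_image, Finset.mem_product, Finset.mem_univ,
      Finset.mem_range, true_and, Prod.exists]
  have memZ0 : ∀ z, z ∈ Z0 ↔ z ≠ 1 ∧ ∃ t < κ (n - 1), s l t = z := by
    intro z
    simp only [hZ0, Zl, Finset.mem_erase, Finset.mem_image, Finset.mem_range]
  have hZS : (↑Z : Set Circle) ⊆ S := by
    intro z hz
    obtain ⟨h1, l', t, -, h2⟩ := (memZ z).1 (Finset.mem_coe.1 hz)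
    exact ⟨h1, l', t, h2⟩
  have hτS : (↑τ : Set Circle) ⊆ S := by
    intro z hz
    obtain ⟨h1, t, h2⟩ := hτ z (Finset.mem_coe.1 hz)
    exact ⟨h1, l, t, h2⟩
  have hEZ : E ⊆ Z := Finset.filter_subset _ _
  -- the hypothesis of Spec for the levels
  have hlev : ∀ z, ∀ l' : Fin 3, lev κ n (s l') z ≤ n := fun z l' => hL1 l' z
  have hlev2 : ∀ z, ∀ l1 l2 : Fin 3, lev κ n (s l1) z + 2 ≤ n → lev κ n (s l2) z < n →
      lev κ n (s l2) z ≤ lev κ n (s l1) z + 1 := by
    intro z l1 l2 h1 h2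
    obtain ⟨t, -, ht⟩ := (hL2 l2 z).1 h2
    exact hL4 hGo l1 l2 z h1 ⟨t, ht⟩
  have hEd : Disjoint E τ := by
    rw [Finset.disjoint_left]
    intro z hz hzt
    obtain ⟨h1, h2, h3⟩ := Finset.mem_filter.1 hz
    obtain ⟨hz1, t, ht⟩ := hτ z hzt
    have hn' : lev κ n (s l) z = n := by
      by_contra hne
      have hlt : lev κ n (s l) z < n := lt_of_le_of_ne (hL1 l z) hne
      obtain ⟨t', ht', ht''⟩ := (hL2 l z).1 hlt
      exact h2 ((memZ0 z).2 ⟨hz1, t', ht', ht''⟩)
    obtain ⟨l', hl'⟩ := (hP2 (fun l' => lev κ n (s l') z) (hlev z) (hlev2 z) l).2 hn' h3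
    have := hL4 hGo l' l z hl' ⟨t, ht⟩
    have h5 : lev κ n (s l') z + 2 ≤ n := hl'
    omega
  obtain ⟨N₀, hN₀⟩ := hPTA S hI m ((m : ℝ) ^ 2) hC Z E τ hZS hEZ hτS hEd q (ρ / 2) hq
    (by positivity) ε hε
  refine ⟨N₀, fun N hN φ ε' hε' hφ => ?_⟩
  let Φ : ℕ → ℕ → ℝ := fun a b => φ (tm l (fun r => if r = i then a else if r = j then b else 0))
  let K : Circle → Circle → Circle → Circle → ℝ := fun z wa wb wc =>
    DD m (P z) (fun r => if r = i then wa else if r = j then wb else wc)
  let K' : Circle → Circle → Circle → ℝ := fun z wa wb =>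
    nu (P z) l * kap m l (fun r => if r = i then wa else if r = j then wb else 1)
      + (1 - nu (P z) l)
  have hnu : ∀ z, 0 ≤ nu (P z) l ∧ nu (P z) l ≤ 1 := by
    intro z
    have := hA1 (P z) (hP0 _) (hP1 _) l (fun _ => 1)
    exact ⟨this.2.2.2.1, this.2.2.2.2⟩
  have hΦ : ∀ a, off i * N ≤ a → a < off i * N + N →
      PP q (ρ / 2) τ ε' (off j * N) (Φ a) := by
    intro a ha1 ha2
    refine ⟨fun y => hφ.1 _, ?_⟩
    intro b h hb hz
    obtain ⟨c, hc, hceq⟩ := htm N a ha1 ha2 b (q * h) hb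
    simp only [Φ]
    rw [hceq, show c * (q * h) = q * (c * h) by ring]
    refine hφ.2 _ (c * h) (Nat.zero_le _) ?_
    intro z hz'
    exact PWC.pow_norm z h c hc ρ hρ (hz z hz')
  have hK : ∀ z ∈ Z, ∀ wa wb, Lau m ((m : ℝ) ^ 2) (K z wa wb) (K' z wa wb) := by
    intro z _ wa wb
    have := (hA1 (P z) (hP0 _) (hP1 _) l
      (fun r => if r = i then wa else if r = j then wb else 1)).1
    simp only [PWC.upd_l i j l hij hil hjl] at this
    exact this
  have hK' : ∀ z ∈ Z, ∀ wa, Lau m ((m : ℝ) ^ 2) (K' z wa) 1 := by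
    intro z _ wa
    have := (hA2 l (fun r => if r = i then wa else if r = j then 1 else 1)).2.2.2
      (nu (P z) l) (hnu z).1 (hnu z).2 j hjl
    simp only [PWC.upd_j i j hij] at this
    exact this
  have key := hN₀ N hN (off i * N) (off j * N) (off l * N) Φ ε' hε' hΦ K K' hK hK'
  -- the two sides
  have hWf : ∀ a b c : ℕ, Wf m n κ Pi s (fun r => if r = i then a else if r = j then b else c) =
      ∏ z ∈ Z, K z (z ^ a) (z ^ b) (z ^ c) := by
    intro a b c
    unfold Wf
    refine Finset.prod_congr rfl fun z _ => ?_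
    have hfun : (fun r => z ^ (if r = i then a else if r = j then b else c) : Fin 3 → Circle) =
        fun r => if r = i then z ^ a else if r = j then z ^ b else z ^ c := by
      funext r
      split_ifs <;> rfl
    exact congrArg (DD m (P z)) hfun
  have e1 : avg3 N (fun y => Wf m n κ Pi s y * φ (tm l y)) =
      mean N (off i * N) (fun a => mean N (off j * N) fun b => mean N (off l * N) fun c =>
        (∏ z ∈ Z, K z (z ^ a) (z ^ b) (z ^ c)) * Φ a b) := by
    rw [hORD N _ i j l hij hil hjl]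
    have h0 : ∀ a b c : ℕ,
        Wf m n κ Pi s (fun r => if r = i then a else if r = j then b else c) *
          φ (tm l (fun r => if r = i then a else if r = j then b else c)) =
        (∏ z ∈ Z, K z (z ^ a) (z ^ b) (z ^ c)) * Φ a b := by
      intro a b c
      rw [hWf a b c, htm0 a b c]
    simp only [h0]
  have hprod : ∀ a b c : ℕ, (∏ z ∈ Z \ E, K' z (z ^ a) (z ^ b)) =
      Wl m n κ l (s l) (fun r => if r = i then a else if r = j then b else c) := by
    intro a b c
    unfold Wl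
    symm
    have hsub : Z0 ⊆ Z \ E := by
      intro z hz
      obtain ⟨h1, t, ht, h2⟩ := (memZ0 z).1 hz
      refine Finset.mem_sdiff.2 ⟨(memZ z).2 ⟨h1, l, t, ht, h2⟩, ?_⟩
      intro hzE
      exact (Finset.mem_filter.1 hzE).2.1 hz
    rw [← Finset.prod_subset hsub (f := fun z => K' z (z ^ a) (z ^ b))]
    · refine Finset.prod_congr rfl fun z hz => ?_
      obtain ⟨h1, t, ht, h2⟩ := (memZ0 z).1 hz
      have hlt : lev κ n (s l) z < n := (hL2 l z).2 ⟨t, ht, h2⟩
      have hnuz : nu (P z) l = 1 - ee n (lev κ n (s l) z) :=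
        (hP2 (fun l' => lev κ n (s l') z) (hlev z) (hlev2 z) l).1 hlt
      simp only [K']
      rw [hnuz]
      have hk := (hA2 l (fun r => if r = i then z ^ a else if r = j then z ^ b else 1)).2.2.1
        (z ^ c)
      rw [PWC.upd_l i j l hij hil hjl] at hk
      rw [← hk]
      have hfun : (fun r => z ^ (if r = i then a else if r = j then b else c) : Fin 3 → Circle) =
          fun r => if r = i then z ^ a else if r = j then z ^ b else z ^ c := by
        funext r
        split_ifs <;> rfl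
      rw [hfun]
      ring
    · intro z hz hz0
      obtain ⟨h1, h2⟩ := Finset.mem_sdiff.1 hz
      have h3 : nu (P z) l = 0 := by
        by_contra h
        exact h2 (Finset.mem_filter.2 ⟨h1, hz0, h⟩)
      simp only [K']
      rw [h3]; ring
  have e2 : avg3 N (fun y => Wl m n κ l (s l) y * φ (tm l y)) =
      mean N (off i * N) (fun a => mean N (off j * N) fun b =>
        (∏ z ∈ Z \ E, K' z (z ^ a) (z ^ b)) * Φ a b) := by
    rw [hORD N _ i j l hij hil hjl]
    by_cases hN0 : N = 0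
    · subst hN0
      rw [PWC.mean_zero, PWC.mean_zero]
    · have h0 : ∀ a b c : ℕ,
          Wl m n κ l (s l) (fun r => if r = i then a else if r = j then b else c) *
            φ (tm l (fun r => if r = i then a else if r = j then b else c)) =
          (∏ z ∈ Z \ E, K' z (z ^ a) (z ^ b)) * Φ a b := by
        intro a b c
        rw [hprod a b c, htm0 a b c]
      simp only [h0, PWC.mean_const N (off l * N) hN0]
  have hcard : Z.card ≤ 3 * κ (n - 1) := PWC.card_Zs _ _
  have hbase : (1 : ℝ) ≤ (2 * m + 1) * (m : ℝ) ^ 2 := by nlinarith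
  have hCC : (Z.card : ℝ) * ((2 * m + 1) * (m : ℝ) ^ 2) ^ Z.card ≤ CC m (3 * κ (n - 1)) := by
    unfold CC
    have h1 : (Z.card : ℝ) ≤ ((3 * κ (n - 1) : ℕ) : ℝ) := by exact_mod_cast hcard
    exact mul_le_mul h1 (pow_le_pow_right₀ hbase hcard) (by positivity) (by positivity)
  have hee : 0 ≤ ε' + ε := by linarith
  have h1 := (abs_le.1 key).2
  rw [e1, e2]
  have h2 : (Z.card : ℝ) * ((2 * m + 1) * (m : ℝ) ^ 2) ^ Z.card * (ε' + ε) ≤
      CC m (3 * κ (n - 1)) * (ε' + ε) := mul_le_mul_of_nonneg_right hCC hee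
  linarith

end Pool.Agent.Ind3
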