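import Pool.Agent.Ind3.Targets

/-!
# Ind3: the function `g` does not contribute to the triple averages (GTW)
-/

set_option autoImplicit false

open MeasureTheory Filter Topology Finset

namespace Pool.Agent.Ind3

open Pool.Agent.FSP

universe u

namespace GTW_

theorem mean_congr {N s : ℕ} {f g : ℕ → ℝ} (h : ∀ n, s ≤ n → n < s + N → f n = g n) :
    mean N s f = mean N s g := by
  unfold mean
  congr 1
  exact sum_congr rfl fun n hn => h _ (by omega) (by have := mem_range.1 hn; omega)

theorem mean_mono {N s : ℕ} {f g : ℕ → ℝ} (h : ∀ n, f n ≤ g n) :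
    mean N s f ≤ mean N s g := by
  unfold mean
  exact mul_le_mul_of_nonneg_left (sum_le_sum fun n _ => h _) (by positivity)

theorem mean_le {N s : ℕ} {f : ℕ → ℝ} {C : ℝ} (hC : 0 ≤ C) (h : ∀ n, f n ≤ C) :
    mean N s f ≤ C := by
  unfold mean
  rcases Nat.eq_zero_or_pos N with h0 | h0
  · subst h0
    simpa using hC
  · calc (N : ℝ)⁻¹ * ∑ n ∈ range N, f (s + n) ≤ (N : ℝ)⁻¹ * ∑ n ∈ range N, C :=
          mul_le_mul_of_nonneg_left (sum_le_sum fun n _ => h _) (by positivity)
      _ = C := by
          rw [sum_const, card_range, nsmul_eq_mul]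
          field_simp

theorem abs_mean {N s : ℕ} {f : ℕ → ℝ} : |mean N s f| ≤ mean N s fun n => |f n| := by
  unfold mean
  rw [abs_mul, abs_of_nonneg (by positivity : (0 : ℝ) ≤ (N : ℝ)⁻¹)]
  exact mul_le_mul_of_nonneg_left (abs_sum_le_sum_abs _ _) (by positivity)

theorem abs_mean_le {N s : ℕ} {f : ℕ → ℝ} {C : ℝ} (hC : 0 ≤ C) (h : ∀ n, |f n| ≤ C) :
    |mean N s f| ≤ C :=
  abs_mean.trans (mean_le hC h)

theorem mean_mul {N s : ℕ} {f : ℕ → ℝ} (c : ℝ) :
    (mean N s fun n => c * f n) = c * mean N s f := by
  unfold mean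
  rw [← mul_sum]
  ring

theorem mean_sum {ι : Type} (S : Finset ι) {N s : ℕ} {f : ι → ℕ → ℝ} :
    (mean N s fun n => ∑ k ∈ S, f k n) = ∑ k ∈ S, mean N s (f k) := by
  unfold mean
  rw [sum_comm, mul_sum]

theorem mean_meas {Ω : Type u} [MeasurableSpace Ω] {N s : ℕ} {f : ℕ → Ω → ℝ}
    (h : ∀ n, Measurable (f n)) : Measurable fun x => mean N s fun n => f n x := by
  unfold mean
  exact (Finset.measurable_sum _ fun n _ => h _).const_mul _

theorem mean_integral {Ω : Type u} [MeasurableSpace Ω] {μ : Measure Ω} {N s : ℕ}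
    {f : ℕ → Ω → ℝ} (h : ∀ n, Integrable (f n) μ) :
    ∫ x, (mean N s fun n => f n x) ∂μ = mean N s fun n => ∫ x, f n x ∂μ := by
  unfold mean
  rw [integral_const_mul, integral_finsetSum _ fun n _ => h _]

theorem mean_integrable {Ω : Type u} [MeasurableSpace Ω] {μ : Measure Ω} {N s : ℕ}
    {f : ℕ → Ω → ℝ} (h : ∀ n, Integrable (f n) μ) :
    Integrable (fun x => mean N s fun n => f n x) μ := by
  unfold mean
  exact (integrable_finsetSum _ fun n _ => h _).const_mul _

theorem prod_three (l j i : Fin 3) (h1 : l ≠ j) (h2 : l ≠ i) (h3 : j ≠ i) (f : Fin 3 → ℝ) :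
    ∏ r, f r = f l * (f j * f i) := by
  have h : (univ : Finset (Fin 3)) = {l, j, i} := by
    revert l j i
    decide
  rw [h, prod_insert, prod_insert, prod_singleton]
  · simpa using h3
  · simp [h1, h2]

theorem cases_three (l j i r : Fin 3) (h1 : l ≠ j) (h2 : l ≠ i) (h3 : j ≠ i) :
    r = l ∨ r = j ∨ r = i := by
  revert l j i r
  decide

theorem sv_meas {Ω : Type u} [MeasurableSpace Ω] (θ : Fin 3 → ℕ → Ω → Circle)
    (hθ : ∀ l j, Measurable (θ l j)) : Measurable (sv θ) :=
  measurable_pi_iff.2 fun l => measurable_pi_iff.2 fun j => hθ l j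

end GTW_

open GTW_ in
theorem p_GTW : T_REP → T_ORD → T_GTW.{u} := by
  intro hREP hORD Ω _ μ _ m n κ Pi hm hPi θ hθ q hq Q B P hQ hB hP l i j hli hlj hij g hg hg1
    hmv hGV ε hε
  obtain ⟨K, A, C, hAm, hAC, hA⟩ := hREP m n κ Pi hm hPi
  set D : ℝ := |C| with hD
  have hD0 : 0 ≤ D := abs_nonneg _
  have hAD : ∀ k r s y, |A k r s y| ≤ D := fun k r s y => (hAC k r s y).trans (le_abs_self C)
  have hpos : 0 < (K : ℝ) * D + 1 := by positivity
  obtain ⟨H, hH, L₀, hL₀⟩ := hGV q D (ε / (K * D + 1)) hq (div_pos hε hpos)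
  refine ⟨H, hH, L₀, fun L hL u v hu hv hu1 hv1 => ?_⟩
  have hsv := sv_meas θ hθ
  have hmA : ∀ k r y, Measurable fun x => A k r (sv θ x) y := fun k r y => (hAm k r y).comp hsv
  -- the double means
  set Φ : Fin K → ℕ → Ω → ℝ := fun k a x =>
    |mean (H * L) (off j * (H * L)) fun b => mean (H * L) (off i * (H * L)) fun c =>
      (A k i (sv θ x) c * u a c x) * (A k j (sv θ x) b * v a b x) *
        g (B^[q * c] (P^[q * b] x))| with hΦ
  have hΦm : ∀ k a, Measurable (Φ k a) := by
    intro k a
    refine Measurable.abs ?_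
    refine mean_meas fun b => mean_meas fun c => ?_
    exact (((hmA k i c).mul (hu a c)).mul ((hmA k j b).mul (hv a b))).mul
      (hg.comp ((hB.iterate _).comp (hP.iterate _)))
  have hab : ∀ k r s y (t : ℝ), |t| ≤ 1 → |A k r s y * t| ≤ D := by
    intro k r s y t ht
    rw [abs_mul]
    calc |A k r s y| * |t| ≤ D * 1 := mul_le_mul (hAD k r s y) ht (abs_nonneg _) hD0
      _ = D := mul_one _
  have hΦb : ∀ k a x, |Φ k a x| ≤ D * D := by
    intro k a x
    rw [hΦ, abs_abs]
    refine abs_mean_le (by positivity) fun b => abs_mean_le (by positivity) fun c => ?_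
    rw [abs_mul, abs_mul]
    calc |A k i (sv θ x) c * u a c x| * |A k j (sv θ x) b * v a b x| *
          |g (B^[q * c] (P^[q * b] x))| ≤ (D * D) * 1 := by
            refine mul_le_mul (mul_le_mul (hab _ _ _ _ _ (hu1 a c x)) (hab _ _ _ _ _ (hv1 a b x))
              (abs_nonneg _) hD0) (hg1 _) (abs_nonneg _) (by positivity)
      _ = D * D := mul_one _
  have hΦi : ∀ k a, Integrable (Φ k a) μ := fun k a =>
    Integrable.of_bound (hΦm k a).aestronglyMeasurable (D * D)
      (Eventually.of_forall fun x => by rw [Real.norm_eq_abs]; exact hΦb k a x)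
  have hΦe : ∀ k a, ∫ x, Φ k a x ∂μ ≤ ε / (K * D + 1) := by
    intro k a
    exact hL₀ L hL (off i * (H * L)) (off j * (H * L)) (fun c x => A k i (sv θ x) c * u a c x)
      (fun b x => A k j (sv θ x) b * v a b x) (fun c => (hmA k i c).mul (hu a c))
      (fun b => (hmA k j b).mul (hv a b)) (fun c x => hab _ _ _ _ _ (hu1 a c x))
      (fun b x => hab _ _ _ _ _ (hv1 a b x))
  -- pointwise
  have hpt : ∀ x, |avg3 (H * L) fun y => Wf m n κ Pi (sv θ x) y *
      (u (y l) (y i) x * v (y l) (y j) x * g (Q^[q * tm l y] x))| ≤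
      ∑ k, mean (H * L) (off l * (H * L)) fun a => D * Φ k a x := by
    intro x
    rw [hORD (H * L) _ l j i hlj hli (Ne.symm hij)]
    have h1 : (mean (H * L) (off l * (H * L)) fun a => mean (H * L) (off j * (H * L)) fun b =>
        mean (H * L) (off i * (H * L)) fun c =>
          Wf m n κ Pi (sv θ x) (fun r => if r = l then a else if r = j then b else c) *
          (u ((fun r => if r = l then a else if r = j then b else c) l)
            ((fun r => if r = l then a else if r = j then b else c) i) x *
          v ((fun r => if r = l then a else if r = j then b else c) l)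
            ((fun r => if r = l then a else if r = j then b else c) j) x *
          g (Q^[q * tm l (fun r => if r = l then a else if r = j then b else c)] x))) =
        ∑ k, mean (H * L) (off l * (H * L)) fun a => A k l (sv θ x) a *
          mean (H * L) (off j * (H * L)) fun b => mean (H * L) (off i * (H * L)) fun c =>
          (A k i (sv θ x) c * u a c x) * (A k j (sv θ x) b * v a b x) *
          g (B^[q * c] (P^[q * b] x)) := by
      rw [← mean_sum]
      refine mean_congr fun a ha1 ha2 => ?_
      have h2 : ∀ k, A k l (sv θ x) a * (mean (H * L) (off j * (H * L)) fun b =>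
          mean (H * L) (off i * (H * L)) fun c =>
          (A k i (sv θ x) c * u a c x) * (A k j (sv θ x) b * v a b x) *
          g (B^[q * c] (P^[q * b] x))) = mean (H * L) (off j * (H * L)) fun b =>
          mean (H * L) (off i * (H * L)) fun c => A k l (sv θ x) a *
          ((A k i (sv θ x) c * u a c x) * (A k j (sv θ x) b * v a b x) *
          g (B^[q * c] (P^[q * b] x))) := by
        intro k
        rw [← mean_mul]
        refine mean_congr fun b _ _ => ?_
        rw [← mean_mul]
      rw [sum_congr rfl fun k _ => h2 k, ← mean_sum]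
      refine mean_congr fun b hb1 hb2 => ?_
      rw [← mean_sum]
      refine mean_congr fun c hc1 hc2 => ?_
      have hyl : (fun r => if r = l then a else if r = j then b else c) l = a := by simp
      have hyj : (fun r => if r = l then a else if r = j then b else c) j = b := by
        simp [Ne.symm hlj]
      have hyi : (fun r => if r = l then a else if r = j then b else c) i = c := by
        simp [Ne.symm hli, hij]
      set y : Fin 3 → ℕ := fun r => if r = l then a else if r = j then b else c with hy
      have hw : ∀ r : Fin 3, off r * (H * L) ≤ y r ∧ y r < off r * (H * L) + H * L := by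
        intro r
        have h3 : r = l ∨ r = j ∨ r = i := cases_three l j i r hlj hli (Ne.symm hij)
        rcases h3 with h3 | h3 | h3
        · rw [h3, hyl]
          exact ⟨ha1, ha2⟩
        · rw [h3, hyj]
          exact ⟨hb1, hb2⟩
        · rw [h3, hyi]
          exact ⟨hc1, hc2⟩
      have h4 : y 1 ≤ 2 * y 2 := by
        have h5 := hw 1
        have h6 := hw 2
        simp only [off, Matrix.cons_val_one, Matrix.cons_val] at h5 h6
        omega
      rw [hyl, hyj, hyi, hmv y h4 x, hyi, hyj, hA, sum_mul]
      refine sum_congr rfl fun k _ => ?_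
      rw [prod_three l j i hlj hli (Ne.symm hij), hyl, hyj, hyi]
      ring
    rw [h1]
    refine (abs_sum_le_sum_abs _ _).trans (sum_le_sum fun k _ => ?_)
    refine abs_mean.trans (mean_mono fun a => ?_)
    rw [abs_mul]
    exact mul_le_mul_of_nonneg_right (hAD _ _ _ _) (abs_nonneg _)
  calc ∫ x, |avg3 (H * L) fun y => Wf m n κ Pi (sv θ x) y *
        (u (y l) (y i) x * v (y l) (y j) x * g (Q^[q * tm l y] x))| ∂μ
      ≤ ∫ x, ∑ k, mean (H * L) (off l * (H * L)) (fun a => D * Φ k a x) ∂μ :=
        integral_mono_of_nonneg (Eventually.of_forall fun x => abs_nonneg _)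
          (integrable_finsetSum _ fun k _ => mean_integrable fun a => (hΦi k a).const_mul D)
          (Eventually.of_forall hpt)
    _ = ∑ k, mean (H * L) (off l * (H * L)) fun a => D * ∫ x, Φ k a x ∂μ := by
        rw [integral_finsetSum _ fun k _ => mean_integrable fun a => (hΦi k a).const_mul D]
        refine sum_congr rfl fun k _ => ?_
        rw [mean_integral fun a => (hΦi k a).const_mul D]
        refine mean_congr fun a _ _ => ?_
        rw [integral_const_mul]
    _ ≤ ∑ k : Fin K, D * (ε / (K * D + 1)) :=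
        sum_le_sum fun k _ => mean_le (by positivity) fun a =>
          mul_le_mul_of_nonneg_left (hΦe k a) hD0
    _ = (K * D) / (K * D + 1) * ε := by
        rw [sum_const, card_univ, Fintype.card_fin, nsmul_eq_mul]
        ring
    _ ≤ 1 * ε := by
        refine mul_le_mul_of_nonneg_right ?_ hε.le
        rw [div_le_one hpos]
        linarith
    _ = ε := one_mul _

end Pool.Agent.Ind3
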