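import Pool.Agent.Ind3.Targets
import Pool.Agent.FSP.P_KKB

set_option autoImplicit false

/-!
# TAI: the kernel of a role is small off the Bohr set
-/

open MeasureTheory Filter Topology Finset

namespace Pool.Agent.Ind3

open Pool.Agent.FSP

namespace TAI_

theorem c_mul (x y : Circle) :
    ‖((x * y : Circle) : ℂ) - 1‖ ≤ ‖(x : ℂ) - 1‖ + ‖(y : ℂ) - 1‖ := by
  have e : ((x * y : Circle) : ℂ) - 1 = ((x : ℂ) - 1) + x * ((y : ℂ) - 1) := by
    rw [Circle.coe_mul]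
    ring
  rw [e]
  refine (norm_add_le _ _).trans ?_
  rw [norm_mul, Circle.norm_coe, one_mul]

theorem c_inv (x : Circle) : ‖((x⁻¹ : Circle) : ℂ) - 1‖ = ‖(x : ℂ) - 1‖ := by
  have hx : (x : ℂ) ≠ 0 := by
    intro h
    have := Circle.norm_coe x
    rw [h] at this
    simp at this
  have e : ((x⁻¹ : Circle) : ℂ) - 1 = -((x⁻¹ : Circle) : ℂ) * ((x : ℂ) - 1) := by
    rw [Circle.coe_inv]
    field_simp
    ring
  rw [e, norm_mul, norm_neg, Circle.norm_coe, one_mul]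

theorem key (m : ℕ) (u v : Circle) (ρ : ℝ) (hρ : 0 < ρ)
    (h : ρ / 3 < ‖(u : ℂ) - 1‖ ∨ ρ / 3 < ‖(v : ℂ) - 1‖) :
    kk m u * kk m v ≤ 36 / (m * ρ ^ 2) * (kk m u + kk m v) := by
  obtain ⟨h1, h2, -, -⟩ := p_KKB
  have hs : ∀ z : Circle, ρ / 3 < ‖(z : ℂ) - 1‖ → kk m z ≤ 36 / (m * ρ ^ 2) := by
    intro z hz
    have h3 := h2 m z
    have h4 : (ρ / 3) ^ 2 ≤ ‖(z : ℂ) - 1‖ ^ 2 := pow_le_pow_left₀ (by positivity) hz.le 2
    have h5 : kk m z * (ρ / 3) ^ 2 ≤ 4 / m :=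
      (mul_le_mul_of_nonneg_left h4 (h1 m z).1).trans h3
    calc kk m z = kk m z * (ρ / 3) ^ 2 / (ρ / 3) ^ 2 := by field_simp
      _ ≤ 4 / m / (ρ / 3) ^ 2 := by gcongr
      _ = 36 / (m * ρ ^ 2) := by
          rcases Nat.eq_zero_or_pos m with h | h
          · subst h
            simp
          · have : (m : ℝ) ≠ 0 := by positivity
            field_simp
            norm_num
  have hu := (h1 m u).1
  have hv := (h1 m v).1
  have hc : 0 ≤ 36 / (m * ρ ^ 2) := by positivity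
  rw [mul_add]
  rcases h with h | h
  · have := mul_le_mul_of_nonneg_right (hs u h) hv
    have := mul_nonneg hc hu
    linarith
  · have := mul_le_mul_of_nonneg_left (hs v h) hu
    have := mul_nonneg hc hv
    linarith

theorem fin (hK : T_KFL) (m : ℕ) (hm : 1 ≤ m) (l i j : Fin 3) (w : Fin 3 → Circle) (ρ : ℝ)
    (hρ : 0 < ρ)
    (hp : ∀ t, ∏ k : Fin 3, (if k ≠ l then kf m k t (w k) else 1) =
      kf m i t (w i) * kf m j t (w j))
    (h : ∀ t, ρ / 3 < ‖((w i * rt m t ^ ex i : Circle) : ℂ) - 1‖ ∨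
      ρ / 3 < ‖((w j * rt m t ^ ex j : Circle) : ℂ) - 1‖) :
    kap m l w ≤ 72 / (m * ρ ^ 2) := by
  unfold kap
  simp_rw [hp]
  have hi := (hK m hm i).2.2 (w i)
  have hj := (hK m hm j).2.2 (w j)
  have h2m : 0 ≤ (2 * (m : ℝ))⁻¹ := by positivity
  calc (2 * (m : ℝ))⁻¹ * ∑ t ∈ range (2 * m), kf m i t (w i) * kf m j t (w j)
      ≤ (2 * (m : ℝ))⁻¹ * ∑ t ∈ range (2 * m),
          36 / (m * ρ ^ 2) * (kf m i t (w i) + kf m j t (w j)) := by
        refine mul_le_mul_of_nonneg_left (sum_le_sum fun t _ => ?_) h2m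
        exact key m _ _ ρ hρ (h t)
    _ = 36 / (m * ρ ^ 2) * ((2 * (m : ℝ))⁻¹ * ∑ t ∈ range (2 * m), kf m i t (w i) +
          (2 * (m : ℝ))⁻¹ * ∑ t ∈ range (2 * m), kf m j t (w j)) := by
        rw [← mul_sum, sum_add_distrib]
        ring
    _ = 36 / (m * ρ ^ 2) * (1 + 1) := by rw [hi, hj]
    _ = 72 / (m * ρ ^ 2) := by ring

end TAI_

open TAI_ in
theorem p_TAI (hK : T_KFL) : T_TAI := by
  intro m hm l w ρ hρ h
  have e0 : ex 0 = -1 := rfl
  have e1 : ex 1 = 2 := rfl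
  have e2 : ex 2 = 1 := rfl
  fin_cases l
  · -- role `0`: variables `1`, `2`
    refine fin hK m hm 0 1 2 w ρ hρ (fun t => ?_) (fun t => ?_)
    · rw [Fin.prod_univ_three]
      simp
    · by_contra hc
      push Not at hc
      obtain ⟨h1, h2⟩ := hc
      have e : cmb 0 w = (w 2 * rt m t ^ ex 2) * (w 2 * rt m t ^ ex 2) *
          (w 1 * rt m t ^ ex 1)⁻¹ := by
        rw [e1, e2]
        change w 2 ^ 2 * (w 1)⁻¹ = _
        rw [mul_inv]
        have : rt m t ^ (1 : ℤ) * rt m t ^ (1 : ℤ) * (rt m t ^ (2 : ℤ))⁻¹ = 1 := by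
          rw [← zpow_add, show (1 : ℤ) + 1 = 2 by norm_num, mul_inv_cancel]
        calc w 2 ^ 2 * (w 1)⁻¹ = w 2 ^ 2 * (w 1)⁻¹ *
              (rt m t ^ (1 : ℤ) * rt m t ^ (1 : ℤ) * (rt m t ^ (2 : ℤ))⁻¹) := by
                rw [this, mul_one]
          _ = _ := by
            rw [pow_two]
            ac_rfl
      have h3 := c_mul ((w 2 * rt m t ^ ex 2) * (w 2 * rt m t ^ ex 2)) (w 1 * rt m t ^ ex 1)⁻¹
      have h4 := c_mul (w 2 * rt m t ^ ex 2) (w 2 * rt m t ^ ex 2)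
      rw [c_inv, ← e] at h3
      have h' : ρ < ‖(cmb 0 w : ℂ) - 1‖ := h
      linarith
  · refine fin hK m hm 1 0 2 w ρ hρ (fun t => ?_) (fun t => ?_)
    · rw [Fin.prod_univ_three]
      simp
    · by_contra hc
      push Not at hc
      obtain ⟨h1, h2⟩ := hc
      have e : cmb 1 w = (w 0 * rt m t ^ ex 0) * (w 2 * rt m t ^ ex 2) := by
        rw [e0, e2]
        change w 0 * w 2 = _
        have : rt m t ^ (-1 : ℤ) * rt m t ^ (1 : ℤ) = 1 := by
          rw [← zpow_add, show (-1 : ℤ) + 1 = 0 by norm_num, zpow_zero]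
        calc w 0 * w 2 = w 0 * w 2 * (rt m t ^ (-1 : ℤ) * rt m t ^ (1 : ℤ)) := by
                rw [this, mul_one]
          _ = _ := by ac_rfl
      have h3 := c_mul (w 0 * rt m t ^ ex 0) (w 2 * rt m t ^ ex 2)
      rw [← e] at h3
      have h' : ρ < ‖(cmb 1 w : ℂ) - 1‖ := h
      linarith
  · refine fin hK m hm 2 0 1 w ρ hρ (fun t => ?_) (fun t => ?_)
    · rw [Fin.prod_univ_three]
      simp
    · by_contra hc
      push Not at hc
      obtain ⟨h1, h2⟩ := hc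
      have e : cmb 2 w = (w 0 * rt m t ^ ex 0) * (w 0 * rt m t ^ ex 0) *
          (w 1 * rt m t ^ ex 1) := by
        rw [e0, e1]
        change w 0 ^ 2 * w 1 = _
        have : rt m t ^ (-1 : ℤ) * rt m t ^ (-1 : ℤ) * rt m t ^ (2 : ℤ) = 1 := by
          rw [← zpow_add, ← zpow_add, show (-1 : ℤ) + -1 + 2 = 0 by norm_num, zpow_zero]
        calc w 0 ^ 2 * w 1 = w 0 ^ 2 * w 1 *
              (rt m t ^ (-1 : ℤ) * rt m t ^ (-1 : ℤ) * rt m t ^ (2 : ℤ)) := by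
                rw [this, mul_one]
          _ = _ := by
            rw [pow_two]
            ac_rfl
      have h3 := c_mul ((w 0 * rt m t ^ ex 0) * (w 0 * rt m t ^ ex 0)) (w 1 * rt m t ^ ex 1)
      have h4 := c_mul (w 0 * rt m t ^ ex 0) (w 0 * rt m t ^ ex 0)
      rw [← e] at h3
      have h' : ρ < ‖(cmb 2 w : ℂ) - 1‖ := h
      linarith

end Pool.Agent.Ind3
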