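import Pool.Agent.Ind3.Targets

set_option autoImplicit false

/-!
# Ind3-ERA: the error at the moved point
-/

open MeasureTheory Filter Topology Finset

namespace Pool.Agent.Ind3

open Pool.Agent.FSP

universe u

/-! ### Elementary facts on the means -/

theorem ERA_mean_mono {N s : ℕ} {f g : ℕ → ℝ} (h : ∀ n, f n ≤ g n) : mean N s f ≤ mean N s g := by
  unfold mean
  exact mul_le_mul_of_nonneg_left (Finset.sum_le_sum fun n _ => h _) (by positivity)

theorem ERA_mean_add (N s : ℕ) (f g : ℕ → ℝ) :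
    mean N s (fun n => f n + g n) = mean N s f + mean N s g := by
  unfold mean
  rw [Finset.sum_add_distrib, mul_add]

theorem ERA_mean_mul (N s : ℕ) (c : ℝ) (f : ℕ → ℝ) :
    mean N s (fun n => c * f n) = c * mean N s f := by
  unfold mean
  rw [← Finset.mul_sum]
  ring

theorem ERA_mean_const (N s : ℕ) (c : ℝ) (hc : 0 ≤ c) : mean N s (fun _ => c) ≤ c := by
  unfold mean
  rw [Finset.sum_const, Finset.card_range, nsmul_eq_mul, ← mul_assoc]
  by_cases hN : (N : ℝ) = 0
  · rw [hN]; simpa using hc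
  · rw [inv_mul_cancel₀ hN, one_mul]

theorem ERA_avg_mono {N : ℕ} {F F' : (Fin 3 → ℕ) → ℝ} (h : ∀ y, F y ≤ F' y) :
    avg3 N F ≤ avg3 N F' :=
  ERA_mean_mono fun _ => ERA_mean_mono fun _ => ERA_mean_mono fun _ => h _

theorem ERA_avg_add (N : ℕ) (F F' : (Fin 3 → ℕ) → ℝ) :
    avg3 N (fun y => F y + F' y) = avg3 N F + avg3 N F' := by
  unfold avg3
  simp only [ERA_mean_add]

theorem ERA_avg_mul (N : ℕ) (c : ℝ) (F : (Fin 3 → ℕ) → ℝ) :
    avg3 N (fun y => c * F y) = c * avg3 N F := by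
  unfold avg3
  simp only [ERA_mean_mul]

theorem ERA_avg_const (N : ℕ) (c : ℝ) (hc : 0 ≤ c) : avg3 N (fun _ => c) ≤ c := by
  unfold avg3
  refine le_trans (ERA_mean_mono fun a => le_trans (ERA_mean_mono fun b =>
    ERA_mean_const N (3 * N) c hc) (ERA_mean_const N 0 c hc)) (ERA_mean_const N N c hc)

theorem ERA_avg_nonneg {N : ℕ} {F : (Fin 3 → ℕ) → ℝ} (h : ∀ y, 0 ≤ F y) : 0 ≤ avg3 N F := by
  have h1 : avg3 N (fun y => 0 * F y) ≤ avg3 N F := ERA_avg_mono fun y => by
    rw [zero_mul]; exact h y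
  rw [ERA_avg_mul, zero_mul] at h1
  exact h1

theorem ERA_avg_le {N : ℕ} {F : (Fin 3 → ℕ) → ℝ} {B : ℝ} (hB : 0 ≤ B) (h : ∀ y, F y ≤ B) :
    avg3 N F ≤ B :=
  le_trans (ERA_avg_mono h) (ERA_avg_const N B hB)

section

variable {Ω : Type u} [MeasurableSpace Ω]

theorem ERA_mean_meas (N s : ℕ) (F : ℕ → Ω → ℝ) (hF : ∀ n, Measurable (F n)) :
    Measurable fun x => mean N s fun n => F n x := by
  unfold mean
  exact measurable_const.mul (Finset.measurable_sum _ fun n _ => hF _)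

theorem ERA_avg_meas (N : ℕ) (F : (Fin 3 → ℕ) → Ω → ℝ) (hF : ∀ y, Measurable (F y)) :
    Measurable fun x => avg3 N fun y => F y x := by
  unfold avg3
  exact ERA_mean_meas _ _ _ fun a => ERA_mean_meas _ _ _ fun b => ERA_mean_meas _ _ _ fun c => hF _

theorem ERA_mean_int (μ : Measure Ω) (N s : ℕ) (F : ℕ → Ω → ℝ) (hF : ∀ n, Integrable (F n) μ) :
    Integrable (fun x => mean N s fun n => F n x) μ ∧
    ∫ x, (mean N s fun n => F n x) ∂μ = mean N s fun n => ∫ x, F n x ∂μ := by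
  unfold mean
  constructor
  · exact (integrable_finsetSum _ fun n _ => hF _).const_mul _
  · rw [integral_const_mul, integral_finsetSum _ fun n _ => hF _]

theorem ERA_avg_int (μ : Measure Ω) (N : ℕ) (F : (Fin 3 → ℕ) → Ω → ℝ)
    (hF : ∀ y, Integrable (F y) μ) :
    ∫ x, (avg3 N fun y => F y x) ∂μ = avg3 N fun y => ∫ x, F y x ∂μ := by
  unfold avg3
  have h3 : ∀ a b, Integrable (fun x => mean N (3 * N) fun c => F ![a, b, c] x) μ ∧
      ∫ x, (mean N (3 * N) fun c => F ![a, b, c] x) ∂μ =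
        mean N (3 * N) fun c => ∫ x, F ![a, b, c] x ∂μ := fun a b =>
    ERA_mean_int μ N (3 * N) (fun c => F ![a, b, c]) fun c => hF _
  have h2 : ∀ a, Integrable (fun x => mean N 0 fun b => mean N (3 * N) fun c => F ![a, b, c] x) μ ∧
      ∫ x, (mean N 0 fun b => mean N (3 * N) fun c => F ![a, b, c] x) ∂μ =
        mean N 0 fun b => ∫ x, (mean N (3 * N) fun c => F ![a, b, c] x) ∂μ := fun a =>
    ERA_mean_int μ N 0 (fun b x => mean N (3 * N) fun c => F ![a, b, c] x) fun b => (h3 a b).1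
  rw [(ERA_mean_int μ N N (fun a x => mean N 0 fun b => mean N (3 * N) fun c => F ![a, b, c] x)
    fun a => (h2 a).1).2]
  congr 1
  funext a
  rw [(h2 a).2]
  congr 1
  funext b
  rw [(h3 a b).2]

/-- A bounded measurable function is integrable. -/
theorem ERA_bint (μ : Measure Ω) [IsFiniteMeasure μ] (f : Ω → ℝ) (B : ℝ) (hf : Measurable f)
    (h : ∀ x, |f x| ≤ B) : Integrable f μ :=
  Integrable.of_bound hf.aestronglyMeasurable B (Filter.Eventually.of_forall fun x => h x)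

end

theorem ERA_pow_norm (z : Circle) (k h : ℕ) : ‖(z : ℂ) ^ (k * h) - 1‖ ≤ k * ‖(z : ℂ) ^ h - 1‖ := by
  induction k with
  | zero => simp
  | succ k ih =>
      have h1 : (z : ℂ) ^ ((k + 1) * h) - 1 =
          (z : ℂ) ^ (k * h) * ((z : ℂ) ^ h - 1) + ((z : ℂ) ^ (k * h) - 1) := by
        rw [add_mul, one_mul, pow_add]; ring
      rw [h1]
      refine le_trans (norm_add_le _ _) ?_
      rw [norm_mul, norm_pow, Circle.norm_coe, one_pow, one_mul]
      push_cast
      linarith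

open Classical in
theorem ERA_mem_Zl (K : ℕ) (s : ℕ → Circle) (z : Circle) :
    z ∈ Zl K s ↔ z ≠ 1 ∧ ∃ j < K, s j = z := by
  unfold Zl
  rw [Finset.mem_erase, Finset.mem_image]
  simp only [Finset.mem_range]

theorem ERA_sv_meas {Ω : Type u} [MeasurableSpace Ω] (θ : Fin 3 → ℕ → Ω → Circle)
    (hθ : ∀ l j, Measurable (θ l j)) : Measurable (sv θ) :=
  measurable_pi_lambda _ fun l => measurable_pi_lambda _ fun j => hθ l j

theorem ERA_sv_meas1 {Ω : Type u} [MeasurableSpace Ω] (θ : Fin 3 → ℕ → Ω → Circle)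
    (hθ : ∀ l j, Measurable (θ l j)) (l : Fin 3) : Measurable fun x => sv θ x l :=
  measurable_pi_lambda _ fun j => hθ l j

theorem ERA_BB_pos (m K : ℕ) (hm : 1 ≤ m) : 0 < BB m K := by
  unfold BB
  have : (0 : ℝ) < m := by exact_mod_cast hm
  positivity

theorem ERA_CC_nonneg (m k : ℕ) : 0 ≤ CC m k := by
  unfold CC
  positivity

/-- The almost periodicity of the difference of two functions along the orbit. -/
theorem ERA_PP {Ω : Type u} [MeasurableSpace Ω] (Q : Ω → Ω) (θ : ℕ → Ω → Circle) (P P' : Ω → ℝ)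
    (hP0 : ∀ x, 0 ≤ P x) (hP1 : ∀ x, P x ≤ 1) (hP'0 : ∀ x, 0 ≤ P' x) (hP'1 : ∀ x, P' x ≤ 1)
    (q q₁ q₂ K₁ K₂ : ℕ) (ρ₁ ρ₂ e : ℝ) (hq : 1 ≤ q) (hq₁ : 1 ≤ q₁) (hq₂ : 1 ≤ q₂) (hρ₁ : 0 < ρ₁)
    (hρ₂ : 0 < ρ₂) (x : Ω)
    (h1 : ∀ t h : ℕ, (∀ j < K₁, ‖(θ j x : ℂ) ^ h - 1‖ ≤ ρ₁) →
      |P (Q^[t + q₁ * h] x) - P (Q^[t] x)| ≤ e / 2)
    (h2 : ∀ t h : ℕ, (∀ j < K₂, ‖(θ j x : ℂ) ^ h - 1‖ ≤ ρ₂) →
      |P' (Q^[t + q₂ * h] x) - P' (Q^[t] x)| ≤ e / 2) :
    PP (q₁ * q₂) (min (ρ₁ / (q * q₂)) (ρ₂ / (q * q₁)))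
      (Zl (max K₁ K₂) fun j => θ j x) e 0 (fun t => |P' (Q^[q * t] x) - P (Q^[q * t] x)|) := by
  have hqr : (0 : ℝ) < q := by exact_mod_cast hq
  have hq₁r : (0 : ℝ) < q₁ := by exact_mod_cast hq₁
  have hq₂r : (0 : ℝ) < q₂ := by exact_mod_cast hq₂
  constructor
  · intro y
    rw [abs_abs, abs_le]
    constructor <;> linarith [hP0 (Q^[q * y] x), hP1 (Q^[q * y] x), hP'0 (Q^[q * y] x),
      hP'1 (Q^[q * y] x)]
  · intro y h _ hz
    have hval : ∀ j < max K₁ K₂, ‖(θ j x : ℂ) ^ h - 1‖ ≤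
        min (ρ₁ / (q * q₂)) (ρ₂ / (q * q₁)) := by
      intro j hj
      by_cases hj1 : θ j x = 1
      · rw [hj1, Circle.coe_one, one_pow, sub_self, norm_zero]
        exact le_min (by positivity) (by positivity)
      · exact hz (θ j x) ((ERA_mem_Zl _ _ _).mpr ⟨hj1, j, hj, rfl⟩)
    have e1 : |P (Q^[q * (y + q₁ * q₂ * h)] x) - P (Q^[q * y] x)| ≤ e / 2 := by
      have h3 : q * (y + q₁ * q₂ * h) = q * y + q₁ * (q * q₂ * h) := by ring
      rw [h3]
      refine h1 _ _ fun j hj => ?_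
      refine le_trans (ERA_pow_norm _ _ _) ?_
      have h4 := le_trans (hval j (lt_of_lt_of_le hj (le_max_left _ _))) (min_le_left _ _)
      push_cast
      rw [le_div_iff₀ (by positivity)] at h4
      linarith
    have e2 : |P' (Q^[q * (y + q₁ * q₂ * h)] x) - P' (Q^[q * y] x)| ≤ e / 2 := by
      have h3 : q * (y + q₁ * q₂ * h) = q * y + q₂ * (q * q₁ * h) := by ring
      rw [h3]
      refine h2 _ _ fun j hj => ?_
      refine le_trans (ERA_pow_norm _ _ _) ?_
      have h4 := le_trans (hval j (lt_of_lt_of_le hj (le_max_right _ _))) (min_le_right _ _)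
      push_cast
      rw [le_div_iff₀ (by positivity)] at h4
      linarith
    set u := P (Q^[q * (y + q₁ * q₂ * h)] x)
    set v := P (Q^[q * y] x)
    set u' := P' (Q^[q * (y + q₁ * q₂ * h)] x)
    set v' := P' (Q^[q * y] x)
    calc |(|u' - u| - |v' - v|)| ≤ |(u' - u) - (v' - v)| := abs_abs_sub_abs_le_abs_sub _ _
      _ = |(u' - v') - (u - v)| := by congr 1; ring
      _ ≤ |u' - v'| + |u - v| := abs_sub _ _
      _ ≤ e := by linarith

theorem p_ERA (hPWA : T_PWA) (hPWC : T_PWC) (hLSU : T_LSU.{u}) (hAPX : T_APX.{u})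
    (hWBD : T_WBD) : T_ERA.{u} := by
  intro Ω _ μ _ m n κ Pi hm hn hκ hSpec θ hθ hInd G hG hGood l Q hQ hθQ c hc hc0 hc1 hAPL q hq P
    hP hP0 hP1 hAPP η hη hcP ε hε
  obtain ⟨hW, hWm, hWl, hWlm⟩ := hWBD m n κ Pi hm hSpec
  set BBv := BB m (κ (n - 1)) with hBB
  set CCv := CC m (3 * κ (n - 1)) with hCC
  have hBpos : 0 < BBv := ERA_BB_pos _ _ hm
  have hC0 : 0 ≤ CCv := ERA_CC_nonneg _ _
  set η' : ℝ := ε / (5 * (BBv + 2 * CCv + 1)) with hη'
  have hη'pos : 0 < η' := by positivity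
  have hmul : (BBv + 2 * CCv + 1) * η' = ε / 5 := by
    rw [hη']; field_simp
  obtain ⟨P', hP'm, hP'0, hP'1, hcP', hAP'⟩ := hAPL η' hη'pos
  have hAPP' : APP μ Q (θ l) (η' / 2) P' :=
    hAPX Ω μ Q hQ (θ l) (hθ l) hθQ _ _ (hAP' _ (by positivity))
  obtain ⟨q₁, K₁, ρ₁, hq₁, hρ₁, hx1⟩ := hAPP (η' / 2) (by positivity)
  obtain ⟨q₂, K₂, ρ₂, hq₂, hρ₂, hx2⟩ := hAPP'
  set E : Ω → ℝ := fun x => |P' x - P x| with hE
  have hEm : Measurable E := (hP'm.sub hP).abs
  have hE0 : ∀ x, 0 ≤ E x := fun x => abs_nonneg _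
  have hE1 : ∀ x, E x ≤ 1 := by
    intro x
    rw [hE]
    simp only []
    rw [abs_le]
    constructor <;> linarith [hP0 x, hP1 x, hP'0 x, hP'1 x]
  have hQk : ∀ k, MeasurePreserving (Q^[k]) μ μ := fun k => hQ.iterate k
  have hQm : ∀ k, Measurable (Q^[k]) := fun k => (hQk k).measurable
  set D : Ω → ℝ := fun x => |c x - P' x| with hD
  have hDm : Measurable D := (hc.sub hP'm).abs
  have hD0 : ∀ x, 0 ≤ D x := fun x => abs_nonneg _
  have hD1 : ∀ x, D x ≤ 1 := by
    intro x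
    rw [hD]
    simp only []
    rw [abs_le]
    constructor <;> linarith [hc0 x, hc1 x, hP'0 x, hP'1 x]
  have hEint : ∫ x, E x ∂μ ≤ η + η' := by
    have i1 : Integrable (fun x => |c x - P x|) μ := by
      refine ERA_bint μ _ 1 (hc.sub hP).abs fun x => ?_
      rw [abs_abs, abs_le]
      constructor <;> linarith [hc0 x, hc1 x, hP0 x, hP1 x]
    have i2 : Integrable D μ := by
      refine ERA_bint μ _ 1 hDm fun x => ?_
      rw [abs_of_nonneg (hD0 x)]
      exact hD1 x
    have i3 : Integrable E μ := by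
      refine ERA_bint μ _ 1 hEm fun x => ?_
      rw [abs_of_nonneg (hE0 x)]
      exact hE1 x
    calc ∫ x, E x ∂μ ≤ ∫ x, (|c x - P x| + D x) ∂μ := by
          refine integral_mono i3 (i1.add i2) fun x => ?_
          rw [hE, hD]
          simp only []
          calc |P' x - P x| = |(c x - P x) - (c x - P' x)| := by congr 1; ring
            _ ≤ |c x - P x| + |c x - P' x| := abs_sub _ _
      _ = ∫ x, |c x - P x| ∂μ + ∫ x, D x ∂μ := integral_add i1 i2
      _ ≤ η + η' := add_le_add hcP hcP'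
  -- the weights as functions of `x`
  set W : Ω → (Fin 3 → ℕ) → ℝ := fun x y => Wf m n κ Pi (sv θ x) y with hWdef
  set V : Ω → (Fin 3 → ℕ) → ℝ := fun x y => Wl m n κ l (sv θ x l) y with hVdef
  have hWmeas : ∀ y, Measurable fun x => W x y := fun y => (hWm y).comp (ERA_sv_meas θ hθ)
  have hVmeas : ∀ y, Measurable fun x => V x y := fun y => (hWlm l y).comp (ERA_sv_meas1 θ hθ l)
  have hW0 : ∀ x y, 0 ≤ W x y := fun x y => (hW _ y).1
  have hWB : ∀ x y, W x y ≤ BBv := fun x y => (hW _ y).2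
  have hV0 : ∀ x y, 0 ≤ V x y := fun x y => (hWl l _ y).1
  have hVB : ∀ x y, V x y ≤ BBv := fun x y => (hWl l _ y).2
  -- (1)
  have step1 : ∀ N : ℕ, ∫ x in G, avg3 N (fun y => W x y * D (Q^[q * tm l y] x)) ∂μ
      ≤ BBv * η' := by
    intro N
    have iy : ∀ y, Integrable (fun x => W x y * D (Q^[q * tm l y] x)) (μ.restrict G) := by
      intro y
      refine ERA_bint _ _ BBv ((hWmeas y).mul (hDm.comp (hQm _))) fun x => ?_
      rw [abs_of_nonneg (mul_nonneg (hW0 x y) (hD0 _))]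
      calc W x y * D (Q^[q * tm l y] x) ≤ BBv * 1 :=
            mul_le_mul (hWB x y) (hD1 _) (hD0 _) hBpos.le
        _ = BBv := mul_one _
    rw [ERA_avg_int (μ.restrict G) N (fun y x => W x y * D (Q^[q * tm l y] x)) iy]
    refine ERA_avg_le (by positivity) fun y => ?_
    have iD : Integrable D μ := by
      refine ERA_bint μ _ 1 hDm fun x => ?_
      rw [abs_of_nonneg (hD0 x)]
      exact hD1 x
    have iDk : Integrable (fun x => D (Q^[q * tm l y] x)) μ :=
      (hQk (q * tm l y)).integrable_comp_of_integrable iD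
    calc ∫ x in G, W x y * D (Q^[q * tm l y] x) ∂μ
        ≤ ∫ x in G, BBv * D (Q^[q * tm l y] x) ∂μ := by
          refine integral_mono (iy y) (iDk.integrableOn.const_mul _) fun x => ?_
          exact mul_le_mul_of_nonneg_right (hWB x y) (hD0 _)
      _ ≤ ∫ x, BBv * D (Q^[q * tm l y] x) ∂μ := by
          refine setIntegral_le_integral (iDk.const_mul _) ?_
          exact Filter.Eventually.of_forall fun x => mul_nonneg hBpos.le (hD0 _)
      _ = BBv * ∫ x, D x ∂μ := by
          rw [integral_const_mul]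
          congr 1
          have := (hQk (q * tm l y)).map_eq
          conv_rhs => rw [← this]
          rw [integral_map (hQm _).aemeasurable hDm.aestronglyMeasurable]
      _ ≤ BBv * η' := mul_le_mul_of_nonneg_left hcP' hBpos.le
  -- (2)
  have step2 : ∃ N₀ : ℕ, ∀ N ≥ N₀, ∫ x in G, (avg3 N (fun y => W x y * E (Q^[q * tm l y] x)) -
      avg3 N (fun y => V x y * E (Q^[q * tm l y] x))) ∂μ
      ≤ ∫ x in G, (2 * CCv * η') ∂μ + ε / 5 := by
    refine hLSU Ω μ (fun N x => avg3 N (fun y => W x y * E (Q^[q * tm l y] x)) -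
      avg3 N (fun y => V x y * E (Q^[q * tm l y] x))) (2 * BBv) (fun _ => 2 * CCv * η') G
      ?_ ?_ (integrable_const _) hG ?_ (ε / 5) (by positivity)
    · intro N
      exact (ERA_avg_meas N (fun y x => W x y * E (Q^[q * tm l y] x)) fun y =>
        (hWmeas y).mul (hEm.comp (hQm _))).sub
        (ERA_avg_meas N (fun y x => V x y * E (Q^[q * tm l y] x)) fun y =>
        (hVmeas y).mul (hEm.comp (hQm _)))
    · intro N x
      have b1 : 0 ≤ avg3 N (fun y => W x y * E (Q^[q * tm l y] x)) :=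
        ERA_avg_nonneg fun y => mul_nonneg (hW0 _ _) (hE0 _)
      have b2 : 0 ≤ avg3 N (fun y => V x y * E (Q^[q * tm l y] x)) :=
        ERA_avg_nonneg fun y => mul_nonneg (hV0 _ _) (hE0 _)
      have b3 : avg3 N (fun y => W x y * E (Q^[q * tm l y] x)) ≤ BBv := by
        refine ERA_avg_le hBpos.le fun y => ?_
        calc W x y * E (Q^[q * tm l y] x) ≤ BBv * 1 :=
              mul_le_mul (hWB x y) (hE1 _) (hE0 _) hBpos.le
          _ = BBv := mul_one _
      have b4 : avg3 N (fun y => V x y * E (Q^[q * tm l y] x)) ≤ BBv := by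
        refine ERA_avg_le hBpos.le fun y => ?_
        calc V x y * E (Q^[q * tm l y] x) ≤ BBv * 1 :=
              mul_le_mul (hVB x y) (hE1 _) (hE0 _) hBpos.le
          _ = BBv := mul_one _
      rw [abs_le]
      constructor <;> linarith
    · filter_upwards [hInd, hx1, hx2] with x hxI hx1 hx2 hxG e he
      set τ := Zl (max K₁ K₂) (fun j => θ l j x) with hτ
      have hτs : ∀ z ∈ τ, z ≠ 1 ∧ ∃ j, sv θ x l j = z := by
        intro z hz
        rw [hτ, ERA_mem_Zl] at hz
        obtain ⟨hz1, j, _, hj⟩ := hz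
        exact ⟨hz1, j, hj⟩
      have hPPx := ERA_PP Q (θ l) P P' hP0 hP1 hP'0 hP'1 q q₁ q₂ K₁ K₂ ρ₁ ρ₂ η' hq hq₁ hq₂ hρ₁
        hρ₂ x hx1 hx2
      have hqr : (0 : ℝ) < q := by exact_mod_cast hq
      have hq₁r : (0 : ℝ) < q₁ := by exact_mod_cast hq₁
      have hq₂r : (0 : ℝ) < q₂ := by exact_mod_cast hq₂
      obtain ⟨N₀, hN₀⟩ := hPWC m n κ Pi (sv θ x) hm hn hκ hSpec (hGood x hxG) hxI l (q₁ * q₂)
        (min (ρ₁ / (q * q₂)) (ρ₂ / (q * q₁))) τ (Nat.one_le_iff_ne_zero.mpr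
          (Nat.mul_ne_zero (by omega) (by omega))) (lt_min (by positivity) (by positivity)) hτs
        η' hη'pos
      refine ⟨N₀, fun N hN => ?_⟩
      have h3 := hN₀ N hN (fun t => |P' (Q^[q * t] x) - P (Q^[q * t] x)|) η' hη'pos.le hPPx
      have h4 : avg3 N (fun y => W x y * E (Q^[q * tm l y] x)) ≤
          avg3 N (fun y => V x y * E (Q^[q * tm l y] x)) + CCv * (η' + η') := h3
      nlinarith
  -- (3)
  have step3 : ∃ N₀ : ℕ, ∀ N ≥ N₀, ∫ x, (avg3 N (fun y => V x y) * E x) ∂μ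
      ≤ ∫ x, E x ∂μ + ε / 5 := by
    have h5 := hLSU Ω μ (fun N x => avg3 N (fun y => V x y) * E x) BBv E Set.univ
      ?_ ?_ (ERA_bint μ _ 1 hEm fun x => by rw [abs_of_nonneg (hE0 x)]; exact hE1 x)
      MeasurableSet.univ ?_ (ε / 5) (by positivity)
    · simpa only [Measure.restrict_univ] using h5
    · intro N
      exact (ERA_avg_meas N (fun y x => V x y) hVmeas).mul hEm
    · intro N x
      have b1 : 0 ≤ avg3 N (fun y => V x y) := ERA_avg_nonneg fun y => hV0 _ _
      have b2 : avg3 N (fun y => V x y) ≤ BBv := ERA_avg_le hBpos.le fun y => hVB x y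
      rw [abs_of_nonneg (mul_nonneg b1 (hE0 x))]
      calc avg3 N (fun y => V x y) * E x ≤ BBv * 1 := mul_le_mul b2 (hE1 x) (hE0 x) hBpos.le
        _ = BBv := mul_one _
    · filter_upwards [hInd] with x hxI _ e he
      obtain ⟨N₀, hN₀⟩ := hPWA m n κ Pi (sv θ x) hm hSpec hxI e he
      refine ⟨N₀, fun N hN => ?_⟩
      have h6 := (hN₀ N hN).2 l
      have h7 : avg3 N (fun y => V x y) ≤ 1 + e := by
        have h8 := (abs_le.mp h6).2
        have h9 : avg3 N (fun y => V x y) = avg3 N (Wl m n κ l (sv θ x l)) := rfl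
        rw [h9]
        linarith
      calc avg3 N (fun y => V x y) * E x ≤ (1 + e) * E x :=
            mul_le_mul_of_nonneg_right h7 (hE0 x)
        _ = E x + e * E x := by ring
        _ ≤ E x + e := by nlinarith [hE1 x, hE0 x]
  have step3' : ∀ N, ∫ x in G, avg3 N (fun y => V x y * E (Q^[q * tm l y] x)) ∂μ ≤
      ∫ x, (avg3 N (fun y => V x y) * E x) ∂μ := by
    intro N
    have iy : ∀ y, Integrable (fun x => V x y * E (Q^[q * tm l y] x)) μ := by
      intro y
      refine ERA_bint _ _ BBv ((hVmeas y).mul (hEm.comp (hQm _))) fun x => ?_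
      rw [abs_of_nonneg (mul_nonneg (hV0 x y) (hE0 _))]
      calc V x y * E (Q^[q * tm l y] x) ≤ BBv * 1 :=
            mul_le_mul (hVB x y) (hE1 _) (hE0 _) hBpos.le
        _ = BBv := mul_one _
    have iy' : ∀ y, Integrable (fun x => V x y * E x) μ := by
      intro y
      refine ERA_bint _ _ BBv ((hVmeas y).mul hEm) fun x => ?_
      rw [abs_of_nonneg (mul_nonneg (hV0 x y) (hE0 _))]
      calc V x y * E x ≤ BBv * 1 := mul_le_mul (hVB x y) (hE1 _) (hE0 _) hBpos.le
        _ = BBv := mul_one _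
    have iA : Integrable (fun x => avg3 N (fun y => V x y * E (Q^[q * tm l y] x))) μ := by
      refine ERA_bint _ _ BBv (ERA_avg_meas N (fun y x => V x y * E (Q^[q * tm l y] x)) fun y =>
        (hVmeas y).mul (hEm.comp (hQm _))) fun x => ?_
      rw [abs_of_nonneg (ERA_avg_nonneg fun y => mul_nonneg (hV0 x y) (hE0 _))]
      refine ERA_avg_le hBpos.le fun y => ?_
      calc V x y * E (Q^[q * tm l y] x) ≤ BBv * 1 :=
            mul_le_mul (hVB x y) (hE1 _) (hE0 _) hBpos.le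
        _ = BBv := mul_one _
    have hinv : ∀ k x, V (Q^[k] x) = V x := by
      intro k x
      have h1 : ∀ j, θ l j (Q^[k] x) = θ l j x := by
        intro j
        induction k with
        | zero => rfl
        | succ k ih => rw [Function.iterate_succ_apply', hθQ, ih]
      have h2 : sv θ (Q^[k] x) l = sv θ x l := funext fun j => h1 j
      rw [hVdef]
      simp only []
      rw [h2]
    calc ∫ x in G, avg3 N (fun y => V x y * E (Q^[q * tm l y] x)) ∂μ
        ≤ ∫ x, avg3 N (fun y => V x y * E (Q^[q * tm l y] x)) ∂μ := by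
          refine setIntegral_le_integral iA ?_
          exact Filter.Eventually.of_forall fun x =>
            ERA_avg_nonneg fun y => mul_nonneg (hV0 x y) (hE0 _)
      _ = avg3 N fun y => ∫ x, V x y * E (Q^[q * tm l y] x) ∂μ :=
          ERA_avg_int μ N (fun y x => V x y * E (Q^[q * tm l y] x)) iy
      _ = avg3 N fun y => ∫ x, V x y * E x ∂μ := by
          congr 1
          funext y
          have h3 := (hQk (q * tm l y)).map_eq
          have h4 : ∫ x, V x y * E x ∂(μ.map (Q^[q * tm l y])) =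
              ∫ x, V (Q^[q * tm l y] x) y * E (Q^[q * tm l y] x) ∂μ :=
            integral_map (f := fun x => V x y * E x) (hQm _).aemeasurable
              ((hVmeas y).mul hEm).aestronglyMeasurable
          rw [h3] at h4
          rw [h4]
          refine integral_congr_ae (Filter.Eventually.of_forall fun x => ?_)
          simp only [hinv]
      _ = ∫ x, avg3 N (fun y => V x y * E x) ∂μ :=
          (ERA_avg_int μ N (fun y x => V x y * E x) iy').symm
      _ = ∫ x, (avg3 N (fun y => V x y) * E x) ∂μ := by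
          refine integral_congr_ae (Filter.Eventually.of_forall fun x => ?_)
          simp only []
          rw [mul_comm _ (E x), ← ERA_avg_mul]
          congr 1
          funext y
          ring
  obtain ⟨N₁, hN₁⟩ := step2
  obtain ⟨N₂, hN₂⟩ := step3
  refine ⟨max N₁ N₂, fun N hN => ?_⟩
  have h1 := step1 N
  have h2 := hN₁ N (le_trans (le_max_left _ _) hN)
  have h3 := hN₂ N (le_trans (le_max_right _ _) hN)
  have h3' := step3' N
  -- integrability on `G`
  have jW : ∀ F : Ω → ℝ, Measurable F → (∀ x, 0 ≤ F x) → (∀ x, F x ≤ 1) →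
      Integrable (fun x => avg3 N (fun y => W x y * F (Q^[q * tm l y] x))) (μ.restrict G) := by
    intro F hF hF0 hF1
    refine ERA_bint _ _ BBv (ERA_avg_meas N (fun y x => W x y * F (Q^[q * tm l y] x)) fun y =>
      (hWmeas y).mul (hF.comp (hQm _))) fun x => ?_
    rw [abs_of_nonneg (ERA_avg_nonneg fun y => mul_nonneg (hW0 x y) (hF0 _))]
    refine ERA_avg_le hBpos.le fun y => ?_
    calc W x y * F (Q^[q * tm l y] x) ≤ BBv * 1 := mul_le_mul (hWB x y) (hF1 _) (hF0 _) hBpos.le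
      _ = BBv := mul_one _
  have jV : Integrable (fun x => avg3 N (fun y => V x y * E (Q^[q * tm l y] x)))
      (μ.restrict G) := by
    refine ERA_bint _ _ BBv (ERA_avg_meas N (fun y x => V x y * E (Q^[q * tm l y] x)) fun y =>
      (hVmeas y).mul (hEm.comp (hQm _))) fun x => ?_
    rw [abs_of_nonneg (ERA_avg_nonneg fun y => mul_nonneg (hV0 x y) (hE0 _))]
    refine ERA_avg_le hBpos.le fun y => ?_
    calc V x y * E (Q^[q * tm l y] x) ≤ BBv * 1 := mul_le_mul (hVB x y) (hE1 _) (hE0 _) hBpos.le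
      _ = BBv := mul_one _
  rw [integral_sub (jW E hEm hE0 hE1) jV] at h2
  have h2' : ∫ x in G, (2 * CCv * η') ∂μ ≤ 2 * CCv * η' := by
    rw [integral_const, smul_eq_mul]
    have hG1 : (μ.restrict G).real Set.univ ≤ 1 := by
      rw [Measure.real, Measure.restrict_apply_univ]
      exact measureReal_le_one
    have : 0 ≤ 2 * CCv * η' := by positivity
    nlinarith
  have hcPm : ∀ x, |c x - P x| ≤ 1 := by
    intro x
    rw [abs_le]
    constructor <;> linarith [hc0 x, hc1 x, hP0 x, hP1 x]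
  have hlast : ∫ x in G, avg3 N (fun y => W x y *
      |c (Q^[q * tm l y] x) - P (Q^[q * tm l y] x)|) ∂μ ≤
      ∫ x in G, avg3 N (fun y => W x y * D (Q^[q * tm l y] x)) ∂μ +
      ∫ x in G, avg3 N (fun y => W x y * E (Q^[q * tm l y] x)) ∂μ := by
    rw [← integral_add (jW D hDm hD0 hD1) (jW E hEm hE0 hE1)]
    refine integral_mono (jW (fun x => |c x - P x|) (hc.sub hP).abs (fun x => abs_nonneg _) hcPm)
      ((jW D hDm hD0 hD1).add (jW E hEm hE0 hE1)) fun x => ?_
    show avg3 N (fun y => W x y * |c (Q^[q * tm l y] x) - P (Q^[q * tm l y] x)|) ≤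
      avg3 N (fun y => W x y * D (Q^[q * tm l y] x)) +
      avg3 N (fun y => W x y * E (Q^[q * tm l y] x))
    rw [← ERA_avg_add]
    refine ERA_avg_mono fun y => ?_
    rw [← mul_add]
    refine mul_le_mul_of_nonneg_left ?_ (hW0 _ _)
    rw [hD, hE]
    simp only []
    exact abs_sub_le _ _ _
  have hfin : BBv * η' + 2 * CCv * η' + η' = ε / 5 := by rw [← hmul]; ring
  have : 0 ≤ BBv * η' := by positivity
  have : 0 ≤ 2 * CCv * η' := by positivity
  refine le_trans hlast ?_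
  linarith

end Pool.Agent.Ind3
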