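import Pool.Agent.Ind3.Targets
import Pool.Agent.FSP.P_PRO
import Pool.Agent.FSP.P_DEC

set_option autoImplicit false

/-!
# Ind3: the decomposition of an indicator function (T_DCP)
-/

open MeasureTheory Filter Topology Finset

namespace Pool.Agent.Ind3

open Pool.Agent.FSP

universe u

namespace DCP_

open Pool.Agent.FSP.DEC_

variable {Ω : Type u} [MeasurableSpace Ω] {μ : Measure Ω}

/-- Membership of bounded almost periodic functions. -/
lemma mem_of_AP {T : Ω → Ω} {F : Set (Ω → Circle)} {v : Ω → ℝ} (hv : Measurable v)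
    (hp : MemLp v 2 μ) (hA : ∀ ε : ℝ, 0 < ε → AP μ T F ε v) :
    InF μ T F (hp.toLp v) := by
  intro ε hε
  exact ⟨v, hv, hA, hp, by rw [sub_self, norm_zero]; exact hε.le⟩

lemma AP_clip {T : Ω → Ω} {F : Set (Ω → Circle)} {p : Ω → ℝ} {ε : ℝ} (h : AP μ T F ε p) :
    AP μ T F ε (fun x => clip (p x)) := by
  obtain ⟨q, hq, ρ, hρ, d, τ, hτ, hall⟩ := h
  refine ⟨q, hq, ρ, hρ, d, τ, hτ, fun n => ?_⟩
  filter_upwards [hall n] with x hx hxb
  exact (abs_clip_sub _ _).trans (hx hxb)

lemma clip_tendsto {t : ℝ} (ht : 0 ≤ t) :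
    Tendsto (fun k : ℕ => clip ((k : ℝ) * t)) atTop (𝓝 (if 0 < t then 1 else 0)) := by
  rcases ht.eq_or_lt with h | h
  · subst h
    simp only [mul_zero, lt_irrefl, if_false]
    have : clip 0 = 0 := clip_of_mem le_rfl zero_le_one
    rw [this]
    exact tendsto_const_nhds
  · rw [if_pos h]
    apply tendsto_const_nhds.congr'
    obtain ⟨k₀, hk₀⟩ := exists_nat_gt (1 / t)
    filter_upwards [eventually_ge_atTop k₀] with k hk
    have h1 : (k₀ : ℝ) ≤ k := by exact_mod_cast hk
    have h2 : 1 ≤ (k : ℝ) * t := by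
      rw [div_lt_iff₀ h] at hk₀
      nlinarith
    unfold clip
    rw [min_eq_right h2, max_eq_right zero_le_one]

end DCP_

open DCP_ Pool.Agent.FSP.DEC_ in
/-- The decomposition. -/
theorem p_DCP (h_SPE : T_SPE.{u}) : T_DCP.{u} := by
  intro Ω _ μ _ T hT F hF A hA
  obtain ⟨s1, s2, s3, s4, s5, s6⟩ := h_SPE Ω μ T F
  let K : Submodule ℝ (Lp ℝ 2 μ) :=
    { carrier := {h | InF μ T F h}
      add_mem' := fun {a b} ha hb => s1 a b ha hb
      zero_mem' := s3
      smul_mem' := fun c h hh => s2 c h hh }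
  have hKc : IsClosed (K : Set (Lp ℝ 2 μ)) := by
    apply isClosed_of_closure_subset
    intro h hh
    apply s4
    intro ε hε
    obtain ⟨h', h'K, hd⟩ := Metric.mem_closure_iff.1 hh ε hε
    exact ⟨h', h'K, by rw [← dist_eq_norm]; exact hd.le⟩
  have hfm : Measurable (one A) := measurable_one hA
  have hfb : ∀ x, |one A x| ≤ 1 := fun x => by
    rw [abs_of_nonneg (one_nonneg _ _)]
    exact one_le_one _ _
  have hfL : MemLp (one A) 2 μ := memLp_bdd hfm 1 hfb
  obtain ⟨c₀, hc₀K, hc₀b, hc₀o⟩ := p_PRO Ω μ K hKc (fun h hh h' h'e => s5 h h' hh h'e)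
    (hfL.toLp _) (by
      filter_upwards [hfL.coeFn_toLp] with x hx
      rw [hx]
      exact ⟨one_nonneg _ _, one_le_one _ _⟩)
  have hc₀K' : InF μ T F c₀ := hc₀K
  have hc₀m : Measurable (fun x => c₀ x) := (Lp.stronglyMeasurable c₀).measurable
  let c : Ω → ℝ := fun x => clip (c₀ x)
  have hcm : Measurable c := measurable_clip.comp hc₀m
  have hc0 : ∀ x, 0 ≤ c x := fun x => clip_nonneg _
  have hc1 : ∀ x, c x ≤ 1 := fun x => clip_le_one _
  have hcc : c₀ =ᵐ[μ] c := by
    filter_upwards [hc₀b] with x h1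
    exact (clip_of_mem h1.1 h1.2).symm
  have hcb : ∀ x, |c x| ≤ 1 := fun x => by
    rw [abs_of_nonneg (hc0 x)]
    exact hc1 x
  let g : Ω → ℝ := fun x => one A x - c x
  have hgm : Measurable g := hfm.sub hcm
  have hg1 : ∀ x, |g x| ≤ 1 := by
    intro x
    have h1 := one_nonneg A x
    have h2 := one_le_one A x
    have h3 := hc0 x
    have h4 := hc1 x
    show |one A x - c x| ≤ 1
    rw [abs_le]
    constructor <;> linarith
  have hfc : ((hfL.toLp _ - c₀ : Lp ℝ 2 μ)) =ᵐ[μ] g := by
    filter_upwards [Lp.coeFn_sub (hfL.toLp _) c₀, hfL.coeFn_toLp, hcc] with x h1 h2 h3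
    rw [h1, Pi.sub_apply, h2, h3]
  -- orthogonality
  have hort : ∀ (v : Ω → ℝ) (h : Lp ℝ 2 μ), InF μ T F h → h =ᵐ[μ] v →
      ∫ x, g x * v x ∂μ = 0 := by
    intro v h hh hv
    rw [← inner_eq hfc hv]
    exact hc₀o h hh
  refine ⟨c, g, hcm, hgm, hc0, hc1, hg1, fun x => ?_, ?_, ?_, ?_⟩
  · show one A x = c x + (one A x - c x)
    ring
  · intro ε hε
    obtain ⟨p, hpm, hAP, hp, hn⟩ := hc₀K' ε hε
    refine ⟨fun x => clip (p x), measurable_clip.comp hpm, fun x => clip_nonneg _,
      fun x => clip_le_one _, ?_, fun ε' hε' => AP_clip (hAP ε' hε')⟩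
    have e : (c₀ - hp.toLp p : Lp ℝ 2 μ) =ᵐ[μ] fun x => c₀ x - p x := by
      filter_upwards [Lp.coeFn_sub c₀ (hp.toLp p), hp.coeFn_toLp] with x h1 h2
      rw [h1, Pi.sub_apply, h2]
    have h1 := MRec.integral_abs_le_norm (c₀ - hp.toLp p) e
    have hpi : Integrable p μ := hp.integrable one_le_two
    have hci : Integrable (fun x => c₀ x) μ := (Lp.memLp c₀).integrable one_le_two
    have hm : Measurable fun x => |c x - clip (p x)| :=
      (hcm.sub (measurable_clip.comp hpm)).abs
    have hb : ∀ x, |(|c x - clip (p x)|)| ≤ 1 := by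
      intro x
      rw [abs_abs, abs_le]
      have h1 := hc0 x
      have h2 := hc1 x
      have h3 := clip_nonneg (p x)
      have h4 := clip_le_one (p x)
      constructor <;> linarith
    have h2 : ∫ x, |c x - clip (p x)| ∂μ ≤ ∫ x, |c₀ x - p x| ∂μ := by
      apply integral_mono (integrable_bdd hm 1 hb) (hci.sub hpi).abs
      intro x
      exact abs_clip_sub _ _
    exact h2.trans (h1.trans hn)
  · intro v hv hvb _ hvA
    obtain ⟨C, hC⟩ := hvb
    have hvL : MemLp v 2 μ := memLp_bdd hv C hC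
    exact hort v (hvL.toLp v) (mem_of_AP hv hvL hvA) hvL.coeFn_toLp
  · -- positivity
    have hPm : MeasurableSet {x | 0 < c x} := measurableSet_lt measurable_const hcm
    have h1L : MemLp (fun _ : Ω => (1 : ℝ)) 2 μ := memLp_const 1
    have h1K : InF μ T F (h1L.toLp _) := s6 _ h1L.coeFn_toLp
    have hpm : Measurable (one {x | 0 < c x}) := measurable_one hPm
    have hpL : MemLp (one {x | 0 < c x}) 2 μ := memLp_bdd hpm 1 fun x => by
      rw [abs_of_nonneg (one_nonneg _ _)]
      exact one_le_one _ _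
    have hkm : ∀ k : ℕ, Measurable fun x => clip ((k : ℝ) * c x) := fun k =>
      measurable_clip.comp (measurable_const.mul hcm)
    have hkL : ∀ k : ℕ, MemLp (fun x => clip ((k : ℝ) * c x)) 2 μ := fun k =>
      memLp_bdd (hkm k) 1 fun x => by
        rw [abs_of_nonneg (clip_nonneg _)]
        exact clip_le_one _
    have hkK : ∀ k : ℕ, InF μ T F ((hkL k).toLp _) := by
      intro k
      apply s5 ((k : ℝ) • c₀) _ (s2 _ _ hc₀K')
      filter_upwards [(hkL k).coeFn_toLp, Lp.coeFn_smul (k : ℝ) c₀, hcc] with x h1 h2 h3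
      rw [h1, h2, Pi.smul_apply, smul_eq_mul, h3]
      rfl
    have hlim : Tendsto (fun k : ℕ => ∫ x, (one {x | 0 < c x} x - clip ((k : ℝ) * c x)) *
        (one {x | 0 < c x} x - clip ((k : ℝ) * c x)) ∂μ) atTop (𝓝 0) := by
      suffices h : Tendsto (fun k : ℕ => ∫ x, (one {x | 0 < c x} x - clip ((k : ℝ) * c x)) *
          (one {x | 0 < c x} x - clip ((k : ℝ) * c x)) ∂μ) atTop (𝓝 (∫ _x : Ω, (0 : ℝ) ∂μ)) by
        rw [integral_zero] at h
        exact h
      apply tendsto_integral_of_dominated_convergence (fun _ => (1 : ℝ))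
      · intro k
        exact ((hpm.sub (hkm k)).mul (hpm.sub (hkm k))).aestronglyMeasurable
      · exact integrable_const _
      · intro k
        refine Eventually.of_forall fun x => ?_
        have h1 := one_nonneg {x | 0 < c x} x
        have h2 := one_le_one {x | 0 < c x} x
        have h3 := clip_nonneg ((k : ℝ) * c x)
        have h4 := clip_le_one ((k : ℝ) * c x)
        rw [Real.norm_eq_abs, abs_mul]
        have h5 : |one {x | 0 < c x} x - clip ((k : ℝ) * c x)| ≤ 1 := by
          rw [abs_le]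
          constructor <;> linarith
        have h6 := abs_nonneg (one {x | 0 < c x} x - clip ((k : ℝ) * c x))
        nlinarith
      · refine Eventually.of_forall fun x => ?_
        have h1 := clip_tendsto (hc0 x)
        have h2 : one {x | 0 < c x} x = if 0 < c x then 1 else 0 := by
          by_cases hx : 0 < c x
          · rw [if_pos hx]; exact one_of_mem hx
          · rw [if_neg hx]; exact one_of_not_mem hx
        have h3 : Tendsto (fun k : ℕ => one {x | 0 < c x} x - clip ((k : ℝ) * c x)) atTop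
            (𝓝 (one {x | 0 < c x} x - if 0 < c x then 1 else 0)) := tendsto_const_nhds.sub h1
        rw [h2, sub_self] at h3
        have h4 := h3.mul h3
        rw [mul_zero] at h4
        rw [h2]
        exact h4
    have hpK : InF μ T F (hpL.toLp _) := by
      apply s4
      intro ε hε
      obtain ⟨k, hk⟩ := ((tendsto_order.1 hlim).2 (ε ^ 2) (by positivity)).exists
      refine ⟨_, hkK k, ?_⟩
      have e : (hpL.toLp _ - (hkL k).toLp _ : Lp ℝ 2 μ) =ᵐ[μ]
          fun x => one {x | 0 < c x} x - clip ((k : ℝ) * c x) := by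
        filter_upwards [Lp.coeFn_sub (hpL.toLp _) ((hkL k).toLp _), hpL.coeFn_toLp,
          (hkL k).coeFn_toLp] with x h1 h2 h3
        rw [h1, Pi.sub_apply, h2, h3]
      have h1 : ‖(hpL.toLp _ - (hkL k).toLp _ : Lp ℝ 2 μ)‖ ^ 2 ≤ ε ^ 2 := by
        rw [← real_inner_self_eq_norm_sq, inner_eq e e]
        exact hk.le
      exact le_of_sq_le_sq h1 hε.le
    have hqK : InF μ T F (h1L.toLp _ - hpL.toLp _) :=
      K.sub_mem (show h1L.toLp _ ∈ K from h1K) (show hpL.toLp _ ∈ K from hpK)
    have hq : (h1L.toLp _ - hpL.toLp _ : Lp ℝ 2 μ) =ᵐ[μ]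
        fun x => 1 - one {x | 0 < c x} x := by
      filter_upwards [Lp.coeFn_sub (h1L.toLp _) (hpL.toLp _), hpL.coeFn_toLp,
        h1L.coeFn_toLp] with x h1 h2 h3
      rw [h1, Pi.sub_apply, h2, h3]
    have i1 := hort _ _ hqK hq
    have hw : ∀ x, 0 ≤ g x * (1 - one {x | 0 < c x} x) := by
      intro x
      by_cases hx : 0 < c x
      · have : one {x | 0 < c x} x = 1 := one_of_mem hx
        rw [this, sub_self, mul_zero]
      · have h1 : one {x | 0 < c x} x = 0 := one_of_not_mem hx
        have h2 : c x = 0 := le_antisymm (not_lt.1 hx) (hc0 x)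
        show 0 ≤ (one A x - c x) * (1 - one {x | 0 < c x} x)
        rw [h1, h2, sub_zero, sub_zero, mul_one]
        exact one_nonneg _ _
    have hwi : Integrable (fun x => g x * (1 - one {x | 0 < c x} x)) μ := by
      apply integrable_bdd (hgm.mul (measurable_const.sub hpm)) 1
      intro x
      have h1 := one_nonneg {x | 0 < c x} x
      have h2 := one_le_one {x | 0 < c x} x
      have h3 := hg1 x
      have h4 := abs_nonneg (g x)
      show |g x * (1 - one {x | 0 < c x} x)| ≤ 1
      rw [abs_mul, abs_of_nonneg (by linarith : 0 ≤ 1 - one {x | 0 < c x} x)]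
      nlinarith
    have i2 := (integral_eq_zero_iff_of_nonneg (fun x => hw x) hwi).1 i1
    filter_upwards [i2] with x hx hxA
    by_contra hcon
    have h1 : one {x | 0 < c x} x = 0 := one_of_not_mem hcon
    have h2 : c x = 0 := le_antisymm (not_lt.1 hcon) (hc0 x)
    have h3 : (one A x - c x) * (1 - one {x | 0 < c x} x) = 0 := hx
    rw [h1, h2, one_of_mem hxA] at h3
    norm_num at h3

end Pool.Agent.Ind3
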