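import Pool.Agent.Ind3.Targets
import Pool.Agent.FSP.P_KKB

set_option autoImplicit false

/-! Target WBD of the project Ind3: bounds and measurability of the weights. -/

open MeasureTheory Filter Topology Finset

namespace Pool.Agent.Ind3

open Pool.Agent.FSP

namespace WBD_

theorem ee_nonneg (n a : ℕ) : 0 ≤ ee n a := by
  unfold ee
  positivity

theorem ee_le_one (n a : ℕ) : ee n a ≤ 1 := by
  unfold ee
  exact pow_le_one₀ (by norm_num) (by norm_num)

theorem prod_bound (B : ℝ) (hB : 1 ≤ B) (Z : Finset Circle) (F : Circle → ℝ) (K : ℕ)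
    (hZ : Z.card ≤ K) (h0 : ∀ z, 0 ≤ F z) (h1 : ∀ z, F z ≤ B) :
    0 ≤ ∏ z ∈ Z, F z ∧ ∏ z ∈ Z, F z ≤ B ^ K := by
  refine ⟨prod_nonneg fun z _ => h0 z, ?_⟩
  calc ∏ z ∈ Z, F z ≤ ∏ z ∈ Z, B := prod_le_prod (fun z _ => h0 z) fun z _ => h1 z
    _ = B ^ Z.card := by rw [prod_const]
    _ ≤ B ^ K := pow_le_pow_right₀ hB hZ

theorem card_Zs (K : ℕ) (s : Fin 3 → ℕ → Circle) : (Zs K s).card ≤ 3 * K := by
  classical
  unfold Zs
  refine (card_le_card (erase_subset _ _)).trans (card_image_le.trans ?_)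
  rw [card_product, card_univ, card_range, Fintype.card_fin]

theorem card_Zl (K : ℕ) (s : ℕ → Circle) : (Zl K s).card ≤ 3 * K := by
  classical
  unfold Zl
  refine (card_le_card (erase_subset _ _)).trans (card_image_le.trans ?_)
  rw [card_range]
  omega

theorem meas_kf (m : ℕ) (i : Fin 3) (t : ℕ) : Measurable (kf m i t) := by
  unfold kf
  exact (p_KKB.2.2.1 m).comp (measurable_id.mul_const _)

theorem meas_kap (m : ℕ) (l : Fin 3) {α : Type*} [MeasurableSpace α] (f : Fin 3 → α → Circle)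
    (hf : ∀ i, Measurable (f i)) : Measurable fun x => kap m l fun i => f i x := by
  unfold kap
  refine Measurable.const_mul (Finset.measurable_sum _ fun t _ =>
    Finset.measurable_prod _ fun i _ => ?_) _
  by_cases h : i ≠ l
  · simp only [if_pos h]
    exact (meas_kf m i t).comp (hf i)
  · simp only [if_neg h]
    exact measurable_const

theorem meas_lev (κ : ℕ → ℕ) (n : ℕ) (i : ℕ) :
    Measurable fun s : ℕ → Circle => lev κ n s (s i) := by
  classical
  unfold lev
  simp only [card_filter]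
  refine Finset.measurable_sum _ fun a _ => ?_
  refine Measurable.ite ?_ measurable_const measurable_const
  have h2 : MeasurableSet (⋂ j ∈ range (κ a), {s : ℕ → Circle | s j ≠ s i}) :=
    Finset.measurableSet_biInter _ fun j _ =>
      (measurableSet_eq_fun (measurable_pi_apply j) (measurable_pi_apply i)).compl
  convert h2 using 1
  ext s
  simp

theorem meas_first (K i : ℕ) : MeasurableSet {s : ℕ → Circle | s i ≠ 1 ∧
    ∀ i' ∈ range K, id i' < id i → s i' ≠ s i} := by
  have h1 : MeasurableSet {s : ℕ → Circle | s i ≠ 1} :=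
    (measurableSet_eq_fun (measurable_pi_apply i) measurable_const).compl
  have h2 : MeasurableSet (⋂ i' ∈ range K, ⋂ (_ : i' < i), {s : ℕ → Circle | s i' ≠ s i}) :=
    Finset.measurableSet_biInter _ fun i' _ => MeasurableSet.iInter fun _ =>
      (measurableSet_eq_fun (measurable_pi_apply i') (measurable_pi_apply i)).compl
  convert h1.inter h2 using 1
  ext s
  simp

theorem meas_ee (κ : ℕ → ℕ) (n : ℕ) (i : ℕ) :
    Measurable fun s : ℕ → Circle => ee n (lev κ n s (s i)) :=
  (measurable_from_top (f := ee n)).comp (meas_lev κ n i)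

theorem meas_F (m n : ℕ) (κ : ℕ → ℕ) (l : Fin 3) (y : Fin 3 → ℕ) (i : ℕ) :
    Measurable fun s : ℕ → Circle => (1 - ee n (lev κ n s (s i))) *
      kap m l (fun r => s i ^ y r) + ee n (lev κ n s (s i)) := by
  refine Measurable.add (Measurable.mul ((meas_ee κ n i).const_sub 1) ?_) (meas_ee κ n i)
  exact meas_kap m l (fun r (s : ℕ → Circle) => s i ^ y r)
    fun r => (measurable_pi_apply i).pow_const _

end WBD_

open WBD_ in
theorem p_WBD (hLAU : T_LAU) (hREP : T_REP) (hLDR : T_LDR) : T_WBD := by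
  classical
  intro m n κ Pi hm hS
  have hm1 : (1 : ℝ) ≤ m := by exact_mod_cast hm
  have hB : (1 : ℝ) ≤ (m : ℝ) ^ 3 := one_le_pow₀ hm1
  have h23 : (m : ℝ) ^ 2 ≤ (m : ℝ) ^ 3 := pow_le_pow_right₀ hm1 (by norm_num)
  have h12 : (1 : ℝ) ≤ (m : ℝ) ^ 2 := one_le_pow₀ hm1
  refine ⟨fun s y => ?_, fun y => ?_, fun l s y => ?_, fun l y => ?_⟩
  · unfold Wf BB
    refine prod_bound _ hB _ _ _ (card_Zs _ s) (fun z => ?_) fun z => ?_
    · exact ((hLAU m hm).1 (Pi fun l => lev κ n (s l) z) (hS.1 _) (hS.2.1 _) 0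
        fun i => z ^ y i).2.1
    · exact ((hLAU m hm).1 (Pi fun l => lev κ n (s l) z) (hS.1 _) (hS.2.1 _) 0
        fun i => z ^ y i).2.2.1
  · obtain ⟨k, A, C, hA, -, hW⟩ := hREP m n κ Pi hm hS
    simp only [hW]
    exact Finset.measurable_sum _ fun i _ => Finset.measurable_prod _ fun r _ => hA i r (y r)
  · unfold Wl BB
    refine prod_bound _ hB _ _ _ (card_Zl _ s) (fun z => ?_) fun z => ?_
    · have hk := (hLAU m hm).2 l fun i => z ^ y i
      have h1 := ee_nonneg n (lev κ n s z)
      have h2 := ee_le_one n (lev κ n s z)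
      have h3 := mul_nonneg (sub_nonneg.mpr h2) hk.1
      linarith
    · have hk := (hLAU m hm).2 l fun i => z ^ y i
      have h1 := ee_nonneg n (lev κ n s z)
      have h2 := ee_le_one n (lev κ n s z)
      have h3 := mul_le_mul_of_nonneg_left hk.2.1 (sub_nonneg.mpr h2)
      nlinarith
  · unfold Wl Zl
    simp only [hLDR ℕ (range (κ (n - 1))) _ id _ Function.injective_id]
    refine Finset.measurable_prod _ fun i _ => ?_
    exact Measurable.ite (meas_first _ i) (meas_F m n κ l y i) measurable_const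

end Pool.Agent.Ind3
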