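import Pool.Agent.Ind3.Targets

set_option autoImplicit false

/-! Target LAU of the project Ind3: Laurent form of the densities. -/

open MeasureTheory Filter Topology Finset

namespace Pool.Agent.Ind3

open Pool.Agent.FSP

namespace LAU_

theorem comb (m : ℕ) (hm : 1 ≤ m) (C : ℝ) (k : ℕ → Circle → ℝ) (hk : ∀ t, Lau m 1 (k t) 1)
    (a b : ℕ → ℝ) (ha : ∀ t, 0 ≤ a t) (hb : ∀ t, 0 ≤ b t) (hab : ∀ t, a t + b t ≤ C) :
    Lau m C (fun z => (2 * m : ℝ)⁻¹ * ∑ t ∈ range (2 * m), (a t * k t z + b t))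
      ((2 * m : ℝ)⁻¹ * ∑ t ∈ range (2 * m), (a t + b t)) := by
  choose c hc1 hc0 hc using hk
  have hmr : (0 : ℝ) < 2 * m := by
    have : (0 : ℝ) < m := by exact_mod_cast hm
    linarith
  refine ⟨fun n => (2 * m : ℂ)⁻¹ * ∑ t ∈ range (2 * m),
    ((a t : ℂ) * c t n + (b t : ℂ) * (if n = 0 then 1 else 0)), fun n => ?_, ?_, fun w => ?_⟩
  · have h1 : ‖(2 * m : ℂ)⁻¹‖ = (2 * m : ℝ)⁻¹ := by
      rw [norm_inv]
      congr 1
      rw [norm_mul, Complex.norm_natCast]
      norm_num
    rw [norm_mul, h1]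
    have h2 : ‖∑ t ∈ range (2 * m), ((a t : ℂ) * c t n + (b t : ℂ) * (if n = 0 then 1 else 0))‖
        ≤ ∑ t ∈ range (2 * m), C := by
      refine (norm_sum_le _ _).trans (Finset.sum_le_sum fun t _ => ?_)
      refine le_trans (norm_add_le _ _) ?_
      have h3 : ‖(a t : ℂ) * c t n‖ ≤ a t := by
        rw [norm_mul, Complex.norm_real, Real.norm_of_nonneg (ha t)]
        exact mul_le_of_le_one_right (ha t) (hc1 t n)
      have h4 : ‖(b t : ℂ) * (if n = 0 then (1 : ℂ) else 0)‖ ≤ b t := by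
        rw [norm_mul, Complex.norm_real, Real.norm_of_nonneg (hb t)]
        apply mul_le_of_le_one_right (hb t)
        split_ifs <;> simp
      linarith [hab t]
    calc (2 * m : ℝ)⁻¹ * ‖∑ t ∈ range (2 * m), ((a t : ℂ) * c t n +
          (b t : ℂ) * (if n = 0 then 1 else 0))‖
        ≤ (2 * m : ℝ)⁻¹ * ∑ t ∈ range (2 * m), C :=
          mul_le_mul_of_nonneg_left h2 (by positivity)
      _ = C := by
          rw [Finset.sum_const, card_range, nsmul_eq_mul]
          push_cast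
          field_simp
  · beta_reduce
    simp only [hc0, if_true]
    push_cast
    simp
  · push_cast
    simp only [hc]
    have h5 : ∀ n : ℤ, (2 * m : ℂ)⁻¹ * ∑ t ∈ range (2 * m),
        ((a t : ℂ) * c t n + (b t : ℂ) * (if n = 0 then 1 else 0)) * (w : ℂ) ^ n
        = (2 * m : ℂ)⁻¹ * (∑ t ∈ range (2 * m),
        ((a t : ℂ) * c t n + (b t : ℂ) * (if n = 0 then 1 else 0))) * (w : ℂ) ^ n := by
      intro n
      rw [← Finset.sum_mul]; ring
    simp only [← h5]
    rw [← Finset.mul_sum, Finset.sum_comm]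
    congr 1
    refine Finset.sum_congr rfl fun t _ => ?_
    have h6 : ∑ n ∈ Finset.Icc (-(m : ℤ)) m, (b t : ℂ) * (if n = 0 then (1 : ℂ) else 0) *
        (w : ℂ) ^ n = b t := by
      rw [Finset.sum_eq_single (0 : ℤ)]
      · simp
      · intro n _ hn
        simp [hn]
      · intro h
        exact absurd (Finset.mem_Icc.2 ⟨by omega, by omega⟩) h
    simp only [add_mul]
    rw [Finset.sum_add_distrib, h6, Finset.mul_sum]
    congr 1
    refine Finset.sum_congr rfl fun n _ => by ring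

theorem DD_eq (m : ℕ) (p : Fin 5 → ℝ) (w : Fin 3 → Circle) : DD m p w =
    (2 * m : ℝ)⁻¹ * ∑ t ∈ range (2 * m),
      (p 0 * (kf m 0 t (w 0) * kf m 1 t (w 1) * kf m 2 t (w 2)) +
        p 1 * (kf m 1 t (w 1) * kf m 2 t (w 2)) + p 2 * (kf m 0 t (w 0) * kf m 2 t (w 2)) +
        p 3 * (kf m 0 t (w 0) * kf m 1 t (w 1)) + p 4) := by
  unfold DD
  congr 1
  refine Finset.sum_congr rfl fun t _ => ?_
  simp [Fin.sum_univ_five, Fin.prod_univ_three, act]

theorem kap_eq (m : ℕ) (w : Fin 3 → Circle) :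
    kap m 0 w = (2 * m : ℝ)⁻¹ * ∑ t ∈ range (2 * m), (kf m 1 t (w 1) * kf m 2 t (w 2)) ∧
    kap m 1 w = (2 * m : ℝ)⁻¹ * ∑ t ∈ range (2 * m), (kf m 0 t (w 0) * kf m 2 t (w 2)) ∧
    kap m 2 w = (2 * m : ℝ)⁻¹ * ∑ t ∈ range (2 * m), (kf m 0 t (w 0) * kf m 1 t (w 1)) := by
  unfold kap
  refine ⟨?_, ?_, ?_⟩ <;>
  · congr 1
    refine Finset.sum_congr rfl fun t _ => ?_
    simp [Fin.prod_univ_three]

theorem nu_eq (p : Fin 5 → ℝ) : nu p 0 = p 0 + p 1 ∧ nu p 1 = p 0 + p 2 ∧ nu p 2 = p 0 + p 3 :=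
  ⟨rfl, rfl, rfl⟩

end LAU_

open LAU_

theorem p_LAU (hKFL : T_KFL) : T_LAU := by
  intro m hm
  have hmr : (1 : ℝ) ≤ m := by exact_mod_cast hm
  have hm0 : (0 : ℝ) < 2 * m := by linarith
  have K0 : ∀ i t w, 0 ≤ kf m i t w := fun i t w => ((hKFL m hm i).2.1 t w).1
  have K1 : ∀ i t w, kf m i t w ≤ m := fun i t w => ((hKFL m hm i).2.1 t w).2
  have KL : ∀ i t, Lau m 1 (kf m i t) 1 := fun i t => (hKFL m hm i).1 t
  have KM : ∀ i w, (2 * m : ℝ)⁻¹ * ∑ t ∈ range (2 * m), kf m i t w = 1 :=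
    fun i w => (hKFL m hm i).2.2 w
  have hmm : (m : ℝ) ≤ (m : ℝ) ^ 2 := by nlinarith
  have hm1 : (1 : ℝ) ≤ (m : ℝ) ^ 2 := by nlinarith
  have K2 : ∀ i j t w w', kf m i t w * kf m j t w' ≤ (m : ℝ) ^ 2 := by
    intro i j t w w'
    rw [sq]
    exact mul_le_mul (K1 i t w) (K1 j t w') (K0 j t w') (by linarith)
  have K20 : ∀ i j t w w', 0 ≤ kf m i t w * kf m j t w' := fun i j t w w' =>
    mul_nonneg (K0 i t w) (K0 j t w')
  have hconst : ∀ r : ℝ, (2 * m : ℝ)⁻¹ * ∑ t ∈ range (2 * m), r = r := by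
    intro r
    rw [Finset.sum_const, card_range, nsmul_eq_mul]
    push_cast
    field_simp
  refine ⟨fun p hp hp1 l w => ?_, fun l w => ?_⟩
  · rw [Fin.sum_univ_five] at hp1
    have hp1' : p 0 + p 1 + p 2 + p 3 + p 4 = 1 := hp1
    have q0 := hp 0
    have q1 := hp 1
    have q2 := hp 2
    have q3 := hp 3
    have q4 := hp 4
    obtain ⟨n0, n1, n2⟩ := nu_eq p
    have hDD0 : 0 ≤ DD m p w := by
      rw [DD_eq]
      apply mul_nonneg (by positivity)
      apply Finset.sum_nonneg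
      intro t _
      have a0 := K0 0 t (w 0)
      have a1 := K0 1 t (w 1)
      have a2 := K0 2 t (w 2)
      positivity
    have hDD1 : DD m p w ≤ (m : ℝ) ^ 3 := by
      rw [DD_eq]
      have h1 : ∀ t ∈ range (2 * m),
          (p 0 * (kf m 0 t (w 0) * kf m 1 t (w 1) * kf m 2 t (w 2)) +
          p 1 * (kf m 1 t (w 1) * kf m 2 t (w 2)) + p 2 * (kf m 0 t (w 0) * kf m 2 t (w 2)) +
          p 3 * (kf m 0 t (w 0) * kf m 1 t (w 1)) + p 4) ≤ (m : ℝ) ^ 3 := by
        intro t _
        have b3 : kf m 0 t (w 0) * kf m 1 t (w 1) * kf m 2 t (w 2) ≤ (m : ℝ) ^ 3 := by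
          calc kf m 0 t (w 0) * kf m 1 t (w 1) * kf m 2 t (w 2) ≤ (m : ℝ) ^ 2 * m :=
                mul_le_mul (K2 0 1 t _ _) (K1 2 t _) (K0 2 t _) (by positivity)
            _ = (m : ℝ) ^ 3 := by ring
        have b2 : (m : ℝ) ^ 2 ≤ (m : ℝ) ^ 3 := by nlinarith
        have c1 := mul_le_mul_of_nonneg_left b3 q0
        have c2 := mul_le_mul_of_nonneg_left ((K2 1 2 t (w 1) (w 2)).trans b2) q1
        have c3 := mul_le_mul_of_nonneg_left ((K2 0 2 t (w 0) (w 2)).trans b2) q2
        have c4 := mul_le_mul_of_nonneg_left ((K2 0 1 t (w 0) (w 1)).trans b2) q3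
        have c5 := mul_le_mul_of_nonneg_left (hm1.trans b2) q4
        have : p 0 * (m : ℝ) ^ 3 + p 1 * (m : ℝ) ^ 3 + p 2 * (m : ℝ) ^ 3 + p 3 * (m : ℝ) ^ 3
            + p 4 * (m : ℝ) ^ 3 = (m : ℝ) ^ 3 := by
          rw [← add_mul, ← add_mul, ← add_mul, ← add_mul, hp1', one_mul]
        linarith
      calc _ ≤ (2 * m : ℝ)⁻¹ * ∑ t ∈ range (2 * m), (m : ℝ) ^ 3 :=
            mul_le_mul_of_nonneg_left (Finset.sum_le_sum h1) (by positivity)
        _ = (m : ℝ) ^ 3 := hconst _
    refine ⟨?_, hDD0, hDD1, ?_, ?_⟩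
    · have key : ∀ (i j k : Fin 3) (r0 r1 r2 r3 r4 : ℝ), 0 ≤ r0 → 0 ≤ r1 → 0 ≤ r2 → 0 ≤ r3 →
          0 ≤ r4 → r0 + r1 + r2 + r3 + r4 = 1 →
          Lau m ((m : ℝ) ^ 2) (fun z => (2 * m : ℝ)⁻¹ * ∑ t ∈ range (2 * m),
            ((r0 * (kf m j t (w j) * kf m k t (w k)) + r2 * kf m k t (w k) +
              r3 * kf m j t (w j)) * kf m i t z +
              (r1 * (kf m j t (w j) * kf m k t (w k)) + r4)))
            ((r0 + r1) * ((2 * m : ℝ)⁻¹ * ∑ t ∈ range (2 * m),
              (kf m j t (w j) * kf m k t (w k))) + (1 - (r0 + r1))) := by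
        intro i j k r0 r1 r2 r3 r4 s0 s1 s2 s3 s4 hs
        have h1 := comb m hm ((m : ℝ) ^ 2) (fun t => kf m i t) (fun t => KL i t)
          (fun t => r0 * (kf m j t (w j) * kf m k t (w k)) + r2 * kf m k t (w k) +
              r3 * kf m j t (w j)) (fun t => r1 * (kf m j t (w j) * kf m k t (w k)) + r4)
          (fun t => by
            have a1 := K0 j t (w j)
            have a2 := K0 k t (w k)
            positivity)
          (fun t => by
            have a1 := K0 j t (w j)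
            have a2 := K0 k t (w k)
            positivity)
          (fun t => by
            have c1 := mul_le_mul_of_nonneg_left (K2 j k t (w j) (w k)) s0
            have c2 := mul_le_mul_of_nonneg_left (K2 j k t (w j) (w k)) s1
            have c3 := mul_le_mul_of_nonneg_left ((K1 k t (w k)).trans hmm) s2
            have c4 := mul_le_mul_of_nonneg_left ((K1 j t (w j)).trans hmm) s3
            have c5 := mul_le_mul_of_nonneg_left hm1 s4
            have : r0 * (m : ℝ) ^ 2 + r1 * (m : ℝ) ^ 2 + r2 * (m : ℝ) ^ 2 + r3 * (m : ℝ) ^ 2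
                + r4 * (m : ℝ) ^ 2 = (m : ℝ) ^ 2 := by
              rw [← add_mul, ← add_mul, ← add_mul, ← add_mul, hs, one_mul]
            linarith)
        have h2 : (2 * m : ℝ)⁻¹ * ∑ t ∈ range (2 * m),
            ((r0 * (kf m j t (w j) * kf m k t (w k)) + r2 * kf m k t (w k) +
              r3 * kf m j t (w j)) + (r1 * (kf m j t (w j) * kf m k t (w k)) + r4))
            = (r0 + r1) * ((2 * m : ℝ)⁻¹ * ∑ t ∈ range (2 * m),
              (kf m j t (w j) * kf m k t (w k))) + (1 - (r0 + r1)) := by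
          have e1 : ∀ t, ((r0 * (kf m j t (w j) * kf m k t (w k)) + r2 * kf m k t (w k) +
              r3 * kf m j t (w j)) + (r1 * (kf m j t (w j) * kf m k t (w k)) + r4))
              = (r0 + r1) * (kf m j t (w j) * kf m k t (w k)) + r2 * kf m k t (w k) +
                r3 * kf m j t (w j) + r4 := by intro t; ring
          simp only [e1, Finset.sum_add_distrib, ← Finset.mul_sum]
          have e2 := KM k (w k)
          have e3 := KM j (w j)
          have e4 := hconst r4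
          calc (2 * m : ℝ)⁻¹ * ((r0 + r1) * ∑ t ∈ range (2 * m), kf m j t (w j) * kf m k t (w k)
                + r2 * ∑ t ∈ range (2 * m), kf m k t (w k)
                + r3 * ∑ t ∈ range (2 * m), kf m j t (w j) + ∑ t ∈ range (2 * m), r4)
              = (r0 + r1) * ((2 * m : ℝ)⁻¹ * ∑ t ∈ range (2 * m),
                kf m j t (w j) * kf m k t (w k))
                + r2 * ((2 * m : ℝ)⁻¹ * ∑ t ∈ range (2 * m), kf m k t (w k))
                + r3 * ((2 * m : ℝ)⁻¹ * ∑ t ∈ range (2 * m), kf m j t (w j))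
                + (2 * m : ℝ)⁻¹ * ∑ t ∈ range (2 * m), r4 := by ring
            _ = _ := by rw [e2, e3, e4]; linarith
        rw [h2] at h1
        exact h1
      obtain ⟨k0, k1, k2⟩ := kap_eq m w
      fin_cases l
      · have h3 := key 0 1 2 (p 0) (p 1) (p 2) (p 3) (p 4) q0 q1 q2 q3 q4 hp1'
        show Lau m ((m : ℝ) ^ 2) (fun z => DD m p (Function.update w 0 z))
          (nu p 0 * kap m 0 w + (1 - nu p 0))
        rw [n0, k0]
        convert h3 using 2 with z
        rw [DD_eq]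
        congr 1
        refine Finset.sum_congr rfl fun t _ => ?_
        simp [Function.update]
        ring
      · have h3 := key 1 0 2 (p 0) (p 2) (p 1) (p 3) (p 4) q0 q2 q1 q3 q4 (by linarith)
        show Lau m ((m : ℝ) ^ 2) (fun z => DD m p (Function.update w 1 z))
          (nu p 1 * kap m 1 w + (1 - nu p 1))
        rw [n1, k1]
        convert h3 using 2 with z
        rw [DD_eq]
        congr 1
        refine Finset.sum_congr rfl fun t _ => ?_
        simp [Function.update]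
        ring
      · have h3 := key 2 0 1 (p 0) (p 3) (p 1) (p 2) (p 4) q0 q3 q1 q2 q4 (by linarith)
        show Lau m ((m : ℝ) ^ 2) (fun z => DD m p (Function.update w 2 z))
          (nu p 2 * kap m 2 w + (1 - nu p 2))
        rw [n2, k2]
        convert h3 using 2 with z
        rw [DD_eq]
        congr 1
        refine Finset.sum_congr rfl fun t _ => ?_
        simp [Function.update]
        ring
    · fin_cases l
      · show 0 ≤ nu p 0
        rw [n0]; linarith
      · show 0 ≤ nu p 1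
        rw [n1]; linarith
      · show 0 ≤ nu p 2
        rw [n2]; linarith
    · fin_cases l
      · show nu p 0 ≤ 1
        rw [n0]; linarith
      · show nu p 1 ≤ 1
        rw [n1]; linarith
      · show nu p 2 ≤ 1
        rw [n2]; linarith
  · have kk0 : ∀ i j, 0 ≤ (2 * m : ℝ)⁻¹ *
        ∑ t ∈ range (2 * m), (kf m i t (w i) * kf m j t (w j)) := by
      intro i j
      apply mul_nonneg (by positivity)
      apply Finset.sum_nonneg
      intro t _
      exact K20 i j t _ _
    have kk1 : ∀ i j, (2 * m : ℝ)⁻¹ * ∑ t ∈ range (2 * m), (kf m i t (w i) * kf m j t (w j))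
        ≤ (m : ℝ) ^ 2 := by
      intro i j
      calc _ ≤ (2 * m : ℝ)⁻¹ * ∑ t ∈ range (2 * m), (m : ℝ) ^ 2 :=
            mul_le_mul_of_nonneg_left (Finset.sum_le_sum fun t _ => K2 i j t _ _) (by positivity)
        _ = (m : ℝ) ^ 2 := hconst _
    have kkL : ∀ (i j : Fin 3) (ν : ℝ), 0 ≤ ν → ν ≤ 1 →
        Lau m ((m : ℝ) ^ 2) (fun z => ν * ((2 * m : ℝ)⁻¹ * ∑ t ∈ range (2 * m),
          (kf m i t z * kf m j t (w j))) + (1 - ν)) 1 := by
      intro i j ν h0 h1
      have h2 := comb m hm ((m : ℝ) ^ 2) (fun t => kf m i t) (fun t => KL i t)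
        (fun t => ν * kf m j t (w j)) (fun _ => 1 - ν)
        (fun t => mul_nonneg h0 (K0 j t _)) (fun _ => by linarith)
        (fun t => by
          have c1 := mul_le_mul_of_nonneg_left ((K1 j t (w j)).trans hmm) h0
          have c2 := mul_le_mul_of_nonneg_left hm1 (show 0 ≤ 1 - ν by linarith)
          nlinarith)
      have e1 : (2 * m : ℝ)⁻¹ * ∑ t ∈ range (2 * m), (ν * kf m j t (w j) + (1 - ν)) = 1 := by
        rw [Finset.sum_add_distrib, mul_add, hconst, ← Finset.mul_sum, mul_left_comm, KM]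
        ring
      rw [e1] at h2
      convert h2 using 2 with z
      rw [Finset.sum_add_distrib, mul_add, hconst]
      congr 1
      rw [mul_left_comm, Finset.mul_sum]
      congr 1
      refine Finset.sum_congr rfl fun t _ => by ring
    have kkR : ∀ (i j : Fin 3) (ν : ℝ), 0 ≤ ν → ν ≤ 1 →
        Lau m ((m : ℝ) ^ 2) (fun z => ν * ((2 * m : ℝ)⁻¹ * ∑ t ∈ range (2 * m),
          (kf m j t (w j) * kf m i t z)) + (1 - ν)) 1 := by
      intro i j ν h0 h1
      convert kkL i j ν h0 h1 using 6 with z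
      rename_i t
      ring
    obtain ⟨k0, k1, k2⟩ := kap_eq m w
    fin_cases l
    · show 0 ≤ kap m 0 w ∧ kap m 0 w ≤ (m : ℝ) ^ 2 ∧
        (∀ z, kap m 0 (Function.update w 0 z) = kap m 0 w) ∧ ∀ (ν : ℝ), 0 ≤ ν → ν ≤ 1 →
        ∀ i, i ≠ (0 : Fin 3) → Lau m ((m : ℝ) ^ 2)
          (fun z => ν * kap m 0 (Function.update w i z) + (1 - ν)) 1
      refine ⟨by rw [k0]; exact kk0 1 2, by rw [k0]; exact kk1 1 2, fun z => ?_,
        fun ν h0 h1 i hi => ?_⟩
      · rw [(kap_eq m _).1, k0]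
        simp [Function.update]
      · fin_cases i
        · exact absurd rfl hi
        · convert kkL 1 2 ν h0 h1 using 2 with z
          rw [(kap_eq m _).1]
          simp [Function.update]
        · convert kkR 2 1 ν h0 h1 using 2 with z
          rw [(kap_eq m _).1]
          simp [Function.update]
    · show 0 ≤ kap m 1 w ∧ kap m 1 w ≤ (m : ℝ) ^ 2 ∧
        (∀ z, kap m 1 (Function.update w 1 z) = kap m 1 w) ∧ ∀ (ν : ℝ), 0 ≤ ν → ν ≤ 1 →
        ∀ i, i ≠ (1 : Fin 3) → Lau m ((m : ℝ) ^ 2)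
          (fun z => ν * kap m 1 (Function.update w i z) + (1 - ν)) 1
      refine ⟨by rw [k1]; exact kk0 0 2, by rw [k1]; exact kk1 0 2, fun z => ?_,
        fun ν h0 h1 i hi => ?_⟩
      · rw [(kap_eq m _).2.1, k1]
        simp [Function.update]
      · fin_cases i
        · convert kkL 0 2 ν h0 h1 using 2 with z
          rw [(kap_eq m _).2.1]
          simp [Function.update]
        · exact absurd rfl hi
        · convert kkR 2 0 ν h0 h1 using 2 with z
          rw [(kap_eq m _).2.1]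
          simp [Function.update]
    · show 0 ≤ kap m 2 w ∧ kap m 2 w ≤ (m : ℝ) ^ 2 ∧
        (∀ z, kap m 2 (Function.update w 2 z) = kap m 2 w) ∧ ∀ (ν : ℝ), 0 ≤ ν → ν ≤ 1 →
        ∀ i, i ≠ (2 : Fin 3) → Lau m ((m : ℝ) ^ 2)
          (fun z => ν * kap m 2 (Function.update w i z) + (1 - ν)) 1
      refine ⟨by rw [k2]; exact kk0 0 1, by rw [k2]; exact kk1 0 1, fun z => ?_,
        fun ν h0 h1 i hi => ?_⟩
      · rw [(kap_eq m _).2.2, k2]
        simp [Function.update]
      · fin_cases i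
        · convert kkL 0 1 ν h0 h1 using 2 with z
          rw [(kap_eq m _).2.2]
          simp [Function.update]
        · convert kkR 1 0 ν h0 h1 using 2 with z
          rw [(kap_eq m _).2.2]
          simp [Function.update]
        · exact absurd rfl hi

end Pool.Agent.Ind3
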