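import Pool.Agent.FSP.Targets

set_option autoImplicit false

/-!
# Ind3: multiple recurrence when the generalised eigenvalues of all three maps have independent
generators (MP_cfac66_an, ideas row 4710, Theorem IND).

Roles: `l : Fin 3`; `0` is the map `R`, `1` is the map `S`, `2` is the map `T`. Three variables
`y 0, y 1, y 2`; the time of role `l` is `tm l y`, which does not depend on `y l`:
`tm 2 y = 2 y 0 + y 1` (T), `tm 0 y = 2 y 2 - y 1` (R), `tm 1 y = y 0 + y 2` (S), so that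
`tm 0 y + tm 2 y = 2 tm 1 y`.
-/

open MeasureTheory Filter Topology Finset

namespace Pool.Agent.Ind3

open Pool.Agent.FSP

universe u

/-- Window mean. -/
noncomputable def mean (N s : ℕ) (f : ℕ → ℝ) : ℝ := (N : ℝ)⁻¹ * ∑ n ∈ range N, f (s + n)

/-- The windows: `y 0 ∈ [N, 2N)`, `y 1 ∈ [0, N)`, `y 2 ∈ [3N, 4N)`. -/
def off : Fin 3 → ℕ := ![1, 0, 3]

/-- Triple mean over the windows. -/
noncomputable def avg3 (N : ℕ) (F : (Fin 3 → ℕ) → ℝ) : ℝ :=
  mean N N fun a => mean N 0 fun b => mean N (3 * N) fun c => F ![a, b, c]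

/-- The times of the three roles. -/
def tm (l : Fin 3) (y : Fin 3 → ℕ) : ℕ := ![2 * y 2 - y 1, y 0 + y 2, 2 * y 0 + y 1] l

/-- The corresponding combination of three circle elements. -/
noncomputable def cmb (l : Fin 3) (w : Fin 3 → Circle) : Circle :=
  ![w 2 ^ 2 * (w 1)⁻¹, w 0 * w 2, w 0 ^ 2 * w 1] l

/-! ## Kernels -/

/-- The `2m`-th roots of unity. -/
noncomputable def rt (m t : ℕ) : Circle := Circle.exp (2 * Real.pi * t / (2 * m))

/-- Exponents of the three factors. -/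
def ex : Fin 3 → ℤ := ![-1, 2, 1]

/-- The `i`-th factor: a Fejer kernel at `w * (rt m t)^(ex i)`. -/
noncomputable def kf (m : ℕ) (i : Fin 3) (t : ℕ) (w : Circle) : ℝ := kk m (w * rt m t ^ ex i)

/-- Types of a coordinate: `0` all three roles near `1`, `l + 1` only role `l`, `4` none. In type
`τ` the factor `i` is present iff `act τ i`. -/
def act (τ : Fin 5) (i : Fin 3) : Prop := τ ≠ 4 ∧ (τ : ℕ) ≠ (i : ℕ) + 1

instance (τ : Fin 5) (i : Fin 3) : Decidable (act τ i) := by unfold act; infer_instance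

/-- The density of one coordinate, for a probability vector `p` of types. -/
noncomputable def DD (m : ℕ) (p : Fin 5 → ℝ) (w : Fin 3 → Circle) : ℝ :=
  (2 * m : ℝ)⁻¹ * ∑ t ∈ range (2 * m), ∑ τ : Fin 5,
    p τ * ∏ i : Fin 3, (if act τ i then kf m i t (w i) else 1)

/-- The kernel of role `l` (it does not depend on `w l`). -/
noncomputable def kap (m : ℕ) (l : Fin 3) (w : Fin 3 → Circle) : ℝ :=
  (2 * m : ℝ)⁻¹ * ∑ t ∈ range (2 * m), ∏ i : Fin 3, (if i ≠ l then kf m i t (w i) else 1)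

/-- The probability that role `l` is near `1`. -/
def nu (p : Fin 5 → ℝ) (l : Fin 3) : ℝ := p 0 + p ⟨(l : ℕ) + 1, by omega⟩

/-- `G` is a Laurent polynomial of degree at most `m` with coefficients bounded by `C` and
constant coefficient `c0`. -/
def Lau (m : ℕ) (C : ℝ) (G : Circle → ℝ) (c0 : ℝ) : Prop :=
  ∃ c : ℤ → ℂ, (∀ n, ‖c n‖ ≤ C) ∧ c 0 = (c0 : ℂ) ∧
    ∀ w : Circle, ((G w : ℝ) : ℂ) = ∑ n ∈ Finset.Icc (-(m : ℤ)) m, c n * (w : ℂ) ^ n

/-! ## Independence and almost periodicity -/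

/-- Multiplicative independence. -/
def Ind (S : Set Circle) : Prop :=
  ∀ (s : Finset Circle), (↑s : Set Circle) ⊆ S → ∀ n : Circle → ℤ, ∏ z ∈ s, z ^ n z = 1 →
    ∀ z ∈ s, n z = 0

/-- `φ` is bounded by one and, from `s` on, almost periodic with error `ε` along `q h` for the `h`
in a Bohr set with frequencies `τ` and radius `ρ`. -/
def PP (q : ℕ) (ρ : ℝ) (τ : Finset Circle) (ε : ℝ) (s : ℕ) (φ : ℕ → ℝ) : Prop :=
  (∀ y, |φ y| ≤ 1) ∧
    ∀ y h : ℕ, s ≤ y → (∀ z ∈ τ, ‖(z : ℂ) ^ h - 1‖ ≤ ρ) → |φ (y + q * h) - φ y| ≤ ε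

/-! ## Levels and weights, for fixed lists `s l : ℕ → Circle` -/

/-- Noise of a level. -/
noncomputable def ee (n a : ℕ) : ℝ := (1 / 2 : ℝ) ^ (n - a)

open Classical in
/-- The level of `z` in the list `s`: the least `a < n` with `z ∈ {s j | j < κ a}`, else `n`. -/
noncomputable def lev (κ : ℕ → ℕ) (n : ℕ) (s : ℕ → Circle) (z : Circle) : ℕ :=
  ((range n).filter fun a => ∀ j < κ a, s j ≠ z).card

/-- The lists are good: a value which occurs early in one list, and occurs in another list, occurs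
early there. -/
def Good (κ : ℕ → ℕ) (s : Fin 3 → ℕ → Circle) : Prop :=
  ∀ (a : ℕ) (l l' : Fin 3), ∀ j < κ a, (∃ i, s l' i = s l j) → ∃ i < κ (a + 1), s l' i = s l j

/-- The specification of the probability vectors. -/
def Spec (n : ℕ) (Pi : (Fin 3 → ℕ) → Fin 5 → ℝ) : Prop :=
  (∀ a τ, 0 ≤ Pi a τ) ∧ (∀ a, ∑ τ, Pi a τ = 1) ∧
  ∀ a : Fin 3 → ℕ, (∀ l, a l ≤ n) → (∀ l l', a l + 2 ≤ n → a l' < n → a l' ≤ a l + 1) →
    ∀ l, (a l < n → nu (Pi a) l = 1 - ee n (a l)) ∧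
      (a l = n → nu (Pi a) l ≠ 0 → ∃ l', a l' + 2 ≤ n)

open Classical in
/-- The values different from `1` in the first `K` places of the three lists. -/
noncomputable def Zs (K : ℕ) (s : Fin 3 → ℕ → Circle) : Finset Circle :=
  ((univ ×ˢ range K).image fun p : Fin 3 × ℕ => s p.1 p.2).erase 1

open Classical in
/-- The values different from `1` in the first `K` places of one list. -/
noncomputable def Zl (K : ℕ) (s : ℕ → Circle) : Finset Circle := ((range K).image s).erase 1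

/-- The weight of the triple `y`. -/
noncomputable def Wf (m n : ℕ) (κ : ℕ → ℕ) (Pi : (Fin 3 → ℕ) → Fin 5 → ℝ)
    (s : Fin 3 → ℕ → Circle) (y : Fin 3 → ℕ) : ℝ :=
  ∏ z ∈ Zs (κ (n - 1)) s, DD m (Pi fun l => lev κ n (s l) z) fun i => z ^ y i

/-- The weight of role `l`; it depends on the list of role `l` only and not on `y l`. -/
noncomputable def Wl (m n : ℕ) (κ : ℕ → ℕ) (l : Fin 3) (s : ℕ → Circle) (y : Fin 3 → ℕ) : ℝ :=
  ∏ z ∈ Zl (κ (n - 1)) s, ((1 - ee n (lev κ n s z)) * kap m l (fun i => z ^ y i)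
    + ee n (lev κ n s z))

/-- The bound for the weights. -/
noncomputable def BB (m K : ℕ) : ℝ := ((m : ℝ) ^ 3) ^ (3 * K)

/-- The constant of the splitting estimate. -/
noncomputable def CC (m k : ℕ) : ℝ := (k : ℝ) * ((2 * m + 1) * (m : ℝ) ^ 2) ^ k

section

variable {Ω : Type u} [MeasurableSpace Ω]

/-- The lists at the point `x`. -/
def sv (θ : Fin 3 → ℕ → Ω → Circle) (x : Ω) : Fin 3 → ℕ → Circle := fun l j => θ l j x

/-- The values different from `1` of all three lists are independent. -/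
def IndAt (s : Fin 3 → ℕ → Circle) : Prop := Ind {z | z ≠ 1 ∧ ∃ l j, s l j = z}

/-- Frequencies. -/
def FF (θ : ℕ → Ω → Circle) : Set (Ω → Circle) := Set.range θ ∪ {fun _ => 1}

/-- Some power of `lam x` is a monomial in the values `θ j x`. -/
def RelN (θ : ℕ → Ω → Circle) (lam : Ω → Circle) (x : Ω) : Prop :=
  ∃ n : ℕ, 1 ≤ n ∧ ∃ (k : ℕ) (a : Fin k → ℤ), lam x ^ n = ∏ j : Fin k, θ j x ^ a j

/-- The list `θ` generates the generalised eigenvalues of `Q`. -/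
def Gen (μ : Measure Ω) (Q : Ω → Ω) (θ : ℕ → Ω → Circle) : Prop :=
  ∀ (v : Ω → ℂ) (lam : Ω → Circle), Measurable v → Measurable lam → (∀ x, lam (Q x) = lam x) →
    (∀ᵐ x ∂μ, v (Q x) = (lam x : ℂ) * v x) → ∀ᵐ x ∂μ, v x ≠ 0 → RelN θ lam x

/-- Averages of `g (B^(q i) P^(q j) x)` against bounded arrays tend to `0`. -/
def GV (μ : Measure Ω) (B P : Ω → Ω) (g : Ω → ℝ) : Prop :=
  ∀ (q : ℕ) (W ε : ℝ), 1 ≤ q → 0 < ε → ∃ H : ℕ, 0 < H ∧ ∃ L₀ : ℕ, ∀ L ≥ L₀, ∀ s s' : ℕ,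
    ∀ u v : ℕ → Ω → ℝ, (∀ n, Measurable (u n)) → (∀ n, Measurable (v n)) →
    (∀ n x, |u n x| ≤ W) → (∀ n x, |v n x| ≤ W) →
    ∫ x, |mean (H * L) s' fun j => mean (H * L) s fun i =>
      u i x * v j x * g (B^[q * i] (P^[q * j] x))| ∂μ ≤ ε

/-- The `L²` functions which are limits of functions that are almost periodic for every error. -/
def InF (μ : Measure Ω) (T : Ω → Ω) (F : Set (Ω → Circle)) (h : Lp ℝ 2 μ) : Prop :=
  ∀ ε : ℝ, 0 < ε → ∃ p : Ω → ℝ, Measurable p ∧ (∀ ε' : ℝ, 0 < ε' → AP μ T F ε' p) ∧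
    ∃ hp : MemLp p 2 μ, ‖h - hp.toLp p‖ ≤ ε

/-- `c` is approximated in `L¹` by almost periodic functions with values in `[0,1]`. -/
def APL (μ : Measure Ω) (Q : Ω → Ω) (θ : ℕ → Ω → Circle) (c : Ω → ℝ) : Prop :=
  ∀ ε : ℝ, 0 < ε → ∃ p : Ω → ℝ, Measurable p ∧ (∀ x, 0 ≤ p x) ∧ (∀ x, p x ≤ 1) ∧
    ∫ x, |c x - p x| ∂μ ≤ ε ∧ ∀ ε' : ℝ, 0 < ε' → AP μ Q (FF θ) ε' p

/-- Pointwise almost periodicity of `p` along the orbits of `Q`. -/
def APP (μ : Measure Ω) (Q : Ω → Ω) (θ : ℕ → Ω → Circle) (ε : ℝ) (p : Ω → ℝ) : Prop :=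
  ∃ (q K : ℕ) (ρ : ℝ), 1 ≤ q ∧ 0 < ρ ∧ ∀ᵐ x ∂μ, ∀ t h : ℕ,
    (∀ j < K, ‖(θ j x : ℂ) ^ h - 1‖ ≤ ρ) → |p (Q^[t + q * h] x) - p (Q^[t] x)| ≤ ε

end

end Pool.Agent.Ind3
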