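import Pool.Agent.Ind3.Targets
import Pool.Agent.FSP.Final

/-!
# Ind3, block COM (helper65)
-/

set_option autoImplicit false

open MeasureTheory Filter Topology Finset

namespace Pool.Agent.Ind3

open Pool.Agent.FSP

universe u

theorem p_COM : T_DCP.{u} → T_ORN.{u} → T_COM.{u} := by
  intro hD hO Ω _ μ _ Q hQ θ hθ hθQ hGen A hA
  have hF : ∀ φ ∈ FF θ, Measurable φ ∧ ∀ x, φ (Q x) = φ x := by
    rintro φ (⟨j, rfl⟩ | h)
    · exact ⟨hθ j, hθQ j⟩
    · have h1 : φ = fun _ => 1 := h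
      subst h1
      exact ⟨measurable_const, fun _ => rfl⟩
  obtain ⟨c, g, hc, hg, hc0, hc1, hg1, hcg, happ, hort, hpos⟩ := hD Ω μ Q hQ (FF θ) hF A hA
  exact ⟨c, g, hc, hg, hc0, hc1, hg1, hcg, happ,
    f_RWM Ω μ Q hQ g hg hg1 fun v lam hv hlam hlamQ hev hint =>
      hO Ω μ Q hQ θ hθ hθQ g hg hg1 hort v lam hv hlam hlamQ hev
        (hGen v lam hv hlam hlamQ hev) hint, hpos⟩

end Pool.Agent.Ind3
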