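import Pool.Agent.Ind3.Targets
import Pool.Agent.FSP.Final

set_option autoImplicit false

/-!
# Ind3-DE1: decorrelation of one character from an almost periodic sequence
-/

open MeasureTheory Filter Topology Finset

namespace Pool.Agent.Ind3

open Pool.Agent.FSP

theorem DE1_geo (z : Circle) (hz : z ≠ 1) (ε : ℝ) (hε : 0 < ε) :
    ∃ N₀ : ℕ, ∀ N ≥ N₀, ‖(N : ℂ)⁻¹ * ∑ n ∈ range N, (z : ℂ) ^ n‖ ≤ ε := by
  have hz' : (z : ℂ) ≠ 1 := fun h => hz (Circle.ext (by rw [h, Circle.coe_one]))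
  have hpos : 0 < ‖(z : ℂ) - 1‖ := norm_pos_iff.mpr (sub_ne_zero.mpr hz')
  obtain ⟨N₀, hN₀⟩ := exists_nat_gt (2 / (‖(z : ℂ) - 1‖ * ε))
  refine ⟨N₀ + 1, fun N hN => ?_⟩
  have hNpos : (0 : ℝ) < N := by exact_mod_cast (by omega : 0 < N)
  have h1 : ‖∑ n ∈ range N, (z : ℂ) ^ n‖ ≤ 2 / ‖(z : ℂ) - 1‖ := by
    rw [geom_sum_eq hz', norm_div]
    gcongr
    calc ‖(z : ℂ) ^ N - 1‖ ≤ ‖(z : ℂ) ^ N‖ + ‖(1 : ℂ)‖ := norm_sub_le _ _
      _ = 2 := by rw [norm_pow, Circle.norm_coe, one_pow, norm_one]; norm_num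
  rw [norm_mul, norm_inv, Complex.norm_natCast]
  have h2 : (N₀ : ℝ) ≤ N := by exact_mod_cast (by omega : N₀ ≤ N)
  calc (N : ℝ)⁻¹ * ‖∑ n ∈ range N, (z : ℂ) ^ n‖ ≤ (N : ℝ)⁻¹ * (2 / ‖(z : ℂ) - 1‖) := by
        gcongr
    _ ≤ ε := by
        rw [inv_mul_le_iff₀ hNpos]
        have h3 : 2 / (‖(z : ℂ) - 1‖ * ε) < N := lt_of_lt_of_le hN₀ h2
        rw [div_lt_iff₀ (mul_pos hpos hε)] at h3
        rw [div_le_iff₀ hpos]
        nlinarith

/-- Finitely many characters at once. -/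
theorem DE1_geoFin {ι : Type} (I : Finset ι) (z : ι → Circle) (hz : ∀ i ∈ I, z i ≠ 1) (ε : ℝ)
    (hε : 0 < ε) : ∃ N₀ : ℕ, ∀ N ≥ N₀, ∀ i ∈ I,
      ‖(N : ℂ)⁻¹ * ∑ n ∈ range N, (z i : ℂ) ^ n‖ ≤ ε := by
  classical
  induction I using Finset.induction_on with
  | empty => exact ⟨0, fun N _ i hi => absurd hi (Finset.notMem_empty i)⟩
  | insert a s ha ih =>
      obtain ⟨N₁, h1⟩ := ih fun i hi => hz i (Finset.mem_insert_of_mem hi)
      obtain ⟨N₂, h2⟩ := DE1_geo (z a) (hz a (Finset.mem_insert_self _ _)) ε hε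
      refine ⟨max N₁ N₂, fun N hN i hi => ?_⟩
      rcases Finset.mem_insert.mp hi with h | h
      · rw [h]; exact h2 N (le_trans (le_max_right _ _) hN)
      · exact h1 N (le_trans (le_max_left _ _) hN) i h

/-- The frequencies as functions on one point. -/
noncomputable def DE1_t (τ : Finset Circle) : Fin τ.card → Unit → Circle :=
  fun l _ => (τ.equivFin.symm l : Circle)

theorem DE1_mem_bohr (τ : Finset Circle) (ρ : ℝ) (n : ℕ) :
    () ∈ bohr (DE1_t τ) ρ n ↔ ∀ z ∈ τ, ‖(z : ℂ) ^ n - 1‖ ≤ ρ := by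
  constructor
  · intro h z hz
    have h1 := h (τ.equivFin ⟨z, hz⟩)
    unfold DE1_t at h1
    rw [Equiv.symm_apply_apply] at h1
    exact h1
  · intro h l
    exact h _ (τ.equivFin.symm l).2

theorem DE1_chr (τ : Finset Circle) {m : ℕ} (p : Fin τ.card → Fin m × Fin m) :
    chr (DE1_t τ) p () ∈ Subgroup.closure (↑τ : Set Circle) := by
  unfold chr
  refine Subgroup.prod_mem _ fun l _ => ?_
  have h1 : DE1_t τ l () ∈ Subgroup.closure (↑τ : Set Circle) :=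
    Subgroup.subset_closure (τ.equivFin.symm l).2
  exact Subgroup.mul_mem _ (Subgroup.pow_mem _ h1 _) (Subgroup.inv_mem _ (Subgroup.pow_mem _ h1 _))

/-- The weights. -/
noncomputable def DE1_w (m : ℕ) (τ : Finset Circle) (h : ℕ) : ℝ := nw 1 m (DE1_t τ) () h

theorem DE1_w_nonneg (m : ℕ) (hm : 1 ≤ m) (τ : Finset Circle) (h : ℕ) : 0 ≤ DE1_w m τ h :=
  ((f_NWA Unit 1 m τ.card (DE1_t τ) le_rfl hm fun _ => measurable_const).1 () h).1

theorem DE1_mean (m : ℕ) (hm : 1 ≤ m) (τ : Finset Circle) (ε : ℝ) (hε : 0 < ε) :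
    ∃ N₀ : ℕ, ∀ N ≥ N₀, |(N : ℝ)⁻¹ * ∑ h ∈ range N, DE1_w m τ h - 1| ≤ ε := by
  obtain ⟨N₀, h⟩ := f_NWB Unit (Measure.dirac ()) 1 m τ.card (DE1_t τ) le_rfl hm
    (fun _ => measurable_const) ε hε
  refine ⟨N₀, fun N hN => ?_⟩
  have h1 := h N hN (one_dvd _) 0
  rw [integral_dirac] at h1
  simpa [wm, DE1_w] using h1

open Classical in
theorem DE1_bad (m : ℕ) (hm : 1 ≤ m) (τ : Finset Circle) (ρ : ℝ) (hρ : 0 < ρ) (ε : ℝ)
    (hε : 0 < ε) : ∃ N₀ : ℕ, ∀ N ≥ N₀, (N : ℝ)⁻¹ * ∑ h ∈ range N, DE1_w m τ h *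
      (if ∀ z ∈ τ, ‖(z : ℂ) ^ h - 1‖ ≤ ρ then 0 else 1) ≤ τ.card * (4 / (m * ρ ^ 2)) + ε := by
  obtain ⟨N₀, h⟩ := f_NWC Unit (Measure.dirac ()) 1 m τ.card (DE1_t τ) le_rfl hm
    (fun _ => measurable_const) ρ hρ ε hε
  refine ⟨N₀, fun N hN => ?_⟩
  have h1 := h N hN (one_dvd _) 0
  rw [integral_dirac] at h1
  refine le_trans (le_of_eq ?_) h1
  unfold wm DE1_w
  congr 1
  refine Finset.sum_congr rfl fun k _ => ?_
  rw [zero_add]
  show nw 1 m (DE1_t τ) () k * _ = nw 1 m (DE1_t τ) () k *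
    one {y | y ∉ bohr (DE1_t τ) ρ (k / 1)} ()
  rw [Nat.div_one]
  congr 1
  unfold one
  rw [Set.indicator_apply]
  by_cases hk : ∀ z ∈ τ, ‖(z : ℂ) ^ k - 1‖ ≤ ρ
  · rw [if_pos hk, if_neg]
    intro h2
    exact h2 ((DE1_mem_bohr τ ρ k).mpr hk)
  · rw [if_neg hk, if_pos]
    intro h2
    exact hk ((DE1_mem_bohr τ ρ k).mp h2)

theorem DE1_char (m : ℕ) (hm : 1 ≤ m) (τ : Finset Circle) (ψ : Circle)
    (hψ : ψ ∉ Subgroup.closure (↑τ : Set Circle)) (ε : ℝ) (hε : 0 < ε) :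
    ∃ N₀ : ℕ, ∀ N ≥ N₀,
      ‖(N : ℂ)⁻¹ * ∑ h ∈ range N, ((DE1_w m τ h : ℝ) : ℂ) * (ψ : ℂ) ^ h‖ ≤ ε := by
  set d := τ.card with hd
  set u : ℝ := ku m (DE1_t τ) () with hu
  have hu1 : 1 ≤ u := (p_KUB Unit m τ.card (DE1_t τ) () hm).1
  have hupos : 0 < u := lt_of_lt_of_le one_pos hu1
  set J : Finset ((Fin τ.card → Fin m × Fin m) × Bool) := univ with hJ
  let c : (Fin τ.card → Fin m × Fin m) × Bool → Circle := fun p =>
    if p.2 then chr (DE1_t τ) p.1 () * ψ else (chr (DE1_t τ) p.1 ())⁻¹ * ψ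
  have hc : ∀ p ∈ J, c p ≠ 1 := by
    intro p _ h1
    have h2 := DE1_chr τ p.1
    apply hψ
    by_cases hp : p.2 = true
    · have h3 : chr (DE1_t τ) p.1 () * ψ = 1 := by simpa [c, hp] using h1
      rw [eq_inv_of_mul_eq_one_right h3]
      exact Subgroup.inv_mem _ h2
    · have h3 : (chr (DE1_t τ) p.1 ())⁻¹ * ψ = 1 := by simpa [c, hp] using h1
      rw [eq_inv_of_mul_eq_one_right h3, inv_inv]
      exact h2
  set a : ℝ := (m : ℝ)⁻¹ ^ τ.card / (2 * u) with ha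
  have ha0 : 0 ≤ a := by positivity
  obtain ⟨N₀, hN₀⟩ := DE1_geoFin J c hc (ε / (a * J.card + 1)) (by positivity)
  refine ⟨N₀, fun N hN => ?_⟩
  have hexp : ∀ h : ℕ, ((DE1_w m τ h : ℝ) : ℂ) * (ψ : ℂ) ^ h =
      (a : ℂ) * ∑ p ∈ J, ((c p : Circle) : ℂ) ^ h := by
    intro h
    have h1 : DE1_w m τ h = kw m (DE1_t τ) () h / u := by
      unfold DE1_w nw
      rw [if_pos (one_dvd _), Nat.div_one, Nat.cast_one, one_mul]
    have h2 : kw m (DE1_t τ) () h = ∑ p : Fin τ.card → Fin m × Fin m,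
        (m : ℝ)⁻¹ ^ τ.card * ((chr (DE1_t τ) p () : ℂ) ^ h).re := by
      rw [p_EXP]
      rfl
    have h3 : ∀ p : Fin τ.card → Fin m × Fin m, ((((chr (DE1_t τ) p () : ℂ) ^ h).re : ℝ) : ℂ) =
        ((chr (DE1_t τ) p () : ℂ) ^ h + ((chr (DE1_t τ) p ())⁻¹ : Circle) ^ h) / 2 := by
      intro p
      rw [Complex.re_eq_add_conj, Circle.coe_inv_eq_conj, map_pow]
    rw [h1, h2]
    rw [hJ, Fintype.sum_prod_type]
    push_cast
    rw [Finset.sum_div, Finset.sum_mul, Finset.mul_sum]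
    refine Finset.sum_congr rfl fun p _ => ?_
    rw [h3 p]
    simp only [c, Fintype.sum_bool, if_true, Bool.false_eq_true, if_false, Circle.coe_mul, ha]
    push_cast
    have hu0 : (u : ℂ) ≠ 0 := by exact_mod_cast hupos.ne'
    rw [mul_pow, mul_pow]
    field_simp
  have h5 : (N : ℂ)⁻¹ * ∑ h ∈ range N, ((DE1_w m τ h : ℝ) : ℂ) * (ψ : ℂ) ^ h =
      (a : ℂ) * ∑ p ∈ J, ((N : ℂ)⁻¹ * ∑ h ∈ range N, ((c p : Circle) : ℂ) ^ h) := by
    rw [Finset.sum_congr rfl fun h _ => hexp h, ← Finset.mul_sum, Finset.sum_comm,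
      ← Finset.mul_sum]
    ring
  rw [h5, norm_mul, Complex.norm_real, Real.norm_eq_abs, abs_of_nonneg ha0]
  calc a * ‖∑ p ∈ J, ((N : ℂ)⁻¹ * ∑ h ∈ range N, ((c p : Circle) : ℂ) ^ h)‖
      ≤ a * ∑ p ∈ J, (ε / (a * J.card + 1)) := by
        refine mul_le_mul_of_nonneg_left (le_trans (norm_sum_le _ _) ?_) ha0
        exact Finset.sum_le_sum fun p hp => hN₀ N hN p hp
    _ = (a * J.card) * ε / (a * J.card + 1) := by
        rw [Finset.sum_const, nsmul_eq_mul]; ring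
    _ ≤ ε := by
        rw [div_le_iff₀ (by positivity)]
        nlinarith [mul_nonneg ha0 (Nat.cast_nonneg (α := ℝ) J.card)]

theorem DE1_shift (χ : Circle) (φ : ℕ → ℝ) (hφ : ∀ y, |φ y| ≤ 1) (N s k : ℕ) (hN : 0 < N) :
    ‖(N : ℂ)⁻¹ * ∑ n ∈ range N, (χ : ℂ) ^ (s + n) * ((φ (s + n) : ℝ) : ℂ) -
      (N : ℂ)⁻¹ * ∑ n ∈ range N, (χ : ℂ) ^ (s + n + k) * ((φ (s + n + k) : ℝ) : ℂ)‖
      ≤ 2 * k / N := by
  set g : ℕ → ℂ := fun n => (χ : ℂ) ^ (s + n) * ((φ (s + n) : ℝ) : ℂ) with hg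
  have hgn : ∀ n, ‖g n‖ ≤ 1 := by
    intro n
    rw [hg]
    simp only []
    rw [norm_mul, norm_pow, Circle.norm_coe, one_pow, one_mul, Complex.norm_real,
      Real.norm_eq_abs]
    exact hφ _
  have h1 : ∀ n, (χ : ℂ) ^ (s + n + k) * ((φ (s + n + k) : ℝ) : ℂ) = g (n + k) := by
    intro n
    rw [hg]
    simp only [add_assoc]
  have h2 : ∑ n ∈ range N, g n - ∑ n ∈ range N, g (n + k) =
      ∑ n ∈ range k, g n - ∑ n ∈ range k, g (N + n) := by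
    have e1 : ∑ n ∈ range (k + N), g n = ∑ n ∈ range k, g n + ∑ n ∈ range N, g (k + n) :=
      Finset.sum_range_add _ _ _
    have e2 : ∑ n ∈ range (N + k), g n = ∑ n ∈ range N, g n + ∑ n ∈ range k, g (N + n) :=
      Finset.sum_range_add _ _ _
    rw [add_comm k N, e2] at e1
    have e3 : ∑ n ∈ range N, g (n + k) = ∑ n ∈ range N, g (k + n) :=
      Finset.sum_congr rfl fun n _ => by rw [add_comm]
    rw [e3]
    linear_combination e1
  rw [Finset.sum_congr rfl fun n _ => h1 n, ← mul_sub, h2, norm_mul, norm_inv,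
    Complex.norm_natCast]
  have hNpos : (0 : ℝ) < N := by exact_mod_cast hN
  have h3 : ‖∑ n ∈ range k, g n - ∑ n ∈ range k, g (N + n)‖ ≤ 2 * k := by
    calc ‖∑ n ∈ range k, g n - ∑ n ∈ range k, g (N + n)‖
        ≤ ‖∑ n ∈ range k, g n‖ + ‖∑ n ∈ range k, g (N + n)‖ := norm_sub_le _ _
      _ ≤ ∑ n ∈ range k, (1 : ℝ) + ∑ n ∈ range k, (1 : ℝ) := by
          refine add_le_add (le_trans (norm_sum_le _ _) (Finset.sum_le_sum fun n _ => hgn _))
            (le_trans (norm_sum_le _ _) (Finset.sum_le_sum fun n _ => hgn _))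
      _ = 2 * k := by
          rw [Finset.sum_const, Finset.card_range, nsmul_eq_mul]; ring
  rw [inv_mul_le_iff₀ hNpos]
  calc ‖∑ n ∈ range k, g n - ∑ n ∈ range k, g (N + n)‖ ≤ 2 * k := h3
    _ = N * (2 * k / N) := by field_simp

open Classical in
theorem p_DE1 : T_DE1 := by
  intro χ q ρ τ hq hρ hχ ε hε
  -- the degree of the kernels
  obtain ⟨m₀, hm₀⟩ := exists_nat_gt ((τ.card : ℝ) * 4 / (ρ ^ 2 * (ε / 32)))
  set m : ℕ := m₀ + 1 with hmdef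
  have hm : 1 ≤ m := by omega
  have hmpos : (0 : ℝ) < m := by exact_mod_cast hm
  have hbd : (τ.card : ℝ) * (4 / (m * ρ ^ 2)) ≤ ε / 32 := by
    have h1 : (τ.card : ℝ) * 4 / (ρ ^ 2 * (ε / 32)) < m := by
      refine lt_trans hm₀ ?_
      rw [hmdef]; push_cast; linarith
    rw [div_lt_iff₀ (by positivity)] at h1
    rw [← mul_div_assoc, div_le_iff₀ (by positivity)]
    nlinarith
  obtain ⟨N₁, h1⟩ := DE1_mean m hm τ (1 / 2) (by norm_num)
  obtain ⟨N₂, h2⟩ := DE1_bad m hm τ ρ hρ (ε / 32) (by positivity)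
  obtain ⟨N₃, h3⟩ := DE1_char m hm τ (χ ^ q) hχ (ε / 8) (by positivity)
  set H : ℕ := max (max N₁ N₂) (max N₃ 1) with hH
  have hH1 : N₁ ≤ H := le_trans (le_max_left _ _) (le_max_left _ _)
  have hH2 : N₂ ≤ H := le_trans (le_max_right _ _) (le_max_left _ _)
  have hH3 : N₃ ≤ H := le_trans (le_max_left _ _) (le_max_right _ _)
  have hH4 : 1 ≤ H := le_trans (le_max_right _ _) (le_max_right _ _)
  have hHpos : (0 : ℝ) < H := by exact_mod_cast hH4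
  have hA := h1 H hH1
  have hB := h2 H hH2
  have hC := h3 H hH3
  set w : ℕ → ℝ := DE1_w m τ with hw
  have hw0 : ∀ h, 0 ≤ w h := DE1_w_nonneg m hm τ
  set A : ℝ := (H : ℝ)⁻¹ * ∑ h ∈ range H, w h with hAdef
  have hA2 : 1 / 2 ≤ A := by
    have := abs_le.mp hA
    linarith [this.1]
  set B : ℝ := (H : ℝ)⁻¹ * ∑ h ∈ range H, w h *
      (if ∀ z ∈ τ, ‖(z : ℂ) ^ h - 1‖ ≤ ρ then 0 else 1) with hBdef
  have hB2 : B ≤ ε / 16 := by linarith
  obtain ⟨N₀, hN₀⟩ := exists_nat_gt (2 * (q * H : ℝ) / (ε / 4))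
  refine ⟨N₀ + 1, fun N hN s φ ε' hε' hP => ?_⟩
  have hNpos' : 0 < N := by omega
  have hNpos : (0 : ℝ) < N := by exact_mod_cast hNpos'
  have hNbig : 2 * (q * H : ℝ) / N ≤ ε / 4 := by
    have h4 : 2 * (q * H : ℝ) / (ε / 4) < N := by
      refine lt_of_lt_of_le hN₀ ?_
      exact_mod_cast (by omega : N₀ ≤ N)
    rw [div_lt_iff₀ (by positivity)] at h4
    rw [div_le_iff₀ hNpos]
    linarith
  set X : ℂ := (N : ℂ)⁻¹ * ∑ n ∈ range N, (χ : ℂ) ^ (s + n) * ((φ (s + n) : ℝ) : ℂ) with hX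
  set Y : ℕ → ℂ := fun h => (N : ℂ)⁻¹ * ∑ n ∈ range N,
    (χ : ℂ) ^ (s + n + q * h) * ((φ (s + n + q * h) : ℝ) : ℂ) with hY
  have hXY : ∀ h < H, ‖X - Y h‖ ≤ ε / 4 := by
    intro h hh
    refine le_trans (DE1_shift χ φ hP.1 N s (q * h) hNpos') (le_trans ?_ hNbig)
    have : ((q * h : ℕ) : ℝ) ≤ q * H := by
      push_cast
      have : (h : ℝ) ≤ H := by exact_mod_cast hh.le
      gcongr
    gcongr
  -- the weighted mean of the `Y h`
  have hmain : ‖(H : ℂ)⁻¹ * ∑ h ∈ range H, ((w h : ℝ) : ℂ) * Y h‖ ≤ ε / 8 + (A * ε' + 2 * B) := by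
    have e1 : (H : ℂ)⁻¹ * ∑ h ∈ range H, ((w h : ℝ) : ℂ) * Y h =
        (N : ℂ)⁻¹ * ∑ n ∈ range N, (χ : ℂ) ^ (s + n) * ((H : ℂ)⁻¹ * ∑ h ∈ range H,
          ((w h : ℝ) : ℂ) * ((χ ^ q : Circle) : ℂ) ^ h * ((φ (s + n + q * h) : ℝ) : ℂ)) := by
      rw [hY]
      simp only [Finset.mul_sum]
      rw [Finset.sum_comm]
      refine Finset.sum_congr rfl fun n _ => Finset.sum_congr rfl fun h _ => ?_
      rw [pow_add, Circle.coe_pow, ← pow_mul]
      ring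
    have e2 : ∀ n : ℕ, ‖(H : ℂ)⁻¹ * ∑ h ∈ range H,
          ((w h : ℝ) : ℂ) * ((χ ^ q : Circle) : ℂ) ^ h * ((φ (s + n + q * h) : ℝ) : ℂ)‖
        ≤ ε / 8 + (A * ε' + 2 * B) := by
      intro n
      have e3 : (H : ℂ)⁻¹ * ∑ h ∈ range H,
          ((w h : ℝ) : ℂ) * ((χ ^ q : Circle) : ℂ) ^ h * ((φ (s + n + q * h) : ℝ) : ℂ) =
          ((H : ℂ)⁻¹ * ∑ h ∈ range H, ((w h : ℝ) : ℂ) * ((χ ^ q : Circle) : ℂ) ^ h) *
            ((φ (s + n) : ℝ) : ℂ) + (H : ℂ)⁻¹ * ∑ h ∈ range H,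
          ((w h : ℝ) : ℂ) * ((χ ^ q : Circle) : ℂ) ^ h *
            ((φ (s + n + q * h) - φ (s + n) : ℝ) : ℂ) := by
        rw [mul_assoc, Finset.sum_mul, ← mul_add, ← Finset.sum_add_distrib]
        congr 1
        refine Finset.sum_congr rfl fun h _ => ?_
        push_cast
        ring
      rw [e3]
      refine le_trans (norm_add_le _ _) (add_le_add ?_ ?_)
      · rw [norm_mul, Complex.norm_real, Real.norm_eq_abs]
        calc ‖(H : ℂ)⁻¹ * ∑ h ∈ range H, ((w h : ℝ) : ℂ) * ((χ ^ q : Circle) : ℂ) ^ h‖ *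
              |φ (s + n)| ≤ ε / 8 * 1 :=
              mul_le_mul hC (hP.1 _) (abs_nonneg _) (by positivity)
          _ = ε / 8 := mul_one _
      · rw [norm_mul, norm_inv, Complex.norm_natCast]
        have e4 : A * ε' + 2 * B = (H : ℝ)⁻¹ * ∑ h ∈ range H, (w h * ε' + 2 * (w h *
            (if ∀ z ∈ τ, ‖(z : ℂ) ^ h - 1‖ ≤ ρ then 0 else 1))) := by
          rw [Finset.sum_add_distrib, ← Finset.sum_mul, ← Finset.mul_sum, hAdef, hBdef]
          ring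
        rw [e4]
        refine mul_le_mul_of_nonneg_left (le_trans (norm_sum_le _ _)
          (Finset.sum_le_sum fun h _ => ?_)) (by positivity)
        rw [norm_mul, norm_mul, norm_pow, Circle.norm_coe, one_pow, mul_one, Complex.norm_real,
          Real.norm_eq_abs, abs_of_nonneg (hw0 h), Complex.norm_real, Real.norm_eq_abs]
        by_cases hg : ∀ z ∈ τ, ‖(z : ℂ) ^ h - 1‖ ≤ ρ
        · rw [if_pos hg, mul_zero, mul_zero, add_zero]
          exact mul_le_mul_of_nonneg_left (hP.2 (s + n) h (by omega) hg) (hw0 h)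
        · rw [if_neg hg, mul_one]
          have e5 : |φ (s + n + q * h) - φ (s + n)| ≤ 2 := by
            have := hP.1 (s + n + q * h)
            have := hP.1 (s + n)
            calc |φ (s + n + q * h) - φ (s + n)| ≤ |φ (s + n + q * h)| + |φ (s + n)| :=
                  abs_sub _ _
              _ ≤ 2 := by linarith
          nlinarith [hw0 h, mul_nonneg (hw0 h) hε', mul_le_mul_of_nonneg_left e5 (hw0 h)]
    rw [e1, norm_mul, norm_inv, Complex.norm_natCast, inv_mul_le_iff₀ hNpos]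
    calc ‖∑ n ∈ range N, (χ : ℂ) ^ (s + n) * ((H : ℂ)⁻¹ * ∑ h ∈ range H,
          ((w h : ℝ) : ℂ) * ((χ ^ q : Circle) : ℂ) ^ h * ((φ (s + n + q * h) : ℝ) : ℂ))‖
        ≤ ∑ n ∈ range N, (ε / 8 + (A * ε' + 2 * B)) := by
          refine le_trans (norm_sum_le _ _) (Finset.sum_le_sum fun n _ => ?_)
          rw [norm_mul, norm_pow, Circle.norm_coe, one_pow, one_mul]
          exact e2 n
      _ = N * (ε / 8 + (A * ε' + 2 * B)) := by
          rw [Finset.sum_const, Finset.card_range, nsmul_eq_mul]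
  have hsum : (A : ℂ) * X = (H : ℂ)⁻¹ * ∑ h ∈ range H, ((w h : ℝ) : ℂ) * Y h +
      (H : ℂ)⁻¹ * ∑ h ∈ range H, ((w h : ℝ) : ℂ) * (X - Y h) := by
    rw [← mul_add, ← Finset.sum_add_distrib, hAdef]
    push_cast
    rw [mul_assoc, Finset.sum_mul]
    congr 1
    refine Finset.sum_congr rfl fun h _ => ?_
    ring
  have hsecond : ‖(H : ℂ)⁻¹ * ∑ h ∈ range H, ((w h : ℝ) : ℂ) * (X - Y h)‖ ≤ A * (ε / 4) := by
    rw [norm_mul, norm_inv, Complex.norm_natCast, hAdef, mul_assoc, Finset.sum_mul]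
    refine mul_le_mul_of_nonneg_left (le_trans (norm_sum_le _ _)
      (Finset.sum_le_sum fun h hh => ?_)) (by positivity)
    rw [norm_mul, Complex.norm_real, Real.norm_eq_abs, abs_of_nonneg (hw0 h)]
    exact mul_le_mul_of_nonneg_left (hXY h (Finset.mem_range.mp hh)) (hw0 h)
  have hfin : A * ‖X‖ ≤ ε / 8 + (A * ε' + 2 * B) + A * (ε / 4) := by
    have hApos : 0 ≤ A := by linarith
    calc A * ‖X‖ = ‖(A : ℂ) * X‖ := by
          rw [norm_mul (A : ℂ) X, Complex.norm_real, Real.norm_eq_abs, abs_of_nonneg hApos]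
      _ ≤ _ := by
          rw [hsum]
          exact le_trans (norm_add_le _ _) (add_le_add hmain hsecond)
  by_contra hcon
  rw [not_le] at hcon
  nlinarith [hfin, hA2, hB2, hcon]

end Pool.Agent.Ind3
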