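import Pool.Agent.Ind3.Targets

set_option autoImplicit false

/-! Target ERB of the project Ind3: the error at the point `x` and the variation of `P`. -/

open MeasureTheory Filter Topology Finset

namespace Pool.Agent.Ind3

open Pool.Agent.FSP

universe u

theorem erb_mean_mono (N s : ℕ) {f g : ℕ → ℝ} (h : ∀ n, f n ≤ g n) :
    mean N s f ≤ mean N s g := by
  unfold mean
  exact mul_le_mul_of_nonneg_left (Finset.sum_le_sum fun n _ => h _) (by positivity)

theorem erb_mean_mul (N s : ℕ) (f : ℕ → ℝ) (c : ℝ) :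
    mean N s (fun n => f n * c) = mean N s f * c := by
  unfold mean
  rw [← Finset.sum_mul, mul_assoc]

theorem erb_mean_add (N s : ℕ) (f g : ℕ → ℝ) :
    mean N s (fun n => f n + g n) = mean N s f + mean N s g := by
  unfold mean
  rw [Finset.sum_add_distrib, mul_add]

theorem erb_mean_sum (N s : ℕ) {ι : Type} (S : Finset ι) (f : ι → ℕ → ℝ) :
    mean N s (fun n => ∑ j ∈ S, f j n) = ∑ j ∈ S, mean N s (f j) := by
  unfold mean
  rw [Finset.sum_comm, Finset.mul_sum]

theorem erb_mean_abs (N s : ℕ) {f : ℕ → ℝ} {B : ℝ} (hB : 0 ≤ B) (h : ∀ n, |f n| ≤ B) :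
    |mean N s f| ≤ B := by
  unfold mean
  rw [abs_mul, abs_of_nonneg (by positivity : (0 : ℝ) ≤ (N : ℝ)⁻¹)]
  have h1 : |∑ n ∈ range N, f (s + n)| ≤ N * B := by
    refine (Finset.abs_sum_le_sum_abs _ _).trans ?_
    refine (Finset.sum_le_sum fun n _ => h (s + n)).trans ?_
    rw [Finset.sum_const, card_range, nsmul_eq_mul]
  rcases Nat.eq_zero_or_pos N with hN | hN
  · subst hN
    simpa using hB
  · have hN' : (0 : ℝ) < N := by exact_mod_cast hN
    calc (N : ℝ)⁻¹ * |∑ n ∈ range N, f (s + n)| ≤ (N : ℝ)⁻¹ * (N * B) :=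
          mul_le_mul_of_nonneg_left h1 (by positivity)
      _ = B := by rw [← mul_assoc, inv_mul_cancel₀ hN'.ne', one_mul]

theorem erb_mean_meas {Ω : Type u} [MeasurableSpace Ω] (N s : ℕ) {f : Ω → ℕ → ℝ}
    (h : ∀ n, Measurable fun x => f x n) : Measurable fun x => mean N s (f x) := by
  unfold mean
  exact (Finset.measurable_sum _ fun n _ => h (s + n)).const_mul _

theorem erb_mono (N : ℕ) {F G : (Fin 3 → ℕ) → ℝ} (h : ∀ y, F y ≤ G y) :
    avg3 N F ≤ avg3 N G := by
  unfold avg3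
  exact erb_mean_mono _ _ fun a => erb_mean_mono _ _ fun b => erb_mean_mono _ _ fun c => h _

theorem erb_mul (N : ℕ) (F : (Fin 3 → ℕ) → ℝ) (c : ℝ) :
    avg3 N (fun y => F y * c) = avg3 N F * c := by
  unfold avg3
  simp only [erb_mean_mul]

theorem erb_add (N : ℕ) (F G : (Fin 3 → ℕ) → ℝ) :
    avg3 N (fun y => F y + G y) = avg3 N F + avg3 N G := by
  unfold avg3
  simp only [erb_mean_add]

theorem erb_sum (N : ℕ) {ι : Type} (S : Finset ι) (F : ι → (Fin 3 → ℕ) → ℝ) :
    avg3 N (fun y => ∑ j ∈ S, F j y) = ∑ j ∈ S, avg3 N (F j) := by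
  unfold avg3
  simp only [erb_mean_sum]

theorem erb_abs (N : ℕ) {F : (Fin 3 → ℕ) → ℝ} {B : ℝ} (hB : 0 ≤ B) (h : ∀ y, |F y| ≤ B) :
    |avg3 N F| ≤ B := by
  unfold avg3
  exact erb_mean_abs _ _ hB fun a => erb_mean_abs _ _ hB fun b => erb_mean_abs _ _ hB fun c => h _

theorem erb_meas {Ω : Type u} [MeasurableSpace Ω] (N : ℕ) {F : Ω → (Fin 3 → ℕ) → ℝ}
    (h : ∀ y, Measurable fun x => F x y) : Measurable fun x => avg3 N (F x) := by
  unfold avg3
  exact erb_mean_meas _ _ fun a => erb_mean_meas _ _ fun b => erb_mean_meas _ _ fun c => h _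

theorem p_ERB (hPWA : T_PWA) (hPWB : T_PWB) (hLSU : T_LSU.{u}) (hWBD : T_WBD) : T_ERB.{u} := by
  intro Ω _ μ _ m n κ Pi hm hn hκ hPi θ hθ hInd G hG hGood l Q hQ c P hc hc0 hc1 hP hP0 hP1 η hη
    hcP q ρ hq hρ hvar hκ0 ε hε
  obtain ⟨wb, wm, -, -⟩ := hWBD m n κ Pi hm hPi
  have hsv : Measurable (sv θ) := by
    refine measurable_pi_lambda _ fun l => measurable_pi_lambda _ fun j => ?_
    exact hθ l j
  set W : Ω → (Fin 3 → ℕ) → ℝ := fun x y => Wf m n κ Pi (sv θ x) y with hW
  set B : ℝ := BB m (κ (n - 1)) with hB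
  have W0 : ∀ x y, 0 ≤ W x y := fun x y => (wb (sv θ x) y).1
  have W1 : ∀ x y, W x y ≤ B := fun x y => (wb (sv θ x) y).2
  have WM : ∀ y, Measurable fun x => W x y := fun y => (wm y).comp hsv
  have hB0 : 0 ≤ B := by
    rw [hB]
    unfold BB
    positivity
  have hcP1 : ∀ x, |c x - P x| ≤ 1 := fun x => by
    rw [abs_le]
    constructor
    · linarith [hc0 x, hP1 x]
    · linarith [hc1 x, hP0 x]
  have hPP1 : ∀ x y, |P x - P y| ≤ 1 := fun x y => by
    rw [abs_le]
    constructor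
    · linarith [hP0 x, hP1 y]
    · linarith [hP1 x, hP0 y]
  have hWb : ∀ x y (e : ℝ), |e| ≤ 1 → abs (W x y * |e|) ≤ B := fun x y e he => by
    rw [abs_mul, abs_abs, abs_of_nonneg (W0 x y)]
    calc W x y * |e| ≤ B * 1 := mul_le_mul (W1 x y) he (abs_nonneg _) hB0
      _ = B := mul_one B
  have hint : Integrable (fun x => |c x - P x|) μ := by
    refine Integrable.of_bound (hc.sub hP).abs.aestronglyMeasurable 1
      (Eventually.of_forall fun x => ?_)
    rw [Real.norm_eq_abs, abs_abs]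
    exact hcP1 x
  -- first part
  obtain ⟨N1, hN1⟩ : ∃ N₀ : ℕ, ∀ N ≥ N₀,
      ∫ x in G, avg3 N (fun y => W x y * |c x - P x|) ∂μ ≤ η + ε := by
    obtain ⟨N₀, h⟩ := hLSU Ω μ (fun N x => avg3 N (fun y => W x y * |c x - P x|)) B
      (fun x => |c x - P x|) G
      (fun N => erb_meas N fun y => (WM y).mul (hc.sub hP).abs)
      (fun N x => erb_abs N hB0 fun y => hWb x y _ (hcP1 x)) hint hG
      (by
        filter_upwards [hInd] with x hx _ ε' hε'
        obtain ⟨N₀, h⟩ := hPWA m n κ Pi (sv θ x) hm hPi hx ε' hε'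
        refine ⟨N₀, fun N hN => ?_⟩
        have h1 := (abs_le.1 (h N hN).1).2
        rw [erb_mul]
        have h2 : avg3 N (fun y => W x y) ≤ 1 + ε' := by
          change avg3 N (Wf m n κ Pi (sv θ x)) ≤ 1 + ε'
          linarith
        calc avg3 N (fun y => W x y) * |c x - P x| ≤ (1 + ε') * |c x - P x| :=
              mul_le_mul_of_nonneg_right h2 (abs_nonneg _)
          _ ≤ |c x - P x| + ε' := by nlinarith [hcP1 x]) ε hε
    refine ⟨N₀, fun N hN => (h N hN).trans ?_⟩
    have h3 : ∫ x in G, |c x - P x| ∂μ ≤ ∫ x, |c x - P x| ∂μ :=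
      setIntegral_le_integral hint (Eventually.of_forall fun x => abs_nonneg _)
    linarith
  -- second part
  have hQm : ∀ t : ℕ, Measurable (Q^[t]) := fun t => hQ.measurable.iterate t
  obtain ⟨N2, hN2⟩ : ∃ N₀ : ℕ, ∀ N ≥ N₀,
      ∫ x in G, avg3 N (fun y => W x y * |P (Q^[q * tm l y] x) - P x|) ∂μ ≤ 2 * η + ε := by
    obtain ⟨N₀, h⟩ := hLSU Ω μ (fun N x => avg3 N (fun y => W x y *
      |P (Q^[q * tm l y] x) - P x|)) B (fun _ => 2 * η) G
      (fun N => erb_meas N fun y => (WM y).mul ((hP.comp (hQm _)).sub hP).abs)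
      (fun N x => erb_abs N hB0 fun y => hWb x y _ (hPP1 _ _)) (integrable_const _) hG
      (by
        filter_upwards [hInd, hvar] with x hx hv hxG ε' hε'
        obtain ⟨N₁, h1⟩ := hPWA m n κ Pi (sv θ x) hm hPi hx (ε' / (2 * η)) (by positivity)
        have h2 : ∀ j : ℕ, ∃ N₀ : ℕ, j < κ 0 → ∀ N ≥ N₀, avg3 N (fun y => Wf m n κ Pi (sv θ x) y *
            (if ρ < ‖(sv θ x l j : ℂ) ^ tm l y - 1‖ then 1 else 0))
            ≤ 72 / (m * ρ ^ 2) + (1 / 2 : ℝ) ^ n + ε' / (2 * (κ 0 + 1)) := by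
          intro j
          by_cases hj : j < κ 0
          · obtain ⟨N₀, h⟩ := hPWB m n κ Pi (sv θ x) hm hn hκ hPi (hGood x hxG) hx l j hj ρ hρ
              (ε' / (2 * (κ 0 + 1))) (by positivity)
            exact ⟨N₀, fun _ => h⟩
          · exact ⟨0, fun h => absurd h hj⟩
        choose M hM using h2
        refine ⟨max N₁ ((range (κ 0)).sup M), fun N hN => ?_⟩
        have hNa : N₁ ≤ N := (le_max_left _ _).trans hN
        have hNb : ∀ j < κ 0, M j ≤ N := fun j hj =>
          ((Finset.le_sup (f := M) (mem_range.2 hj)).trans (le_max_right _ _)).trans hN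
        have h3 : ∀ y, W x y * |P (Q^[q * tm l y] x) - P x| ≤ W x y * η +
            ∑ j ∈ range (κ 0), W x y *
              (if ρ < ‖(sv θ x l j : ℂ) ^ tm l y - 1‖ then 1 else 0) := by
          intro y
          rw [← Finset.mul_sum, ← mul_add]
          refine mul_le_mul_of_nonneg_left ?_ (W0 x y)
          by_cases hall : ∀ j < κ 0, ‖(θ l j x : ℂ) ^ tm l y - 1‖ ≤ ρ
          · refine (hv (tm l y) hall).trans ?_
            refine le_add_of_nonneg_right (Finset.sum_nonneg fun j _ => ?_)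
            split_ifs <;> norm_num
          · push Not at hall
            obtain ⟨j, hj, hj1⟩ := hall
            have h4 : (1 : ℝ) ≤ ∑ j ∈ range (κ 0),
                (if ρ < ‖(sv θ x l j : ℂ) ^ tm l y - 1‖ then (1 : ℝ) else 0) := by
              have h5 : (1 : ℝ) = if ρ < ‖(sv θ x l j : ℂ) ^ tm l y - 1‖ then (1 : ℝ) else 0 := by
                rw [if_pos]
                exact hj1
              refine h5.le.trans ?_
              refine Finset.single_le_sum (f := fun j =>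
                if ρ < ‖(sv θ x l j : ℂ) ^ tm l y - 1‖ then (1 : ℝ) else 0)
                (fun i _ => ?_) (mem_range.2 hj)
              split_ifs <;> norm_num
            have h6 := hPP1 (Q^[q * tm l y] x) x
            linarith
        have h7 : avg3 N (fun y => W x y * |P (Q^[q * tm l y] x) - P x|) ≤
            avg3 N (fun y => W x y) * η + ∑ j ∈ range (κ 0), avg3 N (fun y => W x y *
              (if ρ < ‖(sv θ x l j : ℂ) ^ tm l y - 1‖ then 1 else 0)) := by
          refine (erb_mono N h3).trans (le_of_eq ?_)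
          rw [erb_add, erb_mul, erb_sum]
        have h8 : avg3 N (fun y => W x y) ≤ 1 + ε' / (2 * η) := by
          have := (abs_le.1 (h1 N hNa).1).2
          change avg3 N (Wf m n κ Pi (sv θ x)) ≤ _
          linarith
        have h9 : ∑ j ∈ range (κ 0), avg3 N (fun y => W x y *
              (if ρ < ‖(sv θ x l j : ℂ) ^ tm l y - 1‖ then 1 else 0)) ≤
            (κ 0 : ℝ) * (72 / (m * ρ ^ 2) + (1 / 2 : ℝ) ^ n + ε' / (2 * (κ 0 + 1))) := by
          have := Finset.sum_le_sum fun j (hj : j ∈ range (κ 0)) =>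
            hM j (mem_range.1 hj) N (hNb j (mem_range.1 hj))
          refine this.trans (le_of_eq ?_)
          rw [Finset.sum_const, card_range, nsmul_eq_mul]
        have h10 : avg3 N (fun y => W x y) * η ≤ (1 + ε' / (2 * η)) * η :=
          mul_le_mul_of_nonneg_right h8 hη.le
        have h11 : (1 + ε' / (2 * η)) * η = η + ε' / 2 := by
          field_simp
        have h12 : (κ 0 : ℝ) * (ε' / (2 * (κ 0 + 1))) ≤ ε' / 2 := by
          have hk : (0 : ℝ) < κ 0 + 1 := by positivity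
          rw [mul_div_assoc', div_le_div_iff₀ (by positivity) (by norm_num)]
          nlinarith
        have h13 : (κ 0 : ℝ) * (72 / (m * ρ ^ 2) + (1 / 2 : ℝ) ^ n + ε' / (2 * (κ 0 + 1))) =
            (κ 0 : ℝ) * (72 / (m * ρ ^ 2) + (1 / 2 : ℝ) ^ n) +
              (κ 0 : ℝ) * (ε' / (2 * (κ 0 + 1))) := by ring
        linarith) ε hε
    refine ⟨N₀, fun N hN => (h N hN).trans ?_⟩
    rw [setIntegral_const, smul_eq_mul]
    have h3 : μ.real G ≤ 1 := measureReal_le_one
    nlinarith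
  exact ⟨max N1 N2, fun N hN => ⟨hN1 N ((le_max_left _ _).trans hN),
    hN2 N ((le_max_right _ _).trans hN)⟩⟩

end Pool.Agent.Ind3
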