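import Pool.Agent.Ind3.Targets

set_option autoImplicit false

/-!
# Ind3, target ERR: the sum of ERA and ERB
-/

open MeasureTheory Filter Topology Finset

namespace Pool.Agent.Ind3

open Pool.Agent.FSP

universe u

theorem err_mean_mono (N s : ℕ) (f g : ℕ → ℝ) (h : ∀ n, f n ≤ g n) :
    mean N s f ≤ mean N s g := by
  unfold mean
  have h1 : (0 : ℝ) ≤ (N : ℝ)⁻¹ := by positivity
  exact mul_le_mul_of_nonneg_left (Finset.sum_le_sum fun n _ => h _) h1

theorem err_mean_add (N s : ℕ) (f g : ℕ → ℝ) :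
    mean N s (fun n => f n + g n) = mean N s f + mean N s g := by
  unfold mean
  rw [Finset.sum_add_distrib, mul_add]

theorem err_avg3_mono (N : ℕ) (F G : (Fin 3 → ℕ) → ℝ) (h : ∀ y, F y ≤ G y) :
    avg3 N F ≤ avg3 N G := by
  unfold avg3
  exact err_mean_mono _ _ _ _ fun a => err_mean_mono _ _ _ _ fun b =>
    err_mean_mono _ _ _ _ fun c => h _

theorem err_avg3_add (N : ℕ) (F G : (Fin 3 → ℕ) → ℝ) :
    avg3 N (fun y => F y + G y) = avg3 N F + avg3 N G := by
  unfold avg3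
  simp only [err_mean_add]

theorem err_mean_abs (N s : ℕ) (f : ℕ → ℝ) (C : ℝ) (hC : 0 ≤ C) (h : ∀ n, |f n| ≤ C) :
    |mean N s f| ≤ C := by
  unfold mean
  rcases Nat.eq_zero_or_pos N with h0 | h0
  · simp [h0, hC]
  have h1 : (0 : ℝ) < (N : ℝ) := by exact_mod_cast h0
  rw [abs_mul, abs_of_pos (inv_pos.2 h1)]
  have h2 : |∑ n ∈ range N, f (s + n)| ≤ (N : ℝ) * C := by
    refine (Finset.abs_sum_le_sum_abs _ _).trans ?_
    refine (Finset.sum_le_sum fun n _ => h (s + n)).trans ?_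
    simp
  calc (N : ℝ)⁻¹ * |∑ n ∈ range N, f (s + n)| ≤ (N : ℝ)⁻¹ * ((N : ℝ) * C) :=
        mul_le_mul_of_nonneg_left h2 (inv_pos.2 h1).le
    _ = C := by field_simp

theorem err_avg3_abs (N : ℕ) (F : (Fin 3 → ℕ) → ℝ) (C : ℝ) (hC : 0 ≤ C) (h : ∀ y, |F y| ≤ C) :
    |avg3 N F| ≤ C := by
  unfold avg3
  exact err_mean_abs _ _ _ _ hC fun a => err_mean_abs _ _ _ _ hC fun b =>
    err_mean_abs _ _ _ _ hC fun c => h _

theorem err_meas_mean {Ω : Type u} [MeasurableSpace Ω] (N s : ℕ) (f : ℕ → Ω → ℝ)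
    (h : ∀ n, Measurable (f n)) : Measurable fun x => mean N s fun n => f n x := by
  unfold mean
  exact (Finset.measurable_sum _ fun n _ => h _).const_mul _

theorem err_meas_avg3 {Ω : Type u} [MeasurableSpace Ω] (N : ℕ) (F : (Fin 3 → ℕ) → Ω → ℝ)
    (h : ∀ y, Measurable (F y)) : Measurable fun x => avg3 N fun y => F y x := by
  unfold avg3
  exact err_meas_mean _ _ _ fun a => err_meas_mean _ _ _ fun b => err_meas_mean _ _ _ fun c => h _

theorem err_int {Ω : Type u} [MeasurableSpace Ω] (μ : Measure Ω) [IsFiniteMeasure μ] (N : ℕ)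
    (F : (Fin 3 → ℕ) → Ω → ℝ) (h : ∀ y, Measurable (F y)) (C : ℝ) (hC : 0 ≤ C)
    (hb : ∀ y x, |F y x| ≤ C) : Integrable (fun x => avg3 N fun y => F y x) μ :=
  Integrable.of_bound (err_meas_avg3 N F h).aestronglyMeasurable C
    (Filter.Eventually.of_forall fun x => by
      rw [Real.norm_eq_abs]
      exact err_avg3_abs N _ C hC fun y => hb y x)

theorem p_ERR : T_ERA.{u} → T_ERB.{u} → T_WBD → T_ERR.{u} := by
  intro hA hB hW Ω _ μ _ m n κ Pi hm hn hκ hS θ hθ hI G hG hGood l Q hQ hinv c hc hc0 hc1 hAPL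
    q hq P hP hP0 hP1 hAPP η hη hcP ρ hρ hvar hsmall ε hε
  obtain ⟨N₁, h₁⟩ := hA Ω μ m n κ Pi hm hn hκ hS θ hθ hI G hG hGood l Q hQ hinv c hc hc0 hc1
    hAPL q hq P hP hP0 hP1 hAPP η hη hcP (ε / 3) (by positivity)
  obtain ⟨N₂, h₂⟩ := hB Ω μ m n κ Pi hm hn hκ hS θ hθ hI G hG hGood l Q hQ c P hc hc0 hc1 hP hP0
    hP1 η hη hcP q ρ hq hρ hvar hsmall (ε / 3) (by positivity)
  refine ⟨max N₁ N₂, ?_⟩
  intro N hN
  have e1 := h₁ N (le_trans (le_max_left _ _) hN)
  obtain ⟨e2, e3⟩ := h₂ N (le_trans (le_max_right _ _) hN)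
  obtain ⟨hWb, hWm, -, -⟩ := hW m n κ Pi hm hS
  have hsv : Measurable fun x => sv θ x :=
    measurable_pi_iff.2 fun l' => measurable_pi_iff.2 fun j => hθ l' j
  have hWx : ∀ y, Measurable fun x => Wf m n κ Pi (sv θ x) y := fun y => (hWm y).comp hsv
  have hB0 : 0 ≤ BB m (κ (n - 1)) := le_trans (hWb (fun _ _ => 1) 0).1 (hWb (fun _ _ => 1) 0).2
  have hQk : ∀ k, Measurable (Q^[k]) := fun k => hQ.measurable.iterate k
  have key : ∀ (u : (Fin 3 → ℕ) → Ω → ℝ), (∀ y, Measurable (u y)) → (∀ y x, |u y x| ≤ 1) →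
      Integrable (fun x => avg3 N fun y => Wf m n κ Pi (sv θ x) y * |u y x|) (μ.restrict G) := by
    intro u hu hu1
    refine err_int (μ.restrict G) N (fun y x => Wf m n κ Pi (sv θ x) y * |u y x|)
      (fun y => (hWx y).mul (hu y).abs) (BB m (κ (n - 1))) hB0 ?_
    intro y x
    have a1 := (hWb (sv θ x) y).1
    have a2 := (hWb (sv θ x) y).2
    rw [abs_mul, abs_abs, abs_of_nonneg a1]
    calc Wf m n κ Pi (sv θ x) y * |u y x| ≤ Wf m n κ Pi (sv θ x) y * 1 :=
          mul_le_mul_of_nonneg_left (hu1 y x) a1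
      _ ≤ BB m (κ (n - 1)) := by rw [mul_one]; exact a2
  have i1 := key (fun y x => c (Q^[q * tm l y] x) - P (Q^[q * tm l y] x))
    (fun y => (hc.comp (hQk _)).sub (hP.comp (hQk _))) (fun y x => by
      have b1 := hc0 (Q^[q * tm l y] x)
      have b2 := hc1 (Q^[q * tm l y] x)
      have b3 := hP0 (Q^[q * tm l y] x)
      have b4 := hP1 (Q^[q * tm l y] x)
      rw [abs_le]; constructor <;> linarith)
  have i2 := key (fun _ x => c x - P x)
    (fun y => hc.sub hP) (fun y x => by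
      have b1 := hc0 x
      have b2 := hc1 x
      have b3 := hP0 x
      have b4 := hP1 x
      rw [abs_le]; constructor <;> linarith)
  have i3 := key (fun y x => P (Q^[q * tm l y] x) - P x)
    (fun y => (hP.comp (hQk _)).sub hP) (fun y x => by
      have b1 := hP0 (Q^[q * tm l y] x)
      have b2 := hP1 (Q^[q * tm l y] x)
      have b3 := hP0 x
      have b4 := hP1 x
      rw [abs_le]; constructor <;> linarith)
  have i0 := key (fun y x => c (Q^[q * tm l y] x) - c x)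
    (fun y => (hc.comp (hQk _)).sub hc) (fun y x => by
      have b1 := hc0 (Q^[q * tm l y] x)
      have b2 := hc1 (Q^[q * tm l y] x)
      have b3 := hc0 x
      have b4 := hc1 x
      rw [abs_le]; constructor <;> linarith)
  have hle : ∫ x in G, avg3 N (fun y => Wf m n κ Pi (sv θ x) y *
      |c (Q^[q * tm l y] x) - c x|) ∂μ ≤
      ∫ x in G, (avg3 N (fun y => Wf m n κ Pi (sv θ x) y *
          |c (Q^[q * tm l y] x) - P (Q^[q * tm l y] x)|) +
        (avg3 N (fun y => Wf m n κ Pi (sv θ x) y * |P (Q^[q * tm l y] x) - P x|) +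
        avg3 N (fun y => Wf m n κ Pi (sv θ x) y * |c x - P x|))) ∂μ := by
    refine integral_mono i0 (i1.add (i3.add i2)) ?_
    intro x
    beta_reduce
    rw [← err_avg3_add, ← err_avg3_add]
    refine err_avg3_mono _ _ _ fun y => ?_
    have a1 := (hWb (sv θ x) y).1
    have t1 : |c (Q^[q * tm l y] x) - c x| ≤ |c (Q^[q * tm l y] x) - P (Q^[q * tm l y] x)| +
        (|P (Q^[q * tm l y] x) - P x| + |c x - P x|) := by
      have e : c (Q^[q * tm l y] x) - c x = (c (Q^[q * tm l y] x) - P (Q^[q * tm l y] x)) +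
        ((P (Q^[q * tm l y] x) - P x) + -(c x - P x)) := by ring
      rw [e]
      refine (abs_add_le _ _).trans (add_le_add_right ?_ _)
      refine (abs_add_le _ _).trans ?_
      rw [abs_neg]
    calc _ ≤ Wf m n κ Pi (sv θ x) y * (|c (Q^[q * tm l y] x) - P (Q^[q * tm l y] x)| +
        (|P (Q^[q * tm l y] x) - P x| + |c x - P x|)) := mul_le_mul_of_nonneg_left t1 a1
      _ = _ := by ring
  have hsum : ∫ x in G, (avg3 N (fun y => Wf m n κ Pi (sv θ x) y *
          |c (Q^[q * tm l y] x) - P (Q^[q * tm l y] x)|) +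
        (avg3 N (fun y => Wf m n κ Pi (sv θ x) y * |P (Q^[q * tm l y] x) - P x|) +
        avg3 N (fun y => Wf m n κ Pi (sv θ x) y * |c x - P x|))) ∂μ =
      ∫ x in G, avg3 N (fun y => Wf m n κ Pi (sv θ x) y *
          |c (Q^[q * tm l y] x) - P (Q^[q * tm l y] x)|) ∂μ +
      (∫ x in G, avg3 N (fun y => Wf m n κ Pi (sv θ x) y *
          |P (Q^[q * tm l y] x) - P x|) ∂μ +
      ∫ x in G, avg3 N (fun y => Wf m n κ Pi (sv θ x) y * |c x - P x|) ∂μ) := by
    have i23 : Integrable (fun x => avg3 N (fun y => Wf m n κ Pi (sv θ x) y *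
        |P (Q^[q * tm l y] x) - P x|) +
        avg3 N (fun y => Wf m n κ Pi (sv θ x) y * |c x - P x|)) (μ.restrict G) := i3.add i2
    rw [integral_add i1 i23, integral_add i3 i2]
  rw [hsum] at hle
  linarith

end Pool.Agent.Ind3
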