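import Pool.Agent.Ind3.Targets

set_option autoImplicit false

/-! Target FIN of the project Ind3: assembly. -/

open MeasureTheory Filter Topology Finset

namespace Pool.Agent.Ind3

open Pool.Agent.FSP

universe u

theorem fin_pow_sub (z : ℂ) (hz : ‖z‖ = 1) (r : ℕ) : ‖z ^ r - 1‖ ≤ r * ‖z - 1‖ := by
  induction r with
  | zero => simp
  | succ r ih =>
    have e : z ^ (r + 1) - 1 = z * (z ^ r - 1) + (z - 1) := by ring
    rw [e]
    refine (norm_add_le _ _).trans ?_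
    rw [norm_mul, hz, one_mul]
    push_cast
    linarith

theorem p_FIN (hCOM : T_COM.{u}) (hAPX : T_APX.{u}) (hPIV : T_PIV) (hTHR : T_THR.{u})
    (hERR : T_ERR.{u}) (hGVQ : T_GVQ.{u}) (hGTW : T_GTW.{u}) (hMAI : T_MAI.{u}) :
    T_FIN.{u} := by
  intro Ω _ μ _ T S R hT hS hR θ hθ h0 h1 h2 g0 g1 g2 hInd A hA hA0
  set Q : Fin 3 → Ω → Ω := ![⇑R, ⇑S, ⇑T] with hQdef
  have hQ : ∀ l, MeasurePreserving (Q l) μ μ := by
    intro l; fin_cases l
    · exact hR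
    · exact hS
    · exact hT
  have inv : ∀ l j x, θ l j (Q l x) = θ l j x := by
    intro l; fin_cases l
    · exact h0
    · exact h1
    · exact h2
  have gen : ∀ l, Gen μ (Q l) (θ l) := by
    intro l; fin_cases l
    · exact g0
    · exact g1
    · exact g2
  choose c g hcm hgm hc0 hc1 hg1 hcg hAPL hRWM hpos using
    fun l => hCOM Ω μ (Q l) (hQ l) (θ l) (hθ l) (inv l) (gen l) A hA
  -- the set `A₀`
  obtain ⟨γ, hγ, hγA⟩ : ∃ γ : ℝ, 0 < γ ∧ μ {x | x ∈ A ∧ ∀ l, γ ≤ c l x} ≠ 0 := by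
    by_contra hcon
    push Not at hcon
    apply hA0
    have hU : μ (⋃ k : ℕ, {x | x ∈ A ∧ ∀ l, (1 / ((k : ℝ) + 1)) ≤ c l x}) = 0 := by
      rw [measure_iUnion_null_iff]
      intro k
      exact hcon _ (by positivity)
    have hall : ∀ᵐ x ∂μ, ∀ l, x ∈ A → 0 < c l x := ae_all_iff.2 hpos
    have hae : ∀ᵐ x ∂μ, x ∉ A := by
      have hU' : ∀ᵐ x ∂μ, x ∉ ⋃ k : ℕ, {x | x ∈ A ∧ ∀ l, (1 / ((k : ℝ) + 1)) ≤ c l x} :=
        measure_eq_zero_iff_ae_notMem.1 hU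
      filter_upwards [hall, hU'] with x hx hxU hxA
      apply hxU
      have hm : ∀ l, ∃ k : ℕ, 1 / ((k : ℝ) + 1) < c l x := fun l =>
        exists_nat_one_div_lt (hx l hxA)
      choose k hk using hm
      rw [Set.mem_iUnion]
      refine ⟨∑ l, k l, hxA, fun l => ?_⟩
      refine le_trans ?_ (hk l).le
      apply one_div_le_one_div_of_le (by positivity)
      have : k l ≤ ∑ l, k l := Finset.single_le_sum (fun _ _ => Nat.zero_le _) (Finset.mem_univ l)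
      have h' : (k l : ℝ) ≤ ((∑ l, k l : ℕ) : ℝ) := by exact_mod_cast this
      linarith
    exact measure_eq_zero_iff_ae_notMem.2 hae
  set A₀ : Set Ω := {x | x ∈ A ∧ ∀ l, γ ≤ c l x} with hA₀
  have hA₀m : MeasurableSet A₀ := by
    rw [hA₀]
    have : {x | x ∈ A ∧ ∀ l, γ ≤ c l x} = A ∩ ⋂ l, {x | γ ≤ c l x} := by
      ext x; simp
    rw [this]
    exact hA.inter (MeasurableSet.iInter fun l => measurableSet_le measurable_const (hcm l))
  set δ₀ : ℝ := μ.real A₀ with hδ₀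
  have hδ₀0 : 0 < δ₀ := by
    rw [hδ₀, measureReal_def]
    exact ENNReal.toReal_pos hγA (measure_ne_top _ _)
  set η : ℝ := γ * δ₀ / 200 with hη
  have hη0 : 0 < η := by positivity
  choose P hPm hP0 hP1 hPc hPAP using fun l => hAPL l η hη0
  choose q' K' ρ' hq' hρ' hAP using fun l =>
    hAPX Ω μ (Q l) (hQ l) (θ l) (hθ l) (inv l) η (P l) (hPAP l η hη0)
  set q : ℕ := ∏ l, q' l with hq
  have hq1 : 1 ≤ q := by
    have : 0 < ∏ l, q' l := Finset.prod_pos (s := Finset.univ) (f := q') fun l _ => hq' l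
    exact this
  set ρ : ℝ := min (ρ' 0) (min (ρ' 1) (ρ' 2)) / q with hρ
  have hqr : (0 : ℝ) < q := by exact_mod_cast hq1
  have hρ0 : 0 < ρ := by
    rw [hρ]
    exact div_pos (lt_min (hρ' 0) (lt_min (hρ' 1) (hρ' 2))) hqr
  have hρl : ∀ l, (q : ℝ) * ρ ≤ ρ' l := by
    have e : (q : ℝ) * ρ = min (ρ' 0) (min (ρ' 1) (ρ' 2)) := by
      rw [hρ]; field_simp
    intro l
    rw [e]
    fin_cases l
    · exact min_le_left _ _
    · exact (min_le_right _ _).trans (min_le_left _ _)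
    · exact (min_le_right _ _).trans (min_le_right _ _)
  set κ₀ : ℕ := ∑ l, K' l with hκ₀
  have hPx : ∀ l, ∀ᵐ x ∂μ, ∀ t : ℕ, (∀ j < κ₀, ‖(θ l j x : ℂ) ^ t - 1‖ ≤ ρ) →
      |P l ((Q l)^[q * t] x) - P l x| ≤ η := by
    intro l
    filter_upwards [hAP l] with x hx t ht
    obtain ⟨r, hr⟩ : q' l ∣ q := Finset.dvd_prod_of_mem q' (Finset.mem_univ l)
    have h3 := hx 0 (r * t) ?_
    · have e : 0 + q' l * (r * t) = q * t := by rw [hr]; ring
      rw [e] at h3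
      exact h3
    · intro j hj
      have hKle : K' l ≤ κ₀ :=
        Finset.single_le_sum (fun _ _ => Nat.zero_le _) (Finset.mem_univ l)
      have h4 := ht j (lt_of_lt_of_le hj hKle)
      have e : (θ l j x : ℂ) ^ (r * t) = ((θ l j x : ℂ) ^ t) ^ r := by
        rw [← pow_mul, mul_comm]
      rw [e]
      have hn : ‖(θ l j x : ℂ) ^ t‖ = 1 := by rw [norm_pow, Circle.norm_coe, one_pow]
      refine (fin_pow_sub _ hn r).trans ?_
      have hrq : (r : ℝ) ≤ q := by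
        have : r ≤ q := by
          rw [hr]; exact Nat.le_mul_of_pos_left r (hq' l)
        exact_mod_cast this
      calc (r : ℝ) * ‖(θ l j x : ℂ) ^ t - 1‖ ≤ q * ρ := by
            apply mul_le_mul hrq h4 (norm_nonneg _) hqr.le
        _ ≤ ρ' l := hρl l
  -- parameters
  obtain ⟨n, hn1, hnκ⟩ : ∃ n : ℕ, 1 ≤ n ∧ (κ₀ : ℝ) * (1 / 2 : ℝ) ^ n ≤ η / 2 := by
    obtain ⟨n, hn⟩ := exists_pow_lt_of_lt_one (show (0 : ℝ) < η / 2 / (κ₀ + 1) by positivity)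
      (show (1 / 2 : ℝ) < 1 by norm_num)
    refine ⟨n + 1, by omega, ?_⟩
    have h5 : (1 / 2 : ℝ) ^ (n + 1) ≤ (1 / 2 : ℝ) ^ n := by
      apply pow_le_pow_of_le_one (by norm_num) (by norm_num) (Nat.le_succ n)
    have h6 : (0 : ℝ) ≤ κ₀ := Nat.cast_nonneg _
    calc (κ₀ : ℝ) * (1 / 2 : ℝ) ^ (n + 1) ≤ κ₀ * (η / 2 / (κ₀ + 1)) := by
          apply mul_le_mul_of_nonneg_left (h5.trans hn.le) h6
      _ ≤ η / 2 := by
          rw [mul_div_assoc', div_le_iff₀ (by positivity)]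
          nlinarith
  obtain ⟨κ, hκm, hκ0, G, hGm, hGμ, hGG⟩ := hTHR Ω μ θ hθ κ₀ (δ₀ / 2) (by positivity)
  obtain ⟨m, hm1, hmκ⟩ : ∃ m : ℕ, 1 ≤ m ∧ (κ₀ : ℝ) * (72 / (m * ρ ^ 2)) ≤ η / 2 := by
    obtain ⟨m, hm⟩ := exists_nat_ge (κ₀ * 144 / (ρ ^ 2 * η) : ℝ)
    refine ⟨m + 1, by omega, ?_⟩
    have hm' : κ₀ * 144 / (ρ ^ 2 * η) ≤ ((m + 1 : ℕ) : ℝ) := by push_cast; linarith
    rw [div_le_iff₀ (by positivity)] at hm'
    have hmp : (0 : ℝ) < ((m + 1 : ℕ) : ℝ) := by positivity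
    rw [mul_div_assoc', div_le_iff₀ (by positivity)]
    nlinarith
  obtain ⟨Pi, hPi⟩ := hPIV n
  set X : Set Ω := A₀ ∩ G with hX
  have hXm : MeasurableSet X := hA₀m.inter hGm
  have hXμ : δ₀ / 2 ≤ μ.real X := by
    have h7 : μ.real A₀ ≤ μ.real (X ∪ Gᶜ) := by
      apply measureReal_mono _ (measure_ne_top _ _)
      intro x hx
      by_cases hxG : x ∈ G
      · exact Or.inl ⟨hx, hxG⟩
      · exact Or.inr hxG
    have h8 := measureReal_union_le (μ := μ) X Gᶜ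
    linarith
  have hsum : (κ 0 : ℝ) * (72 / (m * ρ ^ 2) + (1 / 2 : ℝ) ^ n) ≤ η := by
    rw [hκ0, mul_add]; linarith
  have hErr : ∀ l, ∀ ε : ℝ, 0 < ε → ∃ N₀ : ℕ, ∀ N ≥ N₀, ∫ x in X, avg3 N (fun y =>
      Wf m n κ Pi (sv θ x) y * |c l ((Q l)^[q * tm l y] x) - c l x|) ∂μ ≤ 4 * η + ε := by
    intro l
    refine hERR Ω μ m n κ Pi hm1 hn1 hκm hPi θ hθ hInd X hXm (fun x hx => hGG x hx.2) l (Q l)
      (hQ l) (inv l) (c l) (hcm l) (hc0 l) (hc1 l) (hAPL l) q hq1 (P l) (hPm l) (hP0 l) (hP1 l)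
      (fun ε' hε' => hAPX Ω μ (Q l) (hQ l) (θ l) (hθ l) (inv l) ε' (P l) (hPAP l ε' hε'))
      η hη0 (hPc l) ρ hρ0 ?_ hsum
    rw [hκ0]
    exact hPx l
  have hsymm : ∀ Q : Ω ≃ᵐ Ω, MeasurePreserving Q μ μ → MeasurePreserving Q.symm μ μ :=
    fun Q hQ => hQ.symm Q
  have gt2 : GT μ m n κ Pi θ q (Q 2) 2 0 1 (g 2) := by
    refine hGTW Ω μ m n κ Pi hm1 hPi θ hθ q hq1 (Q 2) (⇑T ∘ ⇑T) T hT.measurable
      (hT.measurable.comp hT.measurable) hT.measurable 2 0 1 (by decide) (by decide) (by decide)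
      (g 2) (hgm 2) (hg1 2) ?_ (hGVQ Ω μ T T.symm (⇑T ∘ ⇑T) T hT (hsymm T hT)
        (fun x => T.symm_apply_apply x) (fun x => T.apply_symm_apply x)
        (Or.inr (Or.inr ⟨rfl, rfl⟩)) (g 2) (hgm 2) (hg1 2) (hRWM 2))
    intro y hy x
    rw [Pool.Agent.MRec.iterate_two, ← Function.iterate_add_apply]
    have e : q * tm 2 y = 2 * (q * y 0) + q * y 1 := by
      simp [tm]; ring
    rw [e]
    rfl
  have gt0 : GT μ m n κ Pi θ q (Q 0) 0 2 1 (g 0) := by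
    refine hGTW Ω μ m n κ Pi hm1 hPi θ hθ q hq1 (Q 0) (⇑R ∘ ⇑R) R.symm hR.measurable
      (hR.measurable.comp hR.measurable) (hsymm R hR).measurable 0 2 1 (by decide) (by decide)
      (by decide)
      (g 0) (hgm 0) (hg1 0) ?_ (hGVQ Ω μ R R.symm (⇑R ∘ ⇑R) R.symm hR (hsymm R hR)
        (fun x => R.symm_apply_apply x) (fun x => R.apply_symm_apply x)
        (Or.inr (Or.inl ⟨rfl, rfl⟩)) (g 0) (hgm 0) (hg1 0) (hRWM 0))
    intro y hy x
    rw [Pool.Agent.MRec.iterate_two]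
    have e : 2 * (q * y 2) = q * tm 0 y + q * y 1 := by
      simp only [tm, Matrix.cons_val_zero]
      rw [← mul_add, Nat.sub_add_cancel hy]; ring
    rw [e, Function.iterate_add_apply]
    have e5 : (⇑R)^[q * y 1] ((⇑R.symm)^[q * y 1] x) = x :=
      Function.LeftInverse.iterate (fun x => R.apply_symm_apply x) _ x
    rw [e5]
    rfl
  have gt1 : GT μ m n κ Pi θ q (Q 1) 1 0 2 (g 1) := by
    refine hGTW Ω μ m n κ Pi hm1 hPi θ hθ q hq1 (Q 1) S S hS.measurable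
      hS.measurable hS.measurable 1 0 2 (by decide) (by decide) (by decide)
      (g 1) (hgm 1) (hg1 1) ?_ (hGVQ Ω μ S S.symm S S hS (hsymm S hS)
        (fun x => S.symm_apply_apply x) (fun x => S.apply_symm_apply x)
        (Or.inl ⟨rfl, rfl⟩) (g 1) (hgm 1) (hg1 1) (hRWM 1))
    intro y hy x
    rw [← Function.iterate_add_apply]
    have e : q * tm 1 y = q * y 0 + q * y 2 := by
      simp [tm]; ring
    rw [e]
    rfl
  obtain ⟨N, hN, y, ⟨hy0, hy0'⟩, hy1, ⟨hy2, hy2'⟩, hne⟩ := hMAI Ω μ m n κ Pi hm1 hPi θ hθ hInd Q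
    (fun l => (hQ l).measurable) A X hA hXm (fun x hx => hx.1.1) c g hcm hgm hc0 hc1 hg1 hcg γ η
    hγ hη0 (fun x hx l => hx.1.2 l) (by linarith) (by rw [hη]; nlinarith) q hq1 hErr gt2 gt0 gt1
  have t0 : tm 0 y = 2 * y 2 - y 1 := rfl
  have t1 : tm 1 y = y 0 + y 2 := rfl
  have t2 : tm 2 y = 2 * y 0 + y 1 := rfl
  refine ⟨q * tm 2 y, q * (tm 1 y - tm 2 y), ?_, ?_, fun hz => hne ?_⟩
  · have : 1 ≤ tm 2 y := by omega
    exact Nat.mul_pos hq1 this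
  · have : 1 ≤ tm 1 y - tm 2 y := by omega
    exact Nat.mul_pos hq1 this
  · refine measure_mono_null ?_ hz
    have e1 : q * tm 2 y + q * (tm 1 y - tm 2 y) = q * tm 1 y := by
      rw [← mul_add]; congr 1; omega
    have e2 : q * tm 2 y + 2 * (q * (tm 1 y - tm 2 y)) = q * tm 0 y := by
      have : 2 * (q * (tm 1 y - tm 2 y)) = q * (2 * (tm 1 y - tm 2 y)) := by ring
      rw [this, ← mul_add]; congr 1; omega
    rw [e1, e2]
    rintro x ⟨hxA, hx⟩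
    exact ⟨⟨⟨hxA, hx 2⟩, hx 1⟩, hx 0⟩

end Pool.Agent.Ind3
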