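import Pool.Agent.Ind3.Targets
import Pool.Agent.FSP.P_COR
import Pool.Agent.FSP.P_ERG

set_option autoImplicit false
set_option linter.unusedVariables false

/-! Target GVQ of the project Ind3: the contribution of the relatively weakly mixing part, for
arbitrary bounded arrays (copy of FSP.p_GTH) and along multiples of `q`. -/

open MeasureTheory Filter Topology Finset

namespace Pool.Agent.Ind3

open Pool.Agent.FSP

universe u

namespace GVQ_

open Pool.Agent.MRec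

variable {Ω : Type u} [MeasurableSpace Ω]

theorem core (μ : Measure Ω) [IsProbabilityMeasure μ] (B P : Ω → Ω)
    (hB : MeasurePreserving B μ μ) (hP : MeasurePreserving P μ μ)
    (hcomm : ∀ x, B (P x) = P (B x)) (g : Ω → ℝ) (hg : Measurable g) (hg1 : ∀ x, |g x| ≤ 1)
    (κ' : ℕ → Ω → ℝ) (hκi : ∀ h, Integrable (κ' h) μ)
    (h4 : Tendsto (fun H : ℕ => (H : ℝ)⁻¹ * ∑ h ∈ range H, ∫ x, |κ' h x| ∂μ) atTop (𝓝 0))
    (h5 : ∀ (h : ℕ) (ε : ℝ), 0 < ε → ∃ N₀ : ℕ, ∀ N ≥ N₀,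
      ∫ x, |MRec.corr B P g N h x - κ' h x| ∂μ ≤ ε) (W ε : ℝ) (hε : 0 < ε) :
    ∃ H : ℕ, 0 < H ∧ ∃ L₀ : ℕ, ∀ L ≥ L₀, ∀ s s' : ℕ, ∀ u v : ℕ → Ω → ℝ,
      (∀ n x, |u n x| ≤ W) → (∀ n x, |v n x| ≤ W) →
      ∫ x, |mean (H * L) s' fun j => mean (H * L) s fun i =>
        u i x * v j x * g (B^[i] (P^[j] x))| ∂μ ≤ ε := by
  -- parameters
  obtain ⟨θ, hθ, hθ1⟩ : ∃ θ > 0, θ / 2 * W ^ 2 ≤ ε / 2 := by
    refine ⟨ε / (W ^ 2 + 1), by positivity, ?_⟩
    rw [div_div, div_mul_eq_mul_div, div_le_div_iff₀ (by positivity) (by positivity)]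
    nlinarith [sq_nonneg W]
  obtain ⟨ρ, hρ, hρ1⟩ : ∃ ρ > 0, 1 / (2 * θ) * (W ^ 2 * ρ) ≤ ε / 2 := by
    refine ⟨ε * θ / (W ^ 2 + 1), by positivity, ?_⟩
    rw [mul_div_assoc', mul_div_assoc', div_le_div_iff₀ (by positivity) (by positivity)]
    have e1 : 1 / (2 * θ) * (W ^ 2 * (ε * θ)) = W ^ 2 * ε / 2 := by field_simp
    rw [e1]
    nlinarith [sq_nonneg W]
  obtain ⟨H, hH0, hH⟩ : ∃ H : ℕ, 0 < H ∧ (H : ℝ)⁻¹ * ∑ h ∈ Finset.range H,
      ∫ x, |κ' h x| ∂μ ≤ ρ / 4 := by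
    have h1 := (h4.eventually (ge_mem_nhds (show (0 : ℝ) < ρ / 4 by positivity))).and
      (eventually_gt_atTop 0)
    obtain ⟨H, h2, h3⟩ := h1.exists
    exact ⟨H, h3, h2⟩
  have hHr : (0 : ℝ) < H := by exact_mod_cast hH0
  choose N₀ hN₀ using fun h => h5 h (ρ / 4) (by positivity)
  refine ⟨H, hH0, (∑ h ∈ Finset.range H, N₀ h) + 1, fun L hL s s' u v hu hv => ?_⟩
  have hL0 : 0 < L := by omega
  have hLr : (0 : ℝ) < L := by exact_mod_cast hL0
  simp only [mean]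
  set N := H * L with hN
  have hN0 : 0 < N := Nat.mul_pos hH0 hL0
  have hNr : (0 : ℝ) < N := by exact_mod_cast hN0
  have hNbig : ∀ h ∈ Finset.range H, N₀ h ≤ N := by
    intro h hh
    have h1 : N₀ h ≤ ∑ h ∈ Finset.range H, N₀ h :=
      Finset.single_le_sum (f := N₀) (fun _ _ => Nat.zero_le _) hh
    have h2 : L ≤ N := Nat.le_mul_of_pos_left L hH0
    omega
  -- bound for `κ`
  set κ : ℕ → ℝ := fun h => ∫ x, |corr B P g N h x| ∂μ with hκ
  have hκ0 : ∀ h, 0 ≤ κ h := fun h => integral_nonneg fun x => abs_nonneg _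
  have hκle : ∀ h ∈ Finset.range H, κ h ≤ ∫ x, |κ' h x| ∂μ + ρ / 4 := by
    intro h hh
    have h1 := hN₀ h N (hNbig h hh)
    have h2 : ∀ x, |corr B P g N h x| ≤ |κ' h x| + |corr B P g N h x - κ' h x| := by
      intro x
      have := abs_add_le (κ' h x) (corr B P g N h x - κ' h x)
      simpa using this
    have hm := measurable_corr hB.measurable hP.measurable hg N h
    have hint0 : Integrable (corr B P g N h) μ :=
      int_of_bdd hm 1 (fun x => abs_corr_le hg1 N h x)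
    have hint1 : Integrable (fun x => |corr B P g N h x|) μ := hint0.abs
    have hint2 : Integrable (fun x => |corr B P g N h x - κ' h x|) μ :=
      (hint0.sub (hκi h)).abs
    calc κ h ≤ ∫ x, (|κ' h x| + |corr B P g N h x - κ' h x|) ∂μ :=
          integral_mono hint1 ((hκi h).abs.add hint2) h2
      _ = ∫ x, |κ' h x| ∂μ + ∫ x, |corr B P g N h x - κ' h x| ∂μ :=
          integral_add (hκi h).abs hint2
      _ ≤ _ := by gcongr
  have hκavg : (H : ℝ)⁻¹ * ∑ h ∈ Finset.range H, κ h ≤ ρ / 2 := by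
    calc (H : ℝ)⁻¹ * ∑ h ∈ Finset.range H, κ h
        ≤ (H : ℝ)⁻¹ * ∑ h ∈ Finset.range H, (∫ x, |κ' h x| ∂μ + ρ / 4) := by
          gcongr with h hh
          exact hκle h hh
      _ = (H : ℝ)⁻¹ * ∑ h ∈ Finset.range H, ∫ x, |κ' h x| ∂μ + ρ / 4 := by
          rw [Finset.sum_add_distrib, Finset.sum_const, Finset.card_range, nsmul_eq_mul]
          field_simp
      _ ≤ ρ / 4 + ρ / 4 := by gcongr
      _ = ρ / 2 := by ring
  have hdouble : ((H : ℝ)⁻¹) ^ 2 * ∑ t ∈ Finset.range H, ∑ t' ∈ Finset.range H,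
      κ (hd t t') ≤ ρ := by
    calc ((H : ℝ)⁻¹) ^ 2 * ∑ t ∈ Finset.range H, ∑ t' ∈ Finset.range H, κ (hd t t')
        ≤ ((H : ℝ)⁻¹) ^ 2 * ∑ t ∈ Finset.range H, 2 * ∑ h ∈ Finset.range H, κ h := by
          gcongr with t ht
          exact sum_hd_le κ hκ0 H t (Finset.mem_range.1 ht)
      _ = 2 * ((H : ℝ)⁻¹ * ∑ h ∈ Finset.range H, κ h) := by
          rw [Finset.sum_const, Finset.card_range, nsmul_eq_mul]
          field_simp
      _ ≤ 2 * (ρ / 2) := by gcongr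
      _ = ρ := by ring
  -- the pointwise bound
  set G : ℕ → ℕ → ℕ → Ω → ℝ := fun l t j x => g (B^[(s + H * l) + t] (P^[s' + j] x)) with hG
  set Γ : ℕ → ℕ → ℕ → Ω → ℝ := fun l t t' x =>
    |(N : ℝ)⁻¹ * ∑ j ∈ Finset.range N, G l t j x * G l t' j x| with hΓ
  have hGm : ∀ l t j, Measurable (G l t j) := by
    intro l t j
    exact hg.comp ((hB.measurable.iterate _).comp (hP.measurable.iterate _))
  have hΓm : ∀ l t t', Measurable (Γ l t t') := by
    intro l t t'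
    apply Measurable.abs
    apply Measurable.const_mul
    apply Finset.measurable_sum
    intro j _
    exact (hGm l t j).mul (hGm l t' j)
  have hΓ1 : ∀ l t t' x, |Γ l t t' x| ≤ 1 := by
    intro l t t' x
    simp only [hΓ, abs_abs]
    apply abs_avg_le N _ 1 zero_le_one
    intro j
    rw [abs_mul]
    exact mul_le_one₀ (hg1 _) (abs_nonneg _) (hg1 _)
  have hΓint : ∀ l t t', ∫ x, Γ l t t' x ∂μ = κ (hd t t') := by
    intro l t t'
    exact integral_corr_eq hB hP hcomm hg N (s + H * l) s' t t'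
  have hpt : ∀ x, |(N : ℝ)⁻¹ * ∑ j ∈ Finset.range N, (N : ℝ)⁻¹ *
        ∑ i ∈ Finset.range N, u (s + i) x * v (s' + j) x * g (B^[s + i] (P^[s' + j] x))|
      ≤ (L : ℝ)⁻¹ * ∑ l ∈ Finset.range L, (θ / 2 * W ^ 2 + 1 / (2 * θ) * (W ^ 2 *
        (((H : ℝ)⁻¹) ^ 2 * ∑ t ∈ Finset.range H, ∑ t' ∈ Finset.range H, Γ l t t' x))) := by
    intro x
    have e1 : (N : ℝ)⁻¹ * ∑ j ∈ Finset.range N, (N : ℝ)⁻¹ *
        ∑ i ∈ Finset.range N, u (s + i) x * v (s' + j) x * g (B^[s + i] (P^[s' + j] x))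
        = (L : ℝ)⁻¹ * ∑ l ∈ Finset.range L, ((N : ℝ)⁻¹ * ∑ j ∈ Finset.range N, (H : ℝ)⁻¹ *
          ∑ t ∈ Finset.range H, v (s' + j) x * (u ((s + H * l) + t) x * G l t j x)) := by
      have e2 : ∀ j, ∑ i ∈ Finset.range N, u (s + i) x * v (s' + j) x *
          g (B^[s + i] (P^[s' + j] x))
          = ∑ l ∈ Finset.range L, ∑ t ∈ Finset.range H,
            v (s' + j) x * (u ((s + H * l) + t) x * G l t j x) := by
        intro j
        rw [hN, sum_range_block]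
        apply Finset.sum_congr rfl; intro l _
        apply Finset.sum_congr rfl; intro t _
        simp only [hG, add_assoc]
        ring
      simp only [e2]
      have e3 : (N : ℝ)⁻¹ = (L : ℝ)⁻¹ * (H : ℝ)⁻¹ := by
        rw [hN, Nat.cast_mul, mul_inv, mul_comm]
      simp only [Finset.mul_sum]
      rw [Finset.sum_comm]
      apply Finset.sum_congr rfl; intro l _
      apply Finset.sum_congr rfl; intro j _
      apply Finset.sum_congr rfl; intro t _
      rw [e3]; ring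
    rw [e1, abs_mul, abs_of_nonneg (show (0 : ℝ) ≤ (L : ℝ)⁻¹ by positivity)]
    gcongr
    refine (Finset.abs_sum_le_sum_abs _ _).trans ?_
    apply Finset.sum_le_sum
    intro l _
    exact block_ineq N H hN0 hH0 W θ hθ (fun j => v (s' + j) x)
      (fun t => u ((s + H * l) + t) x) (fun t j => G l t j x) (fun j => hv _ x) (fun t => hu _ x)
  -- integrate
  have hΓi : ∀ l t t', Integrable (Γ l t t') μ := fun l t t' =>
    int_of_bdd (hΓm l t t') 1 (hΓ1 l t t')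
  have hsumi : ∀ l, Integrable (fun x => ∑ t ∈ Finset.range H, ∑ t' ∈ Finset.range H,
      Γ l t t' x) μ := fun l => integrable_finsetSum _ fun t _ =>
        integrable_finsetSum _ fun t' _ => hΓi l t t'
  have hli : ∀ l, Integrable (fun x => θ / 2 * W ^ 2 + 1 / (2 * θ) * (W ^ 2 *
        (((H : ℝ)⁻¹) ^ 2 * ∑ t ∈ Finset.range H, ∑ t' ∈ Finset.range H, Γ l t t' x))) μ :=
    fun l => (integrable_const _).add ((((hsumi l).const_mul _).const_mul _).const_mul _)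
  have hR : Integrable (fun x => (L : ℝ)⁻¹ * ∑ l ∈ Finset.range L, (θ / 2 * W ^ 2 +
      1 / (2 * θ) * (W ^ 2 * (((H : ℝ)⁻¹) ^ 2 * ∑ t ∈ Finset.range H,
        ∑ t' ∈ Finset.range H, Γ l t t' x)))) μ :=
    (integrable_finsetSum _ fun l _ => hli l).const_mul _
  have hRint : ∫ x, (L : ℝ)⁻¹ * ∑ l ∈ Finset.range L, (θ / 2 * W ^ 2 +
      1 / (2 * θ) * (W ^ 2 * (((H : ℝ)⁻¹) ^ 2 * ∑ t ∈ Finset.range H,
        ∑ t' ∈ Finset.range H, Γ l t t' x))) ∂μ ≤ ε := by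
    rw [integral_const_mul, integral_finsetSum _ fun l _ => hli l]
    have e1 : ∀ l, ∫ x, (θ / 2 * W ^ 2 + 1 / (2 * θ) * (W ^ 2 *
        (((H : ℝ)⁻¹) ^ 2 * ∑ t ∈ Finset.range H, ∑ t' ∈ Finset.range H, Γ l t t' x))) ∂μ ≤ ε := by
      intro l
      rw [integral_add (integrable_const _) ((((hsumi l).const_mul _).const_mul _).const_mul _),
        integral_const, probReal_univ, one_smul,
        integral_const_mul, integral_const_mul, integral_const_mul,
        integral_finsetSum _ fun t _ => integrable_finsetSum _ fun t' _ => hΓi l t t']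
      have e2 : ∀ t, ∫ x, ∑ t' ∈ Finset.range H, Γ l t t' x ∂μ
          = ∑ t' ∈ Finset.range H, κ (hd t t') := by
        intro t
        rw [integral_finsetSum _ fun t' _ => hΓi l t t']
        simp only [hΓint]
      simp only [e2]
      have e3 : 1 / (2 * θ) * (W ^ 2 * (((H : ℝ)⁻¹) ^ 2 * ∑ t ∈ Finset.range H,
          ∑ t' ∈ Finset.range H, κ (hd t t'))) ≤ 1 / (2 * θ) * (W ^ 2 * ρ) := by
        gcongr
      linarith
    calc (L : ℝ)⁻¹ * ∑ l ∈ Finset.range L, ∫ x, (θ / 2 * W ^ 2 + 1 / (2 * θ) * (W ^ 2 *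
        (((H : ℝ)⁻¹) ^ 2 * ∑ t ∈ Finset.range H, ∑ t' ∈ Finset.range H, Γ l t t' x))) ∂μ
        ≤ (L : ℝ)⁻¹ * ∑ l ∈ Finset.range L, ε := by
          gcongr with l _
          exact e1 l
      _ = ε := by
          rw [Finset.sum_const, Finset.card_range, nsmul_eq_mul]; field_simp
  refine le_trans (integral_mono_of_nonneg (ae_of_all _ fun x => abs_nonneg _) hR
    (ae_of_all _ hpt)) hRint

/-- The third case of the correlations. -/
theorem cor3 (μ : Measure Ω) [IsProbabilityMeasure μ] (Q : Ω → Ω) (hQ : MeasurePreserving Q μ μ)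
    (g : Ω → ℝ) (hgm : Measurable g) (hg1 : ∀ x, |g x| ≤ 1) (hR : RWM μ Q g) :
    ∃ κ : ℕ → Ω → ℝ, (∀ h, Integrable (κ h) μ) ∧
    Tendsto (fun H : ℕ => (H : ℝ)⁻¹ * ∑ h ∈ range H, ∫ x, |κ h x| ∂μ) atTop (𝓝 0) ∧
    ∀ (h : ℕ) (ε : ℝ), 0 < ε → ∃ N₀ : ℕ, ∀ N ≥ N₀,
      ∫ x, |MRec.corr (Q ∘ Q) Q g N h x - κ h x| ∂μ ≤ ε := by
  refine ⟨fun h => gam μ Q g (2 * h), fun h => integrable_condExp, ?_, fun h ε hε => ?_⟩
  · have h3 : Tendsto (fun H : ℕ => 2 * (((2 * H : ℕ) : ℝ)⁻¹ * ∑ n ∈ range (2 * H),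
        ∫ x, |gam μ Q g n x| ∂μ)) atTop (𝓝 (2 * 0)) := by
      apply Tendsto.const_mul
      have h4 : Tendsto (fun H : ℕ => 2 * H) atTop atTop :=
        tendsto_id.const_mul_atTop' (by norm_num)
      exact hR.comp h4
    rw [mul_zero] at h3
    have h0 : ∀ n, 0 ≤ ∫ x, |gam μ Q g n x| ∂μ := fun n =>
      integral_nonneg fun x => abs_nonneg _
    refine squeeze_zero (fun H => ?_) (fun H => ?_) h3
    · exact mul_nonneg (by positivity) (Finset.sum_nonneg fun h _ => h0 _)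
    have h5 := MRec.sum_even_le (fun n => ∫ x, |gam μ Q g n x| ∂μ) h0 H
    calc (H : ℝ)⁻¹ * ∑ h ∈ range H, ∫ x, |gam μ Q g (2 * h) x| ∂μ
        ≤ (H : ℝ)⁻¹ * ∑ n ∈ range (2 * H), ∫ x, |gam μ Q g n x| ∂μ := by
          gcongr
      _ = 2 * (((2 * H : ℕ) : ℝ)⁻¹ * ∑ n ∈ range (2 * H), ∫ x, |gam μ Q g n x| ∂μ) := by
          rw [Nat.cast_mul, mul_inv]
          push_cast
          ring
  · have hFm : Measurable fun x => g (Q^[2 * h] x) * g x :=
      (hgm.comp (hQ.measurable.iterate _)).mul hgm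
    have h6 := p_ERG Ω μ Q hQ (fun x => g (Q^[2 * h] x) * g x) 1 hFm (fun x => by
      rw [abs_mul]; exact mul_le_one₀ (hg1 _) (abs_nonneg _) (hg1 _)) ε hε
    simp only [MRec.corr, MRec.iterate_two]
    exact h6

/-- Dilation of a mean. -/
theorem mean_dil (N q s : ℕ) (hq : 1 ≤ q) (f : ℕ → ℝ) :
    mean (q * N) (q * s) (fun n => if q ∣ n then (q : ℝ) * f (n / q) else 0) = mean N s f := by
  unfold mean
  have hq0 : (q : ℝ) ≠ 0 := by
    have : 0 < q := hq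
    positivity
  have h1 : ∑ n ∈ range (q * N), (if q ∣ q * s + n then (q : ℝ) * f ((q * s + n) / q) else 0)
      = ∑ n ∈ range N, (q : ℝ) * f (s + n) := by
    rw [MRec.sum_range_block]
    apply Finset.sum_congr rfl
    intro l _
    rw [Finset.sum_eq_single 0]
    · have e1 : q * s + (q * l + 0) = q * (s + l) := by ring
      rw [e1, if_pos (dvd_mul_right q _), Nat.mul_div_cancel_left _ (by omega : 0 < q)]
    · intro t ht ht0
      rw [if_neg]
      intro hd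
      have e2 : q * s + (q * l + t) = q * (s + l) + t := by ring
      rw [e2, Nat.dvd_add_right (dvd_mul_right q _)] at hd
      exact ht0 (Nat.eq_zero_of_dvd_of_lt hd (Finset.mem_range.1 ht))
    · intro h
      exact absurd (Finset.mem_range.2 (by omega)) h
  rw [h1, ← Finset.mul_sum, Nat.cast_mul, mul_inv]
  field_simp

end GVQ_

theorem p_GVQ : T_GVQ.{u} := by
  intro Ω _ μ _ Q Q' B P hQ hQ' hQQ' hQ'Q hBP g hg hg1 hR
  have hB : MeasurePreserving B μ μ := by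
    rcases hBP with ⟨rfl, rfl⟩ | ⟨rfl, rfl⟩ | ⟨rfl, rfl⟩
    · exact hQ
    · exact hQ.comp hQ
    · exact hQ.comp hQ
  have hP : MeasurePreserving P μ μ := by
    rcases hBP with ⟨rfl, rfl⟩ | ⟨rfl, rfl⟩ | ⟨rfl, rfl⟩
    · exact hQ
    · exact hQ'
    · exact hQ
  have hcomm : ∀ x, B (P x) = P (B x) := by
    rcases hBP with ⟨rfl, rfl⟩ | ⟨rfl, rfl⟩ | ⟨rfl, rfl⟩
    · intro x; rfl
    · intro x
      simp only [Function.comp_apply, hQQ', hQ'Q]
    · intro x; rfl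
  obtain ⟨κ, hκi, h4, h5⟩ : ∃ κ : ℕ → Ω → ℝ, (∀ h, Integrable (κ h) μ) ∧
      Tendsto (fun H : ℕ => (H : ℝ)⁻¹ * ∑ h ∈ range H, ∫ x, |κ h x| ∂μ) atTop (𝓝 0) ∧
      ∀ (h : ℕ) (ε : ℝ), 0 < ε → ∃ N₀ : ℕ, ∀ N ≥ N₀,
        ∫ x, |MRec.corr B P g N h x - κ h x| ∂μ ≤ ε := by
    rcases hBP with h | h | ⟨rfl, rfl⟩
    · exact p_COR p_ERG Ω μ Q Q' B P hQ hQ' hQQ' hQ'Q (Or.inl h) g hg hg1 hR
    · exact p_COR p_ERG Ω μ Q Q' B P hQ hQ' hQQ' hQ'Q (Or.inr h) g hg hg1 hR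
    · exact GVQ_.cor3 μ _ hQ g hg hg1 hR
  intro q W ε hq hε
  obtain ⟨H, hH0, L₀, hL₀⟩ := GVQ_.core μ B P hB hP hcomm g hg hg1 κ hκi h4 h5 (q * W) ε hε
  refine ⟨H, hH0, L₀, fun L hL s s' u v hum hvm hu hv => ?_⟩
  have hqL : L₀ ≤ q * L := le_trans hL (Nat.le_mul_of_pos_left L (by omega))
  have key : ∀ w : ℕ → Ω → ℝ, (∀ n x, |w n x| ≤ W) → ∀ n x,
      |(if q ∣ n then (q : ℝ) * w (n / q) x else 0)| ≤ q * W := by
    intro w hw n x
    have h0 : 0 ≤ W := (abs_nonneg _).trans (hw 0 x)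
    split_ifs
    · rw [abs_mul, Nat.abs_cast]
      gcongr
      exact hw _ x
    · rw [abs_zero]; positivity
  have h1 := hL₀ (q * L) hqL (q * s) (q * s') (fun n x => if q ∣ n then (q : ℝ) * u (n / q) x else 0)
    (fun n x => if q ∣ n then (q : ℝ) * v (n / q) x else 0) (key u hu) (key v hv)
  have e0 : H * (q * L) = q * (H * L) := by ring
  rw [e0] at h1
  refine le_trans (le_of_eq ?_) h1
  congr 1
  ext x
  congr 1
  rw [← GVQ_.mean_dil (H * L) q s' hq]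
  congr 1
  ext n'
  split_ifs with hn'
  · obtain ⟨j, rfl⟩ := hn'
    rw [Nat.mul_div_cancel_left _ (by omega : 0 < q), ← GVQ_.mean_dil (H * L) q s hq]
    unfold mean
    rw [mul_left_comm]
    congr 1
    rw [Finset.mul_sum]
    apply Finset.sum_congr rfl
    intro n _
    dsimp only
    split_ifs with hn
    · obtain ⟨i, hi⟩ := hn
      rw [hi, Nat.mul_div_cancel_left _ (by omega : 0 < q)]
      ring
    · ring
  · unfold mean
    simp

end Pool.Agent.Ind3
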