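import Pool.Agent.Ind3.Targets
import Pool.Agent.FSP.P_EXP
import Pool.Agent.FSP.P_KKB

set_option autoImplicit false

/-! Target KFL of the project Ind3: the Fejer factors. -/

open MeasureTheory Filter Topology Finset

namespace Pool.Agent.Ind3

open Pool.Agent.FSP

namespace KFL_

theorem kk_expand (m : ℕ) (z : Circle) : ((kk m z : ℝ) : ℂ) =
    (m : ℂ)⁻¹ * ∑ q : Fin m × Fin m, (z : ℂ) ^ (((q.1 : ℕ) : ℤ) - ((q.2 : ℕ) : ℤ)) := by
  rw [EXP_kk]
  congr 1
  refine Finset.sum_congr rfl fun q _ => ?_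
  rw [zpow_sub₀ (Circle.coe_ne_zero z), zpow_natCast, zpow_natCast]
  simp [div_eq_mul_inv]

theorem rt_zpow (m t : ℕ) (k : ℤ) : ((rt m t : ℂ)) ^ k =
    (Complex.exp (2 * Real.pi * Complex.I * k / (2 * m))) ^ t := by
  rw [rt, Circle.coe_exp, ← Complex.exp_int_mul, ← Complex.exp_nat_mul]
  congr 1
  push_cast
  ring

theorem sum_rt (m : ℕ) (hm : 1 ≤ m) (k : ℤ) (hk : k ≠ 0) (hk2 : |k| < 2 * m) :
    ∑ t ∈ range (2 * m), ((rt m t : ℂ)) ^ k = 0 := by
  simp only [rt_zpow]
  set u : ℂ := Complex.exp (2 * Real.pi * Complex.I * k / (2 * m)) with hu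
  have hm0 : (m : ℂ) ≠ 0 := by exact_mod_cast (by omega : m ≠ 0)
  have hu1 : u ^ (2 * m) = 1 := by
    rw [hu, ← Complex.exp_nat_mul, Complex.exp_eq_one_iff]
    refine ⟨k, ?_⟩
    push_cast
    field_simp
  have hune : u ≠ 1 := by
    rw [hu, Ne, Complex.exp_eq_one_iff]
    rintro ⟨n, hn⟩
    have hpi : (2 * Real.pi * Complex.I : ℂ) ≠ 0 := by
      simp [Real.pi_ne_zero]
    have h1 : (k : ℂ) = n * (2 * m) := by
      have h2 : (2 * Real.pi * Complex.I : ℂ) * k = (2 * Real.pi * Complex.I) * (n * (2 * m)) := by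
        rw [div_eq_iff (by simpa using hm0)] at hn
        rw [hn]; ring
      exact mul_left_cancel₀ hpi h2
    have h3 : k = n * (2 * m) := by exact_mod_cast h1
    have hn0 : n ≠ 0 := by
      rintro rfl
      apply hk
      rw [h3]; ring
    have h4 : 1 ≤ |n| := Int.one_le_abs hn0
    rw [h3, abs_mul] at hk2
    have h5 : |(2 * m : ℤ)| = 2 * m := abs_of_nonneg (by positivity)
    rw [h5] at hk2
    nlinarith [show (0 : ℤ) ≤ 2 * m by positivity]
  rw [geom_sum_eq hune, hu1, sub_self, zero_div]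

theorem ex_bound (i : Fin 3) : ex i ≠ 0 ∧ |ex i| ≤ 2 := by
  fin_cases i <;> simp [ex]

theorem kf_expand (m : ℕ) (i : Fin 3) (t : ℕ) (w : Circle) : ((kf m i t w : ℝ) : ℂ) =
    (m : ℂ)⁻¹ * ∑ q : Fin m × Fin m, (((rt m t : ℂ)) ^ (ex i *
      (((q.1 : ℕ) : ℤ) - ((q.2 : ℕ) : ℤ))) * (w : ℂ) ^ (((q.1 : ℕ) : ℤ) - ((q.2 : ℕ) : ℤ))) := by
  rw [kf, kk_expand]
  congr 1
  refine Finset.sum_congr rfl fun q _ => ?_
  rw [Circle.coe_mul, Circle.coe_zpow, mul_zpow, ← zpow_mul, mul_comm]

end KFL_

open KFL_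

theorem p_KFL : T_KFL := by
  intro m hm i
  have hm0 : (m : ℂ) ≠ 0 := by exact_mod_cast (by omega : m ≠ 0)
  have hmr : (0 : ℝ) < m := by exact_mod_cast hm
  refine ⟨fun t => ?_, fun t w => ⟨KKB_.nonneg m _, KKB_.le m _⟩, fun w => ?_⟩
  · -- the Laurent form
    classical
    set d : Fin m × Fin m → ℤ := fun q => ((q.1 : ℕ) : ℤ) - ((q.2 : ℕ) : ℤ) with hd
    refine ⟨fun n => (m : ℂ)⁻¹ * (((univ.filter fun q => d q = n).card : ℂ) *
      ((rt m t : ℂ)) ^ (ex i * n)), fun n => ?_, ?_, fun w => ?_⟩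
    · have hcard : ((univ.filter fun q => d q = n).card : ℝ) ≤ m := by
        have h1 : (univ.filter fun q => d q = n).card ≤ (univ : Finset (Fin m)).card := by
          apply Finset.card_le_card_of_injOn (fun q => q.1)
            (fun q _ => Finset.mem_coe.2 (mem_univ _))
          intro q hq q' hq' h
          have a1 := (Finset.mem_filter.1 hq).2
          have a2 := (Finset.mem_filter.1 hq').2
          simp only [hd] at a1 a2
          have h' : q.1 = q'.1 := h
          rw [h'] at a1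
          have : q.2 = q'.2 := by
            apply Fin.ext; omega
          exact Prod.ext h' this
        rw [Finset.card_univ, Fintype.card_fin] at h1
        exact_mod_cast h1
      rw [norm_mul, norm_mul, norm_zpow, Circle.norm_coe, one_zpow, mul_one, norm_inv,
        Complex.norm_natCast, Complex.norm_natCast, inv_mul_le_iff₀ hmr, mul_one]
      exact hcard
    · have hcard : (univ.filter fun q : Fin m × Fin m => d q = 0).card = m := by
        have h1 : (univ.filter fun q : Fin m × Fin m => d q = 0)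
            = (univ : Finset (Fin m)).image (fun a => (a, a)) := by
          ext q
          simp only [Finset.mem_filter, mem_univ, true_and, hd, Finset.mem_image]
          constructor
          · intro h
            refine ⟨q.1, ?_⟩
            have : q.1 = q.2 := by apply Fin.ext; omega
            exact Prod.ext rfl this
          · rintro ⟨a, rfl⟩
            simp
        rw [h1, Finset.card_image_of_injective _ (fun a b h => (Prod.mk.inj h).1),
          Finset.card_univ, Fintype.card_fin]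
      beta_reduce
      rw [hcard]
      simp [hm0]
    · rw [kf_expand]
      have h1 : ∑ q : Fin m × Fin m, (((rt m t : ℂ)) ^ (ex i *
          (((q.1 : ℕ) : ℤ) - ((q.2 : ℕ) : ℤ))) * (w : ℂ) ^ (((q.1 : ℕ) : ℤ) - ((q.2 : ℕ) : ℤ)))
          = ∑ n ∈ Finset.Icc (-(m : ℤ)) m, ∑ q ∈ univ.filter (fun q => d q = n),
            (((rt m t : ℂ)) ^ (ex i * d q) * (w : ℂ) ^ (d q)) := by
        rw [Finset.sum_fiberwise_of_maps_to]
        intro q _
        rw [Finset.mem_Icc]
        have a1 := q.1.2
        have a2 := q.2.2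
        simp only [hd]
        constructor <;> omega
      rw [h1, Finset.mul_sum]
      refine Finset.sum_congr rfl fun n _ => ?_
      have h2 : ∑ q ∈ univ.filter (fun q => d q = n),
            (((rt m t : ℂ)) ^ (ex i * d q) * (w : ℂ) ^ (d q))
          = ∑ q ∈ univ.filter (fun q => d q = n), (((rt m t : ℂ)) ^ (ex i * n) * (w : ℂ) ^ n) := by
        refine Finset.sum_congr rfl fun q hq => ?_
        rw [(Finset.mem_filter.1 hq).2]
      rw [h2, Finset.sum_const, nsmul_eq_mul]
      ring
  · -- the mean over the roots of unity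
    have h1 : (((2 * m : ℝ)⁻¹ * ∑ t ∈ range (2 * m), kf m i t w : ℝ) : ℂ) = 1 := by
      push_cast
      simp only [kf_expand]
      rw [← Finset.mul_sum, Finset.sum_comm]
      have h2 : ∀ q : Fin m × Fin m, ∑ t ∈ range (2 * m), (((rt m t : ℂ)) ^ (ex i *
          (((q.1 : ℕ) : ℤ) - ((q.2 : ℕ) : ℤ))) * (w : ℂ) ^ (((q.1 : ℕ) : ℤ) - ((q.2 : ℕ) : ℤ)))
          = if q.1 = q.2 then (2 * m : ℂ) else 0 := by
        intro q
        rw [← Finset.sum_mul]
        by_cases hq : q.1 = q.2
        · rw [if_pos hq, hq]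
          simp
        · rw [if_neg hq]
          have hne : (((q.1 : ℕ) : ℤ) - ((q.2 : ℕ) : ℤ)) ≠ 0 := by
            intro h
            apply hq
            apply Fin.ext; omega
          have hlt : |(((q.1 : ℕ) : ℤ) - ((q.2 : ℕ) : ℤ))| < m := by
            have a1 := q.1.2
            have a2 := q.2.2
            rw [abs_lt]; constructor <;> omega
          obtain ⟨e1, e2⟩ := ex_bound i
          rw [sum_rt m hm _ (mul_ne_zero e1 hne) ?_, zero_mul]
          rw [abs_mul]
          calc |ex i| * |(((q.1 : ℕ) : ℤ) - ((q.2 : ℕ) : ℤ))|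
              ≤ 2 * |(((q.1 : ℕ) : ℤ) - ((q.2 : ℕ) : ℤ))| := by
                apply mul_le_mul_of_nonneg_right e2 (abs_nonneg _)
            _ < 2 * m := by linarith
      simp only [h2]
      rw [Fintype.sum_prod_type]
      simp only [Finset.sum_ite_eq, mem_univ, if_true, Finset.sum_const, card_univ,
        Fintype.card_fin, nsmul_eq_mul]
      field_simp
    exact_mod_cast h1

end Pool.Agent.Ind3
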