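import Pool.Agent.Ind3.Targets

set_option autoImplicit false

/-!
# Ind3, LDR: products over the set of values as products over the first indices (helper97)
-/

open MeasureTheory Filter Topology Finset

namespace Pool.Agent.Ind3

theorem p_LDR : T_LDR := by
  classical
  intro ι _ I v e F he
  rw [← Finset.prod_filter]
  have himg : (I.filter fun i => v i ≠ 1 ∧ ∀ i' ∈ I, e i' < e i → v i' ≠ v i).image v =
      (I.image v).erase 1 := by
    ext z
    simp only [Finset.mem_image, Finset.mem_filter, Finset.mem_erase]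
    constructor
    · rintro ⟨i, ⟨hi, h1, _⟩, rfl⟩
      exact ⟨h1, i, hi, rfl⟩
    · rintro ⟨hz, i, hi, rfl⟩
      obtain ⟨j, hj, hmin⟩ := Finset.exists_min_image (I.filter fun j => v j = v i) e
        ⟨i, Finset.mem_filter.mpr ⟨hi, rfl⟩⟩
      rw [Finset.mem_filter] at hj
      refine ⟨j, ⟨hj.1, ?_, fun i' hi' hlt hv => ?_⟩, hj.2⟩
      · rw [hj.2]
        exact hz
      · have h2 := hmin i' (Finset.mem_filter.mpr ⟨hi', hv.trans hj.2⟩)
        omega
  rw [← Finset.prod_image (f := F) (g := v)]
  · refine Finset.prod_congr ?_ fun _ _ => rfl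
    rw [← himg]
  · intro i hi j hj hij
    have hi' := (Finset.mem_filter.mp (Finset.mem_coe.mp hi))
    have hj' := (Finset.mem_filter.mp (Finset.mem_coe.mp hj))
    apply he
    rcases lt_trichotomy (e i) (e j) with h | h | h
    · exact absurd hij (hj'.2.2 i hi'.1 h)
    · exact h
    · exact absurd hij.symm (hi'.2.2 j hj'.1 h)

end Pool.Agent.Ind3
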