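import Pool.Agent.Ind3.Targets

set_option autoImplicit false

/-! Target LEV of the project Ind3: facts on levels. -/

open MeasureTheory Filter Topology Finset

namespace Pool.Agent.Ind3

open Pool.Agent.FSP

theorem lev_le_n (κ : ℕ → ℕ) (n : ℕ) (s : ℕ → Circle) (z : Circle) : lev κ n s z ≤ n := by
  classical
  unfold lev
  exact (card_filter_le _ _).trans (card_range n).le

theorem lev_le_of (κ : ℕ → ℕ) (hκ : Monotone κ) (n : ℕ) (s : ℕ → Circle) (z : Circle) (a : ℕ)
    (h : ∃ j < κ a, s j = z) : lev κ n s z ≤ a := by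
  classical
  obtain ⟨j, hj, hz⟩ := h
  unfold lev
  refine (card_le_card (t := range a) ?_).trans (card_range a).le
  intro b hb
  rw [mem_filter] at hb
  rw [mem_range]
  by_contra hab
  exact hb.2 j (lt_of_lt_of_le hj (hκ (not_lt.mp hab))) hz

theorem ex_of_lev_lt (κ : ℕ → ℕ) (hκ : Monotone κ) (n : ℕ) (s : ℕ → Circle) (z : Circle)
    (h : lev κ n s z < n) : ∃ j < κ (lev κ n s z), s j = z := by
  classical
  by_contra hc
  push Not at hc
  have h1 : (range (lev κ n s z + 1)).card ≤ lev κ n s z := by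
    conv_rhs => unfold lev
    refine card_le_card ?_
    intro b hb
    rw [mem_range] at hb
    rw [mem_filter, mem_range]
    refine ⟨by omega, fun j hj => hc j (lt_of_lt_of_le hj (hκ (by omega)))⟩
  rw [card_range] at h1
  omega

theorem p_LEV : T_LEV := by
  intro κ n s hκ hn
  refine ⟨fun l z => lev_le_n κ n (s l) z, fun l z => ⟨fun h => ?_, fun h => ?_⟩,
    fun l j hj => ?_, fun hG l l' z hz hi => ?_⟩
  · obtain ⟨j, hj, hz⟩ := ex_of_lev_lt κ hκ n (s l) z h
    exact ⟨j, lt_of_lt_of_le hj (hκ (by omega)), hz⟩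
  · have := lev_le_of κ hκ n (s l) z (n - 1) h
    omega
  · exact Nat.le_zero.mp (lev_le_of κ hκ n (s l) (s l j) 0 ⟨j, hj, rfl⟩)
  · obtain ⟨j, hj, hjz⟩ := ex_of_lev_lt κ hκ n (s l) z (by omega)
    obtain ⟨i, hi', hiz⟩ := hG _ l l' j hj (by rw [hjz]; exact hi)
    exact lev_le_of κ hκ n (s l') z _ ⟨i, hi', hiz.trans hjz⟩

end Pool.Agent.Ind3
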