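import Pool.Agent.Ind3.Targets

set_option autoImplicit false

/-!
# A limsup lemma (target LSU)
-/

namespace Pool.Agent.Ind3

open MeasureTheory Filter Topology Finset

universe u

theorem p_LSU : T_LSU.{u} := by
  intro Ω _ μ _ f B g G hf hB hg hG hae ε hε
  set h : ℕ → Ω → ℝ := fun N x => max (f N x - g x) 0 with hh
  have hgm : AEStronglyMeasurable g (μ.restrict G) := hg.aestronglyMeasurable.restrict
  have hfm : ∀ N, AEStronglyMeasurable (f N) (μ.restrict G) := fun N =>
    (hf N).aestronglyMeasurable
  have hm : ∀ N, AEStronglyMeasurable (h N) (μ.restrict G) := fun N =>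
    ((hfm N).sub hgm).sup aestronglyMeasurable_const
  have hbi : Integrable (fun x => B + |g x|) (μ.restrict G) :=
    (integrable_const B).add hg.restrict.abs
  have hb : ∀ N x, ‖h N x‖ ≤ B + |g x| := by
    intro N x
    have h1 : |f N x - g x| ≤ B + |g x| :=
      (abs_sub _ _).trans (add_le_add (hB N x) le_rfl)
    have h2 : 0 ≤ h N x := le_max_right _ _
    rw [Real.norm_eq_abs, abs_of_nonneg h2]
    exact max_le ((le_abs_self _).trans h1) ((abs_nonneg _).trans h1)
  have hlim : ∀ᵐ x ∂(μ.restrict G), Tendsto (fun N => h N x) atTop (𝓝 0) := by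
    rw [ae_restrict_iff' hG]
    filter_upwards [hae] with x hx hxG
    rw [Metric.tendsto_atTop]
    intro δ hδ
    obtain ⟨N₀, hN⟩ := hx hxG (δ / 2) (by linarith)
    refine ⟨N₀, fun N hN' => ?_⟩
    have h3 := hN N hN'
    have h2 : 0 ≤ h N x := le_max_right _ _
    rw [Real.dist_eq, sub_zero, abs_of_nonneg h2]
    have h4 : h N x ≤ δ / 2 := max_le (by linarith) (by linarith)
    linarith
  have hconv := tendsto_integral_of_dominated_convergence (fun x => B + |g x|) hm hbi
    (fun N => ae_of_all _ (hb N)) hlim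
  rw [integral_zero] at hconv
  obtain ⟨N₀, hN⟩ := (Metric.tendsto_atTop.mp hconv) ε hε
  refine ⟨N₀, fun N hN' => ?_⟩
  have h5 := hN N hN'
  rw [Real.dist_eq, sub_zero] at h5
  have hhi : Integrable (h N) (μ.restrict G) := hbi.mono' (hm N) (ae_of_all _ (hb N))
  have hfi : Integrable (f N) (μ.restrict G) :=
    (integrable_const B).mono' (hfm N) (ae_of_all _ fun x => by
      rw [Real.norm_eq_abs]; exact hB N x)
  calc ∫ x in G, f N x ∂μ ≤ ∫ x in G, (g x + h N x) ∂μ := by
        refine integral_mono hfi (hg.restrict.add hhi) fun x => ?_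
        have : f N x - g x ≤ h N x := le_max_left _ _
        show f N x ≤ g x + h N x
        linarith
    _ = ∫ x in G, g x ∂μ + ∫ x in G, h N x ∂μ := integral_add hg.restrict hhi
    _ ≤ ∫ x in G, g x ∂μ + ε := by
        have := (le_abs_self _).trans h5.le
        linarith

end Pool.Agent.Ind3
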