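import Pool.Agent.Ind3.Targets

/-!
# Ind3: the order of the three means (ORD)
-/

set_option autoImplicit false

open MeasureTheory Filter Topology Finset

namespace Pool.Agent.Ind3

namespace ORD_

theorem swap (N s t : ℕ) (G : ℕ → ℕ → ℝ) :
    mean N s (fun a => mean N t fun b => G a b) = mean N t fun b => mean N s fun a => G a b := by
  unfold mean
  simp only [Finset.mul_sum]
  rw [Finset.sum_comm]

theorem inner (N s t r : ℕ) (G : ℕ → ℕ → ℕ → ℝ) :
    mean N s (fun a => mean N t fun b => mean N r fun c => G a b c) =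
      mean N s fun a => mean N r fun c => mean N t fun b => G a b c := by
  congr 1
  funext a
  exact swap N t r _

theorem outer (N s t r : ℕ) (G : ℕ → ℕ → ℕ → ℝ) :
    mean N s (fun a => mean N t fun b => mean N r fun c => G a b c) =
      mean N t fun b => mean N s fun a => mean N r fun c => G a b c :=
  swap N s t fun a b => mean N r fun c => G a b c

theorem vec {α : Type} (v : Fin 3 → α) (x y z : α) (h0 : v 0 = x) (h1 : v 1 = y)
    (h2 : v 2 = z) : v = ![x, y, z] := by
  funext r
  fin_cases r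
  · exact h0
  · exact h1
  · exact h2

end ORD_

theorem p_ORD : T_ORD := by
  intro N F i j l hij hil hjl
  have e0 : off 0 * N = N := by simp [off]
  have e1 : off 1 * N = 0 := by simp [off]
  have e2 : off 2 * N = 3 * N := by simp [off]
  unfold avg3
  have key : (i = 0 ∧ j = 1 ∧ l = 2) ∨ (i = 0 ∧ j = 2 ∧ l = 1) ∨ (i = 1 ∧ j = 0 ∧ l = 2) ∨
      (i = 1 ∧ j = 2 ∧ l = 0) ∨ (i = 2 ∧ j = 0 ∧ l = 1) ∨ (i = 2 ∧ j = 1 ∧ l = 0) := by
    revert i j l
    decide
  rcases key with ⟨rfl, rfl, rfl⟩ | ⟨rfl, rfl, rfl⟩ | ⟨rfl, rfl, rfl⟩ | ⟨rfl, rfl, rfl⟩ |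
    ⟨rfl, rfl, rfl⟩ | ⟨rfl, rfl, rfl⟩
  · rw [e0, e1, e2]
    congr 1; funext a; congr 1; funext b; congr 1; funext c
    exact congrArg F (ORD_.vec _ a b c (by simp) (by simp) (by simp)).symm
  · rw [e0, e1, e2, ORD_.inner]
    congr 1; funext a; congr 1; funext c; congr 1; funext b
    exact congrArg F (ORD_.vec _ a b c (by simp) (by simp) (by simp)).symm
  · rw [e0, e1, e2, ORD_.outer]
    congr 1; funext a; congr 1; funext b; congr 1; funext c
    exact congrArg F (ORD_.vec _ b a c (by simp) (by simp) (by simp)).symm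
  · rw [e0, e1, e2]
    refine (ORD_.outer _ _ _ _ _).trans ((ORD_.inner _ _ _ _ _).trans ?_)
    congr 1; funext a; congr 1; funext b; congr 1; funext c
    exact congrArg F (ORD_.vec _ c a b (by simp) (by simp) (by simp)).symm
  · rw [e0, e1, e2]
    refine (ORD_.inner _ _ _ _ _).trans ((ORD_.outer _ _ _ _ _).trans ?_)
    congr 1; funext a; congr 1; funext b; congr 1; funext c
    exact congrArg F (ORD_.vec _ b c a (by simp) (by simp) (by simp)).symm
  · rw [e0, e1, e2]
    refine (ORD_.outer _ _ _ _ _).trans ((ORD_.inner _ _ _ _ _).trans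
      ((ORD_.outer _ _ _ _ _).trans ?_))
    congr 1; funext a; congr 1; funext b; congr 1; funext c
    exact congrArg F (ORD_.vec _ c b a (by simp) (by simp) (by simp)).symm

end Pool.Agent.Ind3
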