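import Pool.Agent.Ind3.Targets
import Pool.Agent.FSP.P_ORT

set_option autoImplicit false

/-!
# Ind3: block ORN (orthogonality to the generalised eigenfunctions, countable list)
-/

open MeasureTheory Filter Topology Finset

namespace Pool.Agent.Ind3

open Pool.Agent.FSP

universe u

namespace ORN_

variable {Ω : Type u} [MeasurableSpace Ω]

/-- the set of the points where a power of `lam x` is a monomial in the first `k` functions -/
def Y (θ : ℕ → Ω → Circle) (lam : Ω → Circle) (k : ℕ) : Set Ω :=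
  {x | ∃ n : ℕ, 1 ≤ n ∧ ∃ a : Fin k → ℤ, lam x ^ n = ∏ j : Fin k, θ j x ^ a j}

lemma Y_meas (θ : ℕ → Ω → Circle) (lam : Ω → Circle) (h1 : ∀ j, Measurable (θ j))
    (h2 : Measurable lam) (k : ℕ) : MeasurableSet (Y θ lam k) := by
  have h : Y θ lam k = ⋃ n : ℕ, ⋃ _ : 1 ≤ n, ⋃ a : Fin k → ℤ,
      {x | lam x ^ n = ∏ j : Fin k, θ j x ^ a j} := by
    ext x
    simp [Y]
  rw [h]
  refine MeasurableSet.iUnion fun n => MeasurableSet.iUnion fun _ =>
    MeasurableSet.iUnion fun a => ?_
  refine measurableSet_eq_fun (h2.pow_const n) ?_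
  refine Finset.measurable_prod _ fun j _ => ?_
  exact (continuous_zpow (a j)).measurable.comp (h1 j)

omit [MeasurableSpace Ω] in
lemma Y_mono (θ : ℕ → Ω → Circle) (lam : Ω → Circle) : Monotone (Y θ lam) := by
  refine monotone_nat_of_le_succ fun k x hx => ?_
  obtain ⟨n, hn, a, ha⟩ := hx
  refine ⟨n, hn, Fin.snoc a 0, ?_⟩
  rw [ha, Fin.prod_univ_castSucc]
  simp

omit [MeasurableSpace Ω] in
lemma Y_inv (θ : ℕ → Ω → Circle) (lam : Ω → Circle) (T : Ω → Ω) (h1 : ∀ j x, θ j (T x) = θ j x)
    (h2 : ∀ x, lam (T x) = lam x) (k : ℕ) (x : Ω) : T x ∈ Y θ lam k ↔ x ∈ Y θ lam k := by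
  simp only [Y, Set.mem_ofPred_eq, h1, h2]

end ORN_

open ORN_ in
theorem p_ORN : T_ORN.{u} := by
  intro Ω _ μ _ T hT θ hθm hθT g hg hg1 hort v lam hv hlam hlamT hvT hrel hint
  -- the truncated functions
  have hk : ∀ k : ℕ, ∫ x, (g x : ℂ) * (Y θ lam k).indicator v x ∂μ = 0 := by
    intro k
    refine p_ORT Ω μ T hT Set.univ k (fun j => θ j) {1} MeasurableSet.univ (fun x => by simp)
      (Set.countable_singleton _) (fun j => hθm j) (fun j x => hθT j x) g hg hg1
      (fun x hx => absurd (Set.mem_univ x) hx) ?_ ((Y θ lam k).indicator v) lam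
      (hv.indicator (Y_meas θ lam hθm hlam k)) hlam hlamT ?_ ?_ ?_
    · intro w hw hK hw0 hAP
      refine hort w hw hK hw0 fun ε hε => ?_
      obtain ⟨q, hq, ρ, hρ, d, τ, hτ, h⟩ := hAP ε hε
      refine ⟨q, hq, ρ, hρ, d, τ, fun l => ?_, h⟩
      rcases hτ l with ⟨j, hj⟩ | ⟨ζ, hζ, h2⟩
      · exact Or.inl ⟨j, hj⟩
      · refine Or.inr ?_
        rw [Set.mem_singleton_iff] at hζ ⊢
        rw [h2, hζ]
    · filter_upwards [hvT] with x hx
      by_cases h : x ∈ Y θ lam k
      · rw [Set.indicator_of_mem h, Set.indicator_of_mem ((Y_inv θ lam T hθT hlamT k x).mpr h), hx]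
      · rw [Set.indicator_of_notMem h,
          Set.indicator_of_notMem (fun h' => h ((Y_inv θ lam T hθT hlamT k x).mp h')), mul_zero]
    · refine Eventually.of_forall fun x _ hx => ?_
      have h : x ∈ Y θ lam k := by
        by_contra h
        exact hx (Set.indicator_of_notMem h v)
      obtain ⟨n, hn, a, ha⟩ := h
      exact ⟨n, hn, 1, rfl, a, by rw [ha, one_mul]⟩
    · refine hint.mono' ?_ (Eventually.of_forall fun x => ?_)
      · exact ((hv.indicator (Y_meas θ lam hθm hlam k)).norm.pow_const 2).aestronglyMeasurable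
      · rw [Real.norm_eq_abs, abs_of_nonneg (by positivity)]
        by_cases h : x ∈ Y θ lam k
        · rw [Set.indicator_of_mem h]
        · rw [Set.indicator_of_notMem h, norm_zero, zero_pow two_ne_zero]
          positivity
  -- the limit
  have hlim : Tendsto (fun k : ℕ => ∫ x, (g x : ℂ) * (Y θ lam k).indicator v x ∂μ) atTop
      (𝓝 (∫ x, (g x : ℂ) * v x ∂μ)) := by
    refine tendsto_integral_of_dominated_convergence (fun x => 1 + ‖v x‖ ^ 2) ?_ ?_ ?_ ?_
    · intro k
      exact ((Complex.measurable_ofReal.comp hg).mul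
        (hv.indicator (Y_meas θ lam hθm hlam k))).aestronglyMeasurable
    · exact (integrable_const 1).add hint
    · intro k
      refine Eventually.of_forall fun x => ?_
      rw [norm_mul, Complex.norm_real, Real.norm_eq_abs]
      have h1 : ‖(Y θ lam k).indicator v x‖ ≤ ‖v x‖ := norm_indicator_le_norm_self v x
      have h2 : |g x| * ‖(Y θ lam k).indicator v x‖ ≤ 1 * ‖v x‖ :=
        mul_le_mul (hg1 x) h1 (norm_nonneg _) zero_le_one
      nlinarith [sq_nonneg (‖v x‖ - 1), norm_nonneg (v x)]
    · filter_upwards [hrel] with x hx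
      refine Tendsto.mul tendsto_const_nhds ?_
      by_cases h0 : v x = 0
      · have h : (fun k => (Y θ lam k).indicator v x) = fun _ => v x := by
          funext k
          by_cases h : x ∈ Y θ lam k
          · rw [Set.indicator_of_mem h]
          · rw [Set.indicator_of_notMem h, h0]
        rw [h]
        exact tendsto_const_nhds
      · obtain ⟨n, hn, k, a, ha⟩ := hx h0
        refine tendsto_const_nhds.congr' ?_
        filter_upwards [eventually_ge_atTop k] with m hm
        rw [Set.indicator_of_mem (Y_mono θ lam hm ⟨n, hn, a, ha⟩)]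
  simp only [hk] at hlim
  exact (tendsto_nhds_unique hlim tendsto_const_nhds)

end Pool.Agent.Ind3
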