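import Pool.Agent.Ind3.Targets

set_option autoImplicit false

/-!
# Ind3, target PIV: the probability vectors of the types.
-/

open MeasureTheory Filter Topology Finset

namespace Pool.Agent.Ind3

open Pool.Agent.FSP

theorem piv_pos (n a : ℕ) : 0 < ee n a := by
  unfold ee; positivity

theorem piv_half (n a : ℕ) (h : a < n) : ee n a ≤ 1 / 2 := by
  unfold ee
  calc ((1 : ℝ) / 2) ^ (n - a) ≤ (1 / 2) ^ 1 :=
        pow_le_pow_of_le_one (by norm_num) (by norm_num) (by omega)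
    _ = 1 / 2 := by norm_num

theorem piv_two (n a b : ℕ) (ha : a < n) (hb : b ≤ a + 1) : ee n b ≤ 2 * ee n a := by
  unfold ee
  have h1 : ((1 : ℝ) / 2) ^ (n - b) ≤ (1 / 2) ^ (n - a - 1) :=
    pow_le_pow_of_le_one (by norm_num) (by norm_num) (by omega)
  have h2 : ((1 : ℝ) / 2) ^ (n - a) = (1 / 2) ^ (n - a - 1) * (1 / 2) := by
    rw [← pow_succ]; congr 1; omega
  rw [h2]; linarith

theorem piv_last (n a : ℕ) (h : a + 1 = n) : ee n a = 1 / 2 := by
  unfold ee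
  have : n - a = 1 := by omega
  rw [this]; norm_num

theorem piv_nu0 (p0 p1 p2 p3 p4 : ℝ) : nu ![p0, p1, p2, p3, p4] 0 = p0 + p1 := rfl

theorem piv_nu1 (p0 p1 p2 p3 p4 : ℝ) : nu ![p0, p1, p2, p3, p4] 1 = p0 + p2 := rfl

theorem piv_nu2 (p0 p1 p2 p3 p4 : ℝ) : nu ![p0, p1, p2, p3, p4] 2 = p0 + p3 := rfl

/-- A vector given by five entries. -/
theorem piv_vec (n : ℕ) (a : Fin 3 → ℕ) (p0 p1 p2 p3 p4 : ℝ) (h0 : 0 ≤ p0) (h1 : 0 ≤ p1)
    (h2 : 0 ≤ p2) (h3 : 0 ≤ p3) (h4 : 0 ≤ p4) (hs : p0 + p1 + p2 + p3 + p4 = 1)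
    (c0 : (a 0 < n → p0 + p1 = 1 - ee n (a 0)) ∧
      (a 0 = n → p0 + p1 ≠ 0 → ∃ l', a l' + 2 ≤ n))
    (c1 : (a 1 < n → p0 + p2 = 1 - ee n (a 1)) ∧
      (a 1 = n → p0 + p2 ≠ 0 → ∃ l', a l' + 2 ≤ n))
    (c2 : (a 2 < n → p0 + p3 = 1 - ee n (a 2)) ∧
      (a 2 = n → p0 + p3 ≠ 0 → ∃ l', a l' + 2 ≤ n)) :
    ∃ p : Fin 5 → ℝ, (∀ τ, 0 ≤ p τ) ∧ ∑ τ, p τ = 1 ∧
      ∀ l, (a l < n → nu p l = 1 - ee n (a l)) ∧
        (a l = n → nu p l ≠ 0 → ∃ l', a l' + 2 ≤ n) := by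
  refine ⟨![p0, p1, p2, p3, p4], ?_, ?_, ?_⟩
  · intro τ
    fin_cases τ
    · exact h0
    · exact h1
    · exact h2
    · exact h3
    · exact h4
  · rw [Fin.sum_univ_five]; exact hs
  · intro l
    fin_cases l
    · exact c0
    · exact c1
    · exact c2

theorem piv_good (n : ℕ) (a : Fin 3 → ℕ) (hn : ∀ l, a l ≤ n)
    (hd : ∀ l l', a l + 2 ≤ n → a l' < n → a l' ≤ a l + 1) :
    ∃ p : Fin 5 → ℝ, (∀ τ, 0 ≤ p τ) ∧ ∑ τ, p τ = 1 ∧
      ∀ l, (a l < n → nu p l = 1 - ee n (a l)) ∧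
        (a l = n → nu p l ≠ 0 → ∃ l', a l' + 2 ≤ n) := by
  have hD : ∀ l l', a l < n → a l' < n → ee n (a l') ≤ 2 * ee n (a l) := by
    intro l l' hl hl'
    refine piv_two n (a l) (a l') hl ?_
    by_cases h : a l + 2 ≤ n
    · exact hd l l' h hl'
    · omega
  have hE : ∀ l, a l < n → ee n (a l) ≤ 1 / 2 := fun l hl => piv_half n (a l) hl
  have hP : ∀ l, 0 < ee n (a l) := fun l => piv_pos n (a l)
  have hL : ∀ i j, a i < n → a j < n → 1 - ee n (a i) - ee n (a j) ≠ 0 →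
      ∃ l', a l' + 2 ≤ n := by
    intro i j hi hj hne
    by_contra hcon
    push Not at hcon
    have h1 := hcon i
    have h2 := hcon j
    apply hne
    rw [piv_last n (a i) (by omega), piv_last n (a j) (by omega)]
    norm_num
  have p0 := hP 0
  have p1 := hP 1
  have p2 := hP 2
  rcases lt_or_eq_of_le (hn 0) with h0 | h0 <;> rcases lt_or_eq_of_le (hn 1) with h1 | h1 <;>
    rcases lt_or_eq_of_le (hn 2) with h2 | h2
  · have := hD 0 1 h0 h1
    have := hD 1 0 h1 h0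
    have := hD 0 2 h0 h2
    have := hD 2 0 h2 h0
    have := hD 1 2 h1 h2
    have := hD 2 1 h2 h1
    have := hE 0 h0
    have := hE 1 h1
    have := hE 2 h2
    refine piv_vec n a (1 - (ee n (a 0) + ee n (a 1) + ee n (a 2)) / 2)
      ((ee n (a 0) + ee n (a 1) + ee n (a 2)) / 2 - ee n (a 0))
      ((ee n (a 0) + ee n (a 1) + ee n (a 2)) / 2 - ee n (a 1))
      ((ee n (a 0) + ee n (a 1) + ee n (a 2)) / 2 - ee n (a 2)) 0 ?_ ?_ ?_ ?_ ?_ ?_ ?_ ?_ ?_
    · linarith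
    · linarith
    · linarith
    · linarith
    · exact le_rfl
    · ring
    · exact ⟨fun _ => by ring, fun h => absurd h (by omega)⟩
    · exact ⟨fun _ => by ring, fun h => absurd h (by omega)⟩
    · exact ⟨fun _ => by ring, fun h => absurd h (by omega)⟩
  · have := hE 0 h0
    have := hE 1 h1
    refine piv_vec n a (1 - ee n (a 0) - ee n (a 1)) (ee n (a 1)) (ee n (a 0)) 0 0
      ?_ ?_ ?_ ?_ ?_ ?_ ?_ ?_ ?_
    · linarith
    · linarith
    · linarith
    · exact le_rfl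
    · exact le_rfl
    · ring
    · exact ⟨fun _ => by ring, fun h => absurd h (by omega)⟩
    · exact ⟨fun _ => by ring, fun h => absurd h (by omega)⟩
    · refine ⟨fun h => absurd h (by omega), fun _ hne => hL 0 1 h0 h1 ?_⟩
      simpa using hne
  · have := hE 0 h0
    have := hE 2 h2
    refine piv_vec n a (1 - ee n (a 0) - ee n (a 2)) (ee n (a 2)) 0 (ee n (a 0)) 0
      ?_ ?_ ?_ ?_ ?_ ?_ ?_ ?_ ?_
    · linarith
    · linarith
    · exact le_rfl
    · linarith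
    · exact le_rfl
    · ring
    · exact ⟨fun _ => by ring, fun h => absurd h (by omega)⟩
    · refine ⟨fun h => absurd h (by omega), fun _ hne => hL 0 2 h0 h2 ?_⟩
      simpa using hne
    · exact ⟨fun _ => by ring, fun h => absurd h (by omega)⟩
  · have := hE 0 h0
    refine piv_vec n a 0 (1 - ee n (a 0)) 0 0 (ee n (a 0)) ?_ ?_ ?_ ?_ ?_ ?_ ?_ ?_ ?_
    · exact le_rfl
    · linarith
    · exact le_rfl
    · exact le_rfl
    · linarith
    · ring
    · exact ⟨fun _ => by ring, fun h => absurd h (by omega)⟩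
    · exact ⟨fun h => absurd h (by omega), fun _ hne => absurd (by ring) hne⟩
    · exact ⟨fun h => absurd h (by omega), fun _ hne => absurd (by ring) hne⟩
  · have := hE 1 h1
    have := hE 2 h2
    refine piv_vec n a (1 - ee n (a 1) - ee n (a 2)) 0 (ee n (a 2)) (ee n (a 1)) 0
      ?_ ?_ ?_ ?_ ?_ ?_ ?_ ?_ ?_
    · linarith
    · exact le_rfl
    · linarith
    · linarith
    · exact le_rfl
    · ring
    · refine ⟨fun h => absurd h (by omega), fun _ hne => hL 1 2 h1 h2 ?_⟩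
      simpa using hne
    · exact ⟨fun _ => by ring, fun h => absurd h (by omega)⟩
    · exact ⟨fun _ => by ring, fun h => absurd h (by omega)⟩
  · have := hE 1 h1
    refine piv_vec n a 0 0 (1 - ee n (a 1)) 0 (ee n (a 1)) ?_ ?_ ?_ ?_ ?_ ?_ ?_ ?_ ?_
    · exact le_rfl
    · exact le_rfl
    · linarith
    · exact le_rfl
    · linarith
    · ring
    · exact ⟨fun h => absurd h (by omega), fun _ hne => absurd (by ring) hne⟩
    · exact ⟨fun _ => by ring, fun h => absurd h (by omega)⟩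
    · exact ⟨fun h => absurd h (by omega), fun _ hne => absurd (by ring) hne⟩
  · have := hE 2 h2
    refine piv_vec n a 0 0 0 (1 - ee n (a 2)) (ee n (a 2)) ?_ ?_ ?_ ?_ ?_ ?_ ?_ ?_ ?_
    · exact le_rfl
    · exact le_rfl
    · exact le_rfl
    · linarith
    · linarith
    · ring
    · exact ⟨fun h => absurd h (by omega), fun _ hne => absurd (by ring) hne⟩
    · exact ⟨fun h => absurd h (by omega), fun _ hne => absurd (by ring) hne⟩
    · exact ⟨fun _ => by ring, fun h => absurd h (by omega)⟩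
  · refine piv_vec n a 0 0 0 0 1 ?_ ?_ ?_ ?_ ?_ ?_ ?_ ?_ ?_
    · exact le_rfl
    · exact le_rfl
    · exact le_rfl
    · exact le_rfl
    · exact zero_le_one
    · ring
    · exact ⟨fun h => absurd h (by omega), fun _ hne => absurd (by ring) hne⟩
    · exact ⟨fun h => absurd h (by omega), fun _ hne => absurd (by ring) hne⟩
    · exact ⟨fun h => absurd h (by omega), fun _ hne => absurd (by ring) hne⟩

theorem piv_ex (n : ℕ) (a : Fin 3 → ℕ) :
    ∃ p : Fin 5 → ℝ, (∀ τ, 0 ≤ p τ) ∧ ∑ τ, p τ = 1 ∧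
      ((∀ l, a l ≤ n) → (∀ l l', a l + 2 ≤ n → a l' < n → a l' ≤ a l + 1) →
      ∀ l, (a l < n → nu p l = 1 - ee n (a l)) ∧
        (a l = n → nu p l ≠ 0 → ∃ l', a l' + 2 ≤ n)) := by
  by_cases h : (∀ l, a l ≤ n) ∧ (∀ l l', a l + 2 ≤ n → a l' < n → a l' ≤ a l + 1)
  · obtain ⟨p, h1, h2, h3⟩ := piv_good n a h.1 h.2
    exact ⟨p, h1, h2, fun _ _ => h3⟩
  · refine ⟨![0, 0, 0, 0, 1], ?_, ?_, fun h1 h2 => absurd ⟨h1, h2⟩ h⟩
    · intro τ
      fin_cases τ
      · exact le_rfl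
      · exact le_rfl
      · exact le_rfl
      · exact le_rfl
      · exact zero_le_one
    · rw [Fin.sum_univ_five]
      show (0 : ℝ) + 0 + 0 + 0 + 1 = 1
      norm_num

/-- PIV. The probability vectors exist. -/
theorem p_PIV : T_PIV := by
  intro n
  choose p h1 h2 h3 using piv_ex n
  exact ⟨p, h1, h2, h3⟩

end Pool.Agent.Ind3
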