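import Pool.Agent.Ind3.Targets

set_option autoImplicit false

/-!
# PTA: triple averages (helper83)
-/

open MeasureTheory Filter Topology Finset

namespace Pool.Agent.Ind3

open Pool.Agent.FSP

lemma PTA_mean_close {N s : ℕ} (hN : 1 ≤ N) {f g : ℕ → ℝ} {δ : ℝ}
    (h : ∀ n, s ≤ n → n < s + N → |f n - g n| ≤ δ) : |mean N s f - mean N s g| ≤ δ := by
  unfold mean
  rw [← mul_sub, ← Finset.sum_sub_distrib, abs_mul]
  have hN0 : (0 : ℝ) < N := by exact_mod_cast hN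
  have h1 : |∑ n ∈ range N, (f (s + n) - g (s + n))| ≤ N * δ := by
    calc |∑ n ∈ range N, (f (s + n) - g (s + n))|
        ≤ ∑ n ∈ range N, |f (s + n) - g (s + n)| := Finset.abs_sum_le_sum_abs _ _
      _ ≤ ∑ _n ∈ range N, δ := Finset.sum_le_sum fun n hn => by
          rw [mem_range] at hn
          exact h (s + n) (by omega) (by omega)
      _ = N * δ := by simp
  rw [abs_of_pos (inv_pos.2 hN0)]
  calc (N : ℝ)⁻¹ * |∑ n ∈ range N, (f (s + n) - g (s + n))| ≤ (N : ℝ)⁻¹ * (N * δ) := by gcongr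
    _ = δ := by field_simp

lemma PTA_mean_mul (N s : ℕ) (f : ℕ → ℝ) (k : ℝ) :
    mean N s (fun n => f n * k) = mean N s f * k := by
  unfold mean
  rw [← Finset.sum_mul, mul_assoc]

lemma PTA_mean_one {N : ℕ} (hN : 1 ≤ N) (s : ℕ) : mean N s (fun _ => (1 : ℝ)) = 1 := by
  unfold mean
  have hN0 : (0 : ℝ) < N := by exact_mod_cast hN
  simp [hN0.ne']

theorem p_PTA (h : T_SPL) : T_PTA := by
  classical
  intro S hS m C hC Z E τ hZ hEZ hτ hEτ q ρ hq hρ ε hε
  obtain ⟨N₁, h1⟩ := h S hS m C hC Z Z ∅ hZ (Finset.Subset.refl Z) (by simp)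
    (Finset.disjoint_empty_right _) q ρ hq hρ (ε / 2) (by positivity)
  obtain ⟨N₂, h2⟩ := h S hS m C hC Z E τ hZ hEZ hτ hEτ q ρ hq hρ (ε / 2) (by positivity)
  refine ⟨max (max N₁ N₂) 1, ?_⟩
  intro N hN sa sb sc Φ ε' hε' hΦ K K' hK hK'
  have hN1 : N₁ ≤ N := (le_max_left _ _).trans ((le_max_left _ _).trans hN)
  have hN2 : N₂ ≤ N := (le_max_right _ _).trans ((le_max_left _ _).trans hN)
  have hN3 : 1 ≤ N := (le_max_right _ _).trans hN
  set D : ℝ := Z.card * ((2 * m + 1) * C) ^ Z.card with hD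
  have hD0 : 0 ≤ D := by positivity
  -- first step
  have step1 : ∀ a, sa ≤ a → a < sa + N → ∀ b, sb ≤ b → b < sb + N →
      |mean N sc (fun c => (∏ z ∈ Z, K z (z ^ a) (z ^ b) (z ^ c)) * Φ a b)
        - (∏ z ∈ Z, K' z (z ^ a) (z ^ b)) * Φ a b| ≤ D * (ε / 2) := by
    intro a ha ha' b _ _
    have hΦ1 : |Φ a b| ≤ 1 := (hΦ a ha ha').1 b
    have hPP : PP q ρ ∅ 0 sc (fun _ => (1 : ℝ)) := by
      refine ⟨fun _ => by simp, fun _ _ _ _ => by simp⟩
    have h3 := h1 N hN1 sc (fun _ => (1 : ℝ)) 0 le_rfl hPP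
      (fun z w => K z (z ^ a) (z ^ b) w) (fun z => K' z (z ^ a) (z ^ b))
      (fun z hz => hK z hz _ _)
    simp only [mul_one, Finset.sdiff_self, Finset.prod_empty, zero_add] at h3
    rw [PTA_mean_one hN3, mul_one] at h3
    rw [PTA_mean_mul, ← sub_mul, abs_mul]
    calc |mean N sc (fun c => ∏ z ∈ Z, K z (z ^ a) (z ^ b) (z ^ c))
          - ∏ z ∈ Z, K' z (z ^ a) (z ^ b)| * |Φ a b|
        ≤ (D * (ε / 2)) * 1 := by
          apply mul_le_mul h3 hΦ1 (abs_nonneg _) (by positivity)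
      _ = D * (ε / 2) := mul_one _
  -- second step
  have step2 : ∀ a, sa ≤ a → a < sa + N →
      |mean N sb (fun b => (∏ z ∈ Z, K' z (z ^ a) (z ^ b)) * Φ a b)
        - mean N sb (fun b => (∏ z ∈ Z \ E, K' z (z ^ a) (z ^ b)) * Φ a b)|
        ≤ D * (ε' + ε / 2) := by
    intro a ha ha'
    have h3 := h2 N hN2 sb (Φ a) ε' hε' (hΦ a ha ha') (fun z w => K' z (z ^ a) w) (fun _ => 1)
      (fun z hz => hK' z hz _)
    simp only [Finset.prod_const_one, one_mul] at h3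
    exact h3
  have step3 : ∀ a, sa ≤ a → a < sa + N →
      |mean N sb (fun b => mean N sc fun c =>
          (∏ z ∈ Z, K z (z ^ a) (z ^ b) (z ^ c)) * Φ a b)
        - mean N sb (fun b => (∏ z ∈ Z \ E, K' z (z ^ a) (z ^ b)) * Φ a b)|
        ≤ D * (ε' + ε) := by
    intro a ha ha'
    have h3 := PTA_mean_close (s := sb) hN3 (step1 a ha ha')
    have h4 := step2 a ha ha'
    calc _ ≤ _ := abs_sub_le _
          (mean N sb (fun b => (∏ z ∈ Z, K' z (z ^ a) (z ^ b)) * Φ a b)) _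
      _ ≤ D * (ε / 2) + D * (ε' + ε / 2) := add_le_add h3 h4
      _ = D * (ε' + ε) := by ring
  exact PTA_mean_close hN3 step3

end Pool.Agent.Ind3
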