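import Pool.Agent.Ind3.Targets

set_option autoImplicit false

/-!
# Ind3, PTB: the weight of the bad pairs
-/

open MeasureTheory Filter Topology Finset

namespace Pool.Agent.Ind3

open Pool.Agent.FSP

namespace PTB

theorem mean_mono (N s : ℕ) (f g : ℕ → ℝ) (h : ∀ n < N, f (s + n) ≤ g (s + n)) :
    mean N s f ≤ mean N s g := by
  unfold mean
  refine mul_le_mul_of_nonneg_left (sum_le_sum fun n hn => h n (mem_range.mp hn)) ?_
  positivity

theorem mean_lin (N s : ℕ) (hN : 0 < N) (f : ℕ → ℝ) (a b : ℝ) :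
    mean N s (fun y => a * f y + b) = a * mean N s f + b := by
  unfold mean
  have hN' : (N : ℝ) ≠ 0 := by exact_mod_cast hN.ne'
  rw [sum_add_distrib, ← mul_sum, sum_const, card_range, nsmul_eq_mul]
  field_simp

theorem mean_mul (N s : ℕ) (f : ℕ → ℝ) (c : ℝ) :
    mean N s (fun y => f y * c) = mean N s f * c := by
  unfold mean
  rw [← sum_mul]; ring

theorem mean_le (N s : ℕ) (hN : 0 < N) (f : ℕ → ℝ) (c : ℝ) (h : ∀ n < N, f (s + n) ≤ c) :
    mean N s f ≤ c := by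
  have h1 := mean_mono N s f (fun _ => 0 * 0 + c) (fun n hn => by simpa using h n hn)
  rw [mean_lin N s hN (fun _ => 0) 0 c] at h1
  simpa using h1

theorem mean_one (N s : ℕ) (hN : 0 < N) : mean N s (fun _ => 1) = 1 := by
  have := mean_lin N s hN (fun _ => 0) 0 1
  simpa using this

/-- the one-variable estimate, all coordinates are split off -/
theorem one_var (h : T_SPL) (S : Set Circle) (hS : Ind S) (m : ℕ) (C : ℝ) (hC : 1 ≤ C)
    (Z : Finset Circle) (hZ : (↑Z : Set Circle) ⊆ S) (ε : ℝ) (hε : 0 < ε) :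
    ∃ N₀ : ℕ, ∀ N ≥ N₀, ∀ s : ℕ, ∀ (G : Circle → Circle → ℝ) (c0 : Circle → ℝ),
      (∀ z ∈ Z, Lau m C (G z) (c0 z)) →
      |mean N s (fun y => ∏ z ∈ Z, G z (z ^ y)) - ∏ z ∈ Z, c0 z| ≤ ε := by
  classical
  obtain ⟨D, hD⟩ : ∃ D : ℝ, D = Z.card * ((2 * m + 1) * C) ^ Z.card + 1 := ⟨_, rfl⟩
  have hD0 : (0 : ℝ) ≤ Z.card * ((2 * m + 1) * C) ^ Z.card := by positivity
  have hD1 : 0 < D := by rw [hD]; linarith
  obtain ⟨N₀, hN₀⟩ := h S hS m C hC Z Z ∅ hZ (Finset.Subset.refl _) (by simp)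
    (disjoint_empty_right _) 1 1 le_rfl one_pos (ε / D) (div_pos hε hD1)
  refine ⟨max N₀ 1, fun N hN s G c0 hG => ?_⟩
  have hN1 : 0 < N := lt_of_lt_of_le one_pos (le_trans (le_max_right _ _) hN)
  have h1 := hN₀ N (le_trans (le_max_left _ _) hN) s (fun _ => 1) 0 le_rfl
    ⟨fun y => by simp, fun y k _ _ => by simp⟩ G c0 hG
  have e1 : mean N s (fun y => (∏ z ∈ Z \ Z, G z (z ^ y)) * (1 : ℝ)) = 1 := by
    have : (fun y : ℕ => (∏ z ∈ Z \ Z, G z (z ^ y)) * (1 : ℝ)) = fun _ => 1 := by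
      funext y
      rw [sdiff_self, mul_one]
      exact prod_empty
    rw [this]
    exact mean_one N s hN1
  have e2 : (fun y : ℕ => (∏ z ∈ Z, G z (z ^ y)) * (1 : ℝ)) = fun y => ∏ z ∈ Z, G z (z ^ y) := by
    funext y; rw [mul_one]
  have h2 : |mean N s (fun y => ∏ z ∈ Z, G z (z ^ y)) - ∏ z ∈ Z, c0 z| ≤
      Z.card * ((2 * m + 1) * C) ^ Z.card * (0 + ε / D) := by
    rw [e2] at h1
    convert h1 using 2
    refine congrArg _ ((mul_one _).symm.trans ?_)
    congr 1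
    exact e1.symm
  refine h2.trans ?_
  rw [zero_add]
  calc (Z.card : ℝ) * ((2 * m + 1) * C) ^ Z.card * (ε / D) ≤ D * (ε / D) :=
        mul_le_mul_of_nonneg_right (by rw [hD]; linarith) (div_pos hε hD1).le
    _ = ε := by field_simp

end PTB

open PTB

theorem p_PTB : T_SPL → T_PTB := by
  classical
  intro hSPL S hS m C hC Z hZ z₀ hz₀ η' hη' ε hε
  have hδ : 0 < ε / (2 * (η' + 1)) := by positivity
  obtain ⟨N₁, hN₁⟩ := one_var hSPL S hS m C hC Z hZ (ε / 2) (by positivity)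
  obtain ⟨N₂, hN₂⟩ := one_var hSPL S hS m C hC (Z.erase z₀)
    (fun z hz => hZ (by exact_mod_cast (mem_of_mem_erase (by exact_mod_cast hz))))
    (ε / (2 * (η' + 1))) hδ
  refine ⟨max (max N₁ N₂) 1, fun N hN sa sb sc K K' bad hK hK' h0 hbad hb => ?_⟩
  have hN0 : 0 < N := lt_of_lt_of_le one_pos (le_trans (le_max_right _ _) hN)
  have hNa : N₁ ≤ N := le_trans (le_trans (le_max_left _ _) (le_max_left _ _)) hN
  have hNb : N₂ ≤ N := le_trans (le_trans (le_max_right _ _) (le_max_left _ _)) hN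
  refine mean_le N sa hN0 _ _ fun n hn => ?_
  obtain ⟨a, ha⟩ : ∃ a, a = sa + n := ⟨_, rfl⟩
  rw [← ha]
  obtain ⟨P, hP⟩ : ∃ P : ℕ → ℝ, P = fun b => ∏ z ∈ Z.erase z₀, K' z (z ^ a) (z ^ b) := ⟨_, rfl⟩
  have hP0 : ∀ b, 0 ≤ P b := by
    intro b
    rw [hP]
    exact prod_nonneg fun z hz => h0 z (mem_of_mem_erase hz) _ _
  have hmP : mean N sb P ≤ 1 + ε / (2 * (η' + 1)) := by
    have h1 := hN₂ N hNb sb (fun z => K' z (z ^ a)) (fun _ => 1)
      (fun z hz => hK' z (mem_of_mem_erase hz) _)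
    rw [prod_const_one] at h1
    rw [hP]
    have := (abs_le.mp h1).2
    linarith
  have hstep : ∀ n' < N, mean N sc (fun c => (∏ z ∈ Z, K z (z ^ a) (z ^ (sb + n')) (z ^ c)) *
      bad a (sb + n')) ≤ η' * P (sb + n') + ε / 2 := by
    intro n' hn'
    obtain ⟨b, hb'⟩ : ∃ b, b = sb + n' := ⟨_, rfl⟩
    rw [← hb', mean_mul]
    rcases hbad a b with h2 | h2
    · rw [h2, mul_zero]
      have := mul_nonneg hη' (hP0 b)
      linarith
    · rw [h2, mul_one]
      have h1 := hN₁ N hNa sc (fun z => K z (z ^ a) (z ^ b)) (fun z => K' z (z ^ a) (z ^ b))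
        (fun z hz => hK z hz _ _)
      have h3 := (abs_le.mp h1).2
      have h4 : ∏ z ∈ Z, K' z (z ^ a) (z ^ b) ≤ η' * P b := by
        rw [← mul_prod_erase Z _ hz₀, hP]
        refine mul_le_mul_of_nonneg_right ?_ (by have := hP0 b; rwa [hP] at this)
        exact hb a b (by omega) (by omega) (by omega) (by omega) h2
      linarith
  have h5 := mean_mono N sb (fun b => mean N sc (fun c => (∏ z ∈ Z, K z (z ^ a) (z ^ b) (z ^ c)) *
      bad a b)) (fun b => η' * P b + ε / 2) hstep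
  rw [mean_lin N sb hN0] at h5
  refine h5.trans ?_
  have h6 : η' * mean N sb P ≤ η' * (1 + ε / (2 * (η' + 1))) :=
    mul_le_mul_of_nonneg_left hmP hη'
  have h7 : η' * (ε / (2 * (η' + 1))) ≤ ε / 2 := by
    have h8 : η' / (η' + 1) ≤ 1 := by
      rw [div_le_one (by linarith)]; linarith
    calc η' * (ε / (2 * (η' + 1))) = (η' / (η' + 1)) * (ε / 2) := by
          have : η' + 1 ≠ 0 := by positivity
          field_simp
      _ ≤ 1 * (ε / 2) := mul_le_mul_of_nonneg_right h8 (by linarith)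
      _ = ε / 2 := one_mul _
  linarith

end Pool.Agent.Ind3
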