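import Pool.Agent.Ind3.Targets

/-!
# Ind3: PTM (helper49)
-/

set_option autoImplicit false

open MeasureTheory Filter Topology Finset

namespace Pool.Agent.Ind3

namespace PTM_

theorem mean_close {N : ℕ} (hN : 0 < N) (s : ℕ) (f : ℕ → ℝ) (c δ : ℝ)
    (h : ∀ n, |f (s + n) - c| ≤ δ) : |mean N s f - c| ≤ δ := by
  have hN' : (0 : ℝ) < N := by exact_mod_cast hN
  have h1 : mean N s f - c = (N : ℝ)⁻¹ * ∑ n ∈ range N, (f (s + n) - c) := by
    unfold mean
    rw [Finset.sum_sub_distrib, Finset.sum_const, card_range, nsmul_eq_mul, mul_sub]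
    field_simp
  rw [h1, abs_mul, abs_of_pos (inv_pos.2 hN')]
  calc (N : ℝ)⁻¹ * |∑ n ∈ range N, (f (s + n) - c)|
      ≤ (N : ℝ)⁻¹ * ∑ n ∈ range N, |f (s + n) - c| :=
        mul_le_mul_of_nonneg_left (Finset.abs_sum_le_sum_abs _ _) (inv_pos.2 hN').le
    _ ≤ (N : ℝ)⁻¹ * ∑ _n ∈ range N, δ :=
        mul_le_mul_of_nonneg_left (Finset.sum_le_sum fun n _ => h n) (inv_pos.2 hN').le
    _ = δ := by
        rw [Finset.sum_const, card_range, nsmul_eq_mul]
        field_simp

theorem mean_one {N : ℕ} (hN : 0 < N) (s : ℕ) : mean N s (fun _ => 1) = 1 := by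
  have h := mean_close hN s (fun _ => 1) 1 0 (fun n => by simp)
  have h2 := abs_nonneg (mean N s (fun _ => (1 : ℝ)) - 1)
  have h3 : mean N s (fun _ => (1 : ℝ)) - 1 = 0 := abs_eq_zero.1 (le_antisymm h h2)
  linarith

theorem pp_one (s : ℕ) : PP 1 1 ∅ 0 s (fun _ => 1) :=
  ⟨fun _ => by simp, fun _ _ _ _ => by simp⟩

end PTM_

open PTM_

theorem p_PTM : T_PTA → T_SPL → T_PTM := by
  classical
  intro hA hS S hInd m C hC Z hZ ε hε
  set B : ℝ := Z.card * ((2 * m + 1) * C) ^ Z.card with hB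
  have hB0 : 0 ≤ B := by positivity
  have hε1 : 0 < ε / (B + 1) := by positivity
  have hBε : B * (0 + ε / (B + 1)) ≤ ε := by
    rw [zero_add, ← mul_div_assoc, div_le_iff₀ (by positivity)]
    nlinarith
  obtain ⟨N1, h1⟩ := hA S hInd m C hC Z Z ∅ hZ (Finset.Subset.refl _) (by simp) (by simp) 1 1
    le_rfl one_pos (ε / (B + 1)) hε1
  obtain ⟨N2, h2⟩ := hS S hInd m C hC Z Z ∅ hZ (Finset.Subset.refl _) (by simp) (by simp) 1 1
    le_rfl one_pos (ε / (B + 1)) hε1
  refine ⟨max (max N1 N2) 1, fun N hN sa sb sc K K' hK' => ⟨?_, fun hK => ?_⟩⟩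
  · have hN0 : 0 < N := lt_of_lt_of_le one_pos ((le_max_right _ _).trans hN)
    refine mean_close hN0 sa _ 1 ε fun n => ?_
    have h3 := h2 N ((le_max_right _ _).trans ((le_max_left _ _).trans hN)) sb (fun _ => 1) 0
      le_rfl (pp_one sb) (fun z => K' z (z ^ (sa + n))) (fun _ => 1)
      (fun z hz => hK' z hz _)
    simp only [Finset.sdiff_self, Finset.prod_empty, mul_one, Finset.prod_const_one,
      mean_one hN0] at h3
    exact h3.trans hBε
  · have hN0 : 0 < N := lt_of_lt_of_le one_pos ((le_max_right _ _).trans hN)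
    have h3 := h1 N ((le_max_left _ _).trans ((le_max_left _ _).trans hN)) sa sb sc
      (fun _ _ => 1) 0 le_rfl (fun _ _ _ => pp_one sb) K K' hK hK'
    simp only [Finset.sdiff_self, Finset.prod_empty, mul_one, mean_one hN0] at h3
    exact h3.trans hBε

end Pool.Agent.Ind3
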