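import Pool.Agent.Ind3.Targets

set_option autoImplicit false

/-!
# PWA: the weights have mean one
-/

open MeasureTheory Filter Topology Finset

namespace Pool.Agent.Ind3

open Pool.Agent.FSP

lemma PWA_const (N s : ℕ) (hN : 1 ≤ N) (c : ℝ) : mean N s (fun _ => c) = c := by
  unfold mean
  have h : (N : ℝ) ≠ 0 := by
    have : (0 : ℝ) < N := by exact_mod_cast hN
    exact this.ne'
  rw [Finset.sum_const, card_range, nsmul_eq_mul, ← mul_assoc, inv_mul_cancel₀ h, one_mul]

lemma PWA_ee (n a : ℕ) : 0 ≤ ee n a ∧ ee n a ≤ 1 := by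
  unfold ee
  exact ⟨by positivity, pow_le_one₀ (by norm_num) (by norm_num)⟩

lemma PWA_Zs (K : ℕ) (s : Fin 3 → ℕ → Circle) :
    (↑(Zs K s) : Set Circle) ⊆ {z | z ≠ 1 ∧ ∃ l j, s l j = z} := by
  classical
  intro z hz
  rw [Finset.mem_coe, Zs, Finset.mem_erase, Finset.mem_image] at hz
  obtain ⟨h1, p, -, hp⟩ := hz
  exact ⟨h1, p.1, p.2, hp⟩

lemma PWA_Zl (K : ℕ) (s : Fin 3 → ℕ → Circle) (l : Fin 3) :
    (↑(Zl K (s l)) : Set Circle) ⊆ {z | z ≠ 1 ∧ ∃ l j, s l j = z} := by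
  classical
  intro z hz
  rw [Finset.mem_coe, Zl, Finset.mem_erase, Finset.mem_image] at hz
  obtain ⟨h1, j, -, hp⟩ := hz
  exact ⟨h1, l, j, hp⟩

lemma PWA_fin : ∀ i j l r : Fin 3, i ≠ j → i ≠ l → j ≠ l → ¬ r = l → ¬ r = i → ¬ r = j →
    False := by decide

lemma PWA_f (hM : T_PTM) (hL : T_LAU) (m n : ℕ) (κ : ℕ → ℕ) (Pi : (Fin 3 → ℕ) → Fin 5 → ℝ)
    (s : Fin 3 → ℕ → Circle) (hm : 1 ≤ m) (hS : Spec n Pi) (hI : IndAt s) (ε : ℝ)
    (hε : 0 < ε) : ∃ N₀ : ℕ, ∀ N ≥ N₀, |avg3 N (Wf m n κ Pi s) - 1| ≤ ε := by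
  classical
  obtain ⟨h1, h2⟩ := hL m hm
  have hC : (1 : ℝ) ≤ (m : ℝ) ^ 2 := one_le_pow₀ (by exact_mod_cast hm)
  obtain ⟨N₀, hN⟩ := hM _ hI m ((m : ℝ) ^ 2) hC (Zs (κ (n - 1)) s) (PWA_Zs _ s) ε hε
  refine ⟨N₀, fun N hNN => ?_⟩
  have key := (hN N hNN N 0 (3 * N)
    (fun z wa wb wc => DD m (Pi fun l => lev κ n (s l) z) ![wa, wb, wc])
    (fun z wa wb => nu (Pi fun l => lev κ n (s l) z) 2 * kap m 2 ![wa, wb, 1] +
      (1 - nu (Pi fun l => lev κ n (s l) z) 2)) (by
        intro z _ wa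
        obtain ⟨-, -, -, hn0, hn1⟩ := h1 (Pi fun l => lev κ n (s l) z) (hS.1 _) (hS.2.1 _) 2
          ![wa, 1, 1]
        have h3 := (h2 2 ![wa, 1, 1]).2.2.2 _ hn0 hn1 1 (by decide)
        have h4 : ∀ z : Circle, Function.update ![wa, 1, 1] 1 z = ![wa, z, 1] := by
          intro z
          ext i
          fin_cases i <;> rfl
        simpa only [h4] using h3)).2 (by
        intro z _ wa wb
        obtain ⟨h3, -⟩ := h1 (Pi fun l => lev κ n (s l) z) (hS.1 _) (hS.2.1 _) 2 ![wa, wb, 1]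
        have h4 : ∀ z : Circle, Function.update ![wa, wb, 1] 2 z = ![wa, wb, z] := by
          intro z
          ext i
          fin_cases i <;> rfl
        simpa only [h4] using h3)
  have h5 : ∀ (z : Circle) (a b c : ℕ),
      (fun i => z ^ (![a, b, c] : Fin 3 → ℕ) i) = ![z ^ a, z ^ b, z ^ c] := by
    intro z a b c
    ext i
    fin_cases i <;> rfl
  simpa only [avg3, Wf, h5] using key

lemma PWA_l (hM : T_PTM) (hL : T_LAU) (hO : T_ORD) (m n : ℕ) (κ : ℕ → ℕ)
    (s : Fin 3 → ℕ → Circle) (hm : 1 ≤ m) (hI : IndAt s) (i j l : Fin 3) (hij : i ≠ j)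
    (hil : i ≠ l) (hjl : j ≠ l) (ε : ℝ) (hε : 0 < ε) :
    ∃ N₀ : ℕ, ∀ N ≥ N₀, |avg3 N (Wl m n κ l (s l)) - 1| ≤ ε := by
  classical
  obtain ⟨h1, h2⟩ := hL m hm
  have hC : (1 : ℝ) ≤ (m : ℝ) ^ 2 := one_le_pow₀ (by exact_mod_cast hm)
  obtain ⟨N₀, hN⟩ := hM _ hI m ((m : ℝ) ^ 2) hC (Zl (κ (n - 1)) (s l)) (PWA_Zl _ s l) ε hε
  refine ⟨N₀ + 1, fun N hNN => ?_⟩
  have key := (hN N (by omega) (off i * N) (off j * N) 0 (fun _ _ _ _ => 0)
    (fun z wa wb => (1 - ee n (lev κ n (s l) z)) *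
      kap m l (fun r => if r = i then wa else if r = j then wb else 1) +
        (1 - (1 - ee n (lev κ n (s l) z)))) (by
        intro z _ wa
        obtain ⟨e0, e1⟩ := PWA_ee n (lev κ n (s l) z)
        have h3 := (h2 l (fun r => if r = i then wa else 1)).2.2.2
          (1 - ee n (lev κ n (s l) z)) (by linarith) (by linarith) j hjl
        have h4 : ∀ z : Circle, Function.update (fun r => if r = i then wa else 1) j z
            = fun r => if r = i then wa else if r = j then z else 1 := by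
          intro z
          funext r
          by_cases hr : r = j
          · rw [hr, Function.update_self, if_neg hij.symm, if_pos rfl]
          · rw [Function.update_of_ne hr, if_neg hr]
        simpa only [h4] using h3)).1
  rw [hO N _ i j l hij hil hjl]
  have h5 : ∀ a b : ℕ, mean N (off l * N) (fun c => Wl m n κ l (s l)
      (fun r => if r = i then a else if r = j then b else c)) =
      ∏ z ∈ Zl (κ (n - 1)) (s l), ((1 - ee n (lev κ n (s l) z)) *
      kap m l (fun r => if r = i then z ^ a else if r = j then z ^ b else 1) +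
        (1 - (1 - ee n (lev κ n (s l) z)))) := by
    intro a b
    rw [← PWA_const N (off l * N) (by omega) (∏ z ∈ Zl (κ (n - 1)) (s l), _)]
    congr 1
    funext c
    unfold Wl
    refine Finset.prod_congr rfl fun z _ => ?_
    have h6 : (fun r => z ^ (if r = i then a else if r = j then b else c)) =
        Function.update (fun r => if r = i then z ^ a else if r = j then z ^ b else 1)
          l (z ^ c) := by
      funext r
      by_cases hr : r = l
      · rw [hr, Function.update_self, if_neg hil.symm, if_neg hjl.symm]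
      · rw [Function.update_of_ne hr]
        by_cases h7 : r = i
        · rw [if_pos h7, if_pos h7]
        · by_cases h8 : r = j
          · rw [if_neg h7, if_neg h7, if_pos h8, if_pos h8]
          · exact (PWA_fin i j l r hij hil hjl hr h7 h8).elim
    rw [h6, (h2 l _).2.2.1]
    ring
  simpa only [h5] using key

theorem p_PWA (hM : T_PTM) (hL : T_LAU) (hO : T_ORD) : T_PWA := by
  intro m n κ Pi s hm hS hI ε hε
  obtain ⟨N, hN⟩ := PWA_f hM hL m n κ Pi s hm hS hI ε hε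
  obtain ⟨N0, h0⟩ := PWA_l hM hL hO m n κ s hm hI 1 2 0 (by decide) (by decide) (by decide) ε hε
  obtain ⟨N1, h1⟩ := PWA_l hM hL hO m n κ s hm hI 0 2 1 (by decide) (by decide) (by decide) ε hε
  obtain ⟨N2, h2⟩ := PWA_l hM hL hO m n κ s hm hI 0 1 2 (by decide) (by decide) (by decide) ε hε
  refine ⟨N + N0 + N1 + N2, fun M hM' => ⟨hN M (by omega), fun l => ?_⟩⟩
  fin_cases l
  · exact h0 M (by omega)
  · exact h1 M (by omega)
  · exact h2 M (by omega)

end Pool.Agent.Ind3
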