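import Pool.Agent.Ind3.Targets

set_option autoImplicit false

/-!
# Ind3, PWB: the weight off the Bohr set
-/

open MeasureTheory Filter Topology Finset

namespace Pool.Agent.Ind3

open Pool.Agent.FSP

/-- The vector with entries `a, b, c` at the places `i, j`, rest. -/
private def vec {α : Type} (i j : Fin 3) (a b c : α) : Fin 3 → α :=
  fun r => if r = i then a else if r = j then b else c

private lemma others (l : Fin 3) : ∃ i j : Fin 3, i ≠ j ∧ i ≠ l ∧ j ≠ l := by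
  fin_cases l
  · exact ⟨1, 2, by decide, by decide, by decide⟩
  · exact ⟨0, 2, by decide, by decide, by decide⟩
  · exact ⟨0, 1, by decide, by decide, by decide⟩

private lemma vec_upd_last {α : Type} (i j l : Fin 3) (hij : i ≠ j) (hil : i ≠ l) (hjl : j ≠ l)
    (a b c c' : α) : Function.update (vec i j a b c) l c' = vec i j a b c' := by
  funext r
  unfold vec
  by_cases h : r = l
  · subst h
    simp [hil.symm, hjl.symm]
  · rw [Function.update_of_ne h]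
    have : r = i ∨ r = j := by
      revert h hij hil hjl
      fin_cases r <;> fin_cases i <;> fin_cases j <;> fin_cases l <;> simp
    rcases this with rfl | rfl
    · simp
    · simp [hij.symm]

private lemma vec_upd_mid {α : Type} (i j : Fin 3) (hij : i ≠ j) (a b c b' : α) :
    Function.update (vec i j a b c) j b' = vec i j a b' c := by
  funext r
  unfold vec
  by_cases h : r = j
  · subst h
    simp [hij.symm]
  · rw [Function.update_of_ne h]
    by_cases h' : r = i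
    · simp [h']
    · simp [h', h]

private lemma tm_vec (i j l : Fin 3) (hij : i ≠ j) (hil : i ≠ l) (hjl : j ≠ l) (a b c c' : ℕ) :
    tm l (vec i j a b c) = tm l (vec i j a b c') := by
  revert hij hil hjl
  fin_cases l <;> fin_cases i <;> fin_cases j <;> simp [tm, vec]

private lemma cmb_tm (l : Fin 3) (z : Circle) (y : Fin 3 → ℕ) (h : y 1 ≤ 2 * y 2) :
    cmb l (fun r => z ^ y r) = z ^ tm l y := by
  fin_cases l
  · simp only [cmb, tm]
    show (z ^ y 2) ^ 2 * (z ^ y 1)⁻¹ = z ^ (2 * y 2 - y 1)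
    rw [← pow_mul, mul_comm (y 2) 2, mul_inv_eq_iff_eq_mul, ← pow_add]
    congr 1
    omega
  · simp only [cmb, tm]
    show z ^ y 0 * z ^ y 2 = z ^ (y 0 + y 2)
    rw [pow_add]
  · simp only [cmb, tm]
    show (z ^ y 0) ^ 2 * z ^ y 1 = z ^ (2 * y 0 + y 1)
    rw [← pow_mul, mul_comm (y 0) 2, pow_add]

private lemma mean_zero' (N s : ℕ) : mean N s (fun _ => 0) = 0 := by
  simp [mean]

private lemma win_le (i j l : Fin 3) (hij : i ≠ j) (hil : i ≠ l) (hjl : j ≠ l) (N a b : ℕ)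
    (ha : off i * N ≤ a) (ha' : a < off i * N + N) (hb : off j * N ≤ b)
    (hb' : b < off j * N + N) :
    ∃ c, (vec i j a b c) 1 ≤ 2 * (vec i j a b c) 2 := by
  refine ⟨if (1 : Fin 3) = l then 0 else a + b, ?_⟩
  revert ha ha' hb hb' hij hil hjl
  fin_cases l <;> fin_cases i <;> fin_cases j <;> simp [off, vec] <;> omega

private lemma mem_Zs (K : ℕ) (s : Fin 3 → ℕ → Circle) (z : Circle) :
    z ∈ Zs K s ↔ z ≠ 1 ∧ ∃ l, ∃ j < K, s l j = z := by
  classical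
  unfold Zs
  simp only [Finset.mem_erase, Finset.mem_image, Finset.mem_product, Finset.mem_univ, true_and,
    Finset.mem_range, Prod.exists]

/-- The factor of `z` in the weight. -/
private noncomputable def KK (m : ℕ) (i j : Fin 3) (p : Circle → Fin 5 → ℝ)
    (z wa wb wc : Circle) : ℝ := DD m (p z) (vec i j wa wb wc)

/-- Its constant coefficient in the last variable. -/
private noncomputable def KL (m : ℕ) (i j l : Fin 3) (p : Circle → Fin 5 → ℝ)
    (z wa wb : Circle) : ℝ := nu (p z) l * kap m l (vec i j wa wb 1) + (1 - nu (p z) l)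

/-- The indicator. -/
private noncomputable def bd (i j l : Fin 3) (ρ : ℝ) (z₀ : Circle) (a b : ℕ) : ℝ :=
  if ρ < ‖(z₀ : ℂ) ^ tm l (vec i j a b 0) - 1‖ then 1 else 0

private lemma lau1 (hLAU : T_LAU) (m : ℕ) (hm : 1 ≤ m) (i j l : Fin 3) (hij : i ≠ j)
    (hil : i ≠ l) (hjl : j ≠ l) (p : Circle → Fin 5 → ℝ) (hp0 : ∀ z τ, 0 ≤ p z τ)
    (hp1 : ∀ z, ∑ τ, p z τ = 1) (z wa wb : Circle) :
    Lau m ((m : ℝ) ^ 2) (KK m i j p z wa wb) (KL m i j l p z wa wb) := by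
  have h := ((hLAU m hm).1 (p z) (hp0 z) (hp1 z) l (vec i j wa wb 1)).1
  have e : (fun w => DD m (p z) (Function.update (vec i j wa wb 1) l w)) =
      KK m i j p z wa wb := by
    funext w
    rw [vec_upd_last i j l hij hil hjl]
    rfl
  rw [e] at h
  exact h

private lemma lau2 (hLAU : T_LAU) (m : ℕ) (hm : 1 ≤ m) (i j l : Fin 3) (hij : i ≠ j)
    (hjl : j ≠ l) (p : Circle → Fin 5 → ℝ) (hp0 : ∀ z τ, 0 ≤ p z τ)
    (hp1 : ∀ z, ∑ τ, p z τ = 1) (z wa : Circle) :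
    Lau m ((m : ℝ) ^ 2) (KL m i j l p z wa) 1 := by
  have hp := (hLAU m hm).1 (p z) (hp0 z) (hp1 z) l (vec i j wa 1 1)
  have h := ((hLAU m hm).2 l (vec i j wa 1 1)).2.2.2 (nu (p z) l) hp.2.2.2.1 hp.2.2.2.2 j hjl
  have e : (fun w => nu (p z) l * kap m l (Function.update (vec i j wa 1 1) j w)
      + (1 - nu (p z) l)) = KL m i j l p z wa := by
    funext w
    rw [vec_upd_mid i j hij]
    rfl
  rw [e] at h
  exact h

private lemma lau3 (hLAU : T_LAU) (m : ℕ) (hm : 1 ≤ m) (i j l : Fin 3)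
    (p : Circle → Fin 5 → ℝ) (hp0 : ∀ z τ, 0 ≤ p z τ)
    (hp1 : ∀ z, ∑ τ, p z τ = 1) (z wa wb : Circle) : 0 ≤ KL m i j l p z wa wb := by
  have hp := (hLAU m hm).1 (p z) (hp0 z) (hp1 z) l (vec i j wa wb 1)
  have hk := ((hLAU m hm).2 l (vec i j wa wb 1)).1
  have h1 := mul_nonneg hp.2.2.2.1 hk
  have h2 := hp.2.2.2.2
  unfold KL
  linarith

private lemma bd_eq (i j l : Fin 3) (ρ : ℝ) (z₀ : Circle) (a b : ℕ) :
    bd i j l ρ z₀ a b = 0 ∨ bd i j l ρ z₀ a b = 1 := by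
  unfold bd
  split_ifs
  · exact Or.inr rfl
  · exact Or.inl rfl

private lemma bad_le (hLAU : T_LAU) (hTAI : T_TAI) (m : ℕ) (hm : 1 ≤ m) (i j l : Fin 3)
    (hij : i ≠ j) (hil : i ≠ l) (hjl : j ≠ l) (p : Circle → Fin 5 → ℝ) (ρ : ℝ) (hρ : 0 < ρ)
    (z₀ : Circle) (n : ℕ) (hnu : nu (p z₀) l = 1 - (1 / 2 : ℝ) ^ n) (N a b : ℕ)
    (ha : off i * N ≤ a) (ha' : a < off i * N + N) (hb : off j * N ≤ b)
    (hb' : b < off j * N + N) (hbad : bd i j l ρ z₀ a b = 1) :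
    KL m i j l p z₀ (z₀ ^ a) (z₀ ^ b) ≤ 72 / (m * ρ ^ 2) + (1 / 2 : ℝ) ^ n := by
  have hbad' : ρ < ‖(z₀ : ℂ) ^ tm l (vec i j a b 0) - 1‖ := by
    by_contra hc
    unfold bd at hbad
    rw [if_neg hc] at hbad
    norm_num at hbad
  obtain ⟨c, hc⟩ := win_le i j l hij hil hjl N a b ha ha' hb hb'
  rw [tm_vec i j l hij hil hjl a b 0 c] at hbad'
  have e1 := cmb_tm l z₀ (vec i j a b c) hc
  have e2 : (fun r => z₀ ^ (vec i j a b c) r) = vec i j (z₀ ^ a) (z₀ ^ b) (z₀ ^ c) := by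
    funext r
    unfold vec
    split_ifs <;> rfl
  have h3 : ρ < ‖((cmb l (fun r => z₀ ^ (vec i j a b c) r) : Circle) : ℂ) - 1‖ := by
    rw [e1, Circle.coe_pow]
    exact hbad'
  have h4 := hTAI m hm l _ ρ hρ h3
  rw [e2] at h4
  have h5 : kap m l (vec i j (z₀ ^ a) (z₀ ^ b) (z₀ ^ c)) =
      kap m l (vec i j (z₀ ^ a) (z₀ ^ b) 1) := by
    have := ((hLAU m hm).2 l (vec i j (z₀ ^ a) (z₀ ^ b) 1)).2.2.1 (z₀ ^ c)
    rw [vec_upd_last i j l hij hil hjl] at this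
    exact this
  rw [h5] at h4
  have hk := ((hLAU m hm).2 l (vec i j (z₀ ^ a) (z₀ ^ b) 1)).1
  unfold KL
  rw [hnu]
  have h6 : (0 : ℝ) ≤ (1 / 2 : ℝ) ^ n := by positivity
  nlinarith

theorem p_PWB : T_PTB → T_LAU → T_TAI → T_LEV → T_ORD → T_PWB := by
  intro hPTB hLAU hTAI hLEV hORD m n κ Pi s hm hn hκ hPi hG hI l j hj ρ hρ ε hε
  have hmr : (1 : ℝ) ≤ m := by exact_mod_cast hm
  by_cases hz1 : s l j = 1
  · refine ⟨0, fun N _ => ?_⟩
    have h0 : (fun y : Fin 3 → ℕ => Wf m n κ Pi s y *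
        (if ρ < ‖(s l j : ℂ) ^ tm l y - 1‖ then (1 : ℝ) else 0)) = fun _ => 0 := by
      funext y
      rw [hz1]
      have : ¬ (ρ < ‖((1 : Circle) : ℂ) ^ tm l y - 1‖) := by
        simp [hρ.le]
      rw [if_neg this, mul_zero]
    rw [h0]
    have : avg3 N (fun _ : Fin 3 → ℕ => (0 : ℝ)) = 0 := by
      unfold avg3
      simp [mean]
    rw [this]
    positivity
  obtain ⟨i, j', hij, hil, hjl⟩ := others l
  obtain ⟨hL1, hL2, hL3, hL4⟩ := hLEV κ n s hκ hn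
  obtain ⟨hA, hB⟩ := hLAU m hm
  obtain ⟨hPi0, hPi1, hPi2⟩ := hPi
  have hZS : (↑(Zs (κ (n - 1)) s) : Set Circle) ⊆ {z | z ≠ 1 ∧ ∃ l j, s l j = z} := by
    intro z hz
    obtain ⟨hz1', l₁, j₁, _, hp⟩ := (mem_Zs _ _ _).1 (Finset.mem_coe.1 hz)
    exact ⟨hz1', l₁, j₁, hp⟩
  have hz₀Z : s l j ∈ Zs (κ (n - 1)) s :=
    (mem_Zs _ _ _).2 ⟨hz1, l, j, lt_of_lt_of_le hj (hκ (Nat.zero_le _)), rfl⟩
  have h0 : lev κ n (s l) (s l j) = 0 := hL3 l j hj
  generalize s l j = z₀ at *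
  have hnu : nu (Pi fun l' => lev κ n (s l') z₀) l = 1 - (1 / 2 : ℝ) ^ n := by
    have h := hPi2 (fun l' => lev κ n (s l') z₀) (fun l' => hL1 l' z₀) (by
      intro l₁ l₂ h1 h2
      obtain ⟨q, _, hq⟩ := (hL2 l₂ z₀).1 h2
      exact hL4 hG l₁ l₂ z₀ h1 ⟨q, hq⟩) l
    have := h.1 (by show lev κ n (s l) z₀ < n; rw [h0]; omega)
    rw [this]
    show 1 - ee n (lev κ n (s l) z₀) = _
    rw [h0, ee, Nat.sub_zero]
  have hη : (0 : ℝ) ≤ 72 / (m * ρ ^ 2) + (1 / 2 : ℝ) ^ n := by positivity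
  have hη : (0 : ℝ) ≤ 72 / (m * ρ ^ 2) + (1 / 2 : ℝ) ^ n := by positivity
  obtain ⟨N₀, hN₀⟩ := hPTB {z | z ≠ 1 ∧ ∃ l j, s l j = z} hI m ((m : ℝ) ^ 2)
    (one_le_pow₀ hmr) (Zs (κ (n - 1)) s) hZS z₀ hz₀Z
    (72 / (m * ρ ^ 2) + (1 / 2 : ℝ) ^ n) hη ε hε
  refine ⟨N₀, fun N hN => ?_⟩
  have key := hN₀ N hN (off i * N) (off j' * N) (off l * N)
    (KK m i j' fun z => Pi fun l' => lev κ n (s l') z)
    (KL m i j' l fun z => Pi fun l' => lev κ n (s l') z)
    (bd i j' l ρ z₀)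
    (fun z _ wa wb => lau1 hLAU m hm i j' l hij hil hjl _ (fun z => hPi0 _) (fun z => hPi1 _)
      z wa wb)
    (fun z _ wa => lau2 hLAU m hm i j' l hij hjl _ (fun z => hPi0 _) (fun z => hPi1 _) z wa)
    (fun z _ wa wb => lau3 hLAU m hm i j' l _ (fun z => hPi0 _) (fun z => hPi1 _) z wa wb)
    (bd_eq i j' l ρ z₀)
    (fun a b ha ha' hb hb' hbad => bad_le hLAU hTAI m hm i j' l hij hil hjl _ ρ hρ z₀ n hnu N
      a b ha ha' hb hb' hbad)
  rw [hORD N _ i j' l hij hil hjl]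
  refine le_trans (le_of_eq ?_) key
  have main : ∀ a b c : ℕ, Wf m n κ Pi s (vec i j' a b c) *
      (if ρ < ‖(z₀ : ℂ) ^ tm l (vec i j' a b c) - 1‖ then (1 : ℝ) else 0) =
      (∏ z ∈ Zs (κ (n - 1)) s, KK m i j' (fun z => Pi fun l' => lev κ n (s l') z) z
        (z ^ a) (z ^ b) (z ^ c)) * bd i j' l ρ z₀ a b := by
    intro a b c
    congr 1
    · unfold Wf KK
      refine Finset.prod_congr rfl fun z _ => ?_
      congr 1
      funext r
      unfold vec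
      split_ifs <;> rfl
    · unfold bd
      rw [tm_vec i j' l hij hil hjl a b c 0]
  exact congrArg (mean N (off i * N)) (funext fun a => congrArg (mean N (off j' * N))
    (funext fun b => congrArg (mean N (off l * N)) (funext fun c => main a b c)))

end Pool.Agent.Ind3
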