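import Pool.Agent.Ind3.Targets
import Pool.Agent.FSP.P_KKB

set_option autoImplicit false

/-!
# REP: the weight is a finite sum of products
-/

open MeasureTheory Filter Topology Finset

namespace Pool.Agent.Ind3

open Pool.Agent.FSP

namespace REP_

/-- the code of an index -/
def cod (p : Fin 3 × ℕ) : ℕ := 3 * p.2 + p.1

theorem cod_inj : Function.Injective cod := by
  rintro ⟨a, b⟩ ⟨c, d⟩ h
  simp only [cod] at h
  have h1 : (a : ℕ) = c := by omega
  have h2 : b = d := by omega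
  rw [Fin.ext h1, h2]

/-- the index `p` is the first one with its value, which is not `1` -/
def Fst (K : ℕ) (s : Fin 3 → ℕ → Circle) (p : Fin 3 × ℕ) : Prop :=
  s p.1 p.2 ≠ 1 ∧ ∀ i ∈ (univ : Finset (Fin 3)) ×ˢ range K, cod i < cod p →
    s i.1 i.2 ≠ s p.1 p.2

open Classical in
/-- the weight of a type at an index -/
noncomputable def cc (n K : ℕ) (κ : ℕ → ℕ) (Pi : (Fin 3 → ℕ) → Fin 5 → ℝ)
    (s : Fin 3 → ℕ → Circle) (p : Fin 3 × ℕ) (τ : Fin 5) : ℝ :=
  if Fst K s p then Pi (fun l => lev κ n (s l) (s p.1 p.2)) τ else if τ = 4 then 1 else 0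

/-- one factor -/
noncomputable def gg (m n K : ℕ) (κ : ℕ → ℕ) (Pi : (Fin 3 → ℕ) → Fin 5 → ℝ)
    (s : Fin 3 → ℕ → Circle) (p : Fin 3 × ℕ) (x : Fin (2 * m) × Fin 5) (r : Fin 3) (y : ℕ) : ℝ :=
  (if r = 0 then (2 * m : ℝ)⁻¹ * cc n K κ Pi s p x.2 else 1) *
    (if act x.2 r then kf m r x.1 (s p.1 p.2 ^ y) else 1)

theorem prod_gg (m n K : ℕ) (κ : ℕ → ℕ) (Pi : (Fin 3 → ℕ) → Fin 5 → ℝ)
    (s : Fin 3 → ℕ → Circle) (p : Fin 3 × ℕ) (x : Fin (2 * m) × Fin 5) (y : Fin 3 → ℕ) :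
    ∏ r, gg m n K κ Pi s p x r (y r) = (2 * m : ℝ)⁻¹ * cc n K κ Pi s p x.2 *
      ∏ r : Fin 3, (if act x.2 r then kf m r x.1 (s p.1 p.2 ^ y r) else 1) := by
  unfold gg
  rw [prod_mul_distrib]
  congr 1
  rw [Fin.prod_univ_three]
  simp

open Classical in
theorem sum_fac (m n K : ℕ) (hm : 1 ≤ m) (κ : ℕ → ℕ) (Pi : (Fin 3 → ℕ) → Fin 5 → ℝ)
    (s : Fin 3 → ℕ → Circle) (p : Fin 3 × ℕ) (y : Fin 3 → ℕ) :
    (if Fst K s p then DD m (Pi fun l => lev κ n (s l) (s p.1 p.2))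
      (fun r => s p.1 p.2 ^ y r) else 1) =
      ∑ x : Fin (2 * m) × Fin 5, ∏ r, gg m n K κ Pi s p x r (y r) := by
  simp_rw [prod_gg]
  rw [Fintype.sum_prod_type]
  have h2m : (2 * m : ℝ) ≠ 0 := by
    have : (0 : ℝ) < m := by exact_mod_cast hm
    positivity
  by_cases h : Fst K s p
  · rw [if_pos h]
    unfold DD cc
    simp only [if_pos h]
    rw [Finset.sum_range, mul_sum]
    refine sum_congr rfl fun t _ => ?_
    rw [mul_sum]
    refine sum_congr rfl fun τ _ => ?_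
    ring
  · rw [if_neg h]
    unfold cc
    simp only [if_neg h]
    have h1 : ∀ t : Fin (2 * m), ∑ τ : Fin 5, (2 * m : ℝ)⁻¹ * (if τ = 4 then 1 else 0) *
        ∏ r : Fin 3, (if act τ r then kf m r t (s p.1 p.2 ^ y r) else 1) = (2 * m : ℝ)⁻¹ := by
      intro t
      rw [Finset.sum_eq_single 4]
      · rw [if_pos rfl, mul_one]
        have h2 : ∏ r : Fin 3, (if act 4 r then kf m r t (s p.1 p.2 ^ y r) else 1) = 1 := by
          refine prod_eq_one fun r _ => ?_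
          rw [if_neg]
          intro h3
          exact h3.1 rfl
        rw [h2, mul_one]
      · intro τ _ hτ
        rw [if_neg hτ]
        ring
      · intro h3
        exact absurd (mem_univ _) h3
    rw [sum_congr rfl fun t _ => h1 t, sum_const, card_univ, Fintype.card_fin, nsmul_eq_mul]
    push_cast
    rw [mul_inv_cancel₀ h2m]

/-! ### Measurability -/

theorem ev_meas (p : Fin 3 × ℕ) : Measurable fun s : Fin 3 → ℕ → Circle => s p.1 p.2 :=
  (measurable_pi_apply p.2).comp (measurable_pi_apply p.1)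

theorem eq_meas (p q : Fin 3 × ℕ) :
    Measurable fun s : Fin 3 → ℕ → Circle => (s p.1 p.2 = s q.1 q.2 : Prop) :=
  measurableSet_setOfPred.1 (measurableSet_eq_fun (ev_meas p) (ev_meas q))

theorem fst_meas (K : ℕ) (p : Fin 3 × ℕ) :
    MeasurableSet {s : Fin 3 → ℕ → Circle | Fst K s p} := by
  unfold Fst
  refine measurableSet_setOfPred.2 (Measurable.and ?_ ?_)
  · exact (measurableSet_setOfPred.1 (measurableSet_eq_fun (ev_meas p) measurable_const)).not
  · refine Measurable.forall fun i => ?_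
    exact measurable_const.imp (measurable_const.imp (eq_meas i p).not)

theorem lev_meas (κ : ℕ → ℕ) (n : ℕ) (l : Fin 3) (p : Fin 3 × ℕ) :
    Measurable fun s : Fin 3 → ℕ → Circle => lev κ n (s l) (s p.1 p.2) := by
  unfold lev
  simp_rw [Finset.card_filter]
  refine Finset.measurable_sum _ fun a _ => ?_
  refine Measurable.ite ?_ measurable_const measurable_const
  refine measurableSet_setOfPred.2 (Measurable.forall fun j => ?_)
  exact measurable_const.imp (eq_meas (l, j) p).not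

theorem cc_meas (n K : ℕ) (κ : ℕ → ℕ) (Pi : (Fin 3 → ℕ) → Fin 5 → ℝ) (p : Fin 3 × ℕ)
    (τ : Fin 5) : Measurable fun s : Fin 3 → ℕ → Circle => cc n K κ Pi s p τ := by
  classical
  unfold cc
  refine Measurable.ite (fst_meas K p) ?_ measurable_const
  have h : Measurable fun s : Fin 3 → ℕ → Circle => fun l => lev κ n (s l) (s p.1 p.2) :=
    measurable_pi_lambda _ fun l => lev_meas κ n l p
  exact (Measurable.of_discrete (f := fun a : Fin 3 → ℕ => Pi a τ)).comp h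

theorem kf_meas (m : ℕ) (i : Fin 3) (t y : ℕ) (p : Fin 3 × ℕ) :
    Measurable fun s : Fin 3 → ℕ → Circle => kf m i t (s p.1 p.2 ^ y) := by
  unfold kf
  refine (p_KKB.2.2.1 m).comp ?_
  have h : Measurable fun z : Circle => z ^ y * rt m t ^ ex i := by
    have : Continuous fun z : Circle => z ^ y * rt m t ^ ex i := by fun_prop
    exact this.measurable
  exact h.comp (ev_meas p)

theorem gg_meas (m n K : ℕ) (κ : ℕ → ℕ) (Pi : (Fin 3 → ℕ) → Fin 5 → ℝ) (p : Fin 3 × ℕ)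
    (x : Fin (2 * m) × Fin 5) (r : Fin 3) (y : ℕ) :
    Measurable fun s : Fin 3 → ℕ → Circle => gg m n K κ Pi s p x r y := by
  unfold gg
  refine Measurable.mul ?_ ?_
  · split_ifs
    · exact (cc_meas n K κ Pi p x.2).const_mul _
    · exact measurable_const
  · split_ifs
    · exact kf_meas m r x.1 y p
    · exact measurable_const

/-! ### Bounds -/

theorem cc_bd {n K : ℕ} {κ : ℕ → ℕ} {Pi : (Fin 3 → ℕ) → Fin 5 → ℝ} (hP : Spec n Pi)
    (s : Fin 3 → ℕ → Circle) (p : Fin 3 × ℕ) (τ : Fin 5) :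
    0 ≤ cc n K κ Pi s p τ ∧ cc n K κ Pi s p τ ≤ 1 := by
  classical
  unfold cc
  split_ifs
  · refine ⟨hP.1 _ _, ?_⟩
    rw [← hP.2.1 fun l => lev κ n (s l) (s p.1 p.2)]
    exact single_le_sum (f := Pi fun l => lev κ n (s l) (s p.1 p.2)) (fun τ _ => hP.1 _ τ)
      (mem_univ τ)
  · exact ⟨zero_le_one, le_rfl⟩
  · exact ⟨le_rfl, zero_le_one⟩

theorem gg_bd (hK : T_KFL) {m n K : ℕ} (hm : 1 ≤ m) {κ : ℕ → ℕ}
    {Pi : (Fin 3 → ℕ) → Fin 5 → ℝ} (hP : Spec n Pi) (s : Fin 3 → ℕ → Circle) (p : Fin 3 × ℕ)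
    (x : Fin (2 * m) × Fin 5) (r : Fin 3) (y : ℕ) : |gg m n K κ Pi s p x r y| ≤ m := by
  have hm1 : (1 : ℝ) ≤ m := by exact_mod_cast hm
  have h1 : 0 ≤ (if r = 0 then (2 * m : ℝ)⁻¹ * cc n K κ Pi s p x.2 else 1) ∧
      (if r = 0 then (2 * m : ℝ)⁻¹ * cc n K κ Pi s p x.2 else 1) ≤ 1 := by
    split_ifs
    · obtain ⟨h2, h3⟩ := cc_bd (K := K) (κ := κ) hP s p x.2
      have h4 : (2 * m : ℝ)⁻¹ ≤ 1 := inv_le_one_of_one_le₀ (by linarith)
      have h5 : 0 ≤ (2 * m : ℝ)⁻¹ := by positivity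
      exact ⟨mul_nonneg h5 h2, mul_le_one₀ h4 h2 h3⟩
    · exact ⟨zero_le_one, le_rfl⟩
  have h2 : 0 ≤ (if act x.2 r then kf m r x.1 (s p.1 p.2 ^ y) else 1) ∧
      (if act x.2 r then kf m r x.1 (s p.1 p.2 ^ y) else 1) ≤ m := by
    split_ifs
    · exact (hK m hm r).2.1 _ _
    · exact ⟨zero_le_one, hm1⟩
  unfold gg
  rw [abs_of_nonneg (mul_nonneg h1.1 h2.1)]
  calc _ ≤ 1 * (m : ℝ) := mul_le_mul h1.2 h2.2 h2.1 zero_le_one
    _ = m := one_mul _

end REP_

open REP_ in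
theorem p_REP (hL : T_LDR) (hK : T_KFL) : T_REP := by
  classical
  intro m n κ Pi hm hP
  set K := κ (n - 1) with hKd
  let ι := Fin 3 × Fin K
  let X := ι → Fin (2 * m) × Fin 5
  let e : X ≃ Fin (Fintype.card X) := Fintype.equivFin X
  let ix : ι → Fin 3 × ℕ := fun p => (p.1, (p.2 : ℕ))
  refine ⟨Fintype.card X,
    fun i r s y => ∏ p : ι, gg m n K κ Pi s (ix p) (e.symm i p) r y,
    (m : ℝ) ^ Fintype.card ι, fun i r y => ?_, fun i r s y => ?_, fun s y => ?_⟩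
  · exact Finset.measurable_prod _ fun p _ => gg_meas m n K κ Pi (ix p) (e.symm i p) r y
  · rw [Finset.abs_prod]
    calc ∏ p : ι, |gg m n K κ Pi s (ix p) (e.symm i p) r y| ≤ ∏ _p : ι, (m : ℝ) :=
          prod_le_prod (fun _ _ => abs_nonneg _) fun p _ => gg_bd hK hm hP s _ _ r y
      _ = (m : ℝ) ^ Fintype.card ι := by rw [prod_const, card_univ]
  · have h1 : Wf m n κ Pi s y = ∏ p ∈ (univ : Finset (Fin 3)) ×ˢ range K,
        (if Fst K s p then DD m (Pi fun l => lev κ n (s l) (s p.1 p.2))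
          (fun r => s p.1 p.2 ^ y r) else 1) := by
      have h2 := hL (Fin 3 × ℕ) ((univ : Finset (Fin 3)) ×ˢ range K) (fun p => s p.1 p.2) cod
        (fun z => DD m (Pi fun l => lev κ n (s l) z) fun r => z ^ y r) cod_inj
      unfold Wf Zs
      rw [← hKd]
      refine Eq.trans ?_ (h2.trans ?_)
      · congr!
      · refine prod_congr rfl fun p _ => ?_
        unfold Fst
        congr!
    rw [h1, prod_product]
    simp_rw [sum_fac m n K hm κ Pi s _ y]
    have h3 : ∏ l : Fin 3, ∏ j ∈ range K, ∑ x : Fin (2 * m) × Fin 5,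
        ∏ r, gg m n K κ Pi s (l, j) x r (y r) =
        ∏ p : ι, ∑ x : Fin (2 * m) × Fin 5, ∏ r, gg m n K κ Pi s (ix p) x r (y r) := by
      rw [Fintype.prod_prod_type]
      refine prod_congr rfl fun l _ => ?_
      rw [Finset.prod_range]
    rw [h3, Finset.prod_univ_sum]
    rw [Fintype.piFinset_univ]
    rw [← Equiv.sum_comp e.symm]
    refine sum_congr rfl fun i _ => ?_
    exact Finset.prod_comm

end Pool.Agent.Ind3
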