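import Pool.Agent.Ind3.Targets
import Pool.Agent.FSP.P_SPC

set_option autoImplicit false

/-!
# SPE: `InF` is a closed subspace stable under clipping
-/

open MeasureTheory Filter Topology Finset

namespace Pool.Agent.Ind3

open Pool.Agent.FSP

universe u

/-- SPE. -/
theorem p_SPE : T_SPE.{u} := by
  intro Ω _ μ _ T F
  refine ⟨?_, ?_, ?_, ?_, ?_, ?_⟩
  · intro h h' H H' ε hε
    obtain ⟨p₁, hm₁, ha₁, hp₁, hn₁⟩ := H (ε / 2) (by positivity)
    obtain ⟨p₂, hm₂, ha₂, hp₂, hn₂⟩ := H' (ε / 2) (by positivity)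
    refine ⟨p₁ + p₂, hm₁.add hm₂, ?_, hp₁.add hp₂, ?_⟩
    · intro ε' hε'
      have := SPC_.ap_add (ha₁ (ε' / 2) (by positivity)) (ha₂ (ε' / 2) (by positivity))
      rwa [add_halves] at this
    · rw [MemLp.toLp_add hp₁ hp₂]
      have e : h + h' - (hp₁.toLp p₁ + hp₂.toLp p₂) =
          (h - hp₁.toLp p₁) + (h' - hp₂.toLp p₂) := by abel
      rw [e]
      refine (norm_add_le _ _).trans ?_
      linarith
  · intro c h H ε hε
    have hc : ∀ δ : ℝ, 0 < δ → |c| * (δ / (|c| + 1)) ≤ δ := by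
      intro δ hδ
      have h1 : 0 < |c| + 1 := by positivity
      rw [mul_div_assoc', div_le_iff₀ h1]
      nlinarith [abs_nonneg c]
    obtain ⟨p, hm, hap, hp, hn⟩ := H (ε / (|c| + 1)) (by positivity)
    refine ⟨c • p, hm.const_smul c, ?_, hp.const_smul c, ?_⟩
    · intro ε' hε'
      obtain ⟨q, hq, ρ, hρ, d, τ, hτ, ha⟩ := hap (ε' / (|c| + 1)) (by positivity)
      refine ⟨q, hq, ρ, hρ, d, τ, hτ, fun n => ?_⟩
      filter_upwards [ha n] with x hx hb
      have h1 := hx hb
      have e : (c • p) (T^[q * n] x) - (c • p) x = c * (p (T^[q * n] x) - p x) := by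
        simp only [Pi.smul_apply, smul_eq_mul]
        ring
      rw [e, abs_mul]
      exact (mul_le_mul_of_nonneg_left h1 (abs_nonneg c)).trans (hc ε' hε')
    · rw [MemLp.toLp_const_smul, ← smul_sub, norm_smul, Real.norm_eq_abs]
      exact (mul_le_mul_of_nonneg_left hn (abs_nonneg c)).trans (hc ε hε)
  · intro ε hε
    refine ⟨0, measurable_zero, fun ε' hε' => ⟨1, le_rfl, 1, one_pos, 0, Fin.elim0,
      fun l => l.elim0, fun n => ?_⟩, MemLp.zero, ?_⟩
    · filter_upwards with x hx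
      simp [hε'.le]
    · have : (MemLp.zero (μ := μ) (p := 2) (ε := ℝ)).toLp (0 : Ω → ℝ) = 0 := MemLp.toLp_zero _
      rw [this, sub_zero, norm_zero]
      exact hε.le
  · intro h H ε hε
    obtain ⟨h', H', hn⟩ := H (ε / 2) (by positivity)
    obtain ⟨p, hm, hap, hp, hn'⟩ := H' (ε / 2) (by positivity)
    refine ⟨p, hm, hap, hp, ?_⟩
    have e : h - hp.toLp p = (h - h') + (h' - hp.toLp p) := by abel
    rw [e]
    refine (norm_add_le _ _).trans ?_
    linarith
  · intro h h' H hcl ε hε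
    obtain ⟨p, hm, hap, hp, hn⟩ := H ε hε
    have hm' : Measurable fun x => max 0 (min (p x) 1) :=
      measurable_const.max (hm.min measurable_const)
    have hp' : MemLp (fun x => max 0 (min (p x) 1)) 2 μ := by
      refine hp.mono hm'.aestronglyMeasurable (Eventually.of_forall fun x => ?_)
      have := SPC_.clip_lip (p x) 0
      simpa using this
    refine ⟨fun x => max 0 (min (p x) 1), hm', ?_, hp', ?_⟩
    · intro ε' hε'
      obtain ⟨q, hq, ρ, hρ, d, τ, hτ, ha⟩ := hap ε' hε'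
      refine ⟨q, hq, ρ, hρ, d, τ, hτ, fun n => ?_⟩
      filter_upwards [ha n] with x hx hb
      exact (SPC_.clip_lip _ _).trans (hx hb)
    · refine (Lp.norm_le_norm_of_ae_le ?_).trans hn
      filter_upwards [hcl, Lp.coeFn_sub h' (hp'.toLp _), Lp.coeFn_sub h (hp.toLp p),
        hp'.coeFn_toLp, hp.coeFn_toLp] with x h1 h2 h3 h4 h5
      rw [h2, h3]
      simp only [Pi.sub_apply]
      rw [h1, h4, h5]
      exact SPC_.clip_lip _ _
  · intro h hh ε hε
    have hp : MemLp (fun _ : Ω => (1 : ℝ)) 2 μ := memLp_const 1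
    refine ⟨fun _ => 1, measurable_const, fun ε' hε' => ⟨1, le_rfl, 1, one_pos, 0, Fin.elim0,
      fun l => l.elim0, fun n => ?_⟩, hp, ?_⟩
    · filter_upwards with x hx
      simp [hε'.le]
    · have e : h = hp.toLp (fun _ : Ω => (1 : ℝ)) := by
        refine Lp.ext ?_
        filter_upwards [hh, hp.coeFn_toLp] with x h1 h2
        rw [h1, h2]
      rw [e, sub_self, norm_zero]
      exact hε.le

end Pool.Agent.Ind3
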