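import Pool.Agent.Ind3.Targets

set_option autoImplicit false

/-! # SPL: splitting off independent coordinates -/

open MeasureTheory Filter Topology Finset

namespace Pool.Agent.Ind3

open Pool.Agent.FSP

/-- Elements of the closure of a finite set are monomials. -/
theorem splClosure (τ : Finset Circle) {x : Circle}
    (hx : x ∈ Subgroup.closure (↑τ : Set Circle)) :
    ∃ a : Circle → ℤ, x = ∏ t ∈ τ, t ^ a t := by
  classical
  induction hx using Subgroup.closure_induction with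
  | mem x hx =>
    refine ⟨fun t => if t = x then 1 else 0, ?_⟩
    rw [Finset.prod_eq_single x]
    · simp
    · intro b _ hb; simp [hb]
    · intro h; exact absurd (Finset.mem_coe.1 hx) h
  | one => exact ⟨0, by simp⟩
  | mul x y _ _ hx hy =>
    obtain ⟨a, ha⟩ := hx
    obtain ⟨b, hb⟩ := hy
    exact ⟨a + b, by rw [ha, hb, ← Finset.prod_mul_distrib]; simp [zpow_add]⟩
  | inv x _ hx =>
    obtain ⟨a, ha⟩ := hx
    exact ⟨-a, by rw [ha, ← Finset.prod_inv_distrib]; simp⟩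

/-- A monomial with a nonzero exponent outside `τ` has no power in the group of `τ`. -/
theorem splIndep {S : Set Circle} (hS : Ind S) {Z E τ : Finset Circle}
    (hZ : (↑Z : Set Circle) ⊆ S) (hE : E ⊆ Z) (hτ : (↑τ : Set Circle) ⊆ S) (hd : Disjoint E τ)
    {q : ℕ} (hq : 1 ≤ q) (k : Circle → ℤ) {z : Circle} (hz : z ∈ E) (hk : k z ≠ 0) :
    (∏ z ∈ Z, z ^ k z) ^ q ∉ Subgroup.closure (↑τ : Set Circle) := by
  classical
  intro hx
  obtain ⟨a, ha⟩ := splClosure τ hx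
  have e1 : ∏ w ∈ Z ∪ τ, w ^ (if w ∈ Z then (q : ℤ) * k w else 0) = (∏ z ∈ Z, z ^ k z) ^ q := by
    rw [← Finset.prod_subset (Finset.subset_union_left : Z ⊆ Z ∪ τ)]
    · rw [← Finset.prod_pow]
      refine Finset.prod_congr rfl fun w hw => ?_
      rw [if_pos hw, mul_comm, zpow_mul, zpow_natCast]
    · intro w _ hw
      rw [if_neg hw, zpow_zero]
  have e2 : ∏ w ∈ Z ∪ τ, w ^ (if w ∈ τ then a w else 0) = ∏ t ∈ τ, t ^ a t := by
    rw [← Finset.prod_subset (Finset.subset_union_right : τ ⊆ Z ∪ τ)]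
    · refine Finset.prod_congr rfl fun w hw => ?_
      rw [if_pos hw]
    · intro w _ hw
      rw [if_neg hw, zpow_zero]
  have h1 : ∏ w ∈ Z ∪ τ, w ^ ((if w ∈ Z then (q : ℤ) * k w else 0)
      - (if w ∈ τ then a w else 0)) = 1 := by
    have : ∀ w ∈ Z ∪ τ, w ^ ((if w ∈ Z then (q : ℤ) * k w else 0)
        - (if w ∈ τ then a w else 0)) = w ^ (if w ∈ Z then (q : ℤ) * k w else 0)
        * (w ^ (if w ∈ τ then a w else 0))⁻¹ := fun w _ => zpow_sub _ _ _
    rw [Finset.prod_congr rfl this, Finset.prod_mul_distrib, Finset.prod_inv_distrib, e1, e2, ha,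
      mul_inv_cancel]
  have h2 := hS (Z ∪ τ) (by
    rw [Finset.coe_union]; exact Set.union_subset hZ hτ) _ h1 z
    (Finset.mem_union_left _ (hE hz))
  rw [if_pos (hE hz), if_neg (Finset.disjoint_left.1 hd hz), sub_zero] at h2
  rcases mul_eq_zero.1 h2 with h | h
  · have : q = 0 := by exact_mod_cast h
    omega
  · exact hk h

open Classical in
/-- Expansion of a product of Laurent polynomials. -/
theorem splExpand (Z : Finset Circle) (m : ℕ) (c : {z // z ∈ Z} → ℤ → ℂ) (y : ℕ) :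
    ∏ z : {z // z ∈ Z}, ∑ n ∈ Finset.Icc (-(m : ℤ)) m,
        c z n * (((z : Circle) ^ y : Circle) : ℂ) ^ n
      = ∑ k ∈ Fintype.piFinset (fun _ : {z // z ∈ Z} => Finset.Icc (-(m : ℤ)) m),
        (∏ z, c z (k z)) * ((∏ z : {z // z ∈ Z}, (z : Circle) ^ k z : Circle) : ℂ) ^ y := by
  rw [Finset.prod_univ_sum]
  refine Finset.sum_congr rfl fun k _ => ?_
  rw [Finset.prod_mul_distrib]
  congr 1
  have : ∀ (w : Circle) (i : ℤ), ((w ^ y : Circle) : ℂ) ^ i = (((w ^ i) ^ y : Circle) : ℂ) := by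
    intro w i
    rw [← Circle.coe_zpow, ← zpow_natCast, ← zpow_natCast, ← zpow_mul, ← zpow_mul, mul_comm]
  rw [Finset.prod_congr rfl fun z _ => this _ _, ← Circle.coe_pow, ← Finset.prod_pow]
  change _ = Circle.coeHom (∏ x : {z // z ∈ Z}, ((x : Circle) ^ k x) ^ y)
  rw [map_prod]
  rfl

open Classical in
/-- SPL. -/
theorem p_SPL (hDE : T_DE1) : T_SPL := by
  intro S hS m C hC Z E τ hZ hE hτ hd q ρ hq hρ ε hε
  have hC0 : (0 : ℝ) ≤ C := le_trans zero_le_one hC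
  set χ : ({z // z ∈ Z} → ℤ) → Circle := fun k => ∏ z : {z // z ∈ Z}, (z : Circle) ^ k z with hχ
  have key : ∀ k : {z // z ∈ Z} → ℤ, ∃ N₀ : ℕ, (∃ z : {z // z ∈ Z}, z.1 ∈ E ∧ k z ≠ 0) →
      ∀ N ≥ N₀, ∀ s : ℕ, ∀ (φ : ℕ → ℝ) (ε' : ℝ), 0 ≤ ε' → PP q ρ τ ε' s φ →
        ‖(N : ℂ)⁻¹ * ∑ n ∈ range N, (χ k : ℂ) ^ (s + n) * ((φ (s + n) : ℝ) : ℂ)‖ ≤ ε' + ε := by
    intro k
    by_cases hk : ∃ z : {z // z ∈ Z}, z.1 ∈ E ∧ k z ≠ 0
    · obtain ⟨z, hzE, hkz⟩ := hk
      have hmem : (χ k) ^ q ∉ Subgroup.closure (↑τ : Set Circle) := by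
        have h1 : χ k = ∏ w ∈ Z, w ^ (if h : w ∈ Z then k ⟨w, h⟩ else 0) := by
          rw [← Finset.prod_coe_sort Z (fun w => w ^ (if h : w ∈ Z then k ⟨w, h⟩ else 0))]
          refine Finset.prod_congr rfl fun w _ => ?_
          rw [dif_pos w.2]
        rw [h1]
        refine splIndep hS hZ hE hτ hd hq _ hzE ?_
        rw [dif_pos z.2]
        exact hkz
      obtain ⟨N₀, hN₀⟩ := hDE (χ k) q ρ τ hq hρ hmem ε hε
      exact ⟨N₀, fun _ => hN₀⟩
    · exact ⟨0, fun h => absurd h hk⟩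
  choose N₁ hN₁ using key
  set P := Fintype.piFinset fun _ : {z // z ∈ Z} => Finset.Icc (-(m : ℤ)) m with hP
  refine ⟨P.sup N₁, ?_⟩
  intro N hN s φ ε' hε' hPP G c0 hG
  have hG' : ∀ z : {z // z ∈ Z}, Lau m C (G z) (c0 z) := fun z => hG z z.2
  choose c hcC hc0 hcG using hG'
  -- truncated coefficients
  set c' : {z // z ∈ Z} → ℤ → ℂ := fun z n => if z.1 ∈ E ∧ n ≠ 0 then 0 else c z n with hc'
  have hfirst : ∀ y : ℕ, ((∏ z ∈ Z, G z (z ^ y) : ℝ) : ℂ)
      = ∑ k ∈ P, (∏ z, c z (k z)) * (χ k : ℂ) ^ y := by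
    intro y
    rw [← splExpand Z m c y, ← Finset.prod_coe_sort Z (fun z => G z (z ^ y)), Complex.ofReal_prod]
    exact Finset.prod_congr rfl fun z _ => hcG z _
  have hsecond : ∀ y : ℕ, (((∏ z ∈ E, c0 z) * ∏ z ∈ Z \ E, G z (z ^ y) : ℝ) : ℂ)
      = ∑ k ∈ P, (∏ z, c' z (k z)) * (χ k : ℂ) ^ y := by
    intro y
    rw [← splExpand Z m c' y]
    have h1 : (∏ z ∈ E, c0 z) * ∏ z ∈ Z \ E, G z (z ^ y)
        = ∏ z ∈ Z, (if z ∈ E then c0 z else G z (z ^ y)) := by
      rw [← Finset.prod_sdiff hE, mul_comm]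
      congr 1
      · refine Finset.prod_congr rfl fun z hz => ?_
        rw [if_neg (Finset.mem_sdiff.1 hz).2]
      · refine Finset.prod_congr rfl fun z hz => ?_
        rw [if_pos hz]
    rw [h1, ← Finset.prod_coe_sort Z (fun z => if z ∈ E then c0 z else G z (z ^ y)),
      Complex.ofReal_prod]
    refine Finset.prod_congr rfl fun z _ => ?_
    by_cases hz : z.1 ∈ E
    · rw [if_pos hz, Finset.sum_eq_single (0 : ℤ)]
      · simp only [hc', ne_eq, not_true_eq_false, and_false, if_false, zpow_zero, mul_one]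
        exact (hc0 z).symm
      · intro n _ hn
        simp only [hc']
        rw [if_pos ⟨hz, hn⟩, zero_mul]
      · intro h
        exact absurd (Finset.mem_Icc.2 ⟨by simp, by simp⟩) h
    · rw [if_neg hz, hcG z]
      refine Finset.sum_congr rfl fun n _ => ?_
      simp only [hc']
      rw [if_neg (fun h => hz h.1)]
  set d : ({z // z ∈ Z} → ℤ) → ℂ := fun k => (∏ z, c z (k z)) - ∏ z, c' z (k z) with hd'
  have hdbad : ∀ k, (∃ z : {z // z ∈ Z}, z.1 ∈ E ∧ k z ≠ 0) → ‖d k‖ ≤ C ^ Z.card := by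
    rintro k ⟨z, hzE, hkz⟩
    have h1 : ∏ z, c' z (k z) = 0 := by
      refine Finset.prod_eq_zero (Finset.mem_univ z) ?_
      simp only [hc']
      rw [if_pos ⟨hzE, hkz⟩]
    simp only [hd']
    rw [h1, sub_zero, norm_prod]
    calc ∏ z : {z // z ∈ Z}, ‖c z (k z)‖ ≤ ∏ _z : {z // z ∈ Z}, C :=
          Finset.prod_le_prod (fun _ _ => norm_nonneg _) fun z _ => hcC z _
      _ = C ^ Z.card := by
          rw [Finset.prod_const, Finset.card_univ, Fintype.card_coe]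
  have hdgood : ∀ k, (¬ ∃ z : {z // z ∈ Z}, z.1 ∈ E ∧ k z ≠ 0) → d k = 0 := by
    intro k hk
    simp only [hd']
    rw [sub_eq_zero]
    refine Finset.prod_congr rfl fun z _ => ?_
    simp only [hc']
    rw [if_neg]
    intro h
    exact hk ⟨z, h⟩
  have hdiff : ((mean N s (fun y => (∏ z ∈ Z, G z (z ^ y)) * φ y)
      - (∏ z ∈ E, c0 z) * mean N s (fun y => (∏ z ∈ Z \ E, G z (z ^ y)) * φ y) : ℝ) : ℂ)
      = ∑ k ∈ P, d k * ((N : ℂ)⁻¹ * ∑ n ∈ range N, (χ k : ℂ) ^ (s + n)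
        * ((φ (s + n) : ℝ) : ℂ)) := by
    have h1 : mean N s (fun y => (∏ z ∈ Z, G z (z ^ y)) * φ y)
        - (∏ z ∈ E, c0 z) * mean N s (fun y => (∏ z ∈ Z \ E, G z (z ^ y)) * φ y)
        = (N : ℝ)⁻¹ * ∑ n ∈ range N, ((∏ z ∈ Z, G z (z ^ (s + n)))
          - (∏ z ∈ E, c0 z) * ∏ z ∈ Z \ E, G z (z ^ (s + n))) * φ (s + n) := by
      unfold mean
      rw [mul_left_comm, ← mul_sub, Finset.mul_sum, ← Finset.sum_sub_distrib]
      congr 1
      refine Finset.sum_congr rfl fun n _ => ?_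
      ring
    rw [h1]
    have h2 : ∀ n : ℕ, ((((∏ z ∈ Z, G z (z ^ (s + n)))
          - (∏ z ∈ E, c0 z) * ∏ z ∈ Z \ E, G z (z ^ (s + n))) * φ (s + n) : ℝ) : ℂ)
        = ∑ k ∈ P, d k * ((χ k : ℂ) ^ (s + n) * ((φ (s + n) : ℝ) : ℂ)) := by
      intro n
      rw [Complex.ofReal_mul, Complex.ofReal_sub, hfirst, hsecond, ← Finset.sum_sub_distrib,
        Finset.sum_mul]
      refine Finset.sum_congr rfl fun k _ => ?_
      simp only [hd']
      ring
    rw [Complex.ofReal_mul, Complex.ofReal_sum, Finset.sum_congr rfl fun n _ => h2 n,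
      Finset.sum_comm, Finset.mul_sum]
    refine Finset.sum_congr rfl fun k _ => ?_
    rw [Complex.ofReal_inv, Complex.ofReal_natCast, ← Finset.mul_sum]
    ring
  have habs : |mean N s (fun y => (∏ z ∈ Z, G z (z ^ y)) * φ y)
      - (∏ z ∈ E, c0 z) * mean N s (fun y => (∏ z ∈ Z \ E, G z (z ^ y)) * φ y)|
      = ‖∑ k ∈ P, d k * ((N : ℂ)⁻¹ * ∑ n ∈ range N, (χ k : ℂ) ^ (s + n)
        * ((φ (s + n) : ℝ) : ℂ))‖ := by
    rw [← hdiff, Complex.norm_real, Real.norm_eq_abs]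
  rw [habs]
  have hεε : 0 ≤ ε' + ε := by linarith
  have hM : (0 : ℝ) ≤ (2 * m + 1) * C := by positivity
  by_cases hE0 : E = ∅
  · rw [Finset.sum_eq_zero]
    · rw [norm_zero]
      positivity
    · intro k _
      rw [hdgood k, zero_mul]
      rintro ⟨z, hz, _⟩
      rw [hE0] at hz
      exact absurd hz (Finset.notMem_empty _)
  have hcard : (1 : ℝ) ≤ Z.card := by
    obtain ⟨z, hz⟩ := Finset.nonempty_iff_ne_empty.2 hE0
    exact_mod_cast Finset.card_pos.2 ⟨z, hE hz⟩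
  calc ‖∑ k ∈ P, d k * ((N : ℂ)⁻¹ * ∑ n ∈ range N, (χ k : ℂ) ^ (s + n)
        * ((φ (s + n) : ℝ) : ℂ))‖
      ≤ ∑ k ∈ P, C ^ Z.card * (ε' + ε) := by
        refine norm_sum_le_of_le _ fun k hk => ?_
        by_cases hb : ∃ z : {z // z ∈ Z}, z.1 ∈ E ∧ k z ≠ 0
        · rw [norm_mul]
          refine mul_le_mul (hdbad k hb) ?_ (norm_nonneg _) (by positivity)
          exact hN₁ k hb N (le_trans (Finset.le_sup hk) hN) s φ ε' hε' hPP
        · rw [hdgood k hb, zero_mul, norm_zero]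
          positivity
    _ = ((2 * m + 1) * C) ^ Z.card * (ε' + ε) := by
        rw [Finset.sum_const, nsmul_eq_mul, mul_pow, mul_assoc]
        congr 1
        rw [hP, Fintype.card_piFinset, Finset.prod_const, Finset.card_univ, Fintype.card_coe,
          Int.card_Icc]
        push_cast
        congr 1
        have : ((m : ℤ) + 1 - -(m : ℤ)).toNat = 2 * m + 1 := by omega
        rw [this]
        push_cast
        ring
    _ = 1 * (((2 * m + 1) * C) ^ Z.card * (ε' + ε)) := (one_mul _).symm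
    _ ≤ Z.card * (((2 * m + 1) * C) ^ Z.card * (ε' + ε)) :=
        mul_le_mul_of_nonneg_right hcard (by positivity)
    _ = Z.card * ((2 * m + 1) * C) ^ Z.card * (ε' + ε) := by ring

end Pool.Agent.Ind3
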