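import Pool.Agent.Ind3.Targets

/-!
# Ind3: the thresholds (THR)
-/

set_option autoImplicit false

open MeasureTheory Filter Topology Finset

namespace Pool.Agent.Ind3

open Pool.Agent.FSP

universe u

namespace THR_

variable {Ω : Type u} [MeasurableSpace Ω]

/-- The points where some value among the first `K` ones occurs late. -/
def late (θ : Fin 3 → ℕ → Ω → Circle) (K K' : ℕ) : Set Ω :=
  {x | ∃ l l' : Fin 3, ∃ j, j < K ∧ (∃ i, θ l' i x = θ l j x) ∧
    ¬ ∃ i, i < K' ∧ θ l' i x = θ l j x}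

theorem late_meas (θ : Fin 3 → ℕ → Ω → Circle) (hθ : ∀ l j, Measurable (θ l j)) (K K' : ℕ) :
    MeasurableSet (late θ K K') := by
  unfold late
  have hE : ∀ l l' j i, MeasurableSet {x | θ l' i x = θ l j x} := fun l l' j i =>
    measurableSet_eq_fun (hθ l' i) (hθ l j)
  refine MeasurableSet.congr (s := ⋃ l : Fin 3, ⋃ l' : Fin 3, ⋃ j : ℕ, ⋃ _ : j < K,
    ((⋃ i, {x | θ l' i x = θ l j x}) ∩ (⋃ i, ⋃ _ : i < K', {x | θ l' i x = θ l j x})ᶜ)) ?_ ?_
  · refine MeasurableSet.iUnion fun l => MeasurableSet.iUnion fun l' => MeasurableSet.iUnion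
      fun j => MeasurableSet.iUnion fun _ => ?_
    refine (MeasurableSet.iUnion fun i => hE l l' j i).inter
      (MeasurableSet.iUnion fun i => MeasurableSet.iUnion fun _ => hE l l' j i).compl
  · ext x
    simp only [Set.mem_iUnion, Set.mem_inter_iff, Set.mem_compl_iff, Set.mem_ofPred_eq,
      exists_prop]

omit [MeasurableSpace Ω] in
theorem late_anti (θ : Fin 3 → ℕ → Ω → Circle) (K : ℕ) : Antitone (late θ K) := by
  intro a b hab x hx
  obtain ⟨l, l', j, hj, h1, h2⟩ := hx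
  exact ⟨l, l', j, hj, h1, fun ⟨i, hi, h⟩ => h2 ⟨i, lt_of_lt_of_le hi hab, h⟩⟩

omit [MeasurableSpace Ω] in
theorem late_inter (θ : Fin 3 → ℕ → Ω → Circle) (K : ℕ) : ⋂ K', late θ K K' = ∅ := by
  rw [Set.eq_empty_iff_forall_notMem]
  intro x hx
  rw [Set.mem_iInter] at hx
  have h : ∀ (l l' : Fin 3) (j : ℕ), ∃ N : ℕ, (∃ i, θ l' i x = θ l j x) →
      ∃ i, i < N ∧ θ l' i x = θ l j x := by
    intro l l' j
    by_cases h : ∃ i, θ l' i x = θ l j x
    · obtain ⟨i, hi⟩ := h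
      exact ⟨i + 1, fun _ => ⟨i, Nat.lt_succ_self i, hi⟩⟩
    · exact ⟨0, fun h' => absurd h' h⟩
  choose N hN using h
  obtain ⟨l, l', j, hj, h1, h2⟩ := hx (∑ l, ∑ l', ∑ j ∈ range K, N l l' j)
  obtain ⟨i, hi, h3⟩ := hN l l' j h1
  refine h2 ⟨i, lt_of_lt_of_le hi ?_, h3⟩
  calc N l l' j ≤ ∑ j ∈ range K, N l l' j :=
        Finset.single_le_sum (f := fun j => N l l' j) (fun _ _ => Nat.zero_le _)
          (mem_range.2 hj)
    _ ≤ ∑ l', ∑ j ∈ range K, N l l' j :=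
        Finset.single_le_sum (f := fun l' => ∑ j ∈ range K, N l l' j)
          (fun _ _ => Nat.zero_le _) (mem_univ _)
    _ ≤ ∑ l, ∑ l', ∑ j ∈ range K, N l l' j :=
        Finset.single_le_sum (f := fun l => ∑ l', ∑ j ∈ range K, N l l' j)
          (fun _ _ => Nat.zero_le _) (mem_univ _)

theorem step (μ : Measure Ω) [IsProbabilityMeasure μ] (θ : Fin 3 → ℕ → Ω → Circle)
    (hθ : ∀ l j, Measurable (θ l j)) (K : ℕ) (ε : ℝ) (hε : 0 < ε) :
    ∃ K', K ≤ K' ∧ μ (late θ K K') ≤ ENNReal.ofReal ε := by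
  have h1 : Tendsto (fun K' => μ (late θ K K')) atTop (𝓝 (μ (⋂ K', late θ K K'))) :=
    tendsto_measure_iInter_atTop (fun K' => (late_meas θ hθ K K').nullMeasurableSet)
      (late_anti θ K) ⟨0, measure_ne_top _ _⟩
  rw [late_inter, measure_empty] at h1
  have h2 : ∀ᶠ K' in atTop, μ (late θ K K') < ENNReal.ofReal ε :=
    h1.eventually_lt_const (ENNReal.ofReal_pos.2 hε)
  obtain ⟨K', h3, h4⟩ := (h2.and (eventually_ge_atTop K)).exists
  exact ⟨K', h4, h3.le⟩

end THR_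

open THR_ in
theorem p_THR : T_THR.{u} := by
  intro Ω _ μ _ θ hθ κ₀ δ hδ
  have hstep : ∀ (a K : ℕ), ∃ K', K ≤ K' ∧
      μ (late θ K K') ≤ ENNReal.ofReal (δ / 2 * (1 / 2) ^ a) := fun a K =>
    step μ θ hθ K _ (by positivity)
  choose F hF1 hF2 using hstep
  let κ : ℕ → ℕ := fun a => Nat.rec κ₀ (fun a K => F a K) a
  have hκ : ∀ a, κ (a + 1) = F a (κ a) := fun a => rfl
  refine ⟨κ, monotone_nat_of_le_succ fun a => by rw [hκ]; exact hF1 a _, rfl,
    (⋃ a, late θ (κ a) (κ (a + 1)))ᶜ, (MeasurableSet.iUnion fun a => late_meas θ hθ _ _).compl,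
    ?_, ?_⟩
  · rw [compl_compl]
    refine ENNReal.toReal_le_of_le_ofReal hδ.le ?_
    calc μ (⋃ a, late θ (κ a) (κ (a + 1))) ≤ ∑' a, μ (late θ (κ a) (κ (a + 1))) :=
          measure_iUnion_le _
      _ ≤ ∑' a, ENNReal.ofReal (δ / 2 * (1 / 2) ^ a) :=
          ENNReal.tsum_le_tsum fun a => by rw [hκ]; exact hF2 a _
      _ = ENNReal.ofReal (∑' a : ℕ, δ / 2 * (1 / 2) ^ a) :=
          (ENNReal.ofReal_tsum_of_nonneg (fun a => by positivity)
            (summable_geometric_two' δ |>.congr fun a => by rw [div_pow, one_pow]; ring)).symm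
      _ = ENNReal.ofReal δ := by
          congr 1
          rw [tsum_mul_left, tsum_geometric_two]
          ring
  · intro x hx a l l' j hj h1
    by_contra h2
    exact hx (Set.mem_iUnion.2 ⟨a, l, l', j, hj, h1, h2⟩)

end Pool.Agent.Ind3
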