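import Pool.Agent.Ind3.P_APX
import Pool.Agent.Ind3.P_COM
import Pool.Agent.Ind3.P_DCP
import Pool.Agent.Ind3.P_DE1
import Pool.Agent.Ind3.P_ERA
import Pool.Agent.Ind3.P_ERB
import Pool.Agent.Ind3.P_ERR
import Pool.Agent.Ind3.P_FIN
import Pool.Agent.Ind3.P_GTW
import Pool.Agent.Ind3.P_GVQ
import Pool.Agent.Ind3.P_KFL
import Pool.Agent.Ind3.P_LAU
import Pool.Agent.Ind3.P_LDR
import Pool.Agent.Ind3.P_LEV
import Pool.Agent.Ind3.P_LSU
import Pool.Agent.Ind3.P_MAI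
import Pool.Agent.Ind3.P_ORD
import Pool.Agent.Ind3.P_ORN
import Pool.Agent.Ind3.P_PIV
import Pool.Agent.Ind3.P_PTA
import Pool.Agent.Ind3.P_PTB
import Pool.Agent.Ind3.P_PTM
import Pool.Agent.Ind3.P_PWA
import Pool.Agent.Ind3.P_PWB
import Pool.Agent.Ind3.P_PWC
import Pool.Agent.Ind3.P_REP
import Pool.Agent.Ind3.P_SPE
import Pool.Agent.Ind3.P_SPL
import Pool.Agent.Ind3.P_TAI
import Pool.Agent.Ind3.P_THR
import Pool.Agent.Ind3.P_WBD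

set_option autoImplicit false

/-! The blocks of the project Ind3 put together. -/

namespace Pool.Agent.Ind3

universe u

theorem f_KFL : T_KFL := p_KFL
theorem f_LAU : T_LAU := p_LAU f_KFL
theorem f_TAI : T_TAI := p_TAI f_KFL
theorem f_PIV : T_PIV := p_PIV
theorem f_LEV : T_LEV := p_LEV
theorem f_DE1 : T_DE1 := p_DE1
theorem f_SPL : T_SPL := p_SPL f_DE1
theorem f_PTA : T_PTA := p_PTA f_SPL
theorem f_PTM : T_PTM := p_PTM f_PTA f_SPL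
theorem f_PTB : T_PTB := p_PTB f_SPL
theorem f_ORD : T_ORD := p_ORD
theorem f_PWA : T_PWA := p_PWA f_PTM f_LAU f_ORD
theorem f_PWB : T_PWB := p_PWB f_PTB f_LAU f_TAI f_LEV f_ORD
theorem f_PWC : T_PWC := p_PWC f_PTA f_LAU f_LEV f_ORD
theorem f_LDR : T_LDR := p_LDR
theorem f_REP : T_REP := p_REP f_LDR f_KFL
theorem f_WBD : T_WBD := p_WBD f_LAU f_REP f_LDR
theorem f_THR : T_THR.{u} := p_THR
theorem f_ORN : T_ORN.{u} := p_ORN
theorem f_SPE : T_SPE.{u} := p_SPE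
theorem f_DCP : T_DCP.{u} := p_DCP f_SPE
theorem f_COM : T_COM.{u} := p_COM f_DCP f_ORN
theorem f_APX : T_APX.{u} := p_APX
theorem f_LSU : T_LSU.{u} := p_LSU
theorem f_GVQ : T_GVQ.{u} := p_GVQ
theorem f_GTW : T_GTW.{u} := p_GTW f_REP f_ORD
theorem f_ERB : T_ERB.{u} := p_ERB f_PWA f_PWB f_LSU f_WBD
theorem f_ERA : T_ERA.{u} := p_ERA f_PWA f_PWC f_LSU f_APX f_WBD
theorem f_ERR : T_ERR.{u} := p_ERR f_ERA f_ERB f_WBD
theorem f_MAI : T_MAI.{u} := p_MAI f_PWA f_LSU f_WBD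
theorem f_FIN : T_FIN.{u} := p_FIN f_COM f_APX f_PIV f_THR f_ERR f_GVQ f_GTW f_MAI

end Pool.Agent.Ind3
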