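import Pool.Agent.Ind3.Targets

set_option autoImplicit false

/-!
# Ind3, target APX: pointwise almost periodicity
-/

open MeasureTheory Filter Topology Finset

namespace Pool.Agent.Ind3

open Pool.Agent.FSP

universe u

theorem p_APX : T_APX.{u} := by
  intro Ω _ μ _ Q hQ θ hθm hθi ε p hAP
  obtain ⟨q, hq, ρ, hρ, d, τ, hτ, hall⟩ := hAP
  -- a bound for the indices
  have hidx : ∃ K : ℕ, ∀ l : Fin d, (∃ j < K, τ l = θ j) ∨ τ l = fun _ => 1 := by
    have h1 : ∀ l : Fin d, ∃ k : ℕ, (∃ j < k, τ l = θ j) ∨ τ l = fun _ => 1 := by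
      intro l
      rcases hτ l with ⟨j, hj⟩ | h
      · exact ⟨j + 1, Or.inl ⟨j, Nat.lt_succ_self j, hj.symm⟩⟩
      · exact ⟨0, Or.inr h⟩
    choose k hk using h1
    refine ⟨univ.sup k, fun l => ?_⟩
    rcases hk l with ⟨j, hj, h⟩ | h
    · exact Or.inl ⟨j, lt_of_lt_of_le hj (Finset.le_sup (mem_univ l)), h⟩
    · exact Or.inr h
  obtain ⟨K, hK⟩ := hidx
  refine ⟨q, K, ρ, hq, hρ, ?_⟩
  have hinv : ∀ (j t : ℕ) (x : Ω), θ j (Q^[t] x) = θ j x := by
    intro j t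
    induction t with
    | zero => intro x; rfl
    | succ t ih => intro x; rw [Function.iterate_succ_apply, ih, hθi]
  have h2 : ∀ᵐ x ∂μ, ∀ t n : ℕ, Q^[t] x ∈ bohr τ ρ n →
      |p (Q^[q * n] (Q^[t] x)) - p (Q^[t] x)| ≤ ε := by
    rw [ae_all_iff]
    intro t
    rw [ae_all_iff]
    intro n
    exact (hQ.iterate t).quasiMeasurePreserving.ae (hall n)
  filter_upwards [h2] with x hx t h hb
  have h3 : Q^[t] x ∈ bohr τ ρ h := by
    intro l
    rcases hK l with ⟨j, hj, e⟩ | e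
    · rw [e]
      show ‖((θ j (Q^[t] x) : Circle) : ℂ) ^ h - 1‖ ≤ ρ
      rw [hinv]
      exact hb j hj
    · rw [e]
      simp [hρ.le]
  have h4 := hx t h h3
  rw [add_comm, Function.iterate_add_apply]
  exact h4

end Pool.Agent.Ind3
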