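import Pool.Agent.Ind3.Targets

set_option autoImplicit false

/-!
# Ind3, MAI: the main lower bound
-/

open MeasureTheory Filter Topology Finset

namespace Pool.Agent.Ind3

open Pool.Agent.FSP

universe u

/-- The index set of the triple mean. -/
def MAI_P (N : ℕ) : Finset (ℕ × ℕ × ℕ) := range N ×ˢ range N ×ˢ range N

/-- The triple of an index. -/
def MAI_y (N : ℕ) (p : ℕ × ℕ × ℕ) : Fin 3 → ℕ := ![N + p.1, 0 + p.2.1, 3 * N + p.2.2]

/-- The windows. -/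
def MAI_W (N : ℕ) (y : Fin 3 → ℕ) : Prop :=
  (N ≤ y 0 ∧ y 0 < 2 * N) ∧ y 1 < N ∧ (3 * N ≤ y 2 ∧ y 2 < 4 * N)

theorem MAI_mem {N : ℕ} {p : ℕ × ℕ × ℕ} (hp : p ∈ MAI_P N) : MAI_W N (MAI_y N p) := by
  simp only [MAI_P, Finset.mem_product, Finset.mem_range] at hp
  obtain ⟨h1, h2, h3⟩ := hp
  refine ⟨⟨?_, ?_⟩, ?_, ?_, ?_⟩
  · show N ≤ N + p.1
    omega
  · show N + p.1 < 2 * N
    omega
  · show 0 + p.2.1 < N
    omega
  · show 3 * N ≤ 3 * N + p.2.2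
    omega
  · show 3 * N + p.2.2 < 4 * N
    omega

theorem MAI_avg (N : ℕ) (F : (Fin 3 → ℕ) → ℝ) :
    avg3 N F = ∑ p ∈ MAI_P N, ((N : ℝ)⁻¹ * ((N : ℝ)⁻¹ * (N : ℝ)⁻¹)) * F (MAI_y N p) := by
  simp only [avg3, mean, MAI_P, MAI_y, Finset.sum_product, Finset.mul_sum]
  refine Finset.sum_congr rfl fun a _ => Finset.sum_congr rfl fun b _ =>
    Finset.sum_congr rfl fun c _ => ?_
  ring

theorem MAI_k (N : ℕ) : 0 ≤ (N : ℝ)⁻¹ * ((N : ℝ)⁻¹ * (N : ℝ)⁻¹) := by positivity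

theorem MAI_mono (N : ℕ) {F F' : (Fin 3 → ℕ) → ℝ} (h : ∀ y, MAI_W N y → F y ≤ F' y) :
    avg3 N F ≤ avg3 N F' := by
  rw [MAI_avg, MAI_avg]
  exact Finset.sum_le_sum fun p hp => mul_le_mul_of_nonneg_left (h _ (MAI_mem hp)) (MAI_k N)

theorem MAI_add (N : ℕ) (F F' : (Fin 3 → ℕ) → ℝ) :
    avg3 N (fun y => F y + F' y) = avg3 N F + avg3 N F' := by
  rw [MAI_avg, MAI_avg, MAI_avg, ← Finset.sum_add_distrib]
  exact Finset.sum_congr rfl fun p _ => by ring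

theorem MAI_mul (N : ℕ) (k : ℝ) (F : (Fin 3 → ℕ) → ℝ) :
    avg3 N (fun y => k * F y) = k * avg3 N F := by
  rw [MAI_avg, MAI_avg, Finset.mul_sum]
  exact Finset.sum_congr rfl fun p _ => by ring

theorem MAI_bd (N : ℕ) (F : (Fin 3 → ℕ) → ℝ) (K : ℝ) (hK : 0 ≤ K) (h : ∀ y, |F y| ≤ K) :
    |avg3 N F| ≤ K := by
  rw [MAI_avg]
  refine (Finset.abs_sum_le_sum_abs _ _).trans ?_
  have h1 : ∀ p ∈ MAI_P N, |((N : ℝ)⁻¹ * ((N : ℝ)⁻¹ * (N : ℝ)⁻¹)) * F (MAI_y N p)|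
      ≤ ((N : ℝ)⁻¹ * ((N : ℝ)⁻¹ * (N : ℝ)⁻¹)) * K := by
    intro p _
    rw [abs_mul, abs_of_nonneg (MAI_k N)]
    exact mul_le_mul_of_nonneg_left (h _) (MAI_k N)
  refine (Finset.sum_le_sum h1).trans ?_
  rw [Finset.sum_const]
  have h2 : (MAI_P N).card = N * (N * N) := by simp [MAI_P]
  rw [h2, nsmul_eq_mul]
  rcases Nat.eq_zero_or_pos N with h3 | h3
  · subst h3
    simpa using hK
  · have h4 : (N : ℝ) ≠ 0 := by
      have : (0 : ℝ) < N := by exact_mod_cast h3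
      exact this.ne'
    apply le_of_eq
    push_cast
    field_simp

theorem MAI_meas {Ω : Type u} [MeasurableSpace Ω] (N : ℕ) (h : (Fin 3 → ℕ) → Ω → ℝ)
    (hm : ∀ y, Measurable (h y)) : Measurable fun x => avg3 N (fun y => h y x) := by
  simp only [MAI_avg]
  exact Finset.measurable_fun_sum _ fun p _ => (hm _).const_mul _

theorem MAI_int {Ω : Type u} [MeasurableSpace Ω] (μ : Measure Ω) [IsFiniteMeasure μ] (N : ℕ)
    (h : (Fin 3 → ℕ) → Ω → ℝ) (hm : ∀ y, Measurable (h y)) (K : ℝ) (hK : 0 ≤ K)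
    (hb : ∀ y x, |h y x| ≤ K) : Integrable (fun x => avg3 N (fun y => h y x)) μ := by
  refine Integrable.of_bound (MAI_meas N h hm).aestronglyMeasurable K
    (ae_of_all _ fun x => ?_)
  rw [Real.norm_eq_abs]
  exact MAI_bd N _ K hK fun y => hb y x

theorem MAI_pt (γ C0 C1 C2 c0 c1 c2 : ℝ) (hγ : 0 < γ) (h0 : 0 ≤ C0) (h1 : 0 ≤ C1)
    (h2 : 0 ≤ C2) (k0 : γ ≤ c0) (k1 : γ ≤ c1) (k2 : γ ≤ c2) :
    (γ / 2) ^ 3 * (1 + (-(2 / γ)) * (|C0 - c0| + |C1 - c1| + |C2 - c2|)) ≤ C2 * C0 * C1 := by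
  have hk : 0 < (γ / 2) ^ 3 := by positivity
  have hr : 0 < 2 / γ := by positivity
  have e0 : 0 ≤ |C0 - c0| := abs_nonneg _
  have e1 : 0 ≤ |C1 - c1| := abs_nonneg _
  have e2 : 0 ≤ |C2 - c2| := abs_nonneg _
  have hp : 0 ≤ C2 * C0 * C1 := by positivity
  by_cases hs : γ / 2 ≤ |C0 - c0| + |C1 - c1| + |C2 - c2|
  · have h3 : 1 ≤ (2 / γ) * (|C0 - c0| + |C1 - c1| + |C2 - c2|) := by
      have h4 := mul_le_mul_of_nonneg_left hs hr.le
      have h5 : 2 / γ * (γ / 2) = 1 := by field_simp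
      linarith
    have h6 : 1 + (-(2 / γ)) * (|C0 - c0| + |C1 - c1| + |C2 - c2|) ≤ 0 := by linarith
    have h7 := mul_nonpos_of_nonneg_of_nonpos hk.le h6
    linarith
  · push Not at hs
    have l0 : γ / 2 ≤ C0 := by
      have := neg_abs_le (C0 - c0)
      linarith
    have l1 : γ / 2 ≤ C1 := by
      have := neg_abs_le (C1 - c1)
      linarith
    have l2 : γ / 2 ≤ C2 := by
      have := neg_abs_le (C2 - c2)
      linarith
    have hg : 0 ≤ γ / 2 := by positivity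
    have h3 : (γ / 2) * (γ / 2) ≤ C2 * C0 := mul_le_mul l2 l0 hg h2
    have h4 : (γ / 2) * (γ / 2) * (γ / 2) ≤ C2 * C0 * C1 :=
      mul_le_mul h3 l1 hg (by positivity)
    have h5 : 1 + (-(2 / γ)) * (|C0 - c0| + |C1 - c1| + |C2 - c2|) ≤ 1 := by
      have : 0 ≤ (2 / γ) * (|C0 - c0| + |C1 - c1| + |C2 - c2|) := by positivity
      linarith
    have h6 := mul_le_mul_of_nonneg_left h5 hk.le
    have h7 : (γ / 2) ^ 3 = (γ / 2) * (γ / 2) * (γ / 2) := by ring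
    linarith

theorem MAI_lin {Ω : Type u} [MeasurableSpace Ω] {ν : Measure Ω}
    {t2 t0 t1 w e0 e1 e2 : Ω → ℝ} (h2 : Integrable t2 ν) (h0 : Integrable t0 ν)
    (h1 : Integrable t1 ν) (hw : Integrable w ν) (k0 : Integrable e0 ν) (k1 : Integrable e1 ν)
    (k2 : Integrable e2 ν) (k r : ℝ) :
    ∫ x, (t2 x + t0 x + t1 x + k * (w x + r * (e0 x + e1 x + e2 x))) ∂ν
      = ∫ x, t2 x ∂ν + ∫ x, t0 x ∂ν + ∫ x, t1 x ∂ν
        + k * (∫ x, w x ∂ν + r * (∫ x, e0 x ∂ν + ∫ x, e1 x ∂ν + ∫ x, e2 x ∂ν)) := by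
  have a1 : Integrable (fun x => t2 x + t0 x) ν := h2.add h0
  have a2 : Integrable (fun x => t2 x + t0 x + t1 x) ν := a1.add h1
  have b1 : Integrable (fun x => e0 x + e1 x) ν := k0.add k1
  have b2 : Integrable (fun x => e0 x + e1 x + e2 x) ν := b1.add k2
  have b3 : Integrable (fun x => r * (e0 x + e1 x + e2 x)) ν := b2.const_mul r
  have b4 : Integrable (fun x => w x + r * (e0 x + e1 x + e2 x)) ν := hw.add b3
  have b5 : Integrable (fun x => k * (w x + r * (e0 x + e1 x + e2 x))) ν := b4.const_mul k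
  rw [integral_add a2 b5, integral_add a1 h1, integral_add h2 h0, integral_const_mul,
    integral_add hw b3, integral_const_mul, integral_add b1 k2, integral_add k0 k1]

theorem MAI_low {Ω : Type u} [MeasurableSpace Ω] (μ : Measure Ω) (X : Set Ω)
    (f : Ω → ℝ) (hf : Integrable f μ) (ε : ℝ) (h : ∫ x, |f x| ∂μ ≤ ε) :
    -ε ≤ ∫ x in X, f x ∂μ := by
  have h1 : |∫ x in X, f x ∂μ| ≤ ∫ x in X, |f x| ∂μ := abs_integral_le_integral_abs
  have h2 : ∫ x in X, |f x| ∂μ ≤ ∫ x, |f x| ∂μ :=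
    setIntegral_le_integral hf.abs (ae_of_all _ fun x => abs_nonneg _)
  have h3 := neg_abs_le (∫ x in X, f x ∂μ)
  linarith

theorem p_MAI : T_PWA → T_LSU.{u} → T_WBD → T_MAI.{u} := by
  intro hPWA hLSU hWBD Ω _ μ _ m n κ Pi hm hS θ hθ hInd Q hQ A X hA hX hXA c g hc hg hc0 hc1
    hg1 hcg γ η hγ hη hγc hXp hηX q _ hE hG2 hG0 hG1
  by_contra hcon
  push Not at hcon
  obtain ⟨hW0, hWm, -, -⟩ := hWBD m n κ Pi hm hS
  have hsv : Measurable (sv θ) := by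
    refine measurable_pi_lambda _ fun l => measurable_pi_lambda _ fun j => ?_
    exact hθ l j
  have hWm' : ∀ y, Measurable fun x => Wf m n κ Pi (sv θ x) y := fun y => (hWm y).comp hsv
  have hBB : 0 ≤ BB m (κ (n - 1)) := (hW0 (fun _ _ => 1) (fun _ => 0)).1.trans
    (hW0 (fun _ _ => 1) (fun _ => 0)).2
  have hWabs : ∀ x y, |Wf m n κ Pi (sv θ x) y| ≤ BB m (κ (n - 1)) := by
    intro x y
    rw [abs_of_nonneg (hW0 _ _).1]
    exact (hW0 _ _).2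
  have hone0 : ∀ x, 0 ≤ one A x := fun x => Set.indicator_nonneg (fun _ _ => zero_le_one) x
  have hone1 : ∀ x, one A x ≤ 1 := fun x => Set.indicator_le_self' (fun _ _ => zero_le_one) x
  have honem : Measurable (one A) := measurable_const.indicator hA
  have hQi : ∀ l k, Measurable ((Q l)^[k]) := fun l k => (hQ l).iterate k
  set δ : ℝ := μ.real X with hδ
  -- the small number
  have hk : 0 < (γ / 2) ^ 3 := by positivity
  obtain ⟨ε, hε, hε1, hε2⟩ : ∃ ε : ℝ, 0 < ε ∧ 30 * ε ≤ (γ / 2) ^ 3 * δ ∧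
      4 * (ε * (1 + 6 / γ)) ≤ δ := by
    refine ⟨min ((γ / 2) ^ 3 * δ / 30) (δ / (4 * (1 + 6 / γ))), ?_, ?_, ?_⟩
    · have h1 : 0 < (γ / 2) ^ 3 * δ / 30 := by positivity
      have h2 : 0 < δ / (4 * (1 + 6 / γ)) := by positivity
      exact lt_min h1 h2
    · have := min_le_left ((γ / 2) ^ 3 * δ / 30) (δ / (4 * (1 + 6 / γ)))
      linarith
    · have h1 := min_le_right ((γ / 2) ^ 3 * δ / 30) (δ / (4 * (1 + 6 / γ)))
      have h2 : 0 < 4 * (1 + 6 / γ) := by positivity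
      have h3 := mul_le_mul_of_nonneg_left h1 h2.le
      have h4 : 4 * (1 + 6 / γ) * (δ / (4 * (1 + 6 / γ))) = δ := by field_simp
      linarith
  -- the weights
  obtain ⟨NW, hNW⟩ := hLSU Ω μ (fun N x => -avg3 N (fun y => Wf m n κ Pi (sv θ x) y))
    (BB m (κ (n - 1))) (fun _ => (-1 : ℝ)) X
    (fun N => (MAI_meas N (fun y x => Wf m n κ Pi (sv θ x) y) hWm').neg)
    (fun N x => by
      rw [abs_neg]
      exact MAI_bd N _ _ hBB fun y => hWabs x y)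
    (integrable_const _) hX
    (by
      filter_upwards [hInd] with x hx _ ε' hε'
      obtain ⟨N₀, hN₀⟩ := hPWA m n κ Pi (sv θ x) hm hS hx ε' hε'
      refine ⟨N₀, fun N hN => ?_⟩
      have h1 := (abs_le.1 (hN₀ N hN).1).1
      have h2 : avg3 N (fun y => Wf m n κ Pi (sv θ x) y) = avg3 N (Wf m n κ Pi (sv θ x)) := rfl
      rw [h2]
      linarith) ε hε
  obtain ⟨N0, hN0⟩ := hE 0 ε hε
  obtain ⟨N1, hN1⟩ := hE 1 ε hε
  obtain ⟨N2, hN2⟩ := hE 2 ε hε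
  obtain ⟨H2, hH2, L2, hL2⟩ := hG2 ε hε
  obtain ⟨H0, hH0, L0, hL0⟩ := hG0 ε hε
  obtain ⟨H1, hH1, L1, hL1⟩ := hG1 ε hε
  obtain ⟨L, hL⟩ : ∃ L, L = NW + N0 + N1 + N2 + L2 + L0 + L1 + 1 := ⟨_, rfl⟩
  obtain ⟨N, hN⟩ : ∃ N, N = H2 * (H0 * H1 * L) := ⟨_, rfl⟩
  have hLpos : 0 < L := by omega
  have e1 : L ≤ H0 * H1 * L := Nat.le_mul_of_pos_left _ (Nat.mul_pos hH0 hH1)
  have e2 : L ≤ H2 * H1 * L := Nat.le_mul_of_pos_left _ (Nat.mul_pos hH2 hH1)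
  have e3 : L ≤ H2 * H0 * L := Nat.le_mul_of_pos_left _ (Nat.mul_pos hH2 hH0)
  have hLN : L ≤ N := by
    rw [hN]
    exact e1.trans (Nat.le_mul_of_pos_left _ hH2)
  have hN' : N = H0 * (H2 * H1 * L) := by rw [hN]; ring
  have hN'' : N = H1 * (H2 * H0 * L) := by rw [hN]; ring
  have hNpos : 1 ≤ N := by omega
  -- the three terms
  have hT2 := hL2 (H0 * H1 * L) (by omega)
    (fun a b x => one A ((Q 1)^[q * (b + a)] x)) (fun a b x => one A ((Q 0)^[q * (2 * a - b)] x))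
    (fun a b => honem.comp (hQi 1 _)) (fun a b => honem.comp (hQi 0 _))
    (fun a b x => abs_le.2 ⟨by linarith [hone0 ((Q 1)^[q * (b + a)] x)], hone1 _⟩)
    (fun a b x => abs_le.2 ⟨by linarith [hone0 ((Q 0)^[q * (2 * a - b)] x)], hone1 _⟩)
  have hT0 := hL0 (H2 * H1 * L) (by omega)
    (fun a b x => one A ((Q 1)^[q * (a + b)] x)) (fun a b x => c 2 ((Q 2)^[q * (2 * a + b)] x))
    (fun a b => honem.comp (hQi 1 _)) (fun a b => (hc 2).comp (hQi 2 _))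
    (fun a b x => abs_le.2 ⟨by linarith [hone0 ((Q 1)^[q * (a + b)] x)], hone1 _⟩)
    (fun a b x => abs_le.2 ⟨by linarith [hc0 2 ((Q 2)^[q * (2 * a + b)] x)], hc1 _ _⟩)
  have hT1 := hL1 (H2 * H0 * L) (by omega)
    (fun a b x => c 2 ((Q 2)^[q * (2 * b + a)] x)) (fun a b x => c 0 ((Q 0)^[q * (2 * b - a)] x))
    (fun a b => (hc 2).comp (hQi 2 _)) (fun a b => (hc 0).comp (hQi 0 _))
    (fun a b x => abs_le.2 ⟨by linarith [hc0 2 ((Q 2)^[q * (2 * b + a)] x)], hc1 _ _⟩)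
    (fun a b x => abs_le.2 ⟨by linarith [hc0 0 ((Q 0)^[q * (2 * b - a)] x)], hc1 _ _⟩)
  rw [← hN] at hT2
  rw [← hN'] at hT0
  rw [← hN''] at hT1
  -- integrability
  have hoa : ∀ x, |one A x| ≤ 1 := fun x => abs_le.2 ⟨by linarith [hone0 x], hone1 x⟩
  have hca : ∀ l x, |c l x| ≤ 1 := fun l x => abs_le.2 ⟨by linarith [hc0 l x], hc1 l x⟩
  have hprod : ∀ a b d : ℝ, |a| ≤ 1 → |b| ≤ 1 → |d| ≤ 1 → |a * b * d| ≤ 1 := by
    intro a b d ha hb hd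
    rw [abs_mul, abs_mul]
    have h1 : |a| * |b| ≤ 1 := mul_le_one₀ ha (abs_nonneg _) hb
    exact mul_le_one₀ h1 (abs_nonneg _) hd
  have hWp : ∀ x y (t : ℝ), |t| ≤ 1 →
      |Wf m n κ Pi (sv θ x) y * t| ≤ BB m (κ (n - 1)) := by
    intro x y t ht
    rw [abs_mul]
    calc |Wf m n κ Pi (sv θ x) y| * |t| ≤ BB m (κ (n - 1)) * 1 :=
          mul_le_mul (hWabs x y) ht (abs_nonneg _) hBB
      _ = _ := mul_one _
  have iT2 : Integrable (fun x => avg3 N fun y => Wf m n κ Pi (sv θ x) y *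
      (one A ((Q 1)^[q * (y 0 + y 2)] x) * one A ((Q 0)^[q * (2 * y 2 - y 1)] x) *
        g 2 ((Q 2)^[q * tm 2 y] x))) μ :=
    MAI_int μ N (fun y x => Wf m n κ Pi (sv θ x) y *
      (one A ((Q 1)^[q * (y 0 + y 2)] x) * one A ((Q 0)^[q * (2 * y 2 - y 1)] x) *
        g 2 ((Q 2)^[q * tm 2 y] x)))
      (fun y => (hWm' y).mul (((honem.comp (hQi 1 _)).mul (honem.comp (hQi 0 _))).mul
        ((hg 2).comp (hQi 2 _)))) _ hBB
      (fun y x => hWp x y _ (hprod _ _ _ (hoa _) (hoa _) (hg1 _ _)))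
  have iT0 : Integrable (fun x => avg3 N fun y => Wf m n κ Pi (sv θ x) y *
      (one A ((Q 1)^[q * (y 0 + y 2)] x) * c 2 ((Q 2)^[q * (2 * y 0 + y 1)] x) *
        g 0 ((Q 0)^[q * tm 0 y] x))) μ :=
    MAI_int μ N (fun y x => Wf m n κ Pi (sv θ x) y *
      (one A ((Q 1)^[q * (y 0 + y 2)] x) * c 2 ((Q 2)^[q * (2 * y 0 + y 1)] x) *
        g 0 ((Q 0)^[q * tm 0 y] x)))
      (fun y => (hWm' y).mul (((honem.comp (hQi 1 _)).mul ((hc 2).comp (hQi 2 _))).mul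
        ((hg 0).comp (hQi 0 _)))) _ hBB
      (fun y x => hWp x y _ (hprod _ _ _ (hoa _) (hca _ _) (hg1 _ _)))
  have iT1 : Integrable (fun x => avg3 N fun y => Wf m n κ Pi (sv θ x) y *
      (c 2 ((Q 2)^[q * (2 * y 0 + y 1)] x) * c 0 ((Q 0)^[q * (2 * y 2 - y 1)] x) *
        g 1 ((Q 1)^[q * tm 1 y] x))) μ :=
    MAI_int μ N (fun y x => Wf m n κ Pi (sv θ x) y *
      (c 2 ((Q 2)^[q * (2 * y 0 + y 1)] x) * c 0 ((Q 0)^[q * (2 * y 2 - y 1)] x) *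
        g 1 ((Q 1)^[q * tm 1 y] x)))
      (fun y => (hWm' y).mul ((((hc 2).comp (hQi 2 _)).mul ((hc 0).comp (hQi 0 _))).mul
        ((hg 1).comp (hQi 1 _)))) _ hBB
      (fun y x => hWp x y _ (hprod _ _ _ (hca _ _) (hca _ _) (hg1 _ _)))
  have iW : Integrable (fun x => avg3 N fun y => Wf m n κ Pi (sv θ x) y) μ :=
    MAI_int μ N (fun y x => Wf m n κ Pi (sv θ x) y) hWm' _ hBB (fun y x => hWabs x y)
  have iE : ∀ l, Integrable (fun x => avg3 N fun y => Wf m n κ Pi (sv θ x) y *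
      |c l ((Q l)^[q * tm l y] x) - c l x|) μ := by
    intro l
    refine MAI_int μ N (fun y x => Wf m n κ Pi (sv θ x) y *
      |c l ((Q l)^[q * tm l y] x) - c l x|) (fun y => (hWm' y).mul ?_) _ hBB
      (fun y x => hWp x y _ ?_)
    · exact (((hc l).comp (hQi l _)).sub (hc l)).abs
    · rw [abs_abs]
      refine abs_le.2 ⟨?_, ?_⟩
      · linarith [hc0 l ((Q l)^[q * tm l y] x), hc1 l x]
      · linarith [hc1 l ((Q l)^[q * tm l y] x), hc0 l x]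
  have l2 := MAI_low μ X _ iT2 ε hT2
  have l0 := MAI_low μ X _ iT0 ε hT0
  have l1 := MAI_low μ X _ iT1 ε hT1
  have lW := hNW N (by omega)
  rw [integral_neg, setIntegral_const, smul_eq_mul] at lW
  have u0 := hN0 N (by omega)
  have u1 := hN1 N (by omega)
  have u2 := hN2 N (by omega)
  -- the pointwise inequality
  have hae : ∀ᵐ x ∂μ, ∀ y : Fin 3 → ℕ, MAI_W N y →
      ¬ (x ∈ A ∧ ∀ l, (Q l)^[q * tm l y] x ∈ A) := by
    rw [ae_all_iff]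
    intro y
    by_cases hy : MAI_W N y
    · have h1 := hcon N hNpos y hy.1 hy.2.1 hy.2.2
      have h2 : ∀ᵐ x ∂μ, x ∉ A ∩ {x | ∀ l, (Q l)^[q * tm l y] x ∈ A} :=
        measure_eq_zero_iff_ae_notMem.1 h1
      filter_upwards [h2] with x hx _ hx2
      exact hx ⟨hx2.1, hx2.2⟩
    · exact ae_of_all _ fun x h => absurd h hy
  have hpw : ∀ᵐ x ∂(μ.restrict X),
      (avg3 N fun y => Wf m n κ Pi (sv θ x) y *
        (one A ((Q 1)^[q * (y 0 + y 2)] x) * one A ((Q 0)^[q * (2 * y 2 - y 1)] x) *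
          g 2 ((Q 2)^[q * tm 2 y] x))) +
      (avg3 N fun y => Wf m n κ Pi (sv θ x) y *
        (one A ((Q 1)^[q * (y 0 + y 2)] x) * c 2 ((Q 2)^[q * (2 * y 0 + y 1)] x) *
          g 0 ((Q 0)^[q * tm 0 y] x))) +
      (avg3 N fun y => Wf m n κ Pi (sv θ x) y *
        (c 2 ((Q 2)^[q * (2 * y 0 + y 1)] x) * c 0 ((Q 0)^[q * (2 * y 2 - y 1)] x) *
          g 1 ((Q 1)^[q * tm 1 y] x))) +
      (γ / 2) ^ 3 * ((avg3 N fun y => Wf m n κ Pi (sv θ x) y) + (-(2 / γ)) *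
        ((avg3 N fun y => Wf m n κ Pi (sv θ x) y * |c 0 ((Q 0)^[q * tm 0 y] x) - c 0 x|) +
        (avg3 N fun y => Wf m n κ Pi (sv θ x) y * |c 1 ((Q 1)^[q * tm 1 y] x) - c 1 x|) +
        (avg3 N fun y => Wf m n κ Pi (sv θ x) y * |c 2 ((Q 2)^[q * tm 2 y] x) - c 2 x|))) ≤ 0 := by
    filter_upwards [ae_restrict_of_ae hae, ae_restrict_mem hX] with x hx hxX
    rw [← MAI_add, ← MAI_add, ← MAI_add, ← MAI_add, ← MAI_mul, ← MAI_add, ← MAI_mul, ← MAI_add]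
    have hz : avg3 N (fun _ => (0 : ℝ)) = 0 := by
      rw [MAI_avg]
      simp
    rw [← hz]
    refine MAI_mono N fun y hy => ?_
    have t0 : tm 0 y = 2 * y 2 - y 1 := rfl
    have t1 : tm 1 y = y 0 + y 2 := rfl
    have t2 : tm 2 y = 2 * y 0 + y 1 := rfl
    have hxy := hx y hy
    rw [← t0, ← t1, ← t2]
    have f0 := hcg 0 ((Q 0)^[q * tm 0 y] x)
    have f1 := hcg 1 ((Q 1)^[q * tm 1 y] x)
    have f2 := hcg 2 ((Q 2)^[q * tm 2 y] x)
    have hzero : one A ((Q 2)^[q * tm 2 y] x) * one A ((Q 0)^[q * tm 0 y] x) *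
        one A ((Q 1)^[q * tm 1 y] x) = 0 := by
      by_contra hne
      apply hxy
      refine ⟨hXA hxX, ?_⟩
      have g1 : one A ((Q 1)^[q * tm 1 y] x) ≠ 0 := right_ne_zero_of_mul hne
      have g3 := left_ne_zero_of_mul hne
      have g0 : one A ((Q 0)^[q * tm 0 y] x) ≠ 0 := right_ne_zero_of_mul g3
      have g2 : one A ((Q 2)^[q * tm 2 y] x) ≠ 0 := left_ne_zero_of_mul g3
      have hmem : ∀ z, one A z ≠ 0 → z ∈ A := by
        intro z hz'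
        by_contra hz2
        exact hz' (Set.indicator_of_notMem hz2 _)
      intro l
      fin_cases l
      · exact hmem _ g0
      · exact hmem _ g1
      · exact hmem _ g2
    have hpt := MAI_pt γ (c 0 ((Q 0)^[q * tm 0 y] x)) (c 1 ((Q 1)^[q * tm 1 y] x))
      (c 2 ((Q 2)^[q * tm 2 y] x)) (c 0 x) (c 1 x) (c 2 x) hγ (hc0 _ _) (hc0 _ _) (hc0 _ _)
      (hγc x hxX 0) (hγc x hxX 1) (hγc x hxX 2)
    have hw := (hW0 (sv θ x) y).1
    generalize Wf m n κ Pi (sv θ x) y = w at hw ⊢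
    generalize c 0 ((Q 0)^[q * tm 0 y] x) = C0 at *
    generalize c 1 ((Q 1)^[q * tm 1 y] x) = C1 at *
    generalize c 2 ((Q 2)^[q * tm 2 y] x) = C2 at *
    generalize g 0 ((Q 0)^[q * tm 0 y] x) = G0 at *
    generalize g 1 ((Q 1)^[q * tm 1 y] x) = G1 at *
    generalize g 2 ((Q 2)^[q * tm 2 y] x) = G2 at *
    rw [f0, f1, f2] at hzero
    rw [f0, f1]
    have h1 := mul_le_mul_of_nonneg_left hpt hw
    have h2 : w * ((C2 + G2) * (C0 + G0) * (C1 + G1)) = 0 := by rw [hzero, mul_zero]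
    nlinarith [h1, h2]
  have hfin : ∫ x in X, ((avg3 N fun y => Wf m n κ Pi (sv θ x) y *
        (one A ((Q 1)^[q * (y 0 + y 2)] x) * one A ((Q 0)^[q * (2 * y 2 - y 1)] x) *
          g 2 ((Q 2)^[q * tm 2 y] x))) +
      (avg3 N fun y => Wf m n κ Pi (sv θ x) y *
        (one A ((Q 1)^[q * (y 0 + y 2)] x) * c 2 ((Q 2)^[q * (2 * y 0 + y 1)] x) *
          g 0 ((Q 0)^[q * tm 0 y] x))) +
      (avg3 N fun y => Wf m n κ Pi (sv θ x) y *
        (c 2 ((Q 2)^[q * (2 * y 0 + y 1)] x) * c 0 ((Q 0)^[q * (2 * y 2 - y 1)] x) *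
          g 1 ((Q 1)^[q * tm 1 y] x))) +
      (γ / 2) ^ 3 * ((avg3 N fun y => Wf m n κ Pi (sv θ x) y) + (-(2 / γ)) *
        ((avg3 N fun y => Wf m n κ Pi (sv θ x) y * |c 0 ((Q 0)^[q * tm 0 y] x) - c 0 x|) +
        (avg3 N fun y => Wf m n κ Pi (sv θ x) y * |c 1 ((Q 1)^[q * tm 1 y] x) - c 1 x|) +
        (avg3 N fun y => Wf m n κ Pi (sv θ x) y *
          |c 2 ((Q 2)^[q * tm 2 y] x) - c 2 x|)))) ∂μ ≤ 0 := integral_nonpos_of_ae hpw
  rw [MAI_lin iT2.restrict iT0.restrict iT1.restrict iW.restrict (iE 0).restrict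
    (iE 1).restrict (iE 2).restrict] at hfin
  have hr : 0 < 2 / γ := by positivity
  have v1 : (2 / γ) * (12 * η) ≤ δ / 2 := by
    have h1 := mul_le_mul_of_nonneg_left hηX hr.le
    have h2 : 2 / γ * (γ * δ) = 2 * δ := by field_simp
    linarith
  have v2 := mul_le_mul_of_nonneg_left (add_le_add (add_le_add u0 u1) u2) hr.le
  have v3 : ε * (1 + 6 / γ) = ε + (2 / γ) * (3 * ε) := by
    field_simp
    ring
  have v4 : (2 / γ) * (4 * η + ε + (4 * η + ε) + (4 * η + ε))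
      = (2 / γ) * (12 * η) + (2 / γ) * (3 * ε) := by ring
  rw [v4] at v2
  have v5 : δ / 4 ≤ (∫ x in X, (avg3 N fun y => Wf m n κ Pi (sv θ x) y) ∂μ) + (-(2 / γ)) *
      ((∫ x in X, (avg3 N fun y => Wf m n κ Pi (sv θ x) y *
        |c 0 ((Q 0)^[q * tm 0 y] x) - c 0 x|) ∂μ) +
      (∫ x in X, (avg3 N fun y => Wf m n κ Pi (sv θ x) y *
        |c 1 ((Q 1)^[q * tm 1 y] x) - c 1 x|) ∂μ) +
      (∫ x in X, (avg3 N fun y => Wf m n κ Pi (sv θ x) y *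
        |c 2 ((Q 2)^[q * tm 2 y] x) - c 2 x|) ∂μ)) := by
    linarith
  have v6 := mul_le_mul_of_nonneg_left v5 hk.le
  have v7 : 0 < (γ / 2) ^ 3 * δ := by positivity
  linarith

end Pool.Agent.Ind3
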