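import Pool.Agent.Ind3.Defs

set_option autoImplicit false

/-!
# Ind3 targets (MP_cfac66_an, Theorem IND). Every target has its proof in the docstring.
Facts of the project FSP are available (`Pool.Agent.FSP.p_KKB : T_KKB` etc., `f_RWM`, `f_NWB`..).
-/

open MeasureTheory Filter Topology Finset

namespace Pool.Agent.Ind3

open Pool.Agent.FSP

universe u

/-! ## A. Kernels and levels (no measure) -/

/-- KFL. Laurent expansion of one factor, bounds, and the mean over the roots of unity. PROOF.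
`kk m w = m⁻¹ ∑_{a,b<m} w^(a-b)` (`‖z‖^2 = z * conj z`, `conj z = z⁻¹`, see FSP.p_EXP); collect the
terms with `a - b = n`: coefficient ` (m - |n|)/m`, times ` (rt m t ^ ex i)^n`. Mean over `t`:
`∑_t (rt m t)^(e k) = 0` if `e k` is not a multiple of `2 m` (geometric sum; `rt m t = (rt m 1)^t`,
` (rt m 1)^(2m) = 1`, ` (rt m 1)^k ≠ 1` for `2m ∤ k`); here `k = a - b`, `|ex i * k| < 2 m`, so only
`a = b` survives. Bounds from FSP.p_KKB. -/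
def T_KFL : Prop := ∀ (m : ℕ), 1 ≤ m → ∀ i : Fin 3,
  (∀ t, Lau m 1 (kf m i t) 1) ∧ (∀ t w, 0 ≤ kf m i t w ∧ kf m i t w ≤ m) ∧
  ∀ w, (2 * m : ℝ)⁻¹ * ∑ t ∈ range (2 * m), kf m i t w = 1

/-- LAU. PROOF. (1) In the variable `w l` the term of type `τ` is a constant times `kf m l t (w l)`
if `act τ l`, else a constant. Types `0` and `l + 1` together: `0` has the factor and the constant
`∏_{i ≠ l} kf`, its constant coefficient after the mean over `t` is `p 0 * kap`; type `l + 1` gives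
`p (l+1) * kap` (no dependence); the other two role types contain `kf m l` and exactly one other
factor, whose mean over `t` is `1` (KFL): constant coefficient `p τ`; type `4`: `p 4`. Use
`∑ p = 1`. Coefficients are bounded by `m^2` (two other factors, each `≤ m`, `|c n| ≤ 1`). (2) In
the variable `w i`, `i ≠ l`, `kap` contains `kf m i t (w i)` times one other factor: constant
coefficient `1` by KFL. (3) from `0 ≤ kf ≤ m`, `1 ≤ m`. -/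
def T_LAU : Prop := ∀ (m : ℕ), 1 ≤ m →
  (∀ p : Fin 5 → ℝ, (∀ τ, 0 ≤ p τ) → ∑ τ, p τ = 1 → ∀ (l : Fin 3) (w : Fin 3 → Circle),
    Lau m ((m : ℝ) ^ 2) (fun z => DD m p (Function.update w l z))
      (nu p l * kap m l w + (1 - nu p l)) ∧ 0 ≤ DD m p w ∧ DD m p w ≤ (m : ℝ) ^ 3 ∧
      0 ≤ nu p l ∧ nu p l ≤ 1) ∧
  ∀ (l : Fin 3) (w : Fin 3 → Circle), 0 ≤ kap m l w ∧ kap m l w ≤ (m : ℝ) ^ 2 ∧
    (∀ z, kap m l (Function.update w l z) = kap m l w) ∧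
    ∀ (ν : ℝ), 0 ≤ ν → ν ≤ 1 → ∀ i, i ≠ l →
      Lau m ((m : ℝ) ^ 2) (fun z => ν * kap m l (Function.update w i z) + (1 - ν)) 1

/-- TAI. The kernel of role `l` is small off the Bohr set. PROOF. With `ζ = rt m t`:
`cmb 2 w = (w 0 ζ⁻¹)^2 (w 1 ζ^2)`, `cmb 0 w = (w 2 ζ)^2 (w 1 ζ^2)⁻¹`, `cmb 1 w = (w 0 ζ⁻¹)(w 2 ζ)`.
If both factors `u, u'` are within `ρ/3` of `1` then `cmb` is within `ρ`. So one of them is not and
its Fejer kernel is at most `4/(m (ρ/3)^2) = 36/(m ρ^2)` (FSP.p_KKB); so the product of the two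
kernels is at most `36/(m ρ^2)` times their sum, and the mean over `t` of each is `1` (KFL). -/
def T_TAI : Prop := ∀ (m : ℕ), 1 ≤ m → ∀ (l : Fin 3) (w : Fin 3 → Circle) (ρ : ℝ), 0 < ρ →
  ρ < ‖(cmb l w : ℂ) - 1‖ → kap m l w ≤ 72 / (m * ρ ^ 2)

/-- PIV. The probability vectors exist. PROOF. `e l = ee n (a l)`. If `a` does not satisfy the
hypothesis of `Spec`: type `4` has probability one. Otherwise: all three `a l < n`: `σ = ∑ e l`,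
`Pi 0 = 1 - σ/2`, `Pi (l+1) = σ/2 - e l`, `Pi 4 = 0`; the `a l` differ by at most one, so the `e l`
are in `{ε, 2ε}`, `2 ε ≤ 1/2` or all are `1/2`: everything is `≥ 0`. Exactly one `a l = n`, others
`i, j`: `Pi 0 = 1 - e i - e j`, `Pi (i+1) = e j`, `Pi (j+1) = e i`, rest `0` (`nu l = 1 - e i - e j`
vanishes if both `a i, a j` are `n - 1`). Exactly one `a l < n`: `Pi (l+1) = 1 - e l`,
`Pi 4 = e l`. None: `Pi 4 = 1`. -/
def T_PIV : Prop := ∀ n : ℕ, ∃ Pi : (Fin 3 → ℕ) → Fin 5 → ℝ, Spec n Pi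

/-- LEV. Facts on levels. PROOF. `κ` is monotone, so the set `{a < n | ∀ j < κ a, s j ≠ z}` is an
initial segment of `ℕ` and `lev` is its length, i.e. the least `a < n` with `z ∈ {s j | j < κ a}`,
or `n`. (iii): `a = lev (s l) z ≤ n - 2`, so `z = s l j` with `j < κ a`; `Good` gives `i < κ (a+1)`
with `s l' i = z`. -/
def T_LEV : Prop := ∀ (κ : ℕ → ℕ) (n : ℕ) (s : Fin 3 → ℕ → Circle), Monotone κ → 1 ≤ n →
  (∀ l z, lev κ n (s l) z ≤ n) ∧ (∀ l z, lev κ n (s l) z < n ↔ ∃ j < κ (n - 1), s l j = z) ∧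
  (∀ l, ∀ j < κ 0, lev κ n (s l) (s l j) = 0) ∧
  (Good κ s → ∀ l l' z, lev κ n (s l) z + 2 ≤ n → (∃ i, s l' i = z) →
    lev κ n (s l') z ≤ lev κ n (s l) z + 1)

/-! ## B. Averages at one point (no measure) -/

/-- DE1. A character `χ` with `χ^q` outside the group of the frequencies averages to `0` against an
almost periodic sequence. PROOF. Weights `ω h ≥ 0` on `ℕ`: products of Fejer kernels of the `z ∈
τ`, normalised (`nw 1 M` of FSP for constant functions on `Ω = Unit`, `μ = dirac`; f_NWA, f_NWB,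
f_NWC with `M` large): for `H` large `A = (1/H) ∑_{h<H} ω h` is near `1`, ` (1/H) ∑_{h<H} ω h 1{∃
z ∈ τ, ‖z^h - 1‖ > ρ}` is small, and ` (1/H) ∑_{h<H} ω h χ^(q h)` is small (expansion FSP.p_EXP:
a combination of ` (c χ^q)^h`, `c` in the group generated by `τ`, so `c χ^q ≠ 1`, geometric sums;
only finitely many `c`). Fix `H`. For every `h < H` the average of `χ^y φ y` over `[s, s+N)`
differs from that of `χ^(y+q h) φ (y + q h)` by `≤ 2 q H / N`. Average over `h` with weight `ω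
h`: for fixed `y ≥ s`, `|(1/H) ∑ ω h χ^(q h) φ (y + q h)| ≤ |(1/H) ∑ ω h χ^(q h)| + (1/H) ∑ ω h
|φ (y+q h) - φ y|`, and the last is `≤ A ε' + 2 * small`. Divide by `A`. (Note `‖..‖ ≤ 1` always,
so `ε' ≤ 1` may be assumed.) -/
def T_DE1 : Prop := ∀ (χ : Circle) (q : ℕ) (ρ : ℝ) (τ : Finset Circle), 1 ≤ q → 0 < ρ →
  χ ^ q ∉ Subgroup.closure (↑τ : Set Circle) → ∀ ε : ℝ, 0 < ε → ∃ N₀ : ℕ, ∀ N ≥ N₀, ∀ s : ℕ,
  ∀ (φ : ℕ → ℝ) (ε' : ℝ), 0 ≤ ε' → PP q ρ τ ε' s φ →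
    ‖(N : ℂ)⁻¹ * ∑ n ∈ range N, (χ : ℂ) ^ (s + n) * ((φ (s + n) : ℝ) : ℂ)‖ ≤ ε' + ε

open Classical in
/-- SPL. Splitting off the coordinates `z ∈ E`, which are independent of the frequencies of `φ`.
PROOF. Induction on `E` (or telescoping): for `z ∈ E` write `G z (z^y) = c0 z + ∑_{n ≠ 0} c n
z^(n y)`. The product over the other `z'` is a finite combination of characters `χ'^y`, `χ'` in
the group generated by `Z \ {z}` (`Finset.prod_univ_sum` / `Finset.prod_sum`), with sum of the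
coefficients `≤ ((2m+1) C)^(card)` and with a FINITE set of characters which does not depend on
`G`, `φ`, `N`; ` (z^n χ')^q`, `n ≠ 0`, is not in the group generated by `τ`, since `z ∉ τ` and
`S` is independent. So DE1 applies (maximum of finitely many `N₀`). The coefficients `|c0 z| ≤
C`. -/
def T_SPL : Prop := ∀ (S : Set Circle), Ind S → ∀ (m : ℕ) (C : ℝ), 1 ≤ C →
  ∀ (Z E τ : Finset Circle), (↑Z : Set Circle) ⊆ S → E ⊆ Z → (↑τ : Set Circle) ⊆ S →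
  Disjoint E τ → ∀ (q : ℕ) (ρ : ℝ), 1 ≤ q → 0 < ρ → ∀ ε : ℝ, 0 < ε → ∃ N₀ : ℕ, ∀ N ≥ N₀, ∀ s : ℕ,
  ∀ (φ : ℕ → ℝ) (ε' : ℝ), 0 ≤ ε' → PP q ρ τ ε' s φ →
  ∀ (G : Circle → Circle → ℝ) (c0 : Circle → ℝ), (∀ z ∈ Z, Lau m C (G z) (c0 z)) →
    |mean N s (fun y => (∏ z ∈ Z, G z (z ^ y)) * φ y)
      - (∏ z ∈ E, c0 z) * mean N s (fun y => (∏ z ∈ Z \ E, G z (z ^ y)) * φ y)|
      ≤ Z.card * ((2 * m + 1) * C) ^ Z.card * (ε' + ε)

open Classical in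
/-- PTA. Triple averages. PROOF. SPL twice. First in the variable `c` for fixed `a, b` in the
windows, with `E = Z`, `τ = ∅`, `φ = 1` (`ε' = 0`, `Φ a b` is a constant of modulus `≤ 1` for this
mean), error `≤ (ε/2) * ..`; then in the variable `b`, `φ = Φ a`, with `E`, constant coefficients
`1`. For `N = 0` all is `0`. -/
def T_PTA : Prop := ∀ (S : Set Circle), Ind S → ∀ (m : ℕ) (C : ℝ), 1 ≤ C →
  ∀ (Z E τ : Finset Circle), (↑Z : Set Circle) ⊆ S → E ⊆ Z → (↑τ : Set Circle) ⊆ S →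
  Disjoint E τ → ∀ (q : ℕ) (ρ : ℝ), 1 ≤ q → 0 < ρ → ∀ ε : ℝ, 0 < ε → ∃ N₀ : ℕ, ∀ N ≥ N₀,
  ∀ sa sb sc : ℕ, ∀ (Φ : ℕ → ℕ → ℝ) (ε' : ℝ), 0 ≤ ε' →
  (∀ a, sa ≤ a → a < sa + N → PP q ρ τ ε' sb (Φ a)) →
  ∀ (K : Circle → Circle → Circle → Circle → ℝ) (K' : Circle → Circle → Circle → ℝ),
  (∀ z ∈ Z, ∀ wa wb, Lau m C (K z wa wb) (K' z wa wb)) → (∀ z ∈ Z, ∀ wa, Lau m C (K' z wa) 1) →
    |mean N sa (fun a => mean N sb fun b => mean N sc fun c =>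
        (∏ z ∈ Z, K z (z ^ a) (z ^ b) (z ^ c)) * Φ a b)
      - mean N sa (fun a => mean N sb fun b => (∏ z ∈ Z \ E, K' z (z ^ a) (z ^ b)) * Φ a b)|
      ≤ Z.card * ((2 * m + 1) * C) ^ Z.card * (ε' + ε)

/-- PTM. Total means. PROOF. PTA with `E = Z`, `τ = ∅`, `Φ = 1`, `ε' = 0` and `ε` small against the
constant; the mean of the constant `1` is `1` for `N > 0`. Second part: SPL in the variable `b`
with `E = Z`, `φ = 1`. -/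
def T_PTM : Prop := ∀ (S : Set Circle), Ind S → ∀ (m : ℕ) (C : ℝ), 1 ≤ C →
  ∀ (Z : Finset Circle), (↑Z : Set Circle) ⊆ S → ∀ ε : ℝ, 0 < ε → ∃ N₀ : ℕ, ∀ N ≥ N₀,
  ∀ sa sb sc : ℕ,
  ∀ (K : Circle → Circle → Circle → Circle → ℝ) (K' : Circle → Circle → Circle → ℝ),
  (∀ z ∈ Z, ∀ wa, Lau m C (K' z wa) 1) →
    |mean N sa (fun a => mean N sb fun b => ∏ z ∈ Z, K' z (z ^ a) (z ^ b)) - 1| ≤ ε ∧
    ((∀ z ∈ Z, ∀ wa wb, Lau m C (K z wa wb) (K' z wa wb)) →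
      |mean N sa (fun a => mean N sb fun b => mean N sc fun c =>
        ∏ z ∈ Z, K z (z ^ a) (z ^ b) (z ^ c)) - 1| ≤ ε)

/-- PTB. The weight of the bad pairs ` (a, b)`. PROOF. SPL in the variable `c` (`E = Z`, `φ = 1`,
uniformly in `a, b`): the inner mean is at most `∏_{z ∈ Z} K' z + ε/2`; on bad pairs
`K' z₀ ≤ η'`, so the total is at most `η' mean_a mean_b ∏_{z ∈ Z \ {z₀}} K' z + ε/2`, and the last
double mean tends to `1` (SPL in `b`; the product is `≥ 0`, which is used to drop the indicator). -/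
def T_PTB : Prop := ∀ (S : Set Circle), Ind S → ∀ (m : ℕ) (C : ℝ), 1 ≤ C →
  ∀ (Z : Finset Circle), (↑Z : Set Circle) ⊆ S → ∀ z₀ ∈ Z, ∀ η' : ℝ, 0 ≤ η' →
  ∀ ε : ℝ, 0 < ε → ∃ N₀ : ℕ, ∀ N ≥ N₀, ∀ sa sb sc : ℕ,
  ∀ (K : Circle → Circle → Circle → Circle → ℝ) (K' : Circle → Circle → Circle → ℝ)
    (bad : ℕ → ℕ → ℝ),
  (∀ z ∈ Z, ∀ wa wb, Lau m C (K z wa wb) (K' z wa wb)) → (∀ z ∈ Z, ∀ wa, Lau m C (K' z wa) 1) →
  (∀ z ∈ Z, ∀ wa wb, 0 ≤ K' z wa wb) →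
  (∀ a b, bad a b = 0 ∨ bad a b = 1) →
  (∀ a b, sa ≤ a → a < sa + N → sb ≤ b → b < sb + N → bad a b = 1 →
    K' z₀ (z₀ ^ a) (z₀ ^ b) ≤ η') →
    mean N sa (fun a => mean N sb fun b => mean N sc fun c =>
      (∏ z ∈ Z, K z (z ^ a) (z ^ b) (z ^ c)) * bad a b) ≤ η' + ε

/-- ORD. The order of the three means. PROOF. `Finset.sum_comm`, `Finset.mul_sum`; six cases
(`fin_cases`), the vector equals `![a, b, c]` up to a permutation of the names. -/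
def T_ORD : Prop := ∀ (N : ℕ) (F : (Fin 3 → ℕ) → ℝ) (i j l : Fin 3), i ≠ j → i ≠ l → j ≠ l →
  avg3 N F = mean N (off i * N) fun a => mean N (off j * N) fun b => mean N (off l * N) fun c =>
    F fun r => if r = i then a else if r = j then b else c

/-- PWA. PROOF. PTM with `S = {z | z ≠ 1 ∧ ∃ l j, s l j = z}`, `C = m^2`. For `Wf`: `Z = Zs`,
order ` (a,b,c) = (y 0, y 1, y 2)` (the definition of avg3), `K z wa wb wc = DD m (..) ![wa,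
wb, wc]`, `K' z wa wb = nu * kap m 2 ![wa, wb, 1] + (1 - nu)` (LAU, `![wa, wb, wc]` is `update
![wa, wb, 1] 2 wc` resp. `update ![wa, 1, 1] 1 wb`). For `Wl`: `Z = Zl`, ORD with the last
variable `y l` (the inner mean is the mean of a constant as `Wl` does not depend on `y l`),
first part of PTM, `ν = 1 - ee n _ ∈ [0,1]`. -/
def T_PWA : Prop := ∀ (m n : ℕ) (κ : ℕ → ℕ) (Pi : (Fin 3 → ℕ) → Fin 5 → ℝ)
  (s : Fin 3 → ℕ → Circle), 1 ≤ m → Spec n Pi → IndAt s → ∀ ε : ℝ, 0 < ε → ∃ N₀ : ℕ, ∀ N ≥ N₀,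
    |avg3 N (Wf m n κ Pi s) - 1| ≤ ε ∧ ∀ l, |avg3 N (Wl m n κ l (s l)) - 1| ≤ ε

/-- PWB. The weight off the Bohr set, for the first `κ 0` places. PROOF. Let `z₀ = s l j`. If
`z₀ = 1` the indicator is `0`. Otherwise `z₀ ∈ Zs (κ (n-1)) s` (`κ 0 ≤ κ (n-1)`), its level in list
`l` is `0` (LEV), so `nu = 1 - (1/2)^n` (`Spec`; the hypothesis of `Spec` for the levels of `z₀`
is LEV (iii), (ii), (i)). PTB with ORD, last variable `y l`, `K' z = nu * kap m l _ + (1 - nu)`; if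
`ρ < ‖z₀^(tm l y) - 1‖`, in the windows `z₀^(tm l y) = cmb l (z₀^y)` (`y 1 ≤ 2 y 2`), so by TAI
`K' z₀ ≤ 72/(m ρ^2) + (1/2)^n`. -/
def T_PWB : Prop := ∀ (m n : ℕ) (κ : ℕ → ℕ) (Pi : (Fin 3 → ℕ) → Fin 5 → ℝ)
  (s : Fin 3 → ℕ → Circle), 1 ≤ m → 1 ≤ n → Monotone κ → Spec n Pi → Good κ s → IndAt s →
  ∀ (l : Fin 3) (j : ℕ), j < κ 0 → ∀ ρ : ℝ, 0 < ρ → ∀ ε : ℝ, 0 < ε → ∃ N₀ : ℕ, ∀ N ≥ N₀,
    avg3 N (fun y => Wf m n κ Pi s y * (if ρ < ‖(s l j : ℂ) ^ tm l y - 1‖ then 1 else 0))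
      ≤ 72 / (m * ρ ^ 2) + (1 / 2 : ℝ) ^ n + ε

/-- PWC. Comparison of the weight with the weight of role `l`. PROOF. `Z = Zs (κ (n-1)) s`,
`Z₀ = Zl (κ (n-1)) (s l) ⊆ Z`, `E = {z ∈ Z | z ∉ Z₀ ∧ nu (Pi (levels of z)) l ≠ 0}`. For `z ∈ E` the
level of `z` in list `l` is `n` (LEV (ii)), so by `Spec` some `l'` has level `≤ n - 2`, and by LEV
(iii) `z` does not occur in the list `s l` at all; so `E` is disjoint from `τ`. For `z ∈ Z₀`: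
`nu = 1 - ee n (lev z)`; for `z ∈ Z \ E \ Z₀`: `nu = 0` and the factor `K' z` is `1`. So
`∏_{Z \ E} K' z = Wl`. PTA with ORD (last variable `y l`), `C = m^2`, `Φ = φ (tm l y)`; in the
middle variable `b = y i` the time `tm l y` has step `1` or `2`: `l = 2`: a = `y 0`, b = `y 1`;
`l = 1`: a = `y 0`, b = `y 2`; `l = 0`: a = `y 1`, b = `y 2`, `tm = 2 b - a`, step `2`. So `Φ a`
satisfies `PP q (ρ/2) τ ε' (off i * N)` (`‖z^(2h) - 1‖ ≤ 2 ‖z^h - 1‖`). `card Z ≤ 3 κ (n-1)`. -/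
def T_PWC : Prop := ∀ (m n : ℕ) (κ : ℕ → ℕ) (Pi : (Fin 3 → ℕ) → Fin 5 → ℝ)
  (s : Fin 3 → ℕ → Circle), 1 ≤ m → 1 ≤ n → Monotone κ → Spec n Pi → Good κ s → IndAt s →
  ∀ (l : Fin 3) (q : ℕ) (ρ : ℝ) (τ : Finset Circle), 1 ≤ q → 0 < ρ →
  (∀ z ∈ τ, z ≠ 1 ∧ ∃ j, s l j = z) → ∀ ε : ℝ, 0 < ε → ∃ N₀ : ℕ, ∀ N ≥ N₀,
  ∀ (φ : ℕ → ℝ) (ε' : ℝ), 0 ≤ ε' → PP q ρ τ ε' 0 φ →
    avg3 N (fun y => Wf m n κ Pi s y * φ (tm l y))
      ≤ avg3 N (fun y => Wl m n κ l (s l) y * φ (tm l y))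
        + CC m (3 * κ (n - 1)) * (ε' + ε)

/-! ## C. Measurability and measure theory -/

open Classical in
/-- LDR. Products over the set of values as products over the indices. PROOF. The first indices
(`e i` minimal among the indices with the same value) are in bijection with the values
(`Finset.prod_bij` or `Finset.prod_nbij`; `Finset.prod_ite_one`/`prod_filter`). -/
def T_LDR : Prop := ∀ (ι : Type) [DecidableEq ι] (I : Finset ι) (v : ι → Circle) (e : ι → ℕ)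
  (F : Circle → ℝ), Function.Injective e →
  ∏ z ∈ (I.image v).erase 1, F z
    = ∏ i ∈ I, (if v i ≠ 1 ∧ ∀ i' ∈ I, e i' < e i → v i' ≠ v i then F (v i) else 1)

/-- REP. The weight is a finite sum of products of functions of the three variables. PROOF. LDR with
`I = univ ×ˢ range K`, `K = κ (n-1)`, `e p = 3 p.2 + p.1`; each factor is `∑_{(t, τ)} P τ * ∏_r
(..)`, where `P = (2m)⁻¹ Pi(levels)` if `i` is a first index, else ` (2m)⁻¹` times the indicator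
of type `4`, and the factors `kf m r t (v i ^ y r)` if `act τ r`, else `1` (for a non-first index
`Σ = 1`). Expand with `Finset.prod_univ_sum` / `Finset.prod_sum`. The weights go into the factor
`r = 0`. Measurable in `s`: finitely many coordinates, `{s | s l j = s l' j'}` is measurable,
`lev` of a coordinate is measurable (finite sum of indicators), `kk` is measurable (FSP.p_KKB). -/
def T_REP : Prop := ∀ (m n : ℕ) (κ : ℕ → ℕ) (Pi : (Fin 3 → ℕ) → Fin 5 → ℝ), 1 ≤ m → Spec n Pi →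
  ∃ (k : ℕ) (A : Fin k → Fin 3 → (Fin 3 → ℕ → Circle) → ℕ → ℝ) (C : ℝ),
    (∀ i r y, Measurable fun s => A i r s y) ∧ (∀ i r s y, |A i r s y| ≤ C) ∧
    ∀ s y, Wf m n κ Pi s y = ∑ i, ∏ r, A i r s (y r)

/-- WBD. Bounds and measurability of the weights. PROOF. `0 ≤ DD ≤ m^3` (LAU), at most `3 K`
factors, `m^3 ≥ 1`; `0 ≤ (1 - e) kap + e ≤ m^2`. Measurable: REP; for `Wl` LDR with `I = range K`,
`e = id`. `card (Zs K s) ≤ 3 K`, `card (Zl K s) ≤ K`. -/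
def T_WBD : Prop := ∀ (m n : ℕ) (κ : ℕ → ℕ) (Pi : (Fin 3 → ℕ) → Fin 5 → ℝ), 1 ≤ m → Spec n Pi →
  (∀ s y, 0 ≤ Wf m n κ Pi s y ∧ Wf m n κ Pi s y ≤ BB m (κ (n - 1))) ∧
  (∀ y, Measurable fun s => Wf m n κ Pi s y) ∧
  (∀ l s y, 0 ≤ Wl m n κ l s y ∧ Wl m n κ l s y ≤ BB m (κ (n - 1))) ∧
  ∀ l y, Measurable fun s => Wl m n κ l s y

/-- THR. Thresholds. PROOF. Choose `κ (a+1) ≥ κ a` recursively: for each pair `l, l'` and `j < κ a`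
the sets `{x | ∃ i < K, θ l' i x = θ l j x}` increase with `K` to `{x | ∃ i, ..}`; choose `K` such
that the sum of the measures of the differences over all `l, l', j < κ a` is `≤ δ 2^(-a-1)`. `G` is
the complement of the union of all differences. -/
def T_THR : Prop := ∀ (Ω : Type u) [MeasurableSpace Ω] (μ : Measure Ω) [IsProbabilityMeasure μ]
  (θ : Fin 3 → ℕ → Ω → Circle), (∀ l j, Measurable (θ l j)) → ∀ (κ₀ : ℕ) (δ : ℝ), 0 < δ →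
  ∃ κ : ℕ → ℕ, Monotone κ ∧ κ 0 = κ₀ ∧ ∃ G : Set Ω, MeasurableSet G ∧ μ.real Gᶜ ≤ δ ∧
    ∀ x ∈ G, Good κ (sv θ x)

/-- ORN. Orthogonality to the generalised eigenfunctions for a countable list. PROOF. For every `k`
let `Y_k = {x | ∃ n ≥ 1, ∃ a : Fin k → ℤ, lam x ^ n = ∏_{j<k} θ j x ^ a j}` (measurable,
`T`-invariant exactly, increasing: extend `a` by `0`), `v_k = v 1_{Y_{k+1} \ Y_k}` (and `v
1_{Y_0}`). Each is a generalised eigenfunction with the same `lam` which satisfies `Rel` for the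
first `k + 1` functions and `Λ = {1}`; `OrtAP` for `FF θ` implies `OrtAP` for the subset `freq
(first k+1) {1}` (`AP` is monotone in the set of frequencies). So FSP.p_ORT (with `Z = univ`)
gives `∫ g v_k = 0`, and `∫ g v = ∑_k ∫ g v_k` (dominated convergence, `|g v| ≤ |v|` integrable
as `|v| ≤ 1 + |v|^2`; `v = 0` a.e. off `⋃ Y_k`). -/
def T_ORN : Prop := ∀ (Ω : Type u) [MeasurableSpace Ω] (μ : Measure Ω) [IsProbabilityMeasure μ]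
  (T : Ω → Ω), MeasurePreserving T μ μ → ∀ (θ : ℕ → Ω → Circle), (∀ j, Measurable (θ j)) →
  (∀ j x, θ j (T x) = θ j x) → ∀ g : Ω → ℝ, Measurable g → (∀ x, |g x| ≤ 1) →
  OrtAP μ T (FF θ) Set.univ g → ∀ (v : Ω → ℂ) (lam : Ω → Circle), Measurable v → Measurable lam →
  (∀ x, lam (T x) = lam x) → (∀ᵐ x ∂μ, v (T x) = (lam x : ℂ) * v x) →
  (∀ᵐ x ∂μ, v x ≠ 0 → RelN θ lam x) → Integrable (fun x => ‖v x‖ ^ 2) μ →
  ∫ x, (g x : ℂ) * v x ∂μ = 0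

/-- SPE. `InF` is a closed subspace stable under clipping. PROOF. As FSP.p_SPC (copy it), for
functions `p` which satisfy `AP` for every error: sums (`ε'/2` each, `q = q₁ q₂`,
`ρ = min (ρ₁/q₂) (ρ₂/q₁)`, the two lists together), multiples (`ε' / (|a| + 1)`), zero, limits,
clipping (1-Lipschitz). Last: constants. -/
def T_SPE : Prop := ∀ (Ω : Type u) [MeasurableSpace Ω] (μ : Measure Ω) [IsProbabilityMeasure μ]
  (T : Ω → Ω) (F : Set (Ω → Circle)),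
  (∀ h h' : Lp ℝ 2 μ, InF μ T F h → InF μ T F h' → InF μ T F (h + h')) ∧
  (∀ (a : ℝ) (h : Lp ℝ 2 μ), InF μ T F h → InF μ T F (a • h)) ∧ InF μ T F 0 ∧
  (∀ h : Lp ℝ 2 μ, (∀ ε : ℝ, 0 < ε → ∃ h', InF μ T F h' ∧ ‖h - h'‖ ≤ ε) → InF μ T F h) ∧
  (∀ h h' : Lp ℝ 2 μ, InF μ T F h → (h' =ᵐ[μ] fun x => max 0 (min (h x) 1)) → InF μ T F h') ∧
  ∀ h : Lp ℝ 2 μ, (h =ᵐ[μ] fun _ => (1 : ℝ)) → InF μ T F h

/-- DCP. The decomposition `1_A = c + g` with `c > 0` a.e. on `A`. PROOF. As FSP.p_DEC (copy it),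
with `K = {h | InF μ T F h}` (SPE: closed submodule stable under clipping) and FSP.p_PRO for
`f = 1_A`; `c` a measurable representative with values in `[0,1]`, `g = 1_A - c`. The approximants:
`p` from `InF`, clipped to `[0,1]` (`AP` for every error is kept, 1-Lipschitz), `L¹ ≤ L²`. `OrtAP`:
a bounded `v` with `AP` for every error is in `K`. Positivity: clip of `k • c` is in `K` for all
`k : ℕ`, it tends in `L²` to `1_{c > 0}`, which is therefore in `K`; `1 ∈ K`; so `1_{c = 0} ∈ K` and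
`0 = ⟪1_A - c, 1_{c=0}⟫ = μ (A ∩ {c = 0})`. -/
def T_DCP : Prop := ∀ (Ω : Type u) [MeasurableSpace Ω] (μ : Measure Ω) [IsProbabilityMeasure μ]
  (T : Ω → Ω), MeasurePreserving T μ μ → ∀ (F : Set (Ω → Circle)),
  (∀ φ ∈ F, Measurable φ ∧ ∀ x, φ (T x) = φ x) → ∀ A : Set Ω, MeasurableSet A →
  ∃ c g : Ω → ℝ, Measurable c ∧ Measurable g ∧ (∀ x, 0 ≤ c x) ∧ (∀ x, c x ≤ 1) ∧
    (∀ x, |g x| ≤ 1) ∧ (∀ x, one A x = c x + g x) ∧
    (∀ ε : ℝ, 0 < ε → ∃ p : Ω → ℝ, Measurable p ∧ (∀ x, 0 ≤ p x) ∧ (∀ x, p x ≤ 1) ∧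
      ∫ x, |c x - p x| ∂μ ≤ ε ∧ ∀ ε' : ℝ, 0 < ε' → AP μ T F ε' p) ∧
    OrtAP μ T F Set.univ g ∧ ∀ᵐ x ∂μ, x ∈ A → 0 < c x

/-- COM. PROOF. DCP for `F = FF θ`, then `RWM μ Q g` by FSP.f_RWM: for a generalised eigenfunction
`v`, `Gen` gives `RelN` a.e. where `v ≠ 0` and ORN gives `∫ g v = 0`. -/
def T_COM : Prop := ∀ (Ω : Type u) [MeasurableSpace Ω] (μ : Measure Ω) [IsProbabilityMeasure μ]
  (Q : Ω → Ω), MeasurePreserving Q μ μ → ∀ (θ : ℕ → Ω → Circle), (∀ j, Measurable (θ j)) →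
  (∀ j x, θ j (Q x) = θ j x) → Gen μ Q θ → ∀ A : Set Ω, MeasurableSet A →
  ∃ c g : Ω → ℝ, Measurable c ∧ Measurable g ∧ (∀ x, 0 ≤ c x) ∧ (∀ x, c x ≤ 1) ∧
    (∀ x, |g x| ≤ 1) ∧ (∀ x, one A x = c x + g x) ∧ APL μ Q θ c ∧ RWM μ Q g ∧
    ∀ᵐ x ∂μ, x ∈ A → 0 < c x

/-- APX. PROOF. `AP` gives `q, ρ, d, τ`, `τ l ∈ FF θ`; let `K` be larger than the indices of the
`τ l` in the range of `θ` (the constant `1` gives no condition). For a.e. `x`: for all `t, h` the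
property of `AP` for `n = h` holds at the point `Q^[t] x` (`Q^[t]` is measure preserving,
`ae_all_iff`), and the Bohr condition is invariant. -/
def T_APX : Prop := ∀ (Ω : Type u) [MeasurableSpace Ω] (μ : Measure Ω) [IsProbabilityMeasure μ]
  (Q : Ω → Ω), MeasurePreserving Q μ μ → ∀ (θ : ℕ → Ω → Circle), (∀ j, Measurable (θ j)) →
  (∀ j x, θ j (Q x) = θ j x) → ∀ (ε : ℝ) (p : Ω → ℝ), AP μ Q (FF θ) ε p → APP μ Q θ ε p

/-- LSU. PROOF. `h N = max (f N - g) 0` on `G` is bounded by `B + |g|` and tends to `0` a.e. on `G`;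
dominated convergence for the restricted measure; `f N ≤ g + h N`. -/
def T_LSU : Prop := ∀ (Ω : Type u) [MeasurableSpace Ω] (μ : Measure Ω) [IsProbabilityMeasure μ]
  (f : ℕ → Ω → ℝ) (B : ℝ) (g : Ω → ℝ) (G : Set Ω), (∀ N, Measurable (f N)) →
  (∀ N x, |f N x| ≤ B) → Integrable g μ → MeasurableSet G →
  (∀ᵐ x ∂μ, x ∈ G → ∀ ε : ℝ, 0 < ε → ∃ N₀ : ℕ, ∀ N ≥ N₀, f N x ≤ g x + ε) →
  ∀ ε : ℝ, 0 < ε → ∃ N₀ : ℕ, ∀ N ≥ N₀, ∫ x in G, f N x ∂μ ≤ ∫ x in G, g x ∂μ + ε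

/-- GVQ. The contribution of a relatively weakly mixing function, for arbitrary bounded arrays.
PROOF. (1) As FSP.p_GTH (copy it): the proof uses only that the weights are arrays bounded by `W`
(`block_ineq` pointwise); it gives the claim for `q = 1` for all `N = H L`, `L ≥ L₀`, uniformly in
`s, s'`, `u`, `v`; the hypotheses on the correlations are FSP.p_COR f_ERG for the first two options
and for `B = Q ∘ Q`, `P = Q` the same with ` (B^[h])` = `Q^[2h]` and ERG for `Q`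
(`κ h = gam μ Q g (2 h)`, MRec.sum_even_le). (2) General `q`: the mean over `i < N` of
`u i * G (q i)` is the mean over `i' < q N` of `q * u (i'/q) * 1{q ∣ i'} * G i'` (for windows
starting at `q s`); apply (1) with bound `q W`, `L' = q L`, for `qN = H (q L)`. -/
def T_GVQ : Prop := ∀ (Ω : Type u) [MeasurableSpace Ω] (μ : Measure Ω) [IsProbabilityMeasure μ]
  (Q Q' B P : Ω → Ω), MeasurePreserving Q μ μ → MeasurePreserving Q' μ μ → (∀ x, Q' (Q x) = x) →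
  (∀ x, Q (Q' x) = x) → ((B = Q ∧ P = Q) ∨ (B = Q ∘ Q ∧ P = Q') ∨ (B = Q ∘ Q ∧ P = Q)) →
  ∀ g : Ω → ℝ, Measurable g → (∀ x, |g x| ≤ 1) → RWM μ Q g → GV μ B P g

/-- `g` of role `l` does not contribute to the triple averages; `i, j` are the other variables. -/
def GT {Ω : Type u} [MeasurableSpace Ω] (μ : Measure Ω) (m n : ℕ) (κ : ℕ → ℕ)
    (Pi : (Fin 3 → ℕ) → Fin 5 → ℝ) (θ : Fin 3 → ℕ → Ω → Circle) (q : ℕ) (Q : Ω → Ω)
    (l i j : Fin 3) (g : Ω → ℝ) : Prop :=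
  ∀ ε : ℝ, 0 < ε → ∃ H : ℕ, 0 < H ∧ ∃ L₀ : ℕ, ∀ L ≥ L₀, ∀ u v : ℕ → ℕ → Ω → ℝ,
    (∀ a b, Measurable (u a b)) → (∀ a b, Measurable (v a b)) → (∀ a b x, |u a b x| ≤ 1) →
    (∀ a b x, |v a b x| ≤ 1) →
    ∫ x, |avg3 (H * L) fun y => Wf m n κ Pi (sv θ x) y *
      (u (y l) (y i) x * v (y l) (y j) x * g (Q^[q * tm l y] x))| ∂μ ≤ ε

/-- GTW. PROOF. REP: `Wf = ∑_k ∏_r A k r (y r)`. ORD with the order ` (l, j, i)`. For fixed `y l`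
and `k` the inner double mean is the double mean of `GV` for the arrays `A k i (sv θ x) (y i)
* u (y l) (y i) x` and `A k j (sv θ x) (y j) * v (y l) (y j) x`, bounded by `C` (shift the
windows: the arrays in `GV` are indexed by the actual time `i`, `j`), times `A k l (sv θ x) (y
l)`, bounded by `C`. In the windows `y 1 ≤ 2 * y 2`. `GV` with `ε / (k (C + 1))`. (`sv θ` is
measurable.) -/
def T_GTW : Prop := ∀ (Ω : Type u) [MeasurableSpace Ω] (μ : Measure Ω) [IsProbabilityMeasure μ]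
  (m n : ℕ) (κ : ℕ → ℕ) (Pi : (Fin 3 → ℕ) → Fin 5 → ℝ), 1 ≤ m → Spec n Pi →
  ∀ (θ : Fin 3 → ℕ → Ω → Circle), (∀ l j, Measurable (θ l j)) → ∀ (q : ℕ), 1 ≤ q →
  ∀ (Q B P : Ω → Ω), Measurable Q → Measurable B → Measurable P → ∀ (l i j : Fin 3),
  l ≠ i → l ≠ j → i ≠ j → ∀ g : Ω → ℝ, Measurable g → (∀ x, |g x| ≤ 1) →
  (∀ y : Fin 3 → ℕ, y 1 ≤ 2 * y 2 → ∀ x, Q^[q * tm l y] x = B^[q * y i] (P^[q * y j] x)) →
  GV μ B P g → GT μ m n κ Pi θ q Q l i j g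

/-- ERA. The error `E = |c - P|` at the moved point. PROOF. Let `η' > 0` be small (depending on
`BB`, `CC`, `ε`) and `P'` from `APL` for `η'`. `E ≤ |c - P'| + E'`, `E' = |P' - P|`. (1) `∫_G
avg3 W |c - P'|(Q^.. x) ≤ BB ∫ |c - P'| ≤ BB η'` (`0 ≤ W ≤ BB`, measure preservation; if `N =
0` all is `0`). (2) APP for `P` and for `P'` (APX) with error `η'/2`: `q₁, K₁, ρ₁`, `q₂, K₂,
ρ₂`. For a.e. `x`, `φ t = E' (Q^[q t] x)` satisfies `PP (q₁ q₂) ρ' τ η' 0`, where `τ` is the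
finite set of the values `θ l j x ≠ 1`, `j < max K₁ K₂`, and `ρ' = min (ρ₁/(q q₂)) (ρ₂/(q
q₁))`: `q (t + q₁ q₂ h) = q t + q₁ (q q₂ h)`, `‖z^(k h) - 1‖ ≤ k ‖z^h - 1‖`. PWC for `x ∈ G`
(with `ε' = η'`) and LSU (for the difference of the two sides and a constant `g`): `∫_G avg3 W
E'(Q^.. x) ≤ ∫_G avg3 Wl E'(Q^.. x) + CC (2 η') + ..`. (3) `∫_G avg3 Wl E'(Q^.. x) ≤ ∫ avg3 Wl
E'(Q^.. x) = ∫ (avg3 Wl) E'` (`Wl` of `sv θ x l` is invariant under `Q`: `θ l j (Q^[k] x) = θ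
l j x`; substitute, `Q^[k]` is measure preserving), and `avg3 Wl → 1` a.e. (PWA; LSU with `G =
univ`, `g = E'`): `≤ ∫ E' + η' ≤ η + 2 η'`. -/
def T_ERA : Prop := ∀ (Ω : Type u) [MeasurableSpace Ω] (μ : Measure Ω) [IsProbabilityMeasure μ]
  (m n : ℕ) (κ : ℕ → ℕ) (Pi : (Fin 3 → ℕ) → Fin 5 → ℝ), 1 ≤ m → 1 ≤ n → Monotone κ →
  Spec n Pi → ∀ (θ : Fin 3 → ℕ → Ω → Circle), (∀ l j, Measurable (θ l j)) →
  (∀ᵐ x ∂μ, IndAt (sv θ x)) → ∀ (G : Set Ω), MeasurableSet G → (∀ x ∈ G, Good κ (sv θ x)) →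
  ∀ (l : Fin 3) (Q : Ω → Ω), MeasurePreserving Q μ μ → (∀ j x, θ l j (Q x) = θ l j x) →
  ∀ c : Ω → ℝ, Measurable c → (∀ x, 0 ≤ c x) → (∀ x, c x ≤ 1) → APL μ Q (θ l) c →
  ∀ q : ℕ, 1 ≤ q → ∀ (P : Ω → ℝ), Measurable P → (∀ x, 0 ≤ P x) → (∀ x, P x ≤ 1) →
  (∀ ε' : ℝ, 0 < ε' → APP μ Q (θ l) ε' P) →
  ∀ η : ℝ, 0 < η → ∫ x, |c x - P x| ∂μ ≤ η → ∀ ε : ℝ, 0 < ε → ∃ N₀ : ℕ, ∀ N ≥ N₀,
    ∫ x in G, avg3 N (fun y => Wf m n κ Pi (sv θ x) y *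
      |c (Q^[q * tm l y] x) - P (Q^[q * tm l y] x)|) ∂μ ≤ η + ε

/-- ERB. The error at the point `x` and the variation of `P`. PROOF. First: for a.e. `x`, `avg3 W →
1` (PWA), LSU with `g = |c - P|`, `∫_G g ≤ η`. Second: `hP` (for a.e. `x`, all `t`) gives
`|P(Q^[q t] x) - P x| ≤ η + ∑_{j < κ 0} 1{ρ < ‖(θ l j x)^t - 1‖}` (`|P - P| ≤ 1`); multiply by `W
≥ 0` and average: PWA and PWB: the limsup is at most `η + κ 0 (72/(m ρ^2) + (1/2)^n) ≤ 2 η`; LSU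
with the constant `g = 2 η`, `μ G ≤ 1`. -/
def T_ERB : Prop := ∀ (Ω : Type u) [MeasurableSpace Ω] (μ : Measure Ω) [IsProbabilityMeasure μ]
  (m n : ℕ) (κ : ℕ → ℕ) (Pi : (Fin 3 → ℕ) → Fin 5 → ℝ), 1 ≤ m → 1 ≤ n → Monotone κ →
  Spec n Pi → ∀ (θ : Fin 3 → ℕ → Ω → Circle), (∀ l j, Measurable (θ l j)) →
  (∀ᵐ x ∂μ, IndAt (sv θ x)) → ∀ (G : Set Ω), MeasurableSet G → (∀ x ∈ G, Good κ (sv θ x)) →
  ∀ (l : Fin 3) (Q : Ω → Ω), MeasurePreserving Q μ μ →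
  ∀ c P : Ω → ℝ, Measurable c → (∀ x, 0 ≤ c x) → (∀ x, c x ≤ 1) → Measurable P →
  (∀ x, 0 ≤ P x) → (∀ x, P x ≤ 1) → ∀ η : ℝ, 0 < η → ∫ x, |c x - P x| ∂μ ≤ η →
  ∀ (q : ℕ) (ρ : ℝ), 1 ≤ q → 0 < ρ →
  (∀ᵐ x ∂μ, ∀ t : ℕ, (∀ j < κ 0, ‖(θ l j x : ℂ) ^ t - 1‖ ≤ ρ) →
    |P (Q^[q * t] x) - P x| ≤ η) →
  (κ 0 : ℝ) * (72 / (m * ρ ^ 2) + (1 / 2 : ℝ) ^ n) ≤ η → ∀ ε : ℝ, 0 < ε → ∃ N₀ : ℕ, ∀ N ≥ N₀,
    ∫ x in G, avg3 N (fun y => Wf m n κ Pi (sv θ x) y * |c x - P x|) ∂μ ≤ η + ε ∧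
    ∫ x in G, avg3 N (fun y => Wf m n κ Pi (sv θ x) y * |P (Q^[q * tm l y] x) - P x|) ∂μ
      ≤ 2 * η + ε

/-- ERR. PROOF. `|c(Q^.. x) - c x| ≤ |c - P|(Q^.. x) + |P(Q^.. x) - P x| + |c x - P x|`, `W ≥ 0`,
linearity and monotonicity of `avg3` and of the integral (all functions are measurable, bounded);
ERA and ERB with `ε/3`. -/
def T_ERR : Prop := ∀ (Ω : Type u) [MeasurableSpace Ω] (μ : Measure Ω) [IsProbabilityMeasure μ]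
  (m n : ℕ) (κ : ℕ → ℕ) (Pi : (Fin 3 → ℕ) → Fin 5 → ℝ), 1 ≤ m → 1 ≤ n → Monotone κ →
  Spec n Pi → ∀ (θ : Fin 3 → ℕ → Ω → Circle), (∀ l j, Measurable (θ l j)) →
  (∀ᵐ x ∂μ, IndAt (sv θ x)) → ∀ (G : Set Ω), MeasurableSet G → (∀ x ∈ G, Good κ (sv θ x)) →
  ∀ (l : Fin 3) (Q : Ω → Ω), MeasurePreserving Q μ μ → (∀ j x, θ l j (Q x) = θ l j x) →
  ∀ c : Ω → ℝ, Measurable c → (∀ x, 0 ≤ c x) → (∀ x, c x ≤ 1) → APL μ Q (θ l) c →
  ∀ q : ℕ, 1 ≤ q → ∀ (P : Ω → ℝ), Measurable P → (∀ x, 0 ≤ P x) → (∀ x, P x ≤ 1) →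
  (∀ ε' : ℝ, 0 < ε' → APP μ Q (θ l) ε' P) →
  ∀ η : ℝ, 0 < η → ∫ x, |c x - P x| ∂μ ≤ η → ∀ ρ : ℝ, 0 < ρ →
  (∀ᵐ x ∂μ, ∀ t : ℕ, (∀ j < κ 0, ‖(θ l j x : ℂ) ^ t - 1‖ ≤ ρ) →
    |P (Q^[q * t] x) - P x| ≤ η) →
  (κ 0 : ℝ) * (72 / (m * ρ ^ 2) + (1 / 2 : ℝ) ^ n) ≤ η → ∀ ε : ℝ, 0 < ε → ∃ N₀ : ℕ, ∀ N ≥ N₀,
    ∫ x in G, avg3 N (fun y => Wf m n κ Pi (sv θ x) y * |c (Q^[q * tm l y] x) - c x|) ∂μ
      ≤ 4 * η + ε

/-- MAI. The main lower bound. PROOF. Let `G = X`. Suppose the conclusion fails. With `f l y x = one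
A (Q l ^[q tm l y] x)`: for all `y` in the windows `one A x * f 0 * f 1 * f 2 = 0` a.e., and `X ⊆
A`, so `0 = ∫_X avg3 W f 2 f 0 f 1`. Write `f l = c l (..) + g l (..)`: `f2 f0 f1 = g2 f0 f1 + c2
g0 f1 + c2 c0 g1 + c2 c0 c1` (arguments moved). The first three contribute at most `ε` each in
absolute value, `N = H L` with `H = H₀ H₁ H₂` (`GT 2 0 1`, `GT 0 2 1`, `GT 1 0 2`; the factors
depend on ` (y l, y i)` and ` (y l, y j)` only; `|∫_X ..| ≤ ∫ |..|`). On `X`: `c2 c0 c1 ≥ (γ/2)^3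
(1 - ∑_l 1{c l (moved) < γ/2}) ≥ (γ/2)^3 (1 - (2/γ) ∑_l |c l (moved) - c l x|)`. So `∫_X avg3 W
c2 c0 c1 ≥ (γ/2)^3 (∫_X avg3 W - (2/γ) 3 (4 η + ε))`, and `∫_X avg3 W → μ X` (PWA and LSU for
`-avg3 W`). With `48 η ≤ γ μ X`: `(2/γ) 12 η ≤ μ X / 2`. -/
def T_MAI : Prop := ∀ (Ω : Type u) [MeasurableSpace Ω] (μ : Measure Ω) [IsProbabilityMeasure μ]
  (m n : ℕ) (κ : ℕ → ℕ) (Pi : (Fin 3 → ℕ) → Fin 5 → ℝ), 1 ≤ m → Spec n Pi →
  ∀ (θ : Fin 3 → ℕ → Ω → Circle), (∀ l j, Measurable (θ l j)) → (∀ᵐ x ∂μ, IndAt (sv θ x)) →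
  ∀ (Q : Fin 3 → Ω → Ω), (∀ l, Measurable (Q l)) → ∀ A X : Set Ω, MeasurableSet A →
  MeasurableSet X → X ⊆ A → ∀ c g : Fin 3 → Ω → ℝ, (∀ l, Measurable (c l)) →
  (∀ l, Measurable (g l)) → (∀ l x, 0 ≤ c l x) → (∀ l x, c l x ≤ 1) → (∀ l x, |g l x| ≤ 1) →
  (∀ l x, one A x = c l x + g l x) → ∀ (γ η : ℝ), 0 < γ → 0 < η → (∀ x ∈ X, ∀ l, γ ≤ c l x) →
  0 < μ.real X → 48 * η ≤ γ * μ.real X → ∀ q : ℕ, 1 ≤ q →
  (∀ l, ∀ ε : ℝ, 0 < ε → ∃ N₀ : ℕ, ∀ N ≥ N₀, ∫ x in X, avg3 N (fun y =>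
    Wf m n κ Pi (sv θ x) y * |c l ((Q l)^[q * tm l y] x) - c l x|) ∂μ ≤ 4 * η + ε) →
  GT μ m n κ Pi θ q (Q 2) 2 0 1 (g 2) → GT μ m n κ Pi θ q (Q 0) 0 2 1 (g 0) →
  GT μ m n κ Pi θ q (Q 1) 1 0 2 (g 1) →
  ∃ N : ℕ, 1 ≤ N ∧ ∃ y : Fin 3 → ℕ, (N ≤ y 0 ∧ y 0 < 2 * N) ∧ y 1 < N ∧
    (3 * N ≤ y 2 ∧ y 2 < 4 * N) ∧ μ (A ∩ {x | ∀ l, (Q l)^[q * tm l y] x ∈ A}) ≠ 0

/-- FIN. The theorem, roles `0, 1, 2` = `R, S, T`. PROOF. COM for the three maps: `c l, g l`. For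
some `γ > 0` the set `A₀ = {x ∈ A | ∀ l, γ ≤ c l x}` has `μ.real A₀ = δ₀ > 0`. `η = γ δ₀ / 200`;
`APL` gives `P l`; APX with error `η`: `q l, K l, ρ l` (`t = 0`: `APP` at the point `x`);
`q = q 0 q 1 q 2`, `ρ = min_l (ρ l / q)`, `κ₀ = max K l`: `|P l (Q^[q t] x) - P l x| ≤ η` if
`‖(θ l j x)^t - 1‖ ≤ ρ` for `j < κ₀` (`q t = q_l ((q/q_l) t)`). Choose `n ≥ 1` with
`κ₀ (1/2)^n ≤ η/2`, THR with `δ = δ₀/2`: `κ`, `G`; `m` with `κ₀ 72/(m ρ^2) ≤ η/2`; PIV: `Pi`;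
`X = A₀ ∩ G`, `μ.real X ≥ δ₀/2`, `48 η ≤ γ δ₀/2`. ERR for `G = X` and GTW (GVQ for
` (B, P) = (T ∘ T, T)`, `(R ∘ R, R.symm)`, `(S, S)`; the identities for the iterates as in
Results/MP_cfac66_an/FiniteRank.lean), MAI. With `y` from MAI: `m' = q tm 2 y`,
`n' = q (tm 1 y - tm 2 y)`, `m' + n' = q tm 1 y`, `m' + 2 n' = q tm 0 y`. -/
def T_FIN : Prop := ∀ (Ω : Type u) [MeasurableSpace Ω] (μ : Measure Ω) [IsProbabilityMeasure μ]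
  (T S R : Ω ≃ᵐ Ω), MeasurePreserving T μ μ → MeasurePreserving S μ μ →
  MeasurePreserving R μ μ → ∀ (θ : Fin 3 → ℕ → Ω → Circle), (∀ l j, Measurable (θ l j)) →
  (∀ j x, θ 0 j (R x) = θ 0 j x) → (∀ j x, θ 1 j (S x) = θ 1 j x) →
  (∀ j x, θ 2 j (T x) = θ 2 j x) → Gen μ R (θ 0) → Gen μ S (θ 1) → Gen μ T (θ 2) →
  (∀ᵐ x ∂μ, IndAt (sv θ x)) → ∀ A : Set Ω, MeasurableSet A → μ A ≠ 0 →
  ∃ m n : ℕ, 1 ≤ m ∧ 1 ≤ n ∧
    μ (A ∩ (⇑T)^[m] ⁻¹' A ∩ (⇑S)^[m + n] ⁻¹' A ∩ (⇑R)^[m + 2 * n] ⁻¹' A) ≠ 0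

end Pool.Agent.Ind3
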